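import Pool.Agent.Work.MP_d7201b_al_helper73.World

/-!
# Putting certificates together
-/

set_option autoImplicit false

namespace Pool.Agent.Work.MP_d7201b_al.L3

section

variable {V : Type} [VOps V] {D : Dat V} {C : Cert V}

theorem rwsOK_of (h1 : VOps.okb C.R = true)
    (h2 : VOps.beq (VOps.mask C.R (C.rows.length * C.N)) C.R = true)
    (h3 : C.rows.all (rowC C.tg.c) = true) (h4 : rowsOK D C.tg C.R C.N 0 C.rows = true) :
    rwsOK D C = true := by
  unfold rwsOK
  rw [h1, h2, h3, h4]
  rfl

theorem rowsOK_app {tg : Tgt} {R : V} {N n : ℕ} {l₁ : List Row} (hn : Nat.beq l₁.length n = true)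
    (h1 : rowsOK D tg R N 0 l₁ = true) {l₂ : List Row} (h2 : rowsOK D tg R N n l₂ = true) :
    rowsOK D tg R N 0 (l₁ ++ l₂) = true := by
  have key : ∀ (l : List Row) (k : ℕ), rowsOK D tg R N k l = true →
      rowsOK D tg R N (k + l.length) l₂ = true → rowsOK D tg R N k (l ++ l₂) = true := by
    intro l
    induction l with
    | nil => intro k _ h; exact h
    | cons r l ih =>
      intro k h h'
      rw [List.cons_append]
      unfold rowsOK at h ⊢
      rw [Bool.and_eq_true] at h ⊢
      refine ⟨h.1, ih (Nat.succ k) h.2 ?_⟩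
      rw [List.length_cons] at h'
      rw [show Nat.succ k + l.length = k + (l.length + 1) by omega]
      exact h'
  apply key l₁ 0 h1
  rw [Nat.zero_add, Nat.eq_of_beq_eq_true hn]
  exact h2

theorem certOK_of (h1 : tgtOK D C = true) (h2 : bwOK D C = true) (h3 : rwsOK D C = true)
    (h4 : tabOK D C .z = true) (h5 : tabOK D C .y = true) (h6 : tabOK D C .m = true) :
    certOK D C = true := by
  unfold certOK
  rw [h1, h2, h3, h4, h5, h6]
  rfl

end

end Pool.Agent.Work.MP_d7201b_al.L3
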