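import Pool.Agent.Work.MP_d7201b_al_helper73.D3
import Pool.Agent.Work.MP_d7201b_al_helper73.Lib

/-!
# Content (0, 2, 0), `p = 3`
-/

set_option autoImplicit false
set_option maxRecDepth 100000

namespace Pool.Agent.Work.MP_d7201b_al.L3

/-- The content. -/
def tg3_020 : Tgt where
  c := (0, 2, 0)
  dm t := match t with | .z => 0 | .y => 4 | .m => 0
  off t e := match t with
    | .z => match e with | 0 => 0 | 1 => 0 | 2 => 0 | _ => 0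
    | .y => match e with | 0 => 12 | 1 => 8 | 2 => 4 | _ => 0
    | .m => match e with | 0 => 0 | 1 => 0 | 2 => 0 | _ => 0

/-- Rows. -/
def rw3_020_0 : List Row := [.lie [(.y, 0)] (.y, 3),
  .lie [(.y, 1)] (.y, 3),
  .lie [(.y, 2)] (.y, 3),
  .lie [(.y, 3)] (.y, 3),
  .lie [(.y, 0)] (.y, 2),
  .lie [(.y, 1)] (.y, 2),
  .lie [(.y, 2)] (.y, 2),
  .lie [(.y, 0)] (.y, 1),
  .lie [(.y, 1)] (.y, 1),
  .lie [(.y, 0)] (.y, 0),
  .pq 1 (.y, 0) [[(.y, 0)]],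
  .pq 1 (.y, 0) [[(.y, 2)]],
  .pq 1 (.y, 1) [[(.y, 0)]]]

/-- The certificate. -/
def c3_020 : Cert V3 where
  tg := tg3_020
  pre := [[(.y, 0), (.y, 3)],
    [(.y, 1), (.y, 3)],
    [(.y, 2), (.y, 3)],
    [(.y, 3), (.y, 3)],
    [(.y, 0), (.y, 2)],
    [(.y, 1), (.y, 2)],
    [(.y, 2), (.y, 2)],
    [(.y, 3), (.y, 2)],
    [(.y, 0), (.y, 1)],
    [(.y, 1), (.y, 1)],
    [(.y, 2), (.y, 1)],
    [(.y, 3), (.y, 1)],
    [(.y, 0), (.y, 0)],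
    [(.y, 1), (.y, 0)],
    [(.y, 2), (.y, 0)],
    [(.y, 3), (.y, 0)]]
  piv := [13, 14, 15]
  R := ⟨0x44c22b8022a0000000021000000042040100000008408028001, 0x2221910011111000020000000040000000000008000000000000⟩
  N := 16
  rows := rw3_020_0
  kap t e := match t, e with
    | .y, 0 => [⟨0x0, 0x200⟩, ⟨0x0, 0x0⟩, ⟨0x0, 0x0⟩, ⟨0x0, 0x0⟩]
    | .y, 1 => [⟨0x80, 0x0⟩, ⟨0x0, 0x100⟩, ⟨0x18c1, 0x21c⟩, ⟨0xa7, 0x1f40⟩]
    | .y, 2 => [⟨0x10, 0x0⟩, ⟨0x23c, 0x18c1⟩, ⟨0x0, 0x40⟩, ⟨0x1351, 0x8a4⟩]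
    | .y, 3 => [⟨0x1, 0x0⟩, ⟨0x1f40, 0xa5⟩, ⟨0x8a0, 0x1355⟩, ⟨0x0, 0x8⟩]
    | _, _ => []

theorem rok3_020_0 : rowsOK D3 tg3_020 c3_020.R c3_020.N 0 rw3_020_0 = true := by decide +kernel

theorem rws3_020 : rwsOK D3 c3_020 = true := by
  refine rwsOK_of (by decide +kernel) (by decide +kernel) (by decide +kernel) ?_
  exact rok3_020_0

theorem cok3_020 : certOK D3 c3_020 = true :=
  certOK_of (by decide +kernel) (by decide +kernel) rws3_020 (by decide +kernel)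
    (by decide +kernel) (by decide +kernel)

theorem all3_020 : c3_020.rows.all okRow3 = true := by decide +kernel

end Pool.Agent.Work.MP_d7201b_al.L3
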