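import Pool.Agent.Work.MP_d7201b_al_helper73.D3
import Pool.Agent.Work.MP_d7201b_al_helper73.Lib

/-!
# Content (0, 2, 1), `p = 3`
-/

set_option autoImplicit false
set_option maxRecDepth 100000

namespace Pool.Agent.Work.MP_d7201b_al.L3

/-- The content. -/
def tg3_021 : Tgt where
  c := (0, 2, 1)
  dm t := match t with | .z => 0 | .y => 8 | .m => 3
  off t e := match t with
    | .z => match e with | 0 => 0 | 1 => 0 | 2 => 0 | _ => 0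
    | .y => match e with | 0 => 36 | 1 => 25 | 2 => 14 | _ => 3
    | .m => match e with | 0 => 33 | 1 => 22 | 2 => 11 | _ => 0

/-- Rows. -/
def rw3_021_0 : List Row := [.lie [(.y, 1), (.y, 0)] (.m, 3),
  .lie [(.y, 2), (.y, 0)] (.m, 3),
  .lie [(.y, 3), (.y, 0)] (.m, 3),
  .lie [(.m, 2), (.y, 1)] (.y, 3),
  .lie [(.y, 1), (.m, 0)] (.y, 3),
  .lie [(.y, 2), (.m, 0)] (.y, 3),
  .lie [(.m, 0), (.y, 0)] (.y, 3),
  .lie [(.m, 1), (.y, 0)] (.y, 3),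
  .lie [(.m, 2), (.y, 0)] (.y, 3),
  .lie [(.y, 1), (.y, 0)] (.m, 2),
  .lie [(.y, 2), (.y, 0)] (.m, 2),
  .lie [(.m, 2), (.y, 1)] (.y, 2),
  .lie [(.y, 1), (.m, 0)] (.y, 2),
  .lie [(.m, 0), (.y, 0)] (.y, 2),
  .lie [(.m, 1), (.y, 0)] (.y, 2),
  .lie [(.y, 1), (.y, 0)] (.m, 1),
  .lie [(.m, 0), (.y, 0)] (.y, 1),
  .pq 1 (.y, 0) [[(.m, 0), (.y, 0)]],
  .pq 1 (.y, 0) [[(.m, 1), (.y, 0)]],
  .pq 1 (.y, 0) [[(.m, 2), (.y, 0)]],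
  .pq 1 (.y, 0) [[(.m, 3), (.y, 0)]],
  .pq 1 (.y, 0) [[(.m, 0), (.y, 1)]],
  .pq 1 (.y, 0) [[(.m, 1), (.y, 1)]],
  .pq 1 (.y, 0) [[(.m, 2), (.y, 1)]],
  .pq 1 (.y, 0) [[(.m, 0), (.y, 2)]],
  .pq 1 (.y, 1) [[(.m, 0), (.y, 0)]],
  .pq 1 (.y, 0) [[(.y, 0)], [(.m, 0)]],
  .pq 1 (.y, 0) [[(.y, 0)], [(.m, 1)]],
  .pq 1 (.y, 0) [[(.y, 0)], [(.m, 2)]],
  .pq 1 (.y, 1) [[(.y, 0)], [(.m, 0)]],
  .pq 1 (.y, 1) [[(.y, 0)], [(.m, 1)]],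
  .pq 1 (.m, 0) [[(.y, 0)], [(.y, 0)]],
  .pq 1 (.m, 1) [[(.y, 0)], [(.y, 0)]]]

/-- The certificate. -/
def c3_021 : Cert V3 where
  tg := tg3_021
  pre := [[(.y, 1), (.y, 0), (.m, 3)],
    [(.y, 2), (.y, 0), (.m, 3)],
    [(.y, 3), (.y, 0), (.m, 3)],
    [(.m, 2), (.y, 1), (.y, 3)],
    [(.y, 1), (.m, 0), (.y, 3)],
    [(.y, 2), (.m, 0), (.y, 3)],
    [(.y, 3), (.m, 0), (.y, 3)],
    [(.m, 0), (.y, 0), (.y, 3)],
    [(.m, 1), (.y, 0), (.y, 3)],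
    [(.m, 2), (.y, 0), (.y, 3)],
    [(.m, 3), (.y, 0), (.y, 3)],
    [(.y, 1), (.y, 0), (.m, 2)],
    [(.y, 2), (.y, 0), (.m, 2)],
    [(.y, 3), (.y, 0), (.m, 2)],
    [(.m, 2), (.y, 1), (.y, 2)],
    [(.y, 1), (.m, 0), (.y, 2)],
    [(.y, 2), (.m, 0), (.y, 2)],
    [(.y, 3), (.m, 0), (.y, 2)],
    [(.m, 0), (.y, 0), (.y, 2)],
    [(.m, 1), (.y, 0), (.y, 2)],
    [(.m, 2), (.y, 0), (.y, 2)],
    [(.m, 3), (.y, 0), (.y, 2)],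
    [(.y, 1), (.y, 0), (.m, 1)],
    [(.y, 2), (.y, 0), (.m, 1)],
    [(.y, 3), (.y, 0), (.m, 1)],
    [(.m, 2), (.y, 1), (.y, 1)],
    [(.y, 1), (.m, 0), (.y, 1)],
    [(.y, 2), (.m, 0), (.y, 1)],
    [(.y, 3), (.m, 0), (.y, 1)],
    [(.m, 0), (.y, 0), (.y, 1)],
    [(.m, 1), (.y, 0), (.y, 1)],
    [(.m, 2), (.y, 0), (.y, 1)],
    [(.m, 3), (.y, 0), (.y, 1)],
    [(.y, 1), (.y, 0), (.m, 0)],
    [(.y, 2), (.y, 0), (.m, 0)],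
    [(.y, 3), (.y, 0), (.m, 0)],
    [(.m, 2), (.y, 1), (.y, 0)],
    [(.y, 1), (.m, 0), (.y, 0)],
    [(.y, 2), (.m, 0), (.y, 0)],
    [(.y, 3), (.m, 0), (.y, 0)],
    [(.m, 0), (.y, 0), (.y, 0)],
    [(.m, 1), (.y, 0), (.y, 0)],
    [(.m, 2), (.y, 0), (.y, 0)],
    [(.m, 3), (.y, 0), (.y, 0)]]
  piv := [33, 34, 35, 36, 37, 38, 39, 40, 41, 42, 43]
  R := ⟨0x2009604c6801010602c580810949308000218443000200000020800000024040000009402800102180a054824a40260088108122400a90010a4404b010a300528c880009440480100200528c8800002400b9000094404c81020200000006a000400000440000800000400004000000400008000000be0048008000000100001000000800180000002001800000010008000000080008000000200080000001000030000808800000000048000000000280000000001, 0x100180040000f03400406a56a2cc0010001a241800400a4644000202c01c8000101222408000021a57886091080028002912900480017200210000890014204250801021004504002420404020280048009101021000500020000000081040000000230008000000040000000000208000000001000010005f00010000000080000000400000020002000100000000800000000004000200000021000000000080002000180000004001400020000012100000000⟩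
  N := 44
  rows := rw3_021_0
  kap t e := match t, e with
    | .y, 0 => [⟨0x0, 0x0⟩, ⟨0x0, 0x0⟩, ⟨0x0, 0x0⟩, ⟨0x0, 0x0⟩, ⟨0x0, 0x0⟩, ⟨0x0, 0x0⟩, ⟨0x0, 0x0⟩, ⟨0x0, 0x0⟩]
    | .y, 1 => [⟨0xf1288a02, 0x106420060⟩, ⟨0xd0e4f911, 0x210a0248⟩, ⟨0x71080612, 0x10622a861⟩, ⟨0x400251, 0x43c00⟩, ⟨0x10000, 0x0⟩, ⟨0x504a7818, 0xa5a18140⟩, ⟨0xaf03d131, 0x40204a⟩, ⟨0x250c9b00, 0x50c34459⟩]
    | .y, 2 => [⟨0x6b0018, 0x14842140⟩, ⟨0x71081612, 0x10622a861⟩, ⟨0x12e00620, 0x1cc001842⟩, ⟨0xa51c01, 0x1482252⟩, ⟨0x2000, 0x0⟩, ⟨0xa56a52, 0x1da020421⟩, ⟨0x1c4ce5911, 0x2921a248⟩, ⟨0x510c4700, 0x24c2985a⟩]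
    | .y, 3 => [⟨0x25049810, 0x50eb4441⟩, ⟨0x400241, 0x43c10⟩, ⟨0xa51c21, 0x1482252⟩, ⟨0xf20000, 0xc0040⟩, ⟨0x40, 0x0⟩, ⟨0x50066100, 0x25218418⟩, ⟨0x25008500, 0x50aa6218⟩, ⟨0x100040, 0x20000⟩]
    | .m, 0 => [⟨0x0, 0x0⟩, ⟨0x0, 0x0⟩, ⟨0x0, 0x0⟩]
    | .m, 1 => [⟨0x504a7818, 0xa5a10140⟩, ⟨0xa52a52, 0x1da020421⟩, ⟨0x50066100, 0x25218498⟩]
    | .m, 2 => [⟨0xaf03d331, 0x40204a⟩, ⟨0x1c4ce5d11, 0x2921a248⟩, ⟨0x25008400, 0x50aa6218⟩]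
    | .m, 3 => [⟨0x250c9b00, 0x50c34458⟩, ⟨0x510c4700, 0x24c29858⟩, ⟨0x100044, 0x20000⟩]
    | _, _ => []

theorem rok3_021_0 : rowsOK D3 tg3_021 c3_021.R c3_021.N 0 rw3_021_0 = true := by decide +kernel

theorem rws3_021 : rwsOK D3 c3_021 = true := by
  refine rwsOK_of (by decide +kernel) (by decide +kernel) (by decide +kernel) ?_
  exact rok3_021_0

theorem cok3_021 : certOK D3 c3_021 = true :=
  certOK_of (by decide +kernel) (by decide +kernel) rws3_021 (by decide +kernel)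
    (by decide +kernel) (by decide +kernel)

theorem all3_021 : c3_021.rows.all okRow3 = true := by decide +kernel

end Pool.Agent.Work.MP_d7201b_al.L3
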