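import Pool.Agent.Work.MP_d7201b_al_helper73.D3
import Pool.Agent.Work.MP_d7201b_al_helper73.Lib

/-!
# Content (0, 3, 1), `p = 3`
-/

set_option autoImplicit false
set_option maxRecDepth 100000

namespace Pool.Agent.Work.MP_d7201b_al.L3

/-- The content. -/
def tg3_031 : Tgt where
  c := (0, 3, 1)
  dm t := match t with | .z => 0 | .y => 11 | .m => 3
  off t e := match t with
    | .z => match e with | 0 => 0 | 1 => 0 | 2 => 0 | _ => 0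
    | .y => match e with | 0 => 45 | 1 => 31 | 2 => 17 | _ => 3
    | .m => match e with | 0 => 42 | 1 => 28 | 2 => 14 | _ => 0

/-- Rows. -/
def rw3_031_0 : List Row := [.lie [(.y, 1), (.y, 0), (.y, 0)] (.m, 3),
  .lie [(.y, 2), (.y, 0), (.y, 0)] (.m, 3),
  .lie [(.y, 3), (.y, 0), (.y, 0)] (.m, 3),
  .lie [(.y, 1), (.y, 0), (.m, 0)] (.y, 3),
  .lie [(.y, 2), (.y, 0), (.m, 0)] (.y, 3),
  .lie [(.y, 3), (.y, 0), (.m, 0)] (.y, 3),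
  .lie [(.m, 2), (.y, 1), (.y, 0)] (.y, 3),
  .lie [(.y, 1), (.m, 0), (.y, 0)] (.y, 3),
  .lie [(.y, 2), (.m, 0), (.y, 0)] (.y, 3),
  .lie [(.m, 0), (.y, 0), (.y, 0)] (.y, 3),
  .lie [(.m, 1), (.y, 0), (.y, 0)] (.y, 3),
  .lie [(.m, 2), (.y, 0), (.y, 0)] (.y, 3),
  .lie [(.y, 1), (.y, 0), (.y, 0)] (.m, 2),
  .lie [(.y, 2), (.y, 0), (.y, 0)] (.m, 2),
  .lie [(.y, 1), (.y, 0), (.m, 0)] (.y, 2),
  .lie [(.y, 2), (.y, 0), (.m, 0)] (.y, 2),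
  .lie [(.m, 2), (.y, 1), (.y, 0)] (.y, 2),
  .lie [(.y, 1), (.m, 0), (.y, 0)] (.y, 2),
  .lie [(.m, 0), (.y, 0), (.y, 0)] (.y, 2),
  .lie [(.m, 1), (.y, 0), (.y, 0)] (.y, 2),
  .lie [(.y, 1), (.y, 0), (.y, 0)] (.m, 1),
  .lie [(.y, 1), (.y, 0), (.m, 0)] (.y, 1),
  .lie [(.m, 2), (.y, 1), (.y, 0)] (.y, 1),
  .lie [(.m, 0), (.y, 0), (.y, 0)] (.y, 1),
  .pq 1 (.y, 0) [[(.m, 0), (.y, 1), (.y, 0)]],
  .pq 1 (.y, 0) [[(.m, 1), (.y, 1), (.y, 0)]],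
  .pq 1 (.y, 0) [[(.m, 2), (.y, 1), (.y, 0)]],
  .pq 1 (.y, 0) [[(.m, 0), (.y, 2), (.y, 0)]],
  .pq 1 (.y, 0) [[(.m, 1), (.y, 2), (.y, 0)]],
  .pq 1 (.y, 0) [[(.y, 0), (.m, 0), (.y, 0)]],
  .pq 1 (.y, 0) [[(.y, 1), (.m, 0), (.y, 0)]],
  .pq 1 (.y, 0) [[(.y, 0), (.m, 1), (.y, 0)]],
  .pq 1 (.y, 0) [[(.y, 0), (.m, 2), (.y, 0)]],
  .pq 1 (.y, 0) [[(.y, 1), (.m, 0), (.y, 1)]],
  .pq 1 (.y, 1) [[(.y, 0), (.m, 0), (.y, 0)]],
  .pq 1 (.y, 0) [[(.y, 0)], [(.m, 0), (.y, 0)]],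
  .pq 1 (.y, 0) [[(.y, 0)], [(.m, 1), (.y, 0)]],
  .pq 1 (.y, 0) [[(.y, 0)], [(.m, 2), (.y, 0)]],
  .pq 1 (.y, 0) [[(.y, 0)], [(.m, 0), (.y, 1)]],
  .pq 1 (.y, 0) [[(.y, 0)], [(.m, 1), (.y, 1)]],
  .pq 1 (.y, 1) [[(.y, 0)], [(.m, 0), (.y, 0)]],
  .pq 1 (.y, 0) [[(.m, 0)], [(.y, 1), (.y, 0)]],
  .pq 1 (.y, 0) [[(.y, 0)], [(.y, 0)], [(.m, 0)]],
  .pq 1 (.y, 0) [[(.y, 0)], [(.y, 0)], [(.m, 1)]],
  .pq 1 (.y, 0) [[(.y, 0)], [(.y, 0)], [(.m, 2)]],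
  .pq 1 (.y, 1) [[(.y, 0)], [(.y, 0)], [(.m, 0)]]]

/-- The certificate. -/
def c3_031 : Cert V3 where
  tg := tg3_031
  pre := [[(.y, 1), (.y, 0), (.y, 0), (.m, 3)],
    [(.y, 2), (.y, 0), (.y, 0), (.m, 3)],
    [(.y, 3), (.y, 0), (.y, 0), (.m, 3)],
    [(.y, 1), (.y, 0), (.m, 0), (.y, 3)],
    [(.y, 2), (.y, 0), (.m, 0), (.y, 3)],
    [(.y, 3), (.y, 0), (.m, 0), (.y, 3)],
    [(.m, 2), (.y, 1), (.y, 0), (.y, 3)],
    [(.y, 1), (.m, 0), (.y, 0), (.y, 3)],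
    [(.y, 2), (.m, 0), (.y, 0), (.y, 3)],
    [(.y, 3), (.m, 0), (.y, 0), (.y, 3)],
    [(.m, 0), (.y, 0), (.y, 0), (.y, 3)],
    [(.m, 1), (.y, 0), (.y, 0), (.y, 3)],
    [(.m, 2), (.y, 0), (.y, 0), (.y, 3)],
    [(.m, 3), (.y, 0), (.y, 0), (.y, 3)],
    [(.y, 1), (.y, 0), (.y, 0), (.m, 2)],
    [(.y, 2), (.y, 0), (.y, 0), (.m, 2)],
    [(.y, 3), (.y, 0), (.y, 0), (.m, 2)],
    [(.y, 1), (.y, 0), (.m, 0), (.y, 2)],
    [(.y, 2), (.y, 0), (.m, 0), (.y, 2)],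
    [(.y, 3), (.y, 0), (.m, 0), (.y, 2)],
    [(.m, 2), (.y, 1), (.y, 0), (.y, 2)],
    [(.y, 1), (.m, 0), (.y, 0), (.y, 2)],
    [(.y, 2), (.m, 0), (.y, 0), (.y, 2)],
    [(.y, 3), (.m, 0), (.y, 0), (.y, 2)],
    [(.m, 0), (.y, 0), (.y, 0), (.y, 2)],
    [(.m, 1), (.y, 0), (.y, 0), (.y, 2)],
    [(.m, 2), (.y, 0), (.y, 0), (.y, 2)],
    [(.m, 3), (.y, 0), (.y, 0), (.y, 2)],
    [(.y, 1), (.y, 0), (.y, 0), (.m, 1)],
    [(.y, 2), (.y, 0), (.y, 0), (.m, 1)],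
    [(.y, 3), (.y, 0), (.y, 0), (.m, 1)],
    [(.y, 1), (.y, 0), (.m, 0), (.y, 1)],
    [(.y, 2), (.y, 0), (.m, 0), (.y, 1)],
    [(.y, 3), (.y, 0), (.m, 0), (.y, 1)],
    [(.m, 2), (.y, 1), (.y, 0), (.y, 1)],
    [(.y, 1), (.m, 0), (.y, 0), (.y, 1)],
    [(.y, 2), (.m, 0), (.y, 0), (.y, 1)],
    [(.y, 3), (.m, 0), (.y, 0), (.y, 1)],
    [(.m, 0), (.y, 0), (.y, 0), (.y, 1)],
    [(.m, 1), (.y, 0), (.y, 0), (.y, 1)],
    [(.m, 2), (.y, 0), (.y, 0), (.y, 1)],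
    [(.m, 3), (.y, 0), (.y, 0), (.y, 1)],
    [(.y, 1), (.y, 0), (.y, 0), (.m, 0)],
    [(.y, 2), (.y, 0), (.y, 0), (.m, 0)],
    [(.y, 3), (.y, 0), (.y, 0), (.m, 0)],
    [(.y, 1), (.y, 0), (.m, 0), (.y, 0)],
    [(.y, 2), (.y, 0), (.m, 0), (.y, 0)],
    [(.y, 3), (.y, 0), (.m, 0), (.y, 0)],
    [(.m, 2), (.y, 1), (.y, 0), (.y, 0)],
    [(.y, 1), (.m, 0), (.y, 0), (.y, 0)],
    [(.y, 2), (.m, 0), (.y, 0), (.y, 0)],
    [(.y, 3), (.m, 0), (.y, 0), (.y, 0)],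
    [(.m, 0), (.y, 0), (.y, 0), (.y, 0)],
    [(.m, 1), (.y, 0), (.y, 0), (.y, 0)],
    [(.m, 2), (.y, 0), (.y, 0), (.y, 0)],
    [(.m, 3), (.y, 0), (.y, 0), (.y, 0)]]
  piv := [45, 46, 48, 49, 50, 51, 52, 53, 54, 55]
  R := ⟨0x24801880024005029080400020014b1d000000100130050040018884091898732800210218020002ec80a112a220180020180c040219400016801061882000e116422010100362002c000102240715c062200f230100080200000121000801e8000400017a38110200308814362000021c8584222083005a00e011228520780068300a8042018806060186000380862589002021800e26310224400000000018421c800040004840088000000005808010000000daa0002200000004480001000000138001002000001a4040801080004a200000440000138010000200004180000400800008410000004000188000000110001880004000080008900000000400008000000801000080020000008018000000010040088000000002200040000080001000202000000008188000000020041440000800000212220000000001,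 0x201131d22400000020c003800010006148238000100004708b800000202320402005002006c814cc01003445a880001a002000100f26180000021188a021000061008bc01a000000480c04008000160203a8112c04434182260004004161822601020004894844340888443146840481001211850408940a821800e245052ca01880602c006a478006800280846580860003088845a00e00180000000000000008500210000000007a400000000006840000000000021400000000000000000000000004828000000000005a23a0000000001c80000000000484400000000000e200000000000872000000000004000000000000020000000000000000000000000001c1000000000001a10000000000001800200000000101000000000001c0800000000001a040000000000800000000000008000000000000080000000000000⟩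
  N := 56
  rows := rw3_031_0
  kap t e := match t, e with
    | .y, 0 => [⟨0x0, 0x0⟩, ⟨0x0, 0x0⟩, ⟨0x1f46106c0189, 0x284f80e210⟩, ⟨0x0, 0x0⟩, ⟨0x0, 0x0⟩, ⟨0x0, 0x0⟩, ⟨0x0, 0x0⟩, ⟨0x0, 0x0⟩, ⟨0x0, 0x0⟩, ⟨0x0, 0x0⟩, ⟨0x0, 0x0⟩]
    | .y, 1 => [⟨0x820b4101d3, 0x35302482aa08⟩, ⟨0x355066044282, 0x2609583011⟩, ⟨0x1f2077b02802, 0xc4080d1050⟩, ⟨0x8a40230301, 0x127003803018⟩, ⟨0x3844c4d058, 0x1984020b2b00⟩, ⟨0x2a2019c31b12, 0x11d060308041⟩, ⟨0xc0800951298, 0x22541e48a003⟩, ⟨0x224879006348, 0xc24066a9802⟩, ⟨0x280202606040, 0x2a4289e8b1b⟩, ⟨0x380e250d2000, 0x76052005312⟩, ⟨0x226224900a80, 0xc1049446048⟩]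
    | .y, 2 => [⟨0x20b040b04008, 0x8420f450280⟩, ⟨0x864118c035a, 0x200824031800⟩, ⟨0x1f8a38a5da98, 0x46500040⟩, ⟨0x3f1001878b09, 0x2076507042⟩, ⟨0x12c064a1b280, 0x252c1a1c0008⟩, ⟨0x38ba06d43981, 0x50409094250⟩, ⟨0xda427080142, 0x2180840e891⟩, ⟨0x204222a2000, 0xd9845110312⟩, ⟨0x48e2009c0ca, 0x27043e21901⟩, ⟨0x2ea2101231a, 0x15104206d001⟩, ⟨0x220629002c1, 0xd821401d81a⟩]
    | .y, 3 => [⟨0x3800220a01, 0x4675dc1da⟩, ⟨0x46a5dca81, 0x3800220040⟩, ⟨0x1f46046c0389, 0x284180e030⟩, ⟨0x2900a12802, 0x1426402d2d0⟩, ⟨0x16c521801c0, 0x100883da10⟩, ⟨0x1801144e242, 0x3204820988⟩, ⟨0x10028851202, 0xde135a20b9⟩, ⟨0xde0d5a2299, 0x10030851002⟩, ⟨0xe288c41003, 0x1185621c290⟩, ⟨0xc12360cb09, 0x124009f2050⟩, ⟨0xde085a2099, 0x10032851022⟩]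
    | .m, 0 => [⟨0xc2406ea9802, 0x224879006348⟩, ⟨0xd9845150312, 0x204222a2000⟩, ⟨0x666249d28b, 0x1e9000b20100⟩]
    | .m, 1 => [⟨0x88a65620802, 0x3560189082d0⟩, ⟨0x4160c023a98, 0x19a0738d0042⟩, ⟨0x5201452401, 0x1e8cc608d31a⟩]
    | .m, 2 => [⟨0x76052004312, 0x380e250d3000⟩, ⟨0x2520c823108, 0x8847269c082⟩, ⟨0x484c730149, 0x1ea330802090⟩]
    | .m, 3 => [⟨0xc1049446049, 0x226224900a80⟩, ⟨0xd821401d818, 0x220629002c3⟩, ⟨0x666549d2af, 0x1e9002b20100⟩]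
    | _, _ => []

theorem rok3_031_0 : rowsOK D3 tg3_031 c3_031.R c3_031.N 0 rw3_031_0 = true := by decide +kernel

theorem rws3_031 : rwsOK D3 c3_031 = true := by
  refine rwsOK_of (by decide +kernel) (by decide +kernel) (by decide +kernel) ?_
  exact rok3_031_0

theorem cok3_031 : certOK D3 c3_031 = true :=
  certOK_of (by decide +kernel) (by decide +kernel) rws3_031 (by decide +kernel)
    (by decide +kernel) (by decide +kernel)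

theorem all3_031 : c3_031.rows.all okRow3 = true := by decide +kernel

end Pool.Agent.Work.MP_d7201b_al.L3
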