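import Pool.Agent.Work.MP_d7201b_al_helper73.D3
import Pool.Agent.Work.MP_d7201b_al_helper73.Lib

/-!
# Content (0, 4, 1), `p = 3`
-/

set_option autoImplicit false
set_option maxRecDepth 100000

namespace Pool.Agent.Work.MP_d7201b_al.L3

/-- The content. -/
def tg3_041 : Tgt where
  c := (0, 4, 1)
  dm t := match t with | .z => 0 | .y => 10 | .m => 3
  off t e := match t with
    | .z => match e with | 0 => 0 | 1 => 0 | 2 => 0 | _ => 0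
    | .y => match e with | 0 => 42 | 1 => 29 | 2 => 16 | _ => 3
    | .m => match e with | 0 => 39 | 1 => 26 | 2 => 13 | _ => 0

/-- Rows. -/
def rw3_041_0 : List Row := [.lie [(.y, 1), (.y, 0), (.y, 0), (.y, 0)] (.m, 3),
  .lie [(.y, 2), (.y, 0), (.y, 0), (.y, 0)] (.m, 3),
  .lie [(.y, 3), (.y, 0), (.y, 0), (.y, 0)] (.m, 3),
  .lie [(.y, 1), (.y, 0), (.m, 0), (.y, 0)] (.y, 3),
  .lie [(.y, 2), (.y, 0), (.m, 0), (.y, 0)] (.y, 3),
  .lie [(.m, 2), (.y, 1), (.y, 0), (.y, 0)] (.y, 3),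
  .lie [(.y, 1), (.m, 0), (.y, 0), (.y, 0)] (.y, 3),
  .lie [(.y, 2), (.m, 0), (.y, 0), (.y, 0)] (.y, 3),
  .lie [(.y, 3), (.m, 0), (.y, 0), (.y, 0)] (.y, 3),
  .lie [(.m, 1), (.y, 0), (.y, 0), (.y, 0)] (.y, 3),
  .lie [(.m, 2), (.y, 0), (.y, 0), (.y, 0)] (.y, 3),
  .lie [(.y, 1), (.y, 0), (.y, 0), (.y, 0)] (.m, 2),
  .lie [(.y, 2), (.y, 0), (.y, 0), (.y, 0)] (.m, 2),
  .lie [(.y, 1), (.y, 0), (.m, 0), (.y, 0)] (.y, 2),
  .lie [(.m, 2), (.y, 1), (.y, 0), (.y, 0)] (.y, 2),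
  .lie [(.y, 1), (.m, 0), (.y, 0), (.y, 0)] (.y, 2),
  .lie [(.y, 2), (.m, 0), (.y, 0), (.y, 0)] (.y, 2),
  .lie [(.y, 3), (.m, 0), (.y, 0), (.y, 0)] (.y, 2),
  .lie [(.m, 0), (.y, 0), (.y, 0), (.y, 0)] (.y, 2),
  .lie [(.m, 1), (.y, 0), (.y, 0), (.y, 0)] (.y, 2),
  .lie [(.y, 1), (.y, 0), (.y, 0), (.y, 0)] (.m, 1),
  .lie [(.m, 2), (.y, 1), (.y, 0), (.y, 0)] (.y, 1),
  .lie [(.y, 1), (.m, 0), (.y, 0), (.y, 0)] (.y, 1),
  .lie [(.y, 2), (.m, 0), (.y, 0), (.y, 0)] (.y, 1),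
  .np (.m, 0) [(.y, 0)],
  .np (.m, 1) [(.y, 0)],
  .np (.m, 2) [(.y, 0)],
  .np (.m, 3) [(.y, 0)],
  .np (.m, 0) [(.y, 1)],
  .np (.m, 1) [(.y, 1)],
  .np (.m, 2) [(.y, 1)],
  .np (.m, 3) [(.y, 1)],
  .np (.m, 0) [(.y, 2)],
  .np (.m, 1) [(.y, 2)],
  .np (.m, 2) [(.y, 2)],
  .np (.m, 3) [(.y, 2)],
  .np (.m, 0) [(.y, 3)],
  .np (.m, 1) [(.y, 3)],
  .np (.m, 2) [(.y, 3)],
  .np (.m, 3) [(.y, 3)],
  .np (.m, 0) [(.y, 0), (.y, 1)],
  .np (.m, 1) [(.y, 0), (.y, 1)],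
  .np (.m, 2) [(.y, 0), (.y, 1)],
  .np (.m, 0) [(.y, 0), (.y, 2)],
  .np (.m, 2) [(.y, 0), (.y, 2)],
  .np (.m, 0) [(.y, 1), (.y, 2)],
  .pq 1 (.y, 3) [[(.y, 0), (.y, 3), (.y, 0), (.m, 1)]],
  .pq 1 (.y, 0) [[(.y, 2)], [(.y, 3), (.m, 3), (.y, 0)]],
  .pq 1 (.y, 0) [[(.y, 2)], [(.y, 0)], [(.y, 3), (.m, 3)]],
  .pq 1 (.y, 3) [[(.m, 0)], [(.y, 3)], [(.y, 1), (.y, 2)]]]

/-- The certificate. -/
def c3_041 : Cert V3 where
  tg := tg3_041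
  pre := [[(.y, 1), (.y, 0), (.y, 0), (.y, 0), (.m, 3)],
    [(.y, 2), (.y, 0), (.y, 0), (.y, 0), (.m, 3)],
    [(.y, 3), (.y, 0), (.y, 0), (.y, 0), (.m, 3)],
    [(.y, 1), (.y, 0), (.m, 0), (.y, 0), (.y, 3)],
    [(.y, 2), (.y, 0), (.m, 0), (.y, 0), (.y, 3)],
    [(.m, 2), (.y, 1), (.y, 0), (.y, 0), (.y, 3)],
    [(.y, 1), (.m, 0), (.y, 0), (.y, 0), (.y, 3)],
    [(.y, 2), (.m, 0), (.y, 0), (.y, 0), (.y, 3)],
    [(.y, 3), (.m, 0), (.y, 0), (.y, 0), (.y, 3)],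
    [(.m, 0), (.y, 0), (.y, 0), (.y, 0), (.y, 3)],
    [(.m, 1), (.y, 0), (.y, 0), (.y, 0), (.y, 3)],
    [(.m, 2), (.y, 0), (.y, 0), (.y, 0), (.y, 3)],
    [(.m, 3), (.y, 0), (.y, 0), (.y, 0), (.y, 3)],
    [(.y, 1), (.y, 0), (.y, 0), (.y, 0), (.m, 2)],
    [(.y, 2), (.y, 0), (.y, 0), (.y, 0), (.m, 2)],
    [(.y, 3), (.y, 0), (.y, 0), (.y, 0), (.m, 2)],
    [(.y, 1), (.y, 0), (.m, 0), (.y, 0), (.y, 2)],
    [(.y, 2), (.y, 0), (.m, 0), (.y, 0), (.y, 2)],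
    [(.m, 2), (.y, 1), (.y, 0), (.y, 0), (.y, 2)],
    [(.y, 1), (.m, 0), (.y, 0), (.y, 0), (.y, 2)],
    [(.y, 2), (.m, 0), (.y, 0), (.y, 0), (.y, 2)],
    [(.y, 3), (.m, 0), (.y, 0), (.y, 0), (.y, 2)],
    [(.m, 0), (.y, 0), (.y, 0), (.y, 0), (.y, 2)],
    [(.m, 1), (.y, 0), (.y, 0), (.y, 0), (.y, 2)],
    [(.m, 2), (.y, 0), (.y, 0), (.y, 0), (.y, 2)],
    [(.m, 3), (.y, 0), (.y, 0), (.y, 0), (.y, 2)],
    [(.y, 1), (.y, 0), (.y, 0), (.y, 0), (.m, 1)],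
    [(.y, 2), (.y, 0), (.y, 0), (.y, 0), (.m, 1)],
    [(.y, 3), (.y, 0), (.y, 0), (.y, 0), (.m, 1)],
    [(.y, 1), (.y, 0), (.m, 0), (.y, 0), (.y, 1)],
    [(.y, 2), (.y, 0), (.m, 0), (.y, 0), (.y, 1)],
    [(.m, 2), (.y, 1), (.y, 0), (.y, 0), (.y, 1)],
    [(.y, 1), (.m, 0), (.y, 0), (.y, 0), (.y, 1)],
    [(.y, 2), (.m, 0), (.y, 0), (.y, 0), (.y, 1)],
    [(.y, 3), (.m, 0), (.y, 0), (.y, 0), (.y, 1)],
    [(.m, 0), (.y, 0), (.y, 0), (.y, 0), (.y, 1)],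
    [(.m, 1), (.y, 0), (.y, 0), (.y, 0), (.y, 1)],
    [(.m, 2), (.y, 0), (.y, 0), (.y, 0), (.y, 1)],
    [(.m, 3), (.y, 0), (.y, 0), (.y, 0), (.y, 1)],
    [(.y, 1), (.y, 0), (.y, 0), (.y, 0), (.m, 0)],
    [(.y, 2), (.y, 0), (.y, 0), (.y, 0), (.m, 0)],
    [(.y, 3), (.y, 0), (.y, 0), (.y, 0), (.m, 0)],
    [(.y, 1), (.y, 0), (.m, 0), (.y, 0), (.y, 0)],
    [(.y, 2), (.y, 0), (.m, 0), (.y, 0), (.y, 0)],
    [(.m, 2), (.y, 1), (.y, 0), (.y, 0), (.y, 0)],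
    [(.y, 1), (.m, 0), (.y, 0), (.y, 0), (.y, 0)],
    [(.y, 2), (.m, 0), (.y, 0), (.y, 0), (.y, 0)],
    [(.y, 3), (.m, 0), (.y, 0), (.y, 0), (.y, 0)],
    [(.m, 0), (.y, 0), (.y, 0), (.y, 0), (.y, 0)],
    [(.m, 1), (.y, 0), (.y, 0), (.y, 0), (.y, 0)],
    [(.m, 2), (.y, 0), (.y, 0), (.y, 0), (.y, 0)],
    [(.m, 3), (.y, 0), (.y, 0), (.y, 0), (.y, 0)]]
  piv := [45, 46]
  R := ⟨0x541214720188040800c066100a128200b00790230285e214122100049824c000055c00015700004ec00013b00000ac056000000081c40e000000048c2460000000000000000100000000000008000000000000400000000000000000000017b000000000005700000000000b3000000000013b00000002c60000000000256000000000050e0000000000246000000080000000000004000000000000200000000000010000000000004ec8201630000000ad600000000004a800000006a00004000000440000080000004000004000009d10000200bd800100016b000048d2f600800009402000040000008000001000080000000040000100000002000180000000080018000000004000020000000000002000000008000200000000400000c0000002080000004000108000800000008800000000000480000000000028000000000001,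 0x98c0885c0338150ab230863500c445c04f02318006a05632c44000246123000000000000000008100002040000d406a000000007e03f0000000085042800000000000000000300000000000030000000000003000000000000100000000004000000000000000000000002480000000000244000000002800000000004a000000000002f000000000004a80000000000000000000000000000000000000000000000000000000000091000021400000204280000000010056000200081010000000002300008000000001000000000042c0000001020040000214000095040800000004ac0ae000400000400400000005f00001000000000200000000040000000080002000010000000080000000020004000006000000200c00000000010000000800010800020000001044000000000180000000100014000020000001204000000000⟩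
  N := 52
  rows := rw3_041_0
  kap t e := match t, e with
    | .y, 0 => [⟨0x3141126e83050, 0xaa8a8110c081⟩, ⟨0x100e64605058, 0x1c6b1119ca006⟩, ⟨0x2a60004429091, 0x9950a154842⟩, ⟨0x0, 0x0⟩, ⟨0x0, 0x0⟩, ⟨0x54a4b6320004, 0x21114080d899⟩, ⟨0x1000000, 0x0⟩, ⟨0x2000000, 0x0⟩, ⟨0x4000000, 0x0⟩, ⟨0x8000000, 0x0⟩]
    | .y, 1 => [⟨0x1e8ba62007026, 0x202008dba8498⟩, ⟨0x40240a4b9406, 0x3311a30946069⟩, ⟨0x40200800, 0x0⟩, ⟨0x0, 0x10200800⟩, ⟨0x210010810000, 0x80000608800⟩, ⟨0x50a440f38004, 0x221189005899⟩, ⟨0x10000808000, 0x11410000⟩, ⟨0x2808460110008, 0x7a2096a410d7⟩, ⟨0x9950ed44842, 0x2a20040021091⟩, ⟨0x10090808000, 0x1410000⟩]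
    | .y, 2 => [⟨0x1201008c39409, 0x5d21e21020e6⟩, ⟨0x2888003852021, 0x134103c724410⟩, ⟨0x4124d465c0d7, 0x29c8020101008⟩, ⟨0x280100448000, 0x10000800000⟩, ⟨0x50000, 0x100000000⟩, ⟨0x48a990f35004, 0x371409040899⟩, ⟨0x80000808000, 0x101410000⟩, ⟨0x3964dd01842, 0x2a80120028091⟩, ⟨0x2c331b921c804, 0x1c044406004a⟩, ⟨0x80900808000, 0x1410000⟩]
    | .y, 3 => [⟨0x3141126e83058, 0xaa8a1810c081⟩, ⟨0x100764605048, 0x1c6b8189ca016⟩, ⟨0x2c9e400600c4c, 0x10001a8591b2⟩, ⟨0x3f9411820c01, 0x40210030d0fc⟩, ⟨0x22980182dc41, 0x5124c034003c⟩, ⟨0x0, 0x1000000000⟩, ⟨0x47218030d0bc, 0x38946e820d41⟩, ⟨0x47118030d0bc, 0x38a46e820d41⟩, ⟨0x47718030d0bc, 0x38846e820d41⟩, ⟨0x47318030d0bc, 0x38046e820d41⟩]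
    | .m, 0 => [⟨0x10000a08800, 0x11010000⟩, ⟨0x80000808000, 0x101450000⟩, ⟨0x221050800821, 0x4c2088300444⟩]
    | .m, 1 => [⟨0x7820946410d7, 0x2808442008008⟩, ⟨0x2a0024587c091, 0x59428180842⟩, ⟨0x220051800821, 0x4c008a300744⟩]
    | .m, 2 => [⟨0x2a20000831091, 0xd954a14c042⟩, ⟨0xc004046904a, 0x2c335bda04804⟩, ⟨0x224051800c21, 0x4c208c300144⟩]
    | .m, 3 => [⟨0x10090808001, 0x8410000⟩, ⟨0x80900808002, 0x8410000⟩, ⟨0x228059800821, 0x4c2080300540⟩]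
    | _, _ => []

theorem rok3_041_0 : rowsOK D3 tg3_041 c3_041.R c3_041.N 0 rw3_041_0 = true := by decide +kernel

theorem rws3_041 : rwsOK D3 c3_041 = true := by
  refine rwsOK_of (by decide +kernel) (by decide +kernel) (by decide +kernel) ?_
  exact rok3_041_0

theorem cok3_041 : certOK D3 c3_041 = true :=
  certOK_of (by decide +kernel) (by decide +kernel) rws3_041 (by decide +kernel)
    (by decide +kernel) (by decide +kernel)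

theorem all3_041 : c3_041.rows.all okRow3 = true := by decide +kernel

end Pool.Agent.Work.MP_d7201b_al.L3
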