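import Pool.Agent.Work.MP_d7201b_al_helper73.D3
import Pool.Agent.Work.MP_d7201b_al_helper73.Lib

/-!
# Content (0, 5, 0), `p = 3`
-/

set_option autoImplicit false
set_option maxRecDepth 100000

namespace Pool.Agent.Work.MP_d7201b_al.L3

/-- The content. -/
def tg3_050 : Tgt where
  c := (0, 5, 0)
  dm t := match t with | .z => 0 | .y => 3 | .m => 0
  off t e := match t with
    | .z => match e with | 0 => 0 | 1 => 0 | 2 => 0 | _ => 0
    | .y => match e with | 0 => 9 | 1 => 6 | 2 => 3 | _ => 0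
    | .m => match e with | 0 => 0 | 1 => 0 | 2 => 0 | _ => 0

/-- Rows. -/
def rw3_050_0 : List Row := [.lie [(.y, 1), (.y, 0), (.y, 0), (.y, 0)] (.y, 3),
  .lie [(.y, 2), (.y, 0), (.y, 0), (.y, 0)] (.y, 3),
  .lie [(.y, 1), (.y, 0), (.y, 0), (.y, 0)] (.y, 2),
  .np (.y, 1) [(.y, 0)],
  .np (.y, 2) [(.y, 0)],
  .np (.y, 3) [(.y, 0)],
  .np (.y, 0) [(.y, 1)],
  .np (.y, 2) [(.y, 1)],
  .np (.y, 3) [(.y, 1)],
  .np (.y, 0) [(.y, 2)],
  .np (.y, 3) [(.y, 2)],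
  .np (.y, 0) [(.y, 3)]]

/-- The certificate. -/
def c3_050 : Cert V3 where
  tg := tg3_050
  pre := [[(.y, 1), (.y, 0), (.y, 0), (.y, 0), (.y, 3)],
    [(.y, 2), (.y, 0), (.y, 0), (.y, 0), (.y, 3)],
    [(.y, 3), (.y, 0), (.y, 0), (.y, 0), (.y, 3)],
    [(.y, 1), (.y, 0), (.y, 0), (.y, 0), (.y, 2)],
    [(.y, 2), (.y, 0), (.y, 0), (.y, 0), (.y, 2)],
    [(.y, 3), (.y, 0), (.y, 0), (.y, 0), (.y, 2)],
    [(.y, 1), (.y, 0), (.y, 0), (.y, 0), (.y, 1)],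
    [(.y, 2), (.y, 0), (.y, 0), (.y, 0), (.y, 1)],
    [(.y, 3), (.y, 0), (.y, 0), (.y, 0), (.y, 1)],
    [(.y, 1), (.y, 0), (.y, 0), (.y, 0), (.y, 0)],
    [(.y, 2), (.y, 0), (.y, 0), (.y, 0), (.y, 0)],
    [(.y, 3), (.y, 0), (.y, 0), (.y, 0), (.y, 0)]]
  piv := []
  R := ⟨0x20000100080000800400200408802801, 0x4010010040040040000000000280420300⟩
  N := 12
  rows := rw3_050_0
  kap t e := match t, e with
    | .y, 0 => [⟨0x8, 0x0⟩, ⟨0x10, 0x0⟩, ⟨0x20, 0x0⟩]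
    | .y, 1 => [⟨0x0, 0x40⟩, ⟨0x80, 0x40⟩, ⟨0x100, 0x40⟩]
    | .y, 2 => [⟨0x8c, 0x50⟩, ⟨0x0, 0x200⟩, ⟨0x400, 0x200⟩]
    | .y, 3 => [⟨0x109, 0x60⟩, ⟨0x412, 0x220⟩, ⟨0x0, 0x800⟩]
    | _, _ => []

theorem rok3_050_0 : rowsOK D3 tg3_050 c3_050.R c3_050.N 0 rw3_050_0 = true := by decide +kernel

theorem rws3_050 : rwsOK D3 c3_050 = true := by
  refine rwsOK_of (by decide +kernel) (by decide +kernel) (by decide +kernel) ?_
  exact rok3_050_0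

theorem cok3_050 : certOK D3 c3_050 = true :=
  certOK_of (by decide +kernel) (by decide +kernel) rws3_050 (by decide +kernel)
    (by decide +kernel) (by decide +kernel)

theorem all3_050 : c3_050.rows.all okRow3 = true := by decide +kernel

end Pool.Agent.Work.MP_d7201b_al.L3
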