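import Pool.Agent.Work.MP_d7201b_al_helper73.D3
import Pool.Agent.Work.MP_d7201b_al_helper73.Lib

/-!
# Content (1, 2, 0), `p = 3`
-/

set_option autoImplicit false
set_option maxRecDepth 100000

namespace Pool.Agent.Work.MP_d7201b_al.L3

/-- The content. -/
def tg3_120 : Tgt where
  c := (1, 2, 0)
  dm t := match t with | .z => 3 | .y => 8 | .m => 0
  off t e := match t with
    | .z => match e with | 0 => 41 | 1 => 30 | 2 => 19 | _ => 8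
    | .y => match e with | 0 => 33 | 1 => 22 | 2 => 11 | _ => 0
    | .m => match e with | 0 => 0 | 1 => 0 | 2 => 0 | _ => 0

/-- Rows. -/
def rw3_120_0 : List Row := [.lie [(.y, 2), (.z, 1)] (.y, 3),
  .lie [(.z, 1), (.y, 0)] (.y, 3),
  .lie [(.z, 2), (.y, 0)] (.y, 3),
  .lie [(.z, 3), (.y, 0)] (.y, 3),
  .lie [(.y, 0), (.z, 0)] (.y, 3),
  .lie [(.y, 1), (.z, 0)] (.y, 3),
  .lie [(.y, 2), (.z, 0)] (.y, 3),
  .lie [(.y, 1), (.y, 0)] (.z, 3),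
  .lie [(.y, 2), (.y, 0)] (.z, 3),
  .lie [(.z, 1), (.y, 0)] (.y, 2),
  .lie [(.z, 2), (.y, 0)] (.y, 2),
  .lie [(.y, 0), (.z, 0)] (.y, 2),
  .lie [(.y, 1), (.z, 0)] (.y, 2),
  .lie [(.y, 1), (.y, 0)] (.z, 2),
  .lie [(.y, 2), (.z, 1)] (.y, 1),
  .lie [(.z, 1), (.y, 0)] (.y, 1),
  .lie [(.y, 0), (.z, 0)] (.y, 1),
  .pq 1 (.z, 0) [[(.y, 1), (.y, 0)]],
  .pq 1 (.z, 0) [[(.y, 2), (.y, 0)]],
  .pq 1 (.z, 0) [[(.y, 3), (.y, 0)]],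
  .pq 1 (.z, 0) [[(.y, 2), (.y, 1)]],
  .pq 1 (.z, 1) [[(.y, 1), (.y, 0)]],
  .pq 1 (.y, 0) [[(.y, 0), (.z, 0)]],
  .pq 1 (.y, 0) [[(.y, 1), (.z, 0)]],
  .pq 1 (.y, 0) [[(.y, 0), (.z, 1)]],
  .pq 1 (.y, 1) [[(.y, 0), (.z, 0)]],
  .pq 1 (.z, 0) [[(.y, 0)], [(.y, 0)]],
  .pq 1 (.z, 0) [[(.y, 0)], [(.y, 1)]],
  .pq 1 (.z, 0) [[(.y, 0)], [(.y, 2)]],
  .pq 1 (.z, 1) [[(.y, 0)], [(.y, 0)]],
  .pq 1 (.z, 1) [[(.y, 0)], [(.y, 1)]],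
  .pq 1 (.y, 0) [[(.z, 0)], [(.y, 0)]],
  .pq 1 (.y, 1) [[(.z, 0)], [(.y, 0)]]]

/-- The certificate. -/
def c3_120 : Cert V3 where
  tg := tg3_120
  pre := [[(.y, 2), (.z, 1), (.y, 3)],
    [(.z, 1), (.y, 0), (.y, 3)],
    [(.z, 2), (.y, 0), (.y, 3)],
    [(.z, 3), (.y, 0), (.y, 3)],
    [(.y, 0), (.z, 0), (.y, 3)],
    [(.y, 1), (.z, 0), (.y, 3)],
    [(.y, 2), (.z, 0), (.y, 3)],
    [(.y, 3), (.z, 0), (.y, 3)],
    [(.y, 1), (.y, 0), (.z, 3)],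
    [(.y, 2), (.y, 0), (.z, 3)],
    [(.y, 3), (.y, 0), (.z, 3)],
    [(.y, 2), (.z, 1), (.y, 2)],
    [(.z, 1), (.y, 0), (.y, 2)],
    [(.z, 2), (.y, 0), (.y, 2)],
    [(.z, 3), (.y, 0), (.y, 2)],
    [(.y, 0), (.z, 0), (.y, 2)],
    [(.y, 1), (.z, 0), (.y, 2)],
    [(.y, 2), (.z, 0), (.y, 2)],
    [(.y, 3), (.z, 0), (.y, 2)],
    [(.y, 1), (.y, 0), (.z, 2)],
    [(.y, 2), (.y, 0), (.z, 2)],
    [(.y, 3), (.y, 0), (.z, 2)],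
    [(.y, 2), (.z, 1), (.y, 1)],
    [(.z, 1), (.y, 0), (.y, 1)],
    [(.z, 2), (.y, 0), (.y, 1)],
    [(.z, 3), (.y, 0), (.y, 1)],
    [(.y, 0), (.z, 0), (.y, 1)],
    [(.y, 1), (.z, 0), (.y, 1)],
    [(.y, 2), (.z, 0), (.y, 1)],
    [(.y, 3), (.z, 0), (.y, 1)],
    [(.y, 1), (.y, 0), (.z, 1)],
    [(.y, 2), (.y, 0), (.z, 1)],
    [(.y, 3), (.y, 0), (.z, 1)],
    [(.y, 2), (.z, 1), (.y, 0)],
    [(.z, 1), (.y, 0), (.y, 0)],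
    [(.z, 2), (.y, 0), (.y, 0)],
    [(.z, 3), (.y, 0), (.y, 0)],
    [(.y, 0), (.z, 0), (.y, 0)],
    [(.y, 1), (.z, 0), (.y, 0)],
    [(.y, 2), (.z, 0), (.y, 0)],
    [(.y, 3), (.z, 0), (.y, 0)],
    [(.y, 1), (.y, 0), (.z, 0)],
    [(.y, 2), (.y, 0), (.z, 0)],
    [(.y, 3), (.y, 0), (.z, 0)]]
  piv := [33, 34, 35, 36, 37, 38, 39, 40, 41, 42, 43]
  R := ⟨0x200081258d0000040c98b0032348260420043002100c096060490c012002c088d00001686800a200600c18d020408c10172010280340930001a0118b003204c0583c0d220c09852020000000801a21006008112002c41829200040000000d400800000000404408000880008000040000010000400000080001000000200000200001000030000002000300000010080000000040800000000208000000001010000000008100000000041000000000200100009001, 0xc0050008000400340081cc0a45881100003c088901202040480b0543c03100b020204058900409ad1c20800050088001360420c186802060ca01081cc10060082120160200201000000001001404c058080543002c0c20400000000010240000000000800350000460100000020010000000080000000000be0010000000080000000080000040000400200000040000040000200200000001000000000003000000400028002000000250000000000080040000⟩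
  N := 44
  rows := rw3_120_0
  kap t e := match t, e with
    | .z, 0 => [⟨0x0, 0x0⟩, ⟨0x0, 0x0⟩, ⟨0x0, 0x0⟩]
    | .z, 1 => [⟨0x21100460, 0x5224f380⟩, ⟨0xf8901230, 0x10062e480⟩, ⟨0x24128e50, 0x53652102⟩]
    | .z, 2 => [⟨0x1030211c3, 0x8cc48820⟩, ⟨0x20c50a33, 0x1b307180⟩, ⟨0x52022b63, 0x24608484⟩]
    | .z, 3 => [⟨0x5363ab90, 0x24005423⟩, ⟨0x24045640, 0x5360a813⟩, ⟨0xc0000, 0x120018⟩]
    | .y, 0 => [⟨0x0, 0x0⟩, ⟨0x0, 0x0⟩, ⟨0x0, 0x0⟩, ⟨0x0, 0x0⟩, ⟨0x0, 0x0⟩, ⟨0x0, 0x0⟩, ⟨0x0, 0x0⟩, ⟨0x0, 0x0⟩]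
    | .y, 1 => [⟨0x1a0955c70, 0x5c62a283⟩, ⟨0x21100460, 0x52247380⟩, ⟨0x1030211c3, 0x8cc4a820⟩, ⟨0x5363ab10, 0x24005423⟩, ⟨0x10000, 0x0⟩, ⟨0xa0508460, 0x57a67380⟩, ⟨0x6024520, 0x150d59083⟩, ⟨0x104da13, 0x9000c0⟩]
    | .y, 2 => [⟨0x161400200, 0xeb13543⟩, ⟨0xf8901030, 0x10062e680⟩, ⟨0x20c50e33, 0x1b307180⟩, ⟨0x24045640, 0x5360a913⟩, ⟨0x800, 0x0⟩, ⟨0x6024520, 0x150d58083⟩, ⟨0x1206d500, 0x1cc010240⟩, ⟨0x870a20, 0x40d0c0⟩]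
    | .y, 3 => [⟨0x53a0a163, 0x24155e90⟩, ⟨0x24128e50, 0x53652100⟩, ⟨0x52022b63, 0x24608480⟩, ⟨0xc0000, 0x120010⟩, ⟨0x10, 0x0⟩, ⟨0x104da33, 0x9000c0⟩, ⟨0x870a20, 0x40d080⟩, ⟨0x80010, 0x0⟩]
    | _, _ => []

theorem rok3_120_0 : rowsOK D3 tg3_120 c3_120.R c3_120.N 0 rw3_120_0 = true := by decide +kernel

theorem rws3_120 : rwsOK D3 c3_120 = true := by
  refine rwsOK_of (by decide +kernel) (by decide +kernel) (by decide +kernel) ?_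
  exact rok3_120_0

theorem cok3_120 : certOK D3 c3_120 = true :=
  certOK_of (by decide +kernel) (by decide +kernel) rws3_120 (by decide +kernel)
    (by decide +kernel) (by decide +kernel)

theorem all3_120 : c3_120.rows.all okRow3 = true := by decide +kernel

end Pool.Agent.Work.MP_d7201b_al.L3
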