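import Pool.Agent.Work.MP_d7201b_al_helper73.D3
import Pool.Agent.Work.MP_d7201b_al_helper73.Lib

/-!
# Content (1, 3, 0), `p = 3`
-/

set_option autoImplicit false
set_option maxRecDepth 100000

namespace Pool.Agent.Work.MP_d7201b_al.L3

/-- The content. -/
def tg3_130 : Tgt where
  c := (1, 3, 0)
  dm t := match t with | .z => 3 | .y => 11 | .m => 0
  off t e := match t with
    | .z => match e with | 0 => 53 | 1 => 39 | 2 => 25 | _ => 11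
    | .y => match e with | 0 => 42 | 1 => 28 | 2 => 14 | _ => 0
    | .m => match e with | 0 => 0 | 1 => 0 | 2 => 0 | _ => 0

/-- Rows. -/
def rw3_130_0 : List Row := [.lie [(.y, 2), (.z, 1), (.y, 0)] (.y, 3),
  .lie [(.z, 1), (.y, 0), (.y, 0)] (.y, 3),
  .lie [(.z, 2), (.y, 0), (.y, 0)] (.y, 3),
  .lie [(.z, 3), (.y, 0), (.y, 0)] (.y, 3),
  .lie [(.y, 0), (.z, 0), (.y, 0)] (.y, 3),
  .lie [(.y, 1), (.z, 0), (.y, 0)] (.y, 3),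
  .lie [(.y, 2), (.z, 0), (.y, 0)] (.y, 3),
  .lie [(.y, 3), (.z, 0), (.y, 0)] (.y, 3),
  .lie [(.y, 1), (.y, 0), (.z, 0)] (.y, 3),
  .lie [(.y, 2), (.y, 0), (.z, 0)] (.y, 3),
  .lie [(.y, 1), (.y, 0), (.y, 0)] (.z, 3),
  .lie [(.y, 2), (.y, 0), (.y, 0)] (.z, 3),
  .lie [(.y, 2), (.z, 1), (.y, 0)] (.y, 2),
  .lie [(.z, 1), (.y, 0), (.y, 0)] (.y, 2),
  .lie [(.z, 2), (.y, 0), (.y, 0)] (.y, 2),
  .lie [(.y, 0), (.z, 0), (.y, 0)] (.y, 2),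
  .lie [(.y, 1), (.z, 0), (.y, 0)] (.y, 2),
  .lie [(.y, 2), (.z, 0), (.y, 0)] (.y, 2),
  .lie [(.y, 1), (.y, 0), (.z, 0)] (.y, 2),
  .lie [(.y, 1), (.y, 0), (.y, 0)] (.z, 2),
  .lie [(.y, 2), (.z, 1), (.y, 0)] (.y, 1),
  .lie [(.z, 1), (.y, 0), (.y, 0)] (.y, 1),
  .lie [(.y, 0), (.z, 0), (.y, 0)] (.y, 1),
  .lie [(.y, 1), (.z, 0), (.y, 0)] (.y, 1),
  .pq 1 (.z, 0) [[(.y, 0), (.y, 1), (.y, 0)]],
  .pq 1 (.z, 0) [[(.y, 1), (.y, 1), (.y, 0)]],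
  .pq 1 (.z, 0) [[(.y, 2), (.y, 1), (.y, 0)]],
  .pq 1 (.z, 0) [[(.y, 0), (.y, 2), (.y, 0)]],
  .pq 1 (.z, 0) [[(.y, 1), (.y, 2), (.y, 0)]],
  .pq 1 (.z, 1) [[(.y, 0), (.y, 1), (.y, 0)]],
  .pq 1 (.y, 0) [[(.y, 0), (.y, 0), (.z, 0)]],
  .pq 1 (.y, 0) [[(.y, 1), (.y, 0), (.z, 0)]],
  .pq 1 (.y, 0) [[(.y, 2), (.y, 0), (.z, 0)]],
  .pq 1 (.y, 0) [[(.y, 0), (.y, 1), (.z, 0)]],
  .pq 1 (.y, 1) [[(.y, 0), (.y, 0), (.z, 0)]],
  .pq 1 (.z, 0) [[(.y, 0)], [(.y, 1), (.y, 0)]],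
  .pq 1 (.z, 0) [[(.y, 0)], [(.y, 2), (.y, 0)]],
  .pq 1 (.z, 1) [[(.y, 0)], [(.y, 1), (.y, 0)]],
  .pq 1 (.y, 0) [[(.z, 0)], [(.y, 1), (.y, 0)]],
  .pq 1 (.y, 0) [[(.y, 0)], [(.y, 0), (.z, 0)]],
  .pq 1 (.y, 0) [[(.y, 0)], [(.y, 1), (.z, 0)]],
  .pq 1 (.y, 1) [[(.y, 0)], [(.y, 0), (.z, 0)]],
  .pq 1 (.z, 0) [[(.y, 0)], [(.y, 0)], [(.y, 1)]],
  .pq 1 (.z, 1) [[(.y, 0)], [(.y, 0)], [(.y, 1)]],
  .pq 1 (.y, 0) [[(.z, 0)], [(.y, 0)], [(.y, 0)]],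
  .pq 1 (.y, 1) [[(.z, 0)], [(.y, 0)], [(.y, 0)]]]

/-- The certificate. -/
def c3_130 : Cert V3 where
  tg := tg3_130
  pre := [[(.y, 2), (.z, 1), (.y, 0), (.y, 3)],
    [(.z, 1), (.y, 0), (.y, 0), (.y, 3)],
    [(.z, 2), (.y, 0), (.y, 0), (.y, 3)],
    [(.z, 3), (.y, 0), (.y, 0), (.y, 3)],
    [(.y, 0), (.z, 0), (.y, 0), (.y, 3)],
    [(.y, 1), (.z, 0), (.y, 0), (.y, 3)],
    [(.y, 2), (.z, 0), (.y, 0), (.y, 3)],
    [(.y, 3), (.z, 0), (.y, 0), (.y, 3)],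
    [(.y, 1), (.y, 0), (.z, 0), (.y, 3)],
    [(.y, 2), (.y, 0), (.z, 0), (.y, 3)],
    [(.y, 3), (.y, 0), (.z, 0), (.y, 3)],
    [(.y, 1), (.y, 0), (.y, 0), (.z, 3)],
    [(.y, 2), (.y, 0), (.y, 0), (.z, 3)],
    [(.y, 3), (.y, 0), (.y, 0), (.z, 3)],
    [(.y, 2), (.z, 1), (.y, 0), (.y, 2)],
    [(.z, 1), (.y, 0), (.y, 0), (.y, 2)],
    [(.z, 2), (.y, 0), (.y, 0), (.y, 2)],
    [(.z, 3), (.y, 0), (.y, 0), (.y, 2)],
    [(.y, 0), (.z, 0), (.y, 0), (.y, 2)],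
    [(.y, 1), (.z, 0), (.y, 0), (.y, 2)],
    [(.y, 2), (.z, 0), (.y, 0), (.y, 2)],
    [(.y, 3), (.z, 0), (.y, 0), (.y, 2)],
    [(.y, 1), (.y, 0), (.z, 0), (.y, 2)],
    [(.y, 2), (.y, 0), (.z, 0), (.y, 2)],
    [(.y, 3), (.y, 0), (.z, 0), (.y, 2)],
    [(.y, 1), (.y, 0), (.y, 0), (.z, 2)],
    [(.y, 2), (.y, 0), (.y, 0), (.z, 2)],
    [(.y, 3), (.y, 0), (.y, 0), (.z, 2)],
    [(.y, 2), (.z, 1), (.y, 0), (.y, 1)],
    [(.z, 1), (.y, 0), (.y, 0), (.y, 1)],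
    [(.z, 2), (.y, 0), (.y, 0), (.y, 1)],
    [(.z, 3), (.y, 0), (.y, 0), (.y, 1)],
    [(.y, 0), (.z, 0), (.y, 0), (.y, 1)],
    [(.y, 1), (.z, 0), (.y, 0), (.y, 1)],
    [(.y, 2), (.z, 0), (.y, 0), (.y, 1)],
    [(.y, 3), (.z, 0), (.y, 0), (.y, 1)],
    [(.y, 1), (.y, 0), (.z, 0), (.y, 1)],
    [(.y, 2), (.y, 0), (.z, 0), (.y, 1)],
    [(.y, 3), (.y, 0), (.z, 0), (.y, 1)],
    [(.y, 1), (.y, 0), (.y, 0), (.z, 1)],
    [(.y, 2), (.y, 0), (.y, 0), (.z, 1)],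
    [(.y, 3), (.y, 0), (.y, 0), (.z, 1)],
    [(.y, 2), (.z, 1), (.y, 0), (.y, 0)],
    [(.z, 1), (.y, 0), (.y, 0), (.y, 0)],
    [(.z, 2), (.y, 0), (.y, 0), (.y, 0)],
    [(.z, 3), (.y, 0), (.y, 0), (.y, 0)],
    [(.y, 0), (.z, 0), (.y, 0), (.y, 0)],
    [(.y, 1), (.z, 0), (.y, 0), (.y, 0)],
    [(.y, 2), (.z, 0), (.y, 0), (.y, 0)],
    [(.y, 3), (.z, 0), (.y, 0), (.y, 0)],
    [(.y, 1), (.y, 0), (.z, 0), (.y, 0)],
    [(.y, 2), (.y, 0), (.z, 0), (.y, 0)],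
    [(.y, 3), (.y, 0), (.z, 0), (.y, 0)],
    [(.y, 1), (.y, 0), (.y, 0), (.z, 0)],
    [(.y, 2), (.y, 0), (.y, 0), (.z, 0)],
    [(.y, 3), (.y, 0), (.y, 0), (.z, 0)]]
  piv := [43, 44, 48, 49, 50, 51, 52, 53, 54, 55]
  R := ⟨0x12c3548c04000009002000020038822808202b0008049a122c41200801c0790020000802002600068004015023001003220a2033205ab01a02e501381081e2054019c82710400412042422200010a354412400400840248cb2052aca182300a103220e00300c1500000ac32060920003841000606f9044400000006e8140401810402600488000000048816a8008100040016a841000600180b0c12000000000000010000000010088020000000088000111800000b0c004200000011000400400000060c00009000001100200008000000000000040000108000040100001625000000800000800001624000090000000210000480008000080008400000200200044008000001001240000000048010400001000040104040000000200000000000001012000000002008120000080000041202000000000210400001000001,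 0x2000c000a004880000020000048810141d4070814e122824108c02490400c1304610000400060092cb8000004ab188080000804c8048c2000a1001806c40a600800a2060410012281280a081012480e50220c488008022013200030d4050318c110000801d008a04ab00401080b8c48819840801000006098000012201110bc04000200599000048800001220000090006013a0000080100052234000000000000248000000000000b84000000000005048000820000043000000000002a4c000000000059800000000000464c000000000049000000000000061c000000000009c00000000000166500009c0000006000000000000060000000000043000000000000228000000000008000000000000083000000000000828000000000009200000000000000600000000000005000000000000048000000000002060000000000⟩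
  N := 56
  rows := rw3_130_0
  kap t e := match t, e with
    | .z, 0 => [⟨0x0, 0x0⟩, ⟨0x0, 0x0⟩, ⟨0x0, 0x0⟩]
    | .z, 1 => [⟨0x1801430c2b40, 0x27ccbcf11410⟩, ⟨0x20ee41a10860, 0x12102c1e6603⟩, ⟨0xa66efe111, 0x2500000602⟩]
    | .z, 2 => [⟨0x2009b93a4c40, 0x13f440048233⟩, ⟨0x14c128640403, 0x291ec689a820⟩, ⟨0x2441408224, 0xa84af6900⟩]
    | .z, 3 => [⟨0x2502000220, 0xa65efe413⟩, ⟨0xaa0af6140, 0x2459408820⟩, ⟨0x88, 0x7000000⟩]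
    | .y, 0 => [⟨0x2c9183388410, 0x100c70020b40⟩, ⟨0x0, 0x0⟩, ⟨0x0, 0x0⟩, ⟨0x3818950a600, 0xc10a50060⟩, ⟨0x80012080003, 0x451e9913d20⟩, ⟨0x21b1d8e68d70, 0x221196203⟩, ⟨0x0, 0x0⟩, ⟨0x0, 0x0⟩, ⟨0x0, 0x0⟩, ⟨0x0, 0x0⟩, ⟨0x0, 0x0⟩]
    | .y, 1 => [⟨0x1a6834128b00, 0x90cb654063⟩, ⟨0x126114303020, 0x51269c8c943⟩, ⟨0x20e40040a103, 0x1f09d3994440⟩, ⟨0xa3524d08f40, 0x2442d9247020⟩, ⟨0x21b1d8a68d70, 0x221596203⟩, ⟨0xc408d0a3770, 0x11332850803⟩, ⟨0x45a1e29230, 0xf1a461d0900⟩, ⟨0x25c820610550, 0x815c8180023⟩, ⟨0x1d0ec10d0413, 0x20c03cb0b820⟩, ⟨0x205123008310, 0x1c0614093820⟩, ⟨0x39036bc20, 0x180cc10113⟩]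
    | .y, 2 => [⟨0xa9e4824e610, 0x520918b1023⟩, ⟨0x4cf95010103, 0x30000000b440⟩, ⟨0x30109c468140, 0x8e363316c00⟩, ⟨0xba83b240b43, 0x4528042f020⟩, ⟨0x8000, 0x0⟩, ⟨0x4c256210203, 0x1909820840⟩, ⟨0x224e62809043, 0x801896f2f20⟩, ⟨0x474030e2823, 0x80bcc505300⟩, ⟨0x27d604921223, 0x1001c9442940⟩, ⟨0x1123c2320643, 0x2640394cd020⟩, ⟨0x1998c10c00, 0x24036b273⟩]
    | .y, 3 => [⟨0x20d4a68b4100, 0x142a41041a23⟩, ⟨0x82470812300, 0x45a8d76d830⟩, ⟨0x80a57264023, 0x47528589600⟩, ⟨0xb8005c98223, 0x45c622419c0⟩, ⟨0x10, 0x0⟩, ⟨0x25eb84090c40, 0x80052506233⟩, ⟨0x44231268310, 0x80842583060⟩, ⟨0x451e0913d20, 0x80000080093⟩, ⟨0x2400169400, 0xa22894b03⟩, ⟨0xa26c94403, 0x25d8161300⟩, ⟨0x9000010, 0x12000080⟩]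
    | _, _ => []

theorem rok3_130_0 : rowsOK D3 tg3_130 c3_130.R c3_130.N 0 rw3_130_0 = true := by decide +kernel

theorem rws3_130 : rwsOK D3 c3_130 = true := by
  refine rwsOK_of (by decide +kernel) (by decide +kernel) (by decide +kernel) ?_
  exact rok3_130_0

theorem cok3_130 : certOK D3 c3_130 = true :=
  certOK_of (by decide +kernel) (by decide +kernel) rws3_130 (by decide +kernel)
    (by decide +kernel) (by decide +kernel)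

theorem all3_130 : c3_130.rows.all okRow3 = true := by decide +kernel

end Pool.Agent.Work.MP_d7201b_al.L3
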