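import Pool.Agent.Work.MP_d7201b_al_helper73.D3
import Pool.Agent.Work.MP_d7201b_al_helper73.Lib

/-!
# Content (1, 4, 0), `p = 3`
-/

set_option autoImplicit false
set_option maxRecDepth 100000

namespace Pool.Agent.Work.MP_d7201b_al.L3

/-- The content. -/
def tg3_140 : Tgt where
  c := (1, 4, 0)
  dm t := match t with | .z => 3 | .y => 10 | .m => 0
  off t e := match t with
    | .z => match e with | 0 => 49 | 1 => 36 | 2 => 23 | _ => 10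
    | .y => match e with | 0 => 39 | 1 => 26 | 2 => 13 | _ => 0
    | .m => match e with | 0 => 0 | 1 => 0 | 2 => 0 | _ => 0

/-- Rows. -/
def rw3_140_0 : List Row := [.lie [(.z, 1), (.y, 0), (.y, 0), (.y, 0)] (.y, 3),
  .lie [(.z, 2), (.y, 0), (.y, 0), (.y, 0)] (.y, 3),
  .lie [(.y, 2), (.z, 0), (.y, 0), (.y, 0)] (.y, 3),
  .lie [(.y, 3), (.z, 0), (.y, 0), (.y, 0)] (.y, 3),
  .lie [(.y, 1), (.y, 0), (.z, 0), (.y, 0)] (.y, 3),
  .lie [(.y, 2), (.y, 0), (.z, 0), (.y, 0)] (.y, 3),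
  .lie [(.y, 1), (.y, 0), (.y, 0), (.z, 0)] (.y, 3),
  .lie [(.y, 2), (.y, 0), (.y, 0), (.z, 0)] (.y, 3),
  .lie [(.y, 1), (.y, 0), (.y, 0), (.y, 0)] (.z, 3),
  .lie [(.y, 2), (.y, 0), (.y, 0), (.y, 0)] (.z, 3),
  .lie [(.y, 3), (.y, 0), (.y, 0), (.y, 0)] (.z, 3),
  .lie [(.z, 1), (.y, 0), (.y, 0), (.y, 0)] (.y, 2),
  .lie [(.z, 2), (.y, 0), (.y, 0), (.y, 0)] (.y, 2),
  .lie [(.y, 2), (.z, 0), (.y, 0), (.y, 0)] (.y, 2),
  .lie [(.y, 1), (.y, 0), (.z, 0), (.y, 0)] (.y, 2),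
  .lie [(.y, 1), (.y, 0), (.y, 0), (.z, 0)] (.y, 2),
  .lie [(.y, 1), (.y, 0), (.y, 0), (.y, 0)] (.z, 2),
  .lie [(.z, 1), (.y, 0), (.y, 0), (.y, 0)] (.y, 1),
  .lie [(.y, 1), (.y, 0), (.y, 0), (.z, 0)] (.y, 1),
  .lie [(.y, 2), (.y, 0), (.y, 0), (.z, 0)] (.y, 1),
  .lie [(.y, 3), (.y, 0), (.y, 0), (.z, 0)] (.y, 1),
  .lie [(.y, 1), (.y, 0), (.y, 0), (.z, 0)] (.y, 0),
  .np (.z, 0) [(.y, 0)],
  .np (.z, 1) [(.y, 0)],
  .np (.z, 2) [(.y, 0)],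
  .np (.z, 3) [(.y, 0)],
  .np (.z, 0) [(.y, 1)],
  .np (.z, 1) [(.y, 1)],
  .np (.z, 2) [(.y, 1)],
  .np (.z, 3) [(.y, 1)],
  .np (.z, 0) [(.y, 2)],
  .np (.z, 1) [(.y, 2)],
  .np (.z, 2) [(.y, 2)],
  .np (.z, 3) [(.y, 2)],
  .np (.z, 0) [(.y, 3)],
  .np (.z, 1) [(.y, 3)],
  .np (.z, 2) [(.y, 3)],
  .np (.z, 3) [(.y, 3)],
  .np (.z, 0) [(.y, 0), (.y, 1)],
  .np (.z, 1) [(.y, 0), (.y, 1)],
  .np (.z, 2) [(.y, 0), (.y, 1)],
  .np (.z, 0) [(.y, 0), (.y, 2)],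
  .np (.z, 1) [(.y, 0), (.y, 2)],
  .np (.z, 2) [(.y, 0), (.y, 2)],
  .np (.z, 0) [(.y, 0), (.y, 3)],
  .np (.z, 0) [(.y, 1), (.y, 2)],
  .pq 1 (.y, 0) [[(.y, 3), (.y, 3), (.y, 0), (.z, 2)]],
  .pq 1 (.y, 3) [[(.y, 1)], [(.y, 0), (.z, 3), (.y, 0)]],
  .pq 1 (.y, 3) [[(.y, 1)], [(.y, 0)], [(.y, 0), (.z, 3)]],
  .pq 1 (.y, 1) [[(.y, 3)], [(.y, 3)], [(.z, 2), (.y, 1)]]]

/-- The certificate. -/
def c3_140 : Cert V3 where
  tg := tg3_140
  pre := [[(.z, 1), (.y, 0), (.y, 0), (.y, 0), (.y, 3)],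
    [(.z, 2), (.y, 0), (.y, 0), (.y, 0), (.y, 3)],
    [(.y, 2), (.z, 0), (.y, 0), (.y, 0), (.y, 3)],
    [(.y, 3), (.z, 0), (.y, 0), (.y, 0), (.y, 3)],
    [(.y, 1), (.y, 0), (.z, 0), (.y, 0), (.y, 3)],
    [(.y, 2), (.y, 0), (.z, 0), (.y, 0), (.y, 3)],
    [(.y, 3), (.y, 0), (.z, 0), (.y, 0), (.y, 3)],
    [(.y, 1), (.y, 0), (.y, 0), (.z, 0), (.y, 3)],
    [(.y, 2), (.y, 0), (.y, 0), (.z, 0), (.y, 3)],
    [(.y, 3), (.y, 0), (.y, 0), (.z, 0), (.y, 3)],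
    [(.y, 1), (.y, 0), (.y, 0), (.y, 0), (.z, 3)],
    [(.y, 2), (.y, 0), (.y, 0), (.y, 0), (.z, 3)],
    [(.y, 3), (.y, 0), (.y, 0), (.y, 0), (.z, 3)],
    [(.z, 1), (.y, 0), (.y, 0), (.y, 0), (.y, 2)],
    [(.z, 2), (.y, 0), (.y, 0), (.y, 0), (.y, 2)],
    [(.y, 2), (.z, 0), (.y, 0), (.y, 0), (.y, 2)],
    [(.y, 3), (.z, 0), (.y, 0), (.y, 0), (.y, 2)],
    [(.y, 1), (.y, 0), (.z, 0), (.y, 0), (.y, 2)],
    [(.y, 2), (.y, 0), (.z, 0), (.y, 0), (.y, 2)],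
    [(.y, 3), (.y, 0), (.z, 0), (.y, 0), (.y, 2)],
    [(.y, 1), (.y, 0), (.y, 0), (.z, 0), (.y, 2)],
    [(.y, 2), (.y, 0), (.y, 0), (.z, 0), (.y, 2)],
    [(.y, 3), (.y, 0), (.y, 0), (.z, 0), (.y, 2)],
    [(.y, 1), (.y, 0), (.y, 0), (.y, 0), (.z, 2)],
    [(.y, 2), (.y, 0), (.y, 0), (.y, 0), (.z, 2)],
    [(.y, 3), (.y, 0), (.y, 0), (.y, 0), (.z, 2)],
    [(.z, 1), (.y, 0), (.y, 0), (.y, 0), (.y, 1)],
    [(.z, 2), (.y, 0), (.y, 0), (.y, 0), (.y, 1)],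
    [(.y, 2), (.z, 0), (.y, 0), (.y, 0), (.y, 1)],
    [(.y, 3), (.z, 0), (.y, 0), (.y, 0), (.y, 1)],
    [(.y, 1), (.y, 0), (.z, 0), (.y, 0), (.y, 1)],
    [(.y, 2), (.y, 0), (.z, 0), (.y, 0), (.y, 1)],
    [(.y, 3), (.y, 0), (.z, 0), (.y, 0), (.y, 1)],
    [(.y, 1), (.y, 0), (.y, 0), (.z, 0), (.y, 1)],
    [(.y, 2), (.y, 0), (.y, 0), (.z, 0), (.y, 1)],
    [(.y, 3), (.y, 0), (.y, 0), (.z, 0), (.y, 1)],
    [(.y, 1), (.y, 0), (.y, 0), (.y, 0), (.z, 1)],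
    [(.y, 2), (.y, 0), (.y, 0), (.y, 0), (.z, 1)],
    [(.y, 3), (.y, 0), (.y, 0), (.y, 0), (.z, 1)],
    [(.z, 1), (.y, 0), (.y, 0), (.y, 0), (.y, 0)],
    [(.z, 2), (.y, 0), (.y, 0), (.y, 0), (.y, 0)],
    [(.y, 2), (.z, 0), (.y, 0), (.y, 0), (.y, 0)],
    [(.y, 3), (.z, 0), (.y, 0), (.y, 0), (.y, 0)],
    [(.y, 1), (.y, 0), (.z, 0), (.y, 0), (.y, 0)],
    [(.y, 2), (.y, 0), (.z, 0), (.y, 0), (.y, 0)],
    [(.y, 3), (.y, 0), (.z, 0), (.y, 0), (.y, 0)],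
    [(.y, 1), (.y, 0), (.y, 0), (.z, 0), (.y, 0)],
    [(.y, 2), (.y, 0), (.y, 0), (.z, 0), (.y, 0)],
    [(.y, 3), (.y, 0), (.y, 0), (.z, 0), (.y, 0)],
    [(.y, 1), (.y, 0), (.y, 0), (.y, 0), (.z, 0)],
    [(.y, 2), (.y, 0), (.y, 0), (.y, 0), (.z, 0)],
    [(.y, 3), (.y, 0), (.y, 0), (.y, 0), (.z, 0)]]
  piv := [49, 50]
  R := ⟨0xe9c210110c6e40004cd080045000016404601800210620061204000002001000010400000002081400000500000198000066000000400000100001580ac0000000080040000000000400200000000000000000040000000000000200000000000010000000000000000000048000000000005040000000000662000000000040000000009000000000000ac8000000000040400000000008000000001200000000000001000000000000080000000001000000000000042080000000004208000001000440400200000042040000000019a000400000005d000080000008400001000000100000020000400000000800003a00000040000e20000002000020000000100802000000108000a0002000040010200000001001020000000080020000000002002000000000108000000000008800000000000410000000000021000000000001,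 0x123108223090820002005110800004112a91214a001810a000fa0000e00700000000000000000003900000e4000060800018200018000006000000a1050800000001880c40000001400a000000000000000000008000000000020000000000002000000000000008000000021000000000000e0000000000018000000000002100000000220000000000050000000000000c0000000000022000000000400000000000000000000000000000000000000400000000002800020000000880000000008450000001080002800010000000004900000000002200080000003000010000000008008000000000200002000000c5000100000001ca0000000000040000000240002000048000004209000000004800000010000280002000000001000000800000080100000000004000000020000200004000000010002000000000c000000000⟩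
  N := 52
  rows := rw3_140_0
  kap t e := match t, e with
    | .z, 0 => [⟨0x0, 0x0⟩, ⟨0x0, 0x0⟩, ⟨0x200460220404, 0x44109d058078⟩]
    | .z, 1 => [⟨0xd8049cc0080, 0x3d246a6117f5a⟩, ⟨0x384129022f366, 0x790448890010⟩, ⟨0x20086062040c, 0x44109d858071⟩]
    | .z, 2 => [⟨0x382124432fb22, 0x7844888800d4⟩, ⟨0x3107298942c, 0x3ac0305646bc2⟩, ⟨0x20006162040c, 0x44009c058072⟩]
    | .z, 3 => [⟨0x20600100, 0x6000000⟩, ⟨0x200600280, 0x42100044⟩, ⟨0x20206062000c, 0x44109f058470⟩]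
    | .y, 0 => [⟨0x800000, 0x0⟩, ⟨0x1000000, 0x0⟩, ⟨0x20000140044, 0x4068a080⟩, ⟨0x54149d058070, 0x20006062040c⟩, ⟨0x2fd0053a05a4b, 0x100cd20422404⟩, ⟨0xd8b8da921d0, 0x1224430108405⟩, ⟨0x2000000, 0x400000⟩, ⟨0x400008a000, 0x4240000⟩, ⟨0x2000018a044, 0x40240080⟩, ⟨0x54149d058070, 0x20006022040c⟩]
    | .y, 1 => [⟨0x3d2c6a615df5a, 0xd0041422080⟩, ⟨0x7844998100d4, 0x38312443e5b22⟩, ⟨0x200000382044, 0x44008080⟩, ⟨0x541484010070, 0x218042ce240c⟩, ⟨0x8608c060122, 0x2219211d8da00⟩, ⟨0x1da147ac3249c, 0x224e20020da60⟩, ⟨0x20000000, 0x4000000⟩, ⟨0x48a000, 0x4000240000⟩, ⟨0x200000500044, 0x4040282080⟩, ⟨0x541480058070, 0x21c046a2040c⟩]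
    | .y, 2 => [⟨0x7d0448010010, 0x3801210ae5b66⟩, ⟨0x3a40204605bc2, 0x3117390242c⟩, ⟨0x202080, 0x40100044⟩, ⟨0x58175cc100b4, 0x2600a31e2408⟩, ⟨0x1281f20904406, 0xd660c6282169⟩, ⟨0x2046109591ab1, 0xd11806860108⟩, ⟨0x200000000, 0x40000000⟩, ⟨0x200000440000, 0x20004208000⟩, ⟨0x58a044, 0x20000240080⟩, ⟨0x5a171c858070, 0x2400e362040c⟩]
    | .y, 3 => [⟨0x44189d458070, 0x30046022040c⟩, ⟨0x44009d458070, 0x30146022040c⟩, ⟨0x380320d28400, 0x42101e0920b0⟩, ⟨0x0, 0x400000000⟩, ⟨0x2fd0051a05a5b, 0x100cd04022404⟩, ⟨0xd898de921f0, 0x1224672108405⟩, ⟨0x2000000000, 0x400000000⟩, ⟨0x2028a040, 0x1801b840000⟩, ⟨0xc0381a8a000, 0x200425400c4⟩, ⟨0x44109d458070, 0x30046022040c⟩]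
    | _, _ => []

theorem rok3_140_0 : rowsOK D3 tg3_140 c3_140.R c3_140.N 0 rw3_140_0 = true := by decide +kernel

theorem rws3_140 : rwsOK D3 c3_140 = true := by
  refine rwsOK_of (by decide +kernel) (by decide +kernel) (by decide +kernel) ?_
  exact rok3_140_0

theorem cok3_140 : certOK D3 c3_140 = true :=
  certOK_of (by decide +kernel) (by decide +kernel) rws3_140 (by decide +kernel)
    (by decide +kernel) (by decide +kernel)

theorem all3_140 : c3_140.rows.all okRow3 = true := by decide +kernel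

end Pool.Agent.Work.MP_d7201b_al.L3
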