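import Pool.Agent.Work.MP_d7201b_al_helper73.D3
import Pool.Agent.Work.MP_d7201b_al_helper73.Lib

/-!
# Top content (1, 4, 1), `p = 3`
-/

set_option autoImplicit false
set_option maxRecDepth 100000

namespace Pool.Agent.Work.MP_d7201b_al.L3

/-- The content. -/
def tgT3_141 : Tgt where
  c := (1, 4, 1)
  dm t := match t with | .z => 2 | .y => 24 | .m => 2
  off t e := match t with
    | .z => match e with | 0 => 110 | 1 => 82 | 2 => 54 | _ => 26
    | .y => match e with | 0 => 86 | 1 => 58 | 2 => 30 | _ => 2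
    | .m => match e with | 0 => 84 | 1 => 56 | 2 => 28 | _ => 0

/-- Rows. -/
def rwT3_141_0 : List Row := [.lie [(.y, 1), (.y, 0), (.y, 0), (.y, 0), (.z, 0)] (.m, 3),
  .lie [(.y, 2), (.y, 0), (.y, 0), (.y, 0), (.z, 0)] (.m, 3),
  .lie [(.z, 1), (.m, 0), (.y, 0), (.y, 0), (.y, 0)] (.y, 3),
  .lie [(.m, 2), (.z, 0), (.y, 0), (.y, 0), (.y, 0)] (.y, 3),
  .lie [(.m, 3), (.z, 0), (.y, 0), (.y, 0), (.y, 0)] (.y, 3),
  .lie [(.y, 2), (.m, 0), (.z, 0), (.y, 0), (.y, 0)] (.y, 3),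
  .lie [(.m, 2), (.y, 0), (.z, 0), (.y, 0), (.y, 0)] (.y, 3),
  .lie [(.m, 3), (.y, 0), (.z, 0), (.y, 0), (.y, 0)] (.y, 3),
  .lie [(.y, 2), (.y, 0), (.m, 0), (.z, 0), (.y, 0)] (.y, 3),
  .lie [(.m, 2), (.y, 1), (.y, 0), (.z, 0), (.y, 0)] (.y, 3),
  .lie [(.y, 1), (.m, 0), (.y, 0), (.z, 0), (.y, 0)] (.y, 3),
  .lie [(.y, 2), (.m, 0), (.y, 0), (.z, 0), (.y, 0)] (.y, 3),
  .lie [(.m, 0), (.y, 0), (.y, 0), (.z, 0), (.y, 0)] (.y, 3),
  .lie [(.m, 1), (.y, 0), (.y, 0), (.z, 0), (.y, 0)] (.y, 3),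
  .lie [(.m, 2), (.y, 0), (.y, 0), (.z, 0), (.y, 0)] (.y, 3),
  .lie [(.m, 3), (.y, 0), (.y, 0), (.z, 0), (.y, 0)] (.y, 3),
  .lie [(.y, 2), (.y, 0), (.m, 0), (.y, 0), (.z, 0)] (.y, 3),
  .lie [(.m, 2), (.y, 1), (.y, 0), (.y, 0), (.z, 0)] (.y, 3),
  .lie [(.y, 1), (.m, 0), (.y, 0), (.y, 0), (.z, 0)] (.y, 3),
  .lie [(.y, 2), (.m, 0), (.y, 0), (.y, 0), (.z, 0)] (.y, 3),
  .lie [(.y, 3), (.m, 0), (.y, 0), (.y, 0), (.z, 0)] (.y, 3),
  .lie [(.m, 0), (.y, 0), (.y, 0), (.y, 0), (.z, 0)] (.y, 3),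
  .lie [(.m, 1), (.y, 0), (.y, 0), (.y, 0), (.z, 0)] (.y, 3),
  .lie [(.m, 2), (.y, 0), (.y, 0), (.y, 0), (.z, 0)] (.y, 3),
  .lie [(.m, 3), (.y, 0), (.y, 0), (.y, 0), (.z, 0)] (.y, 3),
  .lie [(.y, 1), (.m, 0), (.y, 0), (.y, 0), (.y, 0)] (.z, 3),
  .lie [(.y, 2), (.m, 0), (.y, 0), (.y, 0), (.y, 0)] (.z, 3),
  .lie [(.y, 1), (.y, 0), (.y, 0), (.y, 0), (.z, 0)] (.m, 2),
  .lie [(.y, 2), (.y, 0), (.y, 0), (.y, 0), (.z, 0)] (.m, 2),
  .lie [(.z, 1), (.m, 0), (.y, 0), (.y, 0), (.y, 0)] (.y, 2),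
  .lie [(.z, 2), (.m, 0), (.y, 0), (.y, 0), (.y, 0)] (.y, 2),
  .lie [(.y, 2), (.m, 0), (.z, 0), (.y, 0), (.y, 0)] (.y, 2),
  .lie [(.m, 2), (.y, 0), (.z, 0), (.y, 0), (.y, 0)] (.y, 2),
  .lie [(.m, 3), (.y, 0), (.z, 0), (.y, 0), (.y, 0)] (.y, 2),
  .lie [(.y, 2), (.y, 0), (.m, 0), (.z, 0), (.y, 0)] (.y, 2),
  .lie [(.m, 2), (.y, 1), (.y, 0), (.z, 0), (.y, 0)] (.y, 2),
  .lie [(.y, 1), (.m, 0), (.y, 0), (.z, 0), (.y, 0)] (.y, 2),
  .lie [(.y, 2), (.m, 0), (.y, 0), (.z, 0), (.y, 0)] (.y, 2),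
  .lie [(.m, 0), (.y, 0), (.y, 0), (.z, 0), (.y, 0)] (.y, 2),
  .lie [(.m, 1), (.y, 0), (.y, 0), (.z, 0), (.y, 0)] (.y, 2),
  .lie [(.m, 2), (.y, 0), (.y, 0), (.z, 0), (.y, 0)] (.y, 2),
  .lie [(.m, 3), (.y, 0), (.y, 0), (.z, 0), (.y, 0)] (.y, 2),
  .lie [(.y, 2), (.y, 0), (.m, 0), (.y, 0), (.z, 0)] (.y, 2),
  .lie [(.m, 2), (.y, 1), (.y, 0), (.y, 0), (.z, 0)] (.y, 2),
  .lie [(.y, 1), (.m, 0), (.y, 0), (.y, 0), (.z, 0)] (.y, 2),
  .lie [(.y, 2), (.m, 0), (.y, 0), (.y, 0), (.z, 0)] (.y, 2),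
  .lie [(.y, 3), (.m, 0), (.y, 0), (.y, 0), (.z, 0)] (.y, 2),
  .lie [(.m, 0), (.y, 0), (.y, 0), (.y, 0), (.z, 0)] (.y, 2),
  .lie [(.m, 1), (.y, 0), (.y, 0), (.y, 0), (.z, 0)] (.y, 2),
  .lie [(.m, 2), (.y, 0), (.y, 0), (.y, 0), (.z, 0)] (.y, 2),
  .lie [(.m, 3), (.y, 0), (.y, 0), (.y, 0), (.z, 0)] (.y, 2),
  .lie [(.y, 1), (.m, 0), (.y, 0), (.y, 0), (.y, 0)] (.z, 2),
  .lie [(.y, 2), (.m, 0), (.y, 0), (.y, 0), (.y, 0)] (.z, 2),
  .lie [(.y, 1), (.y, 0), (.y, 0), (.y, 0), (.z, 0)] (.m, 1),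
  .lie [(.z, 1), (.m, 0), (.y, 0), (.y, 0), (.y, 0)] (.y, 1),
  .lie [(.z, 2), (.m, 0), (.y, 0), (.y, 0), (.y, 0)] (.y, 1),
  .lie [(.y, 2), (.m, 0), (.z, 0), (.y, 0), (.y, 0)] (.y, 1),
  .lie [(.m, 2), (.y, 0), (.z, 0), (.y, 0), (.y, 0)] (.y, 1),
  .lie [(.m, 3), (.y, 0), (.z, 0), (.y, 0), (.y, 0)] (.y, 1),
  .lie [(.y, 2), (.y, 0), (.m, 0), (.z, 0), (.y, 0)] (.y, 1),
  .lie [(.m, 2), (.y, 1), (.y, 0), (.z, 0), (.y, 0)] (.y, 1),
  .lie [(.y, 1), (.m, 0), (.y, 0), (.z, 0), (.y, 0)] (.y, 1),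
  .lie [(.y, 2), (.m, 0), (.y, 0), (.z, 0), (.y, 0)] (.y, 1),
  .lie [(.m, 0), (.y, 0), (.y, 0), (.z, 0), (.y, 0)] (.y, 1),
  .lie [(.m, 1), (.y, 0), (.y, 0), (.z, 0), (.y, 0)] (.y, 1),
  .lie [(.m, 2), (.y, 0), (.y, 0), (.z, 0), (.y, 0)] (.y, 1),
  .lie [(.y, 2), (.y, 0), (.m, 0), (.y, 0), (.z, 0)] (.y, 1),
  .lie [(.m, 2), (.y, 1), (.y, 0), (.y, 0), (.z, 0)] (.y, 1),
  .lie [(.y, 1), (.m, 0), (.y, 0), (.y, 0), (.z, 0)] (.y, 1),
  .lie [(.y, 3), (.m, 0), (.y, 0), (.y, 0), (.z, 0)] (.y, 1),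
  .lie [(.m, 1), (.y, 0), (.y, 0), (.y, 0), (.z, 0)] (.y, 1),
  .lie [(.y, 1), (.m, 0), (.y, 0), (.y, 0), (.y, 0)] (.z, 1),
  .lie [(.y, 2), (.m, 0), (.y, 0), (.y, 0), (.y, 0)] (.z, 1),
  .lie [(.m, 1), (.y, 0), (.y, 0), (.y, 0), (.z, 0)] (.y, 0),
  .hyp [(.z, 0), (.y, 0), (.y, 0), (.y, 0), (.m, 0), (.y, 0)],
  .hyp [(.z, 0), (.y, 0), (.y, 0), (.y, 0), (.m, 1), (.y, 0)],
  .hyp [(.z, 0), (.y, 0), (.y, 0), (.y, 0), (.m, 2), (.y, 0)],
  .hyp [(.z, 0), (.y, 0), (.y, 0), (.y, 0), (.m, 3), (.y, 0)],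
  .hyp [(.z, 1), (.y, 0), (.y, 0), (.y, 0), (.m, 0), (.y, 0)],
  .hyp [(.z, 1), (.y, 0), (.y, 0), (.y, 0), (.m, 1), (.y, 0)],
  .hyp [(.z, 1), (.y, 0), (.y, 0), (.y, 0), (.m, 2), (.y, 0)],
  .hyp [(.z, 2), (.y, 0), (.y, 0), (.y, 0), (.m, 0), (.y, 0)],
  .hyp [(.z, 0), (.y, 1), (.y, 1), (.y, 1), (.m, 0), (.y, 1)],
  .hyp [(.z, 0), (.y, 1), (.y, 1), (.y, 1), (.m, 1), (.y, 1)],
  .hyp [(.z, 0), (.y, 1), (.y, 1), (.y, 1), (.m, 2), (.y, 1)],
  .hyp [(.z, 0), (.y, 1), (.y, 1), (.y, 1), (.m, 3), (.y, 1)],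
  .hyp [(.z, 1), (.y, 1), (.y, 1), (.y, 1), (.m, 0), (.y, 1)],
  .hyp [(.z, 1), (.y, 1), (.y, 1), (.y, 1), (.m, 1), (.y, 1)],
  .hyp [(.z, 1), (.y, 1), (.y, 1), (.y, 1), (.m, 2), (.y, 1)],
  .hyp [(.z, 2), (.y, 1), (.y, 1), (.y, 1), (.m, 0), (.y, 1)],
  .hyp [(.z, 0), (.y, 2), (.y, 2), (.y, 2), (.m, 0), (.y, 2)],
  .hyp [(.z, 0), (.y, 2), (.y, 2), (.y, 2), (.m, 1), (.y, 2)],
  .hyp [(.z, 0), (.y, 2), (.y, 2), (.y, 2), (.m, 2), (.y, 2)],
  .hyp [(.z, 0), (.y, 2), (.y, 2), (.y, 2), (.m, 3), (.y, 2)],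
  .hyp [(.z, 1), (.y, 2), (.y, 2), (.y, 2), (.m, 0), (.y, 2)],
  .hyp [(.z, 2), (.y, 2), (.y, 2), (.y, 2), (.m, 0), (.y, 2)],
  .hyp [(.z, 0), (.y, 0), (.y, 0), (.m, 0), (.y, 0), (.y, 0)],
  .hyp [(.z, 0), (.y, 0), (.y, 0), (.m, 1), (.y, 0), (.y, 0)],
  .hyp [(.z, 1), (.y, 0), (.y, 0), (.m, 0), (.y, 0), (.y, 0)],
  .hyp [(.z, 2), (.y, 0), (.y, 0), (.m, 0), (.y, 0), (.y, 0)],
  .hyp [(.z, 0), (.y, 1), (.y, 1), (.m, 0), (.y, 1), (.y, 1)],
  .hyp [(.z, 0), (.y, 0), (.m, 0), (.y, 0), (.y, 0), (.y, 0)],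
  .hyp [(.z, 0), (.y, 0), (.m, 1), (.y, 0), (.y, 0), (.y, 0)],
  .pq 1 (.y, 3) [[(.z, 3), (.y, 0), (.y, 3), (.m, 0), (.y, 1)]],
  .pq 1 (.y, 0) [[(.y, 3), (.m, 1)], [(.y, 2), (.z, 1), (.y, 3)]],
  .pq 1 (.y, 3) [[(.y, 1)], [(.z, 3), (.y, 0), (.y, 3), (.m, 0)]],
  .pq 1 (.y, 0) [[(.y, 3)], [(.y, 2), (.m, 0), (.z, 1), (.y, 2)]],
  .pq 1 (.z, 0) [[(.y, 3)], [(.y, 2), (.y, 1), (.m, 2), (.y, 0)]],
  .pq 1 (.y, 3) [[(.y, 1)], [(.y, 3), (.m, 0)], [(.z, 3), (.y, 0)]],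
  .pq 1 (.y, 0) [[(.m, 1)], [(.y, 3)], [(.y, 2), (.z, 1), (.y, 3)]],
  .pq 1 (.y, 1) [[(.z, 3)], [(.y, 2)], [(.y, 0), (.y, 3), (.m, 0)]]]

/-- The certificate. -/
def cT3_141 : Cert V3 where
  tg := tgT3_141
  pre := [[(.y, 1), (.y, 0), (.y, 0), (.y, 0), (.z, 0), (.m, 3)],
    [(.y, 2), (.y, 0), (.y, 0), (.y, 0), (.z, 0), (.m, 3)],
    [(.z, 1), (.m, 0), (.y, 0), (.y, 0), (.y, 0), (.y, 3)],
    [(.z, 2), (.m, 0), (.y, 0), (.y, 0), (.y, 0), (.y, 3)],
    [(.m, 2), (.z, 0), (.y, 0), (.y, 0), (.y, 0), (.y, 3)],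
    [(.m, 3), (.z, 0), (.y, 0), (.y, 0), (.y, 0), (.y, 3)],
    [(.y, 2), (.m, 0), (.z, 0), (.y, 0), (.y, 0), (.y, 3)],
    [(.m, 2), (.y, 0), (.z, 0), (.y, 0), (.y, 0), (.y, 3)],
    [(.m, 3), (.y, 0), (.z, 0), (.y, 0), (.y, 0), (.y, 3)],
    [(.y, 2), (.y, 0), (.m, 0), (.z, 0), (.y, 0), (.y, 3)],
    [(.m, 2), (.y, 1), (.y, 0), (.z, 0), (.y, 0), (.y, 3)],
    [(.y, 1), (.m, 0), (.y, 0), (.z, 0), (.y, 0), (.y, 3)],
    [(.y, 2), (.m, 0), (.y, 0), (.z, 0), (.y, 0), (.y, 3)],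
    [(.m, 0), (.y, 0), (.y, 0), (.z, 0), (.y, 0), (.y, 3)],
    [(.m, 1), (.y, 0), (.y, 0), (.z, 0), (.y, 0), (.y, 3)],
    [(.m, 2), (.y, 0), (.y, 0), (.z, 0), (.y, 0), (.y, 3)],
    [(.m, 3), (.y, 0), (.y, 0), (.z, 0), (.y, 0), (.y, 3)],
    [(.y, 2), (.y, 0), (.m, 0), (.y, 0), (.z, 0), (.y, 3)],
    [(.m, 2), (.y, 1), (.y, 0), (.y, 0), (.z, 0), (.y, 3)],
    [(.y, 1), (.m, 0), (.y, 0), (.y, 0), (.z, 0), (.y, 3)],
    [(.y, 2), (.m, 0), (.y, 0), (.y, 0), (.z, 0), (.y, 3)],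
    [(.y, 3), (.m, 0), (.y, 0), (.y, 0), (.z, 0), (.y, 3)],
    [(.m, 0), (.y, 0), (.y, 0), (.y, 0), (.z, 0), (.y, 3)],
    [(.m, 1), (.y, 0), (.y, 0), (.y, 0), (.z, 0), (.y, 3)],
    [(.m, 2), (.y, 0), (.y, 0), (.y, 0), (.z, 0), (.y, 3)],
    [(.m, 3), (.y, 0), (.y, 0), (.y, 0), (.z, 0), (.y, 3)],
    [(.y, 1), (.m, 0), (.y, 0), (.y, 0), (.y, 0), (.z, 3)],
    [(.y, 2), (.m, 0), (.y, 0), (.y, 0), (.y, 0), (.z, 3)],
    [(.y, 1), (.y, 0), (.y, 0), (.y, 0), (.z, 0), (.m, 2)],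
    [(.y, 2), (.y, 0), (.y, 0), (.y, 0), (.z, 0), (.m, 2)],
    [(.z, 1), (.m, 0), (.y, 0), (.y, 0), (.y, 0), (.y, 2)],
    [(.z, 2), (.m, 0), (.y, 0), (.y, 0), (.y, 0), (.y, 2)],
    [(.m, 2), (.z, 0), (.y, 0), (.y, 0), (.y, 0), (.y, 2)],
    [(.m, 3), (.z, 0), (.y, 0), (.y, 0), (.y, 0), (.y, 2)],
    [(.y, 2), (.m, 0), (.z, 0), (.y, 0), (.y, 0), (.y, 2)],
    [(.m, 2), (.y, 0), (.z, 0), (.y, 0), (.y, 0), (.y, 2)],
    [(.m, 3), (.y, 0), (.z, 0), (.y, 0), (.y, 0), (.y, 2)],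
    [(.y, 2), (.y, 0), (.m, 0), (.z, 0), (.y, 0), (.y, 2)],
    [(.m, 2), (.y, 1), (.y, 0), (.z, 0), (.y, 0), (.y, 2)],
    [(.y, 1), (.m, 0), (.y, 0), (.z, 0), (.y, 0), (.y, 2)],
    [(.y, 2), (.m, 0), (.y, 0), (.z, 0), (.y, 0), (.y, 2)],
    [(.m, 0), (.y, 0), (.y, 0), (.z, 0), (.y, 0), (.y, 2)],
    [(.m, 1), (.y, 0), (.y, 0), (.z, 0), (.y, 0), (.y, 2)],
    [(.m, 2), (.y, 0), (.y, 0), (.z, 0), (.y, 0), (.y, 2)],
    [(.m, 3), (.y, 0), (.y, 0), (.z, 0), (.y, 0), (.y, 2)],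
    [(.y, 2), (.y, 0), (.m, 0), (.y, 0), (.z, 0), (.y, 2)],
    [(.m, 2), (.y, 1), (.y, 0), (.y, 0), (.z, 0), (.y, 2)],
    [(.y, 1), (.m, 0), (.y, 0), (.y, 0), (.z, 0), (.y, 2)],
    [(.y, 2), (.m, 0), (.y, 0), (.y, 0), (.z, 0), (.y, 2)],
    [(.y, 3), (.m, 0), (.y, 0), (.y, 0), (.z, 0), (.y, 2)],
    [(.m, 0), (.y, 0), (.y, 0), (.y, 0), (.z, 0), (.y, 2)],
    [(.m, 1), (.y, 0), (.y, 0), (.y, 0), (.z, 0), (.y, 2)],
    [(.m, 2), (.y, 0), (.y, 0), (.y, 0), (.z, 0), (.y, 2)],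
    [(.m, 3), (.y, 0), (.y, 0), (.y, 0), (.z, 0), (.y, 2)],
    [(.y, 1), (.m, 0), (.y, 0), (.y, 0), (.y, 0), (.z, 2)],
    [(.y, 2), (.m, 0), (.y, 0), (.y, 0), (.y, 0), (.z, 2)],
    [(.y, 1), (.y, 0), (.y, 0), (.y, 0), (.z, 0), (.m, 1)],
    [(.y, 2), (.y, 0), (.y, 0), (.y, 0), (.z, 0), (.m, 1)],
    [(.z, 1), (.m, 0), (.y, 0), (.y, 0), (.y, 0), (.y, 1)],
    [(.z, 2), (.m, 0), (.y, 0), (.y, 0), (.y, 0), (.y, 1)],
    [(.m, 2), (.z, 0), (.y, 0), (.y, 0), (.y, 0), (.y, 1)],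
    [(.m, 3), (.z, 0), (.y, 0), (.y, 0), (.y, 0), (.y, 1)],
    [(.y, 2), (.m, 0), (.z, 0), (.y, 0), (.y, 0), (.y, 1)],
    [(.m, 2), (.y, 0), (.z, 0), (.y, 0), (.y, 0), (.y, 1)],
    [(.m, 3), (.y, 0), (.z, 0), (.y, 0), (.y, 0), (.y, 1)],
    [(.y, 2), (.y, 0), (.m, 0), (.z, 0), (.y, 0), (.y, 1)],
    [(.m, 2), (.y, 1), (.y, 0), (.z, 0), (.y, 0), (.y, 1)],
    [(.y, 1), (.m, 0), (.y, 0), (.z, 0), (.y, 0), (.y, 1)],
    [(.y, 2), (.m, 0), (.y, 0), (.z, 0), (.y, 0), (.y, 1)],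
    [(.m, 0), (.y, 0), (.y, 0), (.z, 0), (.y, 0), (.y, 1)],
    [(.m, 1), (.y, 0), (.y, 0), (.z, 0), (.y, 0), (.y, 1)],
    [(.m, 2), (.y, 0), (.y, 0), (.z, 0), (.y, 0), (.y, 1)],
    [(.m, 3), (.y, 0), (.y, 0), (.z, 0), (.y, 0), (.y, 1)],
    [(.y, 2), (.y, 0), (.m, 0), (.y, 0), (.z, 0), (.y, 1)],
    [(.m, 2), (.y, 1), (.y, 0), (.y, 0), (.z, 0), (.y, 1)],
    [(.y, 1), (.m, 0), (.y, 0), (.y, 0), (.z, 0), (.y, 1)],
    [(.y, 2), (.m, 0), (.y, 0), (.y, 0), (.z, 0), (.y, 1)],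
    [(.y, 3), (.m, 0), (.y, 0), (.y, 0), (.z, 0), (.y, 1)],
    [(.m, 0), (.y, 0), (.y, 0), (.y, 0), (.z, 0), (.y, 1)],
    [(.m, 1), (.y, 0), (.y, 0), (.y, 0), (.z, 0), (.y, 1)],
    [(.m, 2), (.y, 0), (.y, 0), (.y, 0), (.z, 0), (.y, 1)],
    [(.m, 3), (.y, 0), (.y, 0), (.y, 0), (.z, 0), (.y, 1)],
    [(.y, 1), (.m, 0), (.y, 0), (.y, 0), (.y, 0), (.z, 1)],
    [(.y, 2), (.m, 0), (.y, 0), (.y, 0), (.y, 0), (.z, 1)],
    [(.y, 1), (.y, 0), (.y, 0), (.y, 0), (.z, 0), (.m, 0)],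
    [(.y, 2), (.y, 0), (.y, 0), (.y, 0), (.z, 0), (.m, 0)],
    [(.z, 1), (.m, 0), (.y, 0), (.y, 0), (.y, 0), (.y, 0)],
    [(.z, 2), (.m, 0), (.y, 0), (.y, 0), (.y, 0), (.y, 0)],
    [(.m, 2), (.z, 0), (.y, 0), (.y, 0), (.y, 0), (.y, 0)],
    [(.m, 3), (.z, 0), (.y, 0), (.y, 0), (.y, 0), (.y, 0)],
    [(.y, 2), (.m, 0), (.z, 0), (.y, 0), (.y, 0), (.y, 0)],
    [(.m, 2), (.y, 0), (.z, 0), (.y, 0), (.y, 0), (.y, 0)],
    [(.m, 3), (.y, 0), (.z, 0), (.y, 0), (.y, 0), (.y, 0)],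
    [(.y, 2), (.y, 0), (.m, 0), (.z, 0), (.y, 0), (.y, 0)],
    [(.m, 2), (.y, 1), (.y, 0), (.z, 0), (.y, 0), (.y, 0)],
    [(.y, 1), (.m, 0), (.y, 0), (.z, 0), (.y, 0), (.y, 0)],
    [(.y, 2), (.m, 0), (.y, 0), (.z, 0), (.y, 0), (.y, 0)],
    [(.m, 0), (.y, 0), (.y, 0), (.z, 0), (.y, 0), (.y, 0)],
    [(.m, 1), (.y, 0), (.y, 0), (.z, 0), (.y, 0), (.y, 0)],
    [(.m, 2), (.y, 0), (.y, 0), (.z, 0), (.y, 0), (.y, 0)],
    [(.m, 3), (.y, 0), (.y, 0), (.z, 0), (.y, 0), (.y, 0)],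
    [(.y, 2), (.y, 0), (.m, 0), (.y, 0), (.z, 0), (.y, 0)],
    [(.m, 2), (.y, 1), (.y, 0), (.y, 0), (.z, 0), (.y, 0)],
    [(.y, 1), (.m, 0), (.y, 0), (.y, 0), (.z, 0), (.y, 0)],
    [(.y, 2), (.m, 0), (.y, 0), (.y, 0), (.z, 0), (.y, 0)],
    [(.y, 3), (.m, 0), (.y, 0), (.y, 0), (.z, 0), (.y, 0)],
    [(.m, 0), (.y, 0), (.y, 0), (.y, 0), (.z, 0), (.y, 0)],
    [(.m, 1), (.y, 0), (.y, 0), (.y, 0), (.z, 0), (.y, 0)],
    [(.m, 2), (.y, 0), (.y, 0), (.y, 0), (.z, 0), (.y, 0)],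
    [(.m, 3), (.y, 0), (.y, 0), (.y, 0), (.z, 0), (.y, 0)],
    [(.y, 1), (.m, 0), (.y, 0), (.y, 0), (.y, 0), (.z, 0)],
    [(.y, 2), (.m, 0), (.y, 0), (.y, 0), (.y, 0), (.z, 0)]]
  piv := []
  R := ⟨0x20cb510d061c5204a11500a62f00c6a52002542600239c86481989116c381401490221804124380d50000c030a221f5c1315744c60430900014f6145406b142006294e140402c740000851a8c2a560012349022033091048dcc124889d805a0c1f1061e2441900a0022080000002306038000300000000000000000000000410100000000000000000000000000000004121800000000000000034c02e8000000000000000000000203bc1400000000000000000000000041b00000000000000000000002012000000000000000000000000000000000000002101b1800000000000000000000024840a40000000000000000000003100c0000000000000000000000007c00000000000000000000000000d020300000000000000000000001510c00000000000000001320b180000000000000000000001de08940000000000000000000002de088400000000000000000000035e48a400000000000000000000002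e0400000000000000000000000022a800000000000000000000000082003000000000000000000000002f04000000000000000005d931800000000000000000000008010940000000000000000000002c4388400000000000000000000004854a400000000000000000000020000000000000000000000000001000000000000000000000000000080003000000000000000000000004100000000000000000000000003000030000000000000000000000012ee90800000004854a400000001077bd244854a4000000000000005920070080000000000000000000410010102000000000000310a0200000040310a020000000000000002100080022a800000000000000008100332002000021238500000000008a2e000080000000001000000082022e000040010000000000000054402e10002000000000000000003203320000100004a0e20000000022c072004a06200000000000000010d14903691150000000100000002080c60000020014711900000000120182000001000000000000000086c90a000000800000000000000050d22910000040350800000000000410c020000008000000000000002041001000000400000000000000a060030001c00100000000000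0000050921000000085d93180000000209186005d9318400000000000003000c0000000002000000000000086c00800000000100000000000005c021300000000080000000000001410c0000000000400000000000080000420000000020000000eb0200100100000000000eb0200000000a00000200eb02000800000000000000008007c000000400010000000803104200000001410e0000000008029c1000000000010000000000260f1c100000000000800200000001439c10000000200040000000000803bc1200000000002000000000020120900000000011215000000002019490011315000008000000000660272006e822000004020000000043339000000003108060000000001332d000000000000100000000083312500000000000008000000008421c62000000000e90400000000003080200000000000008000000010304010000000000000400000007000000000000000000120000000026a8000000010000000100000002400002000000020100008000000040004120100000000000400000000021000000000000000020000000002080000000000000001000000381203000000000000000080000004001000000000000000004000002000000000000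0000000002000200000040000000000000200100000010010000000200000000008000000001c010020000000001004000080c1002000000022021200020000000000000000000000000001000000000000000000000000000080000000000000000000000000004000000000000000000000000000200002000000000000200000000010000200000200000000000000000800240000004000000000000000040000000000000000060000000002000002000000000000000000000100000200000000000000000000008000000000000000001000000000400602000000000000000000000020060200000000000000000000001000100000000000000000000000049400c000000000000002000000024260400000002000000000000001, 0xc7308a001821a13248882a4050d0181ac00d0b01c5046149028034a29106200022298274928204800d4011548111e020802880120308a0c45c1086028190e009505611499001109380062e1401020aae0c34841084b0680021309146600001d2a0a3121812043f054180231422080000001c180000000000000000000000200202000000000000000000000000000003080020000000000000000039d10000000000000000000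00010c03e0000000000000000000000381800000000000000000000000004001200000000000000000000000000000000000000b00a00000000000000000000000b6971000000000000000000000000e902000000000000000000000020230100000000000000000000000035c0000000000000000000000000eb0200000000000000000520a000000000000000000000020077200000000000000000000001007700000000000000000000000081b710000000000000000000000150802000000000000000000000031c0410000000000000000000000051e800000000000000000000000310a020000000000000003002ca0000000000000000000000024eb2000000000000000000000010847000000000000000000000003a1031000000000000000000000000000200000000000000000000000000010000000000000000000000001c0000000000000000000000000002020000000000000000000000081c1800000000000000000000001e0016100000003a1031000000000f880213a1031000000000000000841e88000000010000000000000020000400000000000000002f0400010000002704000000000000000010001403180410000000000000002438840000000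0000830000000008471c1000000000000000000000074bdc100000000000000000000000039c100000000000000000000004418c910000000221115000000004011091221195000000000000000a600b200060a2000000000000000147119000000002080e600000000613a7d00000000000000000000012130a500000000000000100000000421c20000000002e04000000000032b00800000004000000000000012a0806400000000000000000000579e80000000300000000000000014a16d200000003002ca00000000002a2923002ca00000000000000081e906000000000000000000000251231500000000000000200000002135cc000000020000000000000081eb0620000000000000000000000100000000000000000001510c00200004000000001410c00000000040001011510c000000000000000050000002023010000000200000000002220000000001c0070000000011c22e000000000000000000000083022e000000000000000000000041062e000000000000000000000011c02e0000000000000000000000900832200000002429220000000084c232224282200000000000000090d989011131500000000000000031080600000000043339000000009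40812000000000000000000000260c0c2000000000000002000000010d229000000001100c0000000002083009000000080000000000000214a00480000000000000000000087e3010000000000000000000000b1804100000000000000000000000200040000000000020200000000238010000020200000000000000000100200000000000000000000000010010000000000000000000000000c1800000000000000000000002000020000000000000000000000000010000000000000000040000081000020000000040000000000006000041040000000000000000000b100000001001000000000000000331ad100000000000000000000000610000000000000000000000000060800000000000000000000000006040000000000000000000000000602000000000000000000000000240100000000000400000000000024008000400000000000000000000200400200000000000000000000060020000000000000000000000000101000000000000000000000000010080000000000000000000000000004000000000002000000000000100200000000000000000000000010010000000000000000000000060200400000000000000000000001e90200000000000000000000003188020000000000000000000000⟩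
  N := 112
  rows := rwT3_141_0
  kap _ _ := []

/-- The relations. -/
def tT3_141 : TCert V3 := ⟨cT3_141, [([[(.z, 0), (.y, 0), (.y, 0), (.y, 0), (.y, 1), (.m, 0)]], ⟨0x1820047043c6862412808e99900e, 0x27dcdb0334303899856f70622dc0⟩),
  ([[(.z, 0), (.y, 0), (.y, 0), (.y, 0), (.m, 0), (.y, 1)]], ⟨0x1010940be5e29044145cbc50a082, 0x4b040b101a1d62abe220410e123d⟩),
  ([[(.z, 0), (.y, 0), (.y, 0), (.y, 1), (.y, 0), (.m, 0)]], ⟨0x27dcdb0334303899856f70622dc0, 0x1820047043c6862412808e99900e⟩),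
  ([[(.z, 0), (.y, 0), (.y, 0), (.y, 1), (.m, 0), (.y, 0)]], ⟨0x6312c33618103e10060254c060a0, 0xc8c04c84725c0e069180a398a54⟩),
  ([[(.z, 0), (.y, 0), (.y, 0), (.m, 0), (.y, 0), (.y, 1)]], ⟨0x3c48ea20aa682ac8048f10441254, 0x33611c654154024ea30c320e529⟩),
  ([[(.z, 0), (.y, 0), (.y, 0), (.m, 0), (.y, 1), (.y, 0)]], ⟨0xca396044ea03010104462104444, 0x6348089a011c846a403b1c6eb2a2⟩),
  ([[(.z, 0), (.y, 0), (.y, 1), (.y, 0), (.y, 0), (.m, 0)]], ⟨0x1820047043c6862412808e99900e, 0x27dcdb0334303899856f70622dc0⟩),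
  ([[(.z, 0), (.y, 0), (.y, 1), (.y, 0), (.m, 0), (.y, 0)]], ⟨0xc8c04c84325c0e069180a398a54, 0x6312c33618103e10060254c060a0⟩),
  ([[(.z, 0), (.y, 0), (.y, 1), (.m, 0), (.y, 0), (.y, 0)]], ⟨0xd91405b030b744d4b83c261151d, 0x62042b80ac340a12b464201ea820⟩),
  ([[(.z, 0), (.y, 0), (.m, 0), (.y, 0), (.y, 0), (.y, 1)]], ⟨0x103d4ea7e462238e8d405450a080, 0x4b021058039980716014a10e123d⟩),
  ([[(.z, 0), (.y, 0), (.m, 0), (.y, 0), (.y, 1), (.y, 0)]], ⟨0xc92a868b30a8b40016126000e84, 0x626907054010309d9094000fe179⟩),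
  ([[(.z, 0), (.y, 0), (.m, 0), (.y, 1), (.y, 0), (.y, 0)]], ⟨0x621404295111ca47a8c06000376b, 0xce37284a68631b846080ea74094⟩),
  ([[(.z, 0), (.y, 1), (.y, 0), (.y, 0), (.y, 0), (.m, 0)]], ⟨0x27dcdb0334303899856f70622dc0, 0x1820047043c6862412808e99900e⟩),
  ([[(.z, 0), (.y, 1), (.y, 0), (.y, 0), (.m, 0), (.y, 0)]], ⟨0x488904a2f2a0060ca001850b10d6, 0x1514ca090942e01246ea4804e809⟩),
  ([[(.z, 0), (.y, 1), (.y, 0), (.m, 0), (.y, 0), (.y, 0)]], ⟨0x26148234fc1588567c5441c29820, 0x500850830048270802883e34028b⟩),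
  ([[(.z, 0), (.y, 1), (.m, 0), (.y, 0), (.y, 0), (.y, 0)]], ⟨0x48d804a2f2a91c0c2c081da44ec6, 0x1506ca0d0540033012e740082009⟩),
  ([[(.z, 0), (.m, 0), (.y, 0), (.y, 0), (.y, 0), (.y, 1)]], ⟨0x8110ec9039410a8226c26198984, 0x646a70324c090a07409290847050⟩),
  ([[(.z, 0), (.m, 0), (.y, 0), (.y, 0), (.y, 1), (.y, 0)]], ⟨0x62200429190100451580f80fe179, 0xc967280a69400ba200406000e84⟩),
  ([[(.z, 0), (.m, 0), (.y, 0), (.y, 1), (.y, 0), (.y, 0)]], ⟨0xcb67280a287309845400ea74096, 0x62000429190800679281e0003769⟩),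
  ([[(.z, 0), (.m, 0), (.y, 1), (.y, 0), (.y, 0), (.y, 0)]], ⟨0x62202b84a4244110082830913230, 0xd87405b4b19844f30834a48c10f⟩)]⟩

theorem rokT3_141_0 : rowsOK D3 tgT3_141 cT3_141.R cT3_141.N 0 rwT3_141_0 = true := by decide +kernel

theorem rwsT3_141 : rwsOK D3 cT3_141 = true := by
  refine rwsOK_of (by decide +kernel) (by decide +kernel) (by decide +kernel) ?_
  exact rokT3_141_0

theorem topT3_141 : topOK D3 tT3_141 = true := by decide +kernel

theorem allT3_141 : cT3_141.rows.all (rowA okRow3 6 4) = true := by decide +kernel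

/-- The patterns. -/
def ptT3_141 : List (List (ℤ × ℕ × List ℕ)) := [[],
  [],
  [],
  [],
  [(1, 1, [0, 1, 2, 3])],
  [(1, 4, [0, 1, 2, 3])],
  [(1, 5, [0, 1, 2, 3])],
  [(1, 9, [0, 1, 2, 3])],
  [(1, 10, [0, 1, 2, 3])],
  [(1, 11, [0, 1, 2, 3])],
  [(-1, 1, [0, 1, 2, 3])],
  [(-1, 4, [0, 1, 2, 3])],
  [(-1, 5, [0, 1, 2, 3])],
  [(-1, 9, [0, 1, 2, 3])],
  [(-1, 10, [0, 1, 2, 3])],
  [(-1, 11, [0, 1, 2, 3])],
  [(-1, 16, [0, 1, 2, 3])],
  [(-1, 17, [0, 1, 2, 3])],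
  [(-1, 18, [0, 1, 2, 3])],
  [(-1, 19, [0, 1, 2, 3])]]

theorem pokT3_141 : patsOK 3 (tT3_141.rels.map fun r => plainP r.1) (pats 6 3) ptT3_141 = true := by
  decide +kernel

end Pool.Agent.Work.MP_d7201b_al.L3
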