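import Pool.Agent.Work.MP_d7201b_al_helper73.D3
import Pool.Agent.Work.MP_d7201b_al_helper73.Lib

/-!
# Top content (1, 5, 0), `p = 3`
-/

set_option autoImplicit false
set_option maxRecDepth 100000

namespace Pool.Agent.Work.MP_d7201b_al.L3

/-- The content. -/
def tgT3_150 : Tgt where
  c := (1, 5, 0)
  dm t := match t with | .z => 0 | .y => 2 | .m => 0
  off t e := match t with
    | .z => match e with | 0 => 8 | 1 => 6 | 2 => 4 | _ => 2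
    | .y => match e with | 0 => 6 | 1 => 4 | 2 => 2 | _ => 0
    | .m => match e with | 0 => 0 | 1 => 0 | 2 => 0 | _ => 0

/-- Rows. -/
def rwT3_150_0 : List Row := [.lie [(.y, 1), (.y, 0), (.y, 0), (.y, 0), (.z, 0)] (.y, 3),
  .lie [(.y, 2), (.y, 0), (.y, 0), (.y, 0), (.z, 0)] (.y, 3),
  .lie [(.y, 1), (.y, 0), (.y, 0), (.y, 0), (.z, 0)] (.y, 2),
  .pq 1 (.y, 0) [[(.y, 3)], [(.y, 2), (.y, 0), (.z, 1), (.y, 2)]],
  .pq 1 (.y, 3) [[(.y, 3)], [(.y, 3), (.y, 1), (.y, 3), (.z, 0)]],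
  .pq 1 (.y, 0) [[(.y, 3)], [(.y, 2)], [(.y, 2), (.y, 0), (.z, 1)]],
  .pq 1 (.z, 0) [[(.y, 0)], [(.y, 0)], [(.y, 3), (.y, 1), (.y, 3)]]]

/-- The certificate. -/
def cT3_150 : Cert V3 where
  tg := tgT3_150
  pre := [[(.y, 1), (.y, 0), (.y, 0), (.y, 0), (.z, 0), (.y, 3)],
    [(.y, 2), (.y, 0), (.y, 0), (.y, 0), (.z, 0), (.y, 3)],
    [(.y, 1), (.y, 0), (.y, 0), (.y, 0), (.z, 0), (.y, 2)],
    [(.y, 2), (.y, 0), (.y, 0), (.y, 0), (.z, 0), (.y, 2)],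
    [(.y, 1), (.y, 0), (.y, 0), (.y, 0), (.z, 0), (.y, 1)],
    [(.y, 2), (.y, 0), (.y, 0), (.y, 0), (.z, 0), (.y, 1)],
    [(.y, 1), (.y, 0), (.y, 0), (.y, 0), (.z, 0), (.y, 0)],
    [(.y, 2), (.y, 0), (.y, 0), (.y, 0), (.z, 0), (.y, 0)]]
  piv := []
  R := ⟨0x1c455081840201, 0x4092ad60608040⟩
  N := 8
  rows := rwT3_150_0
  kap _ _ := []

/-- The relations. -/
def tT3_150 : TCert V3 := ⟨cT3_150, [([[(.z, 0), (.y, 0), (.y, 0), (.y, 0), (.y, 0), (.y, 1)]], ⟨0x0, 0x0⟩),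
  ([[(.z, 0), (.y, 0), (.y, 0), (.y, 0), (.y, 1), (.y, 0)]], ⟨0x5d, 0x22⟩),
  ([[(.z, 0), (.y, 0), (.y, 0), (.y, 1), (.y, 0), (.y, 0)]], ⟨0x22, 0x5d⟩),
  ([[(.z, 0), (.y, 0), (.y, 1), (.y, 0), (.y, 0), (.y, 0)]], ⟨0x5d, 0x22⟩),
  ([[(.z, 0), (.y, 1), (.y, 0), (.y, 0), (.y, 0), (.y, 0)]], ⟨0x22, 0x5d⟩)]⟩

theorem rokT3_150_0 : rowsOK D3 tgT3_150 cT3_150.R cT3_150.N 0 rwT3_150_0 = true := by decide +kernel

theorem rwsT3_150 : rwsOK D3 cT3_150 = true := by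
  refine rwsOK_of (by decide +kernel) (by decide +kernel) (by decide +kernel) ?_
  exact rokT3_150_0

theorem topT3_150 : topOK D3 tT3_150 = true := by decide +kernel

theorem allT3_150 : cT3_150.rows.all (rowA okRow3 6 5) = true := by decide +kernel

/-- The patterns. -/
def ptT3_150 : List (List (ℤ × ℕ × List ℕ)) := [[],
  [],
  [],
  [],
  [],
  [],
  [(1, 0, [0, 1, 2, 2])],
  [(1, 1, [0, 1, 2, 2])],
  [(1, 2, [0, 1, 2, 2])],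
  [(1, 3, [0, 1, 2, 2])],
  [(-1, 0, [0, 1, 2, 2])],
  [(-1, 1, [0, 1, 2, 2])],
  [(-1, 2, [0, 1, 2, 2])],
  [(-1, 3, [0, 1, 2, 2])],
  [(-1, 4, [0, 1, 2, 2])]]

theorem pokT3_150 : patsOK 3 (tT3_150.rels.map fun r => plainP r.1) (pats 6 4) ptT3_150 = true := by
  decide +kernel

end Pool.Agent.Work.MP_d7201b_al.L3
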