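import Pool.Agent.Work.MP_d7201b_al_helper73.C3_011
import Pool.Agent.Work.MP_d7201b_al_helper73.C3_020
import Pool.Agent.Work.MP_d7201b_al_helper73.C3_101
import Pool.Agent.Work.MP_d7201b_al_helper73.C3_110
import Pool.Agent.Work.MP_d7201b_al_helper73.C3_021
import Pool.Agent.Work.MP_d7201b_al_helper73.C3_030
import Pool.Agent.Work.MP_d7201b_al_helper73.C3_111
import Pool.Agent.Work.MP_d7201b_al_helper73.C3_120
import Pool.Agent.Work.MP_d7201b_al_helper73.C3_031
import Pool.Agent.Work.MP_d7201b_al_helper73.C3_040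
import Pool.Agent.Work.MP_d7201b_al_helper73.C3_121
import Pool.Agent.Work.MP_d7201b_al_helper73.C3_130
import Pool.Agent.Work.MP_d7201b_al_helper73.C3_041
import Pool.Agent.Work.MP_d7201b_al_helper73.C3_050
import Pool.Agent.Work.MP_d7201b_al_helper73.C3_131
import Pool.Agent.Work.MP_d7201b_al_helper73.C3_140
import Pool.Agent.Work.MP_d7201b_al_helper73.T3_150
import Pool.Agent.Work.MP_d7201b_al_helper73.T3_141
import Pool.Agent.Work.MP_d7201b_al_helper73.T3_131
import Pool.Agent.Work.MP_d7201b_al_helper73.T3_121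

/-!
# All certificates for `p = 3`
-/

set_option autoImplicit false
set_option maxRecDepth 100000

namespace Pool.Agent.Work.MP_d7201b_al.L3

/-- The chain. -/
def ch3 : List (Cert V3) := [c3_011, c3_020, c3_101, c3_110, c3_021, c3_030, c3_111, c3_120, c3_031, c3_040, c3_121, c3_130, c3_041, c3_050, c3_131, c3_140]

theorem chok3 : chainOK V3 [] ch3 = true := by decide +kernel

theorem cert3 : ∀ C ∈ ch3, certOK D3 C = true := by
  intro C hC
  simp only [ch3, List.mem_cons, List.not_mem_nil, or_false] at hC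
  rcases hC with rfl | rfl | rfl | rfl | rfl | rfl | rfl | rfl | rfl | rfl | rfl | rfl | rfl | rfl | rfl | rfl
  · exact cok3_011
  · exact cok3_020
  · exact cok3_101
  · exact cok3_110
  · exact cok3_021
  · exact cok3_030
  · exact cok3_111
  · exact cok3_120
  · exact cok3_031
  · exact cok3_040
  · exact cok3_121
  · exact cok3_130
  · exact cok3_041
  · exact cok3_050
  · exact cok3_131
  · exact cok3_140

theorem call3 : ∀ C ∈ ch3, C.rows.all okRow3 = true := by
  intro C hC
  simp only [ch3, List.mem_cons, List.not_mem_nil, or_false] at hC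
  rcases hC with rfl | rfl | rfl | rfl | rfl | rfl | rfl | rfl | rfl | rfl | rfl | rfl | rfl | rfl | rfl | rfl
  · exact all3_011
  · exact all3_020
  · exact all3_101
  · exact all3_110
  · exact all3_021
  · exact all3_030
  · exact all3_111
  · exact all3_120
  · exact all3_031
  · exact all3_040
  · exact all3_121
  · exact all3_130
  · exact all3_041
  · exact all3_050
  · exact all3_131
  · exact all3_140

universe u

section

variable {G : Type u} [Group G] {M : Type u} [AddCommGroup M] {F : List G → M}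

theorem stepT3_150 (hF : Wld 3 D3 okRow3 F) (h : WJ F 6 5) : WJ F 6 4 :=
  step_WJ hF (by decide) (by decide) ch3 chok3 cert3 call3 tT3_150 (by decide +kernel)
    topT3_150 rwsT3_150 allT3_150 ptT3_150 pokT3_150 h

theorem stepT3_141 (hF : Wld 3 D3 okRow3 F) (h : WJ F 6 4) : WJ F 6 3 :=
  step_WJ hF (by decide) (by decide) ch3 chok3 cert3 call3 tT3_141 (by decide +kernel)
    topT3_141 rwsT3_141 allT3_141 ptT3_141 pokT3_141 h

theorem stepT3_131 (hF : Wld 3 D3 okRow3 F) (h : WJ F 5 3) : WJ F 5 2 :=
  step_WJ hF (by decide) (by decide) ch3 chok3 cert3 call3 tT3_131 (by decide +kernel)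
    topT3_131 rwsT3_131 allT3_131 ptT3_131 pokT3_131 h

theorem stepT3_121 (hF : Wld 3 D3 okRow3 F) (h : WJ F 4 2) : WJ F 4 1 :=
  step_WJ hF (by decide) (by decide) ch3 chok3 cert3 call3 tT3_121 (by decide +kernel)
    topT3_121 rwsT3_121 allT3_121 ptT3_121 pokT3_121 h

end

end Pool.Agent.Work.MP_d7201b_al.L3
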