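import Pool.Agent.Work.MP_d7201b_al_helper73.Fin2
import Pool.Agent.Work.MP_d7201b_al_helper73.Fin3
import Pool.Agent.Work.MP_d7201b_al_helper31x.A
import Pool.Agent.Work.MP_d7201b_al_helper31x.B

/-!
# The statements for `p = 2` and `p = 3`
-/

set_option autoImplicit false

namespace Pool.Agent.Work.MP_d7201b_al.L3

open L2

universe u

section

variable {G : Type u} [Group G] {M : Type u} [AddCommGroup M] {F : List G → M}

theorem base_holds (h : RS F) : HoldsP F [(1, [0, 1, 1, 1, 1, 1])] := by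
  intro a
  funext rest
  have h1 := h.np (a 0) [a 1] (a 1 :: rest)
  exact h1

/-- Words of length 6 with 5 equal letters vanish. -/
theorem base3 (h : RS F) (h3 : ∀ m : M, 3 • m = 0) : WJ F 6 5 := by
  apply WJ_of_pats
  apply patsOK_sound h3 h.lie [[(1, [0, 1, 1, 1, 1, 1])]] _ _
    [[], [], [], [], [(1, 0, [0, 1])], [(-1, 0, [0, 1])]] (by decide +kernel)
  intro Q hQ
  rw [List.mem_singleton] at hQ
  rw [hQ]
  exact base_holds h

/-- Words of length 6 with 5 equal letters vanish. -/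
theorem base2 (h : RS F) (h2 : ∀ m : M, 2 • m = 0) : WJ F 6 5 := by
  apply WJ_of_pats
  apply patsOK_sound h2 h.lie [[(1, [0, 1, 1, 1, 1, 1])]] _ _
    [[], [], [], [], [(1, 0, [0, 1])], [(-1, 0, [0, 1])]] (by decide +kernel)
  intro Q hQ
  rw [List.mem_singleton] at hQ
  rw [hQ]
  exact base_holds h

/-- The step from `WJ F 6 5` to `F = 0`. -/
theorem chain3 (hF : ∀ τ : List G, Wld 3 D3 okRow3 (fun w => F (w ++ τ)))
    (h : ∀ τ : List G, WJ (fun w => F (w ++ τ)) 6 5) (w : List G) (hw : 6 ≤ w.length) :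
    F w = 0 := by
  have h6 : ∀ τ, WJ (fun w => F (w ++ τ)) 6 3 := fun τ =>
    stepT3_141 (hF τ) (stepT3_150 (hF τ) (h τ))
  have h5 : ∀ (d : G) (t : List G), WJ (fun w => F (w ++ d :: t)) 5 2 := by
    intro d t
    refine stepT3_131 (hF _) ?_
    have := WJ_tail (h6 []) d t
    simpa only [List.append_nil] using this
  have h4 : ∀ (d d' : G) (t : List G), WJ (fun w => F (w ++ d :: d' :: t)) 4 1 := by
    intro d d' t
    refine stepT3_121 (hF _) ?_
    have := WJ_tail (h5 d' t) d []
    simpa only [List.append_assoc, List.cons_append, List.nil_append] using this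
  match w, hw with
  | a :: b :: c :: e :: f :: g :: t, _ =>
    have := WJ_all (h4 f g t) [a, b, c, e] le_rfl
    exact this

/-- The step from `WJ F 6 5` to `F = 0`. -/
theorem chain2 (hF : ∀ (d : G) (t : List G), Wld 2 D2 okRow2 (fun w => F (w ++ d :: t)))
    (h : ∀ (d : G) (t : List G), WJ (fun w => F (w ++ d :: t)) 6 5) (w : List G)
    (hw : 7 ≤ w.length) : F w = 0 := by
  have h6 : ∀ (d : G) (t : List G), WJ (fun w => F (w ++ d :: t)) 6 3 := fun d t =>
    stepT2_141 (hF d t) (stepT2_150 (hF d t) (h d t))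
  have h5 : ∀ (d d' : G) (t : List G), WJ (fun w => F (w ++ d :: d' :: t)) 5 2 := by
    intro d d' t
    refine stepT2_131 (hF _ _) ?_
    have := WJ_tail (h6 d' t) d []
    simpa only [List.append_assoc, List.cons_append, List.nil_append] using this
  have h4 : ∀ (d d' d'' : G) (t : List G), WJ (fun w => F (w ++ d :: d' :: d'' :: t)) 4 1 := by
    intro d d' d'' t
    refine stepT2_121 (hF _ _) ?_
    have := WJ_tail (h5 d' d'' t) d []
    simpa only [List.append_assoc, List.cons_append, List.nil_append] using this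
  match w, hw with
  | a :: b :: c :: e :: f :: g :: g' :: t, _ =>
    have := WJ_all (h4 f g g' t) [a, b, c, e] le_rfl
    exact this

end

/-- `p = 3`, length 6. -/
theorem stmt_P3' (hA : Stmt_A.{u, u}) : Stmt_P.{u} 3 6 := by
  intro G _ M _ F hF h3 w hw
  apply chain3 _ _ w hw
  · intro τ
    exact wld3 (hA _ (RS.tail hF τ)) (RS.tail hF τ) h3 D3 rfl rfl rfl (fun t => by cases t <;> rfl)
  · intro τ
    exact base3 (RS.tail hF τ) h3

/-- `p = 3` -/
theorem stmt_P3 (hA : Stmt_A.{u, u}) : Stmt_P.{u} 3 7 :=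
  fun F hF h3 w hw => stmt_P3' hA F hF h3 w (by omega)

/-- `p = 2` -/
theorem stmt_P2 (hB : Stmt_B.{u, u}) : Stmt_P.{u} 2 7 := by
  intro G _ M _ F hF h2 w hw
  apply chain2 _ _ w hw
  · intro d t
    exact wld2 (hB _ hF h2 d t) (RS.tail hF (d :: t)) h2 D2 rfl rfl rfl
      (fun t => by cases t <;> rfl)
  · intro d t
    exact base2 (RS.tail hF (d :: t)) h2

/-- `p = 3`, without hypotheses. -/
theorem stmt_P3_holds : Stmt_P.{u} 3 7 := stmt_P3 L3x.stmt_A

/-- `p = 2`, without hypotheses. -/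
theorem stmt_P2_holds : Stmt_P.{u} 2 7 := stmt_P2 L3x.stmt_B

end Pool.Agent.Work.MP_d7201b_al.L3
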