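import Pool.Agent.Work.MP_d7201b_al.Tor.Main

/-!
# Uniform exponent of the values, and the final assembly

The product trick: the torsion theorem for the power `ℕ → G` gives a uniform exponent.
-/

namespace Pool.Agent.Work.MP_d7201b_al_helper73

open Pool.Agent.Work.MP_d7201b_al

universe u

variable {G : Type u} [Group G]

/-- The left-normed commutator `[x^{a₀}, x^{a₁}, …, x^{aₛ}]` of conjugates. -/
def lnc (x : G) (a : G) (l : List G) : G := l.foldl (fun z b => comm z (cj x b)) (cj x a)

theorem lnc_nil (x a : G) : lnc x a [] = cj x a := rfl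

theorem lnc_append (x a : G) (l : List G) (b : G) :
    lnc x a (l ++ [b]) = comm (lnc x a l) (cj x b) := by
  unfold lnc; rw [List.foldl_append]; rfl

theorem lnc_mem {N : Subgroup G} [N.Normal] {x : G} (hx : x ∈ N) (a : G) (l : List G) :
    lnc x a l ∈ N.lowerCentralSeries l.length := by
  induction l using List.reverseRecOn with
  | nil => exact cj_mem hx a
  | append_singleton l b ih =>
    rw [lnc_append, List.length_append]
    exact (lcsFilt N).comm (s := l.length + 1) (t := 1) ih (cj_mem hx b)

/-- A power of a normal subgroup. -/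
def piPow (N : Subgroup G) : Subgroup (ℕ → G) where
  carrier := {f | ∀ n, f n ∈ N}
  one_mem' := fun _ => one_mem _
  mul_mem' := fun hf hg n => mul_mem (hf n) (hg n)
  inv_mem' := fun hf n => inv_mem (hf n)

theorem mem_piPow {N : Subgroup G} {f : ℕ → G} : f ∈ piPow N ↔ ∀ n, f n ∈ N := Iff.rfl

instance piPow_normal (N : Subgroup G) [hN : N.Normal] : (piPow N).Normal :=
  ⟨fun f hf g n => hN.conj_mem _ (hf n) (g n)⟩

open scoped commutatorElement in
theorem lcs_piPow (N : Subgroup G) (k : ℕ) :
    (piPow N).lowerCentralSeries k ≤ piPow (N.lowerCentralSeries k) := by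
  induction k with
  | zero => exact le_rfl
  | succ k ih =>
    rw [Subgroup.lowerCentralSeries_succ, Subgroup.commutator_le]
    intro f hf g hg n
    rw [Subgroup.lowerCentralSeries_succ]
    exact Subgroup.commutator_mem_commutator (ih hf n) (hg n)

theorem lcs_mono {N M : Subgroup G} (h : N ≤ M) (k : ℕ) :
    N.lowerCentralSeries k ≤ M.lowerCentralSeries k := by
  induction k with
  | zero => exact h
  | succ k ih =>
    rw [Subgroup.lowerCentralSeries_succ, Subgroup.lowerCentralSeries_succ]
    exact Subgroup.commutator_mono ih h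

theorem engel_apply (x g : ℕ → G) (k n : ℕ) : engel x g k n = engel (x n) (g n) k := by
  induction k with
  | zero => rfl
  | succ k ih =>
    show (comm (engel x g k) g) n = comm (engel (x n) (g n) k) (g n)
    rw [← ih]; rfl

theorem lnc_apply (x : G) (a : ℕ → G) (m : ℕ) (l : ℕ → Fin m → G) (n : ℕ) :
    lnc (fun _ => x) a (List.ofFn (fun i n => l n i)) n = lnc x (a n) (List.ofFn (l n)) := by
  have key : ∀ (L : List (ℕ → G)) (n : ℕ), lnc (fun _ => x) a L n =
      lnc x (a n) (L.map (fun f => f n)) := by
    intro L
    induction L using List.reverseRecOn with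
    | nil => intro n; rfl
    | append_singleton L b ih =>
      intro n
      rw [lnc_append, List.map_append, List.map_cons, List.map_nil, lnc_append, ← ih]
      rfl
  rw [key, List.map_ofFn]
  rfl

/-- Uniform exponent of the values of fixed length. -/
theorem unif_exp {x : G} (hx : IsRightEngel 4 x) {c : ℕ}
    (hc : (Subgroup.normalClosure {x}).lowerCentralSeries (c + 1) = ⊥) (m : ℕ) (hm : 3 ≤ m) :
    ∃ K : ℕ, ∀ (a : G) (l : List G), l.length = m → lnc x a l ^ (30 ^ K) = 1 := by
  by_contra hcon
  simp only [not_exists, not_forall] at hcon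
  choose a l hl hne using hcon
  set N := Subgroup.normalClosure {x} with hN
  set X : ℕ → G := fun _ => x with hX
  have hX' : IsRightEngel 4 X := by
    intro g
    funext n
    rw [engel_apply]
    exact hx (g n)
  have hxN : x ∈ N := Subgroup.subset_normalClosure (Set.mem_singleton x)
  have hle : Subgroup.normalClosure {X} ≤ piPow N := by
    apply Subgroup.normalClosure_le_normal
    rw [Set.singleton_subset_iff]
    intro n
    exact hxN
  have hc' : (Subgroup.normalClosure {X}).lowerCentralSeries (c + 1) = ⊥ := by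
    rw [eq_bot_iff]
    intro f hf
    have h1 := lcs_piPow N (c + 1) (lcs_mono hle (c + 1) hf)
    rw [Subgroup.mem_bot]
    funext n
    have h2 := h1 n
    rw [hc, Subgroup.mem_bot] at h2
    exact h2
  have hXN : X ∈ Subgroup.normalClosure {X} := Subgroup.subset_normalClosure (Set.mem_singleton X)
  set L : List (ℕ → G) := List.ofFn (fun (i : Fin m) n => (l n).get (i.cast (hl n).symm)) with hL
  have hLlen : L.length = m := by rw [hL, List.length_ofFn]
  have hmem : lnc X a L ∈ (Subgroup.normalClosure {X}).lowerCentralSeries 3 := by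
    have h := lnc_mem hXN a L
    rw [hLlen] at h
    exact Subgroup.lowerCentralSeries_antitone _ hm h
  obtain ⟨n, hn⟩ := main_aux c X hX' hc' _ hmem
  have h1 := congrFun hn n
  rw [Pi.pow_apply] at h1
  have h2 := lnc_apply x a m (fun n i => (l n).get (i.cast (hl n).symm)) n
  rw [← hL, ← hX] at h2
  rw [h2] at h1
  apply hne n
  have e : List.ofFn (fun i : Fin m => (l n).get (i.cast (hl n).symm)) = l n := by
    apply List.ext_get
    · rw [List.length_ofFn, hl n]
    · intro i h3 h4
      simp
  rw [e] at h1
  exact h1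


section Gen

variable {N : Subgroup G} [hN : N.Normal] {c : ℕ} (hc : N.lowerCentralSeries (c + 1) = ⊥) {x : G}

/-- The value of a list of conjugates: `val (a :: l)` is `[x^a, x^{l₀}, x^{l₁}, …]`. -/
noncomputable def value (x : G) (a : G) (l : List G) : Last N c hc :=
  (baseSys hc).θ 1 (cj x a) (l.map (cj x))

/-- If the values at conjugates of `x` lie in `W`, then all values lie in `W`. -/
theorem gen_W (hNx : N = Subgroup.normalClosure {x}) (W : AddSubgroup (Last N c hc))
    (h : ∀ (a : G) (l : List G), l.length = c → value hc x a l ∈ W) :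
    ∀ k, ∀ z ∈ (lcsFilt N).S (k + 1), ∀ l : List G, k + l.length = c →
      (baseSys hc).θ (k + 1) z (l.map (cj x)) ∈ W := by
  have hx : x ∈ N := by
    rw [hNx]; exact Subgroup.subset_normalClosure (Set.mem_singleton x)
  intro k
  induction k with
  | zero =>
    intro z hz l hl
    refine conj_ind W hNx (fun z => (baseSys hc).θ 1 z (l.map (cj x))) ?_ ?_ z hz
    · intro y hy z hz
      rw [(baseSys hc).mul le_rfl (show y ∈ (lcsFilt N).S 1 from hy)
        (show z ∈ (lcsFilt N).S 1 from hz)]
      rfl
    · intro g
      exact h g l (by omega)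
  | succ k ih =>
    intro z hz l hl
    refine subP_step hc (k + 1) (by omega) (fun l' => l' = l.map (cj x)) W ?_ z hz _ rfl
    rintro a ha b hb l' rfl
    refine conj_ind W hNx
      (fun b => (baseSys hc).θ (k + 1 + 1) (comm a b) (l.map (cj x))) ?_ ?_ b hb
    · intro y hy z hz
      rw [Sys.comm_add_right (baseSys hc) (i := k + 1) (j := 1) (by omega) le_rfl ha
        (show y ∈ (lcsFilt N).S 1 from hy) (show z ∈ (lcsFilt N).S 1 from hz)]
      rfl
    · intro g
      have h1 := congrFun ((isBr hc (cj_mem hx g)).2 (k := k + 1) (by omega) ha) (l.map (cj x))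
      have h2 := ih a ha (g :: l) (by simp only [List.length_cons]; omega)
      beta_reduce
      rw [h1]
      exact h2

theorem th_top {z : G} (hz : z ∈ N.lowerCentralSeries c) :
    (baseSys hc).θ (c + 1) z [] = Last.mk hc z hz := by
  show th hc (c + 1) z [] = _
  simp only [th]
  rw [dif_pos ⟨rfl, hz⟩]

theorem gen_top (hNx : N = Subgroup.normalClosure {x}) (W : AddSubgroup (Last N c hc))
    (h : ∀ (a : G) (l : List G), l.length = c → value hc x a l ∈ W) (v : Last N c hc) :
    v ∈ W := by
  have h1 := gen_W hc hNx W h c v.val v.2 [] (by simp)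
  rw [List.map_nil, th_top hc (z := Last.val hc v) v.2] at h1
  exact h1

theorem value_eq (hx : x ∈ N) (a : G) (l : List G) :
    ∀ (r : List G), value hc x a (l ++ r) =
      (baseSys hc).θ (l.length + 1) (lnc x a l) (r.map (cj x)) := by
  induction l using List.reverseRecOn with
  | nil => intro r; rfl
  | append_singleton l b ih =>
    intro r
    rw [List.append_assoc, ih ([b] ++ r), List.length_append, lnc_append]
    exact (congrFun ((isBr hc (cj_mem hx b)).2 (k := l.length + 1) (by omega)
      (lnc_mem hx a l)) (r.map (cj x))).symm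

theorem value_top (hx : x ∈ N) (a : G) (l : List G) (hl : l.length = c) :
    (value hc x a l).val = lnc x a l := by
  have h := value_eq hc hx a l []
  rw [List.append_nil, List.map_nil] at h
  subst hl
  rw [h, th_top hc (lnc_mem hx a l)]
  rfl

/-- If the last term is divisible by `2`, `3` and `5` in the sense of the values, it is trivial. -/
theorem last_bot (hNx : N = Subgroup.normalClosure {x}) (he : IsRightEngel 4 x) (h3 : 3 ≤ c)
    (hp : ∀ p ∈ ({2, 3, 5} : Finset ℕ), ∀ (a : G) (l : List G), l.length = c →
      ∃ w : Last N c hc, p • w = value hc x a l) :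
    N.lowerCentralSeries c = ⊥ := by
  have hx : x ∈ N := by
    rw [hNx]; exact Subgroup.subset_normalClosure (Set.mem_singleton x)
  have hc' : (Subgroup.normalClosure {x}).lowerCentralSeries (c + 1) = ⊥ := by
    rw [← hNx]; exact hc
  obtain ⟨K, hK⟩ := unif_exp he hc' c h3
  -- the exponent
  have e1 : ∀ v : Last N c hc, (30 ^ K : ℕ) • v = 0 := by
    intro v
    have := gen_top hc hNx (AddMonoidHom.ker (nsmulAddMonoidHom (α := Last N c hc)
      (30 ^ K))) (by
        intro a l hl
        rw [AddMonoidHom.mem_ker]
        apply Last.ext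
        show ((30 ^ K : ℕ) • value hc x a l).val = _
        rw [Last.val_nsmul, value_top hc hx a l hl, hK a l hl]
        rfl) v
    exact this
  -- divisibility
  have e2 : ∀ p ∈ ({2, 3, 5} : Finset ℕ), ∀ v : Last N c hc, ∃ w, p • w = v := by
    intro p hp' v
    have := gen_top hc hNx (AddMonoidHom.range (nsmulAddMonoidHom (α := Last N c hc) p)) (by
        intro a l hl
        obtain ⟨w, hw⟩ := hp p hp' a l hl
        exact ⟨w, hw⟩) v
    obtain ⟨w, hw⟩ := this
    exact ⟨w, hw⟩
  have e3 : ∀ v : Last N c hc, ∃ w, 30 • w = v := by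
    intro v
    obtain ⟨w1, h1⟩ := e2 2 (by simp) v
    obtain ⟨w2, h2⟩ := e2 3 (by simp) w1
    obtain ⟨w3, h3⟩ := e2 5 (by simp) w2
    refine ⟨w3, ?_⟩
    subst h3 h2 h1
    rw [smul_smul, smul_smul]
    norm_num
  have e4 : ∀ n, ∀ v : Last N c hc, ∃ w, (30 ^ n : ℕ) • w = v := by
    intro n
    induction n with
    | zero => intro v; exact ⟨v, by simp⟩
    | succ n ih =>
      intro v
      obtain ⟨w, hw⟩ := ih v
      obtain ⟨w', hw'⟩ := e3 w
      exact ⟨w', by rw [pow_succ, ← smul_smul, hw', hw]⟩
  rw [eq_bot_iff]
  intro z hz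
  obtain ⟨w, hw⟩ := e4 K (Last.mk hc z hz)
  rw [e1 w] at hw
  have := congrArg (Last.val hc) hw
  rw [Last.val_mk, Last.val_zero] at this
  exact Subgroup.mem_bot.mpr this.symm

end Gen

/-- The final assembly: if the values at weight `c + 1 > k` are divisible by `2`, `3`, `5`, then
the class of a nilpotent `⟨x⟩^G` is at most `k`. -/
theorem class_bound (k : ℕ) (hk : 3 ≤ k) {G : Type u} [Group G] {x : G} (he : IsRightEngel 4 x)
    (hdiv : ∀ (c : ℕ) (hc : (Subgroup.normalClosure {x}).lowerCentralSeries (c + 1) = ⊥),
      k ≤ c → ∀ p ∈ ({2, 3, 5} : Finset ℕ), ∀ (a : G) (l : List G), l.length = c →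
      ∃ w : Last (Subgroup.normalClosure {x}) c hc, p • w = value hc x a l)
    (hn : Group.IsNilpotent (Subgroup.normalClosure {x})) :
    Group.nilpotencyClass (Subgroup.normalClosure {x}) ≤ k := by
  obtain ⟨c, hc⟩ := (Subgroup.isNilpotent_iff_lowerCentralSeries _).mp hn
  have key : ∀ n, ∀ c, c = k + n → (Subgroup.normalClosure {x}).lowerCentralSeries c = ⊥ →
      (Subgroup.normalClosure {x}).lowerCentralSeries k = ⊥ := by
    intro n
    induction n with
    | zero => intro c hc h; rw [hc] at h; exact h
    | succ n ih =>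
      intro c hc h
      refine ih (k + n) rfl ?_
      have h' : (Subgroup.normalClosure {x}).lowerCentralSeries (k + n + 1) = ⊥ := by
        rw [← h, hc]; rfl
      exact last_bot h' rfl he (by omega) (hdiv (k + n) h' (by omega))
  have h3 : (Subgroup.normalClosure {x}).lowerCentralSeries k = ⊥ := by
    rcases le_or_gt c k with h | h
    · rw [eq_bot_iff, ← hc]
      exact Subgroup.lowerCentralSeries_antitone _ h
    · exact key (c - k) c (by omega) hc
  rw [← Subgroup.lowerCentralSeries_eq_bot_iff_nilpotencyClass_le, ← Subgroup.map_subtype_inj,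
    Subgroup.map_bot, Subgroup.top_subtype_lowerCentralSeries]
  exact h3

end Pool.Agent.Work.MP_d7201b_al_helper73
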