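import Pool.Agent.Work.MP_d7201b_al_helper73.D2
import Pool.Agent.Work.MP_d7201b_al_helper73.Lib

/-!
# Content (0, 1, 1), `p = 2`
-/

set_option autoImplicit false
set_option maxRecDepth 100000

namespace Pool.Agent.Work.MP_d7201b_al.L3

/-- The content. -/
def tg2_011 : Tgt where
  c := (0, 1, 1)
  dm t := match t with | .z => 0 | .y => 3 | .m => 3
  off t e := match t with
    | .z => match e with | 0 => 0 | 1 => 0 | _ => 0
    | .y => match e with | 0 => 15 | 1 => 9 | _ => 3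
    | .m => match e with | 0 => 12 | 1 => 6 | _ => 0

/-- Rows. -/
def rw2_011_0 : List Row := [.lie [(.y, 0)] (.m, 2),
  .lie [(.y, 1)] (.m, 2),
  .lie [(.y, 2)] (.m, 2),
  .lie [(.m, 0)] (.y, 2),
  .lie [(.m, 1)] (.y, 2),
  .lie [(.y, 0)] (.m, 1),
  .lie [(.y, 1)] (.m, 1),
  .lie [(.m, 0)] (.y, 1),
  .lie [(.y, 0)] (.m, 0),
  .cr 1 [(.y, 1)] [(.m, 2)],
  .cr 1 [(.y, 1)] [(.m, 0)],
  .cr 1 [(.m, 2)] [(.y, 1)]]

/-- The certificate. -/
def c2_011 : Cert ℕ where
  tg := tg2_011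
  pre := [[(.y, 0), (.m, 2)],
    [(.y, 1), (.m, 2)],
    [(.y, 2), (.m, 2)],
    [(.m, 0), (.y, 2)],
    [(.m, 1), (.y, 2)],
    [(.m, 2), (.y, 2)],
    [(.y, 0), (.m, 1)],
    [(.y, 1), (.m, 1)],
    [(.y, 2), (.m, 1)],
    [(.m, 0), (.y, 1)],
    [(.m, 1), (.y, 1)],
    [(.m, 2), (.y, 1)],
    [(.y, 0), (.m, 0)],
    [(.y, 1), (.m, 0)],
    [(.y, 2), (.m, 0)],
    [(.m, 0), (.y, 0)],
    [(.m, 1), (.y, 0)],
    [(.m, 2), (.y, 0)]]
  piv := [11, 13, 14, 15, 16, 17]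
  R := 0x4302021811c61090000880004804010001101002000240200a0001
  N := 18
  rows := rw2_011_0
  kap t e := match t, e with
    | .y, 0 => [0, 0, 0]
    | .y, 1 => [0x80, 0x808, 0]
    | .y, 2 => [8, 0xc59, 0x705]
    | .m, 0 => [0x100, 0, 0]
    | .m, 1 => [0x20, 0x848, 0xc49]
    | .m, 2 => [1, 2, 0x701]
    | _, _ => []

theorem rok2_011_0 : rowsOK D2 tg2_011 c2_011.R c2_011.N 0 rw2_011_0 = true := by decide +kernel

theorem rws2_011 : rwsOK D2 c2_011 = true := by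
  refine rwsOK_of (by decide +kernel) (by decide +kernel) (by decide +kernel) ?_
  exact rok2_011_0

theorem cok2_011 : certOK D2 c2_011 = true :=
  certOK_of (by decide +kernel) (by decide +kernel) rws2_011 (by decide +kernel)
    (by decide +kernel) (by decide +kernel)

theorem all2_011 : c2_011.rows.all okRow2 = true := by decide +kernel

end Pool.Agent.Work.MP_d7201b_al.L3
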