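import Pool.Agent.Work.MP_d7201b_al_helper73.D2
import Pool.Agent.Work.MP_d7201b_al_helper73.Lib

/-!
# Content (0, 2, 0), `p = 2`
-/

set_option autoImplicit false
set_option maxRecDepth 100000

namespace Pool.Agent.Work.MP_d7201b_al.L3

/-- The content. -/
def tg2_020 : Tgt where
  c := (0, 2, 0)
  dm t := match t with | .z => 0 | .y => 3 | .m => 0
  off t e := match t with
    | .z => match e with | 0 => 0 | 1 => 0 | _ => 0
    | .y => match e with | 0 => 6 | 1 => 3 | _ => 0
    | .m => match e with | 0 => 0 | 1 => 0 | _ => 0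

/-- Rows. -/
def rw2_020_0 : List Row := [.lie [(.y, 0)] (.y, 2),
  .lie [(.y, 1)] (.y, 2),
  .lie [(.y, 0)] (.y, 1),
  .cr 1 [(.y, 1)] [(.y, 0)],
  .cr 1 [(.y, 1)] [(.y, 1)]]

/-- The certificate. -/
def c2_020 : Cert ℕ where
  tg := tg2_020
  pre := [[(.y, 0), (.y, 2)],
    [(.y, 1), (.y, 2)],
    [(.y, 2), (.y, 2)],
    [(.y, 0), (.y, 1)],
    [(.y, 1), (.y, 1)],
    [(.y, 2), (.y, 1)],
    [(.y, 0), (.y, 0)],
    [(.y, 1), (.y, 0)],
    [(.y, 2), (.y, 0)]]
  piv := [5, 6, 7, 8]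
  R := 0x5f58a204501
  N := 9
  rows := rw2_020_0
  kap t e := match t, e with
    | .y, 0 => [0, 0, 0]
    | .y, 1 => [4, 9, 0]
    | .y, 2 => [1, 2, 0x1e]
    | _, _ => []

theorem rok2_020_0 : rowsOK D2 tg2_020 c2_020.R c2_020.N 0 rw2_020_0 = true := by decide +kernel

theorem rws2_020 : rwsOK D2 c2_020 = true := by
  refine rwsOK_of (by decide +kernel) (by decide +kernel) (by decide +kernel) ?_
  exact rok2_020_0

theorem cok2_020 : certOK D2 c2_020 = true :=
  certOK_of (by decide +kernel) (by decide +kernel) rws2_020 (by decide +kernel)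
    (by decide +kernel) (by decide +kernel)

theorem all2_020 : c2_020.rows.all okRow2 = true := by decide +kernel

end Pool.Agent.Work.MP_d7201b_al.L3
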