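import Pool.Agent.Work.MP_d7201b_al_helper73.D2
import Pool.Agent.Work.MP_d7201b_al_helper73.Lib

/-!
# Content (0, 2, 1), `p = 2`
-/

set_option autoImplicit false
set_option maxRecDepth 100000

namespace Pool.Agent.Work.MP_d7201b_al.L3

/-- The content. -/
def tg2_021 : Tgt where
  c := (0, 2, 1)
  dm t := match t with | .z => 0 | .y => 6 | .m => 4
  off t e := match t with
    | .z => match e with | 0 => 0 | 1 => 0 | _ => 0
    | .y => match e with | 0 => 24 | 1 => 14 | _ => 4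
    | .m => match e with | 0 => 20 | 1 => 10 | _ => 0

/-- Rows. -/
def rw2_021_0 : List Row := [.lie [(.y, 2), (.y, 1)] (.m, 2),
  .lie [(.y, 0), (.y, 0)] (.m, 2),
  .lie [(.y, 1), (.y, 0)] (.m, 2),
  .lie [(.y, 2), (.y, 0)] (.m, 2),
  .lie [(.y, 1), (.m, 0)] (.y, 2),
  .lie [(.y, 2), (.m, 0)] (.y, 2),
  .lie [(.m, 0), (.y, 0)] (.y, 2),
  .lie [(.m, 1), (.y, 0)] (.y, 2),
  .lie [(.y, 2), (.y, 1)] (.m, 1),
  .lie [(.y, 0), (.y, 0)] (.m, 1),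
  .lie [(.y, 1), (.y, 0)] (.m, 1),
  .lie [(.m, 2), (.y, 1)] (.y, 1),
  .lie [(.y, 1), (.m, 0)] (.y, 1),
  .lie [(.m, 0), (.y, 0)] (.y, 1),
  .cr 1 [(.m, 0)] [(.y, 0), (.y, 0)],
  .cr 1 [(.y, 2)] [(.y, 0), (.m, 0)],
  .cr 1 [(.m, 0)] [(.y, 2), (.y, 0)],
  .cr 1 [(.y, 0)] [(.m, 1), (.y, 2)],
  .cr 1 [(.m, 0)] [(.y, 0), (.y, 2)],
  .cr 1 [(.m, 1)] [(.y, 2), (.y, 2)],
  .cr 1 [(.m, 0)] [(.y, 1), (.y, 2)]]

/-- The certificate. -/
def c2_021 : Cert ℕ where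
  tg := tg2_021
  pre := [[(.y, 2), (.y, 1), (.m, 2)],
    [(.y, 0), (.y, 0), (.m, 2)],
    [(.y, 1), (.y, 0), (.m, 2)],
    [(.y, 2), (.y, 0), (.m, 2)],
    [(.m, 2), (.y, 1), (.y, 2)],
    [(.y, 1), (.m, 0), (.y, 2)],
    [(.y, 2), (.m, 0), (.y, 2)],
    [(.m, 0), (.y, 0), (.y, 2)],
    [(.m, 1), (.y, 0), (.y, 2)],
    [(.m, 2), (.y, 0), (.y, 2)],
    [(.y, 2), (.y, 1), (.m, 1)],
    [(.y, 0), (.y, 0), (.m, 1)],
    [(.y, 1), (.y, 0), (.m, 1)],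
    [(.y, 2), (.y, 0), (.m, 1)],
    [(.m, 2), (.y, 1), (.y, 1)],
    [(.y, 1), (.m, 0), (.y, 1)],
    [(.y, 2), (.m, 0), (.y, 1)],
    [(.m, 0), (.y, 0), (.y, 1)],
    [(.m, 1), (.y, 0), (.y, 1)],
    [(.m, 2), (.y, 0), (.y, 1)],
    [(.y, 2), (.y, 1), (.m, 0)],
    [(.y, 0), (.y, 0), (.m, 0)],
    [(.y, 1), (.y, 0), (.m, 0)],
    [(.y, 2), (.y, 0), (.m, 0)],
    [(.m, 2), (.y, 1), (.y, 0)],
    [(.y, 1), (.m, 0), (.y, 0)],
    [(.y, 2), (.m, 0), (.y, 0)],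
    [(.m, 0), (.y, 0), (.y, 0)],
    [(.m, 1), (.y, 0), (.y, 0)],
    [(.m, 2), (.y, 0), (.y, 0)]]
  piv := [19, 22, 23, 24, 25, 26, 27, 28, 29]
  R := 0x330183a0dc3f020130c008084108439f06c2f010018004805c1f0090800000d000000000003550410000000200000dc550dc0084004800080008000000110020b000082010800040000000800b0011
  N := 30
  rows := rw2_021_0
  kap t e := match t, e with
    | .y, 0 => [0, 0, 0, 0, 0, 0]
    | .y, 1 => [0x1d5050, 0xdc88c, 0x1cb8dc, 0x2000, 0x40040, 0]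
    | .y, 2 => [0x1a901f, 0x1ca8cc, 0x1580c1, 0x40, 0x1bd812, 0x600ce]
    | .m, 0 => [0x1000, 0x20, 0, 0]
    | .m, 1 => [0x1ce98c, 0x200, 0x40440, 0x1bd892]
    | .m, 2 => [0x608c2, 2, 4, 0x600c6]
    | _, _ => []

theorem rok2_021_0 : rowsOK D2 tg2_021 c2_021.R c2_021.N 0 rw2_021_0 = true := by decide +kernel

theorem rws2_021 : rwsOK D2 c2_021 = true := by
  refine rwsOK_of (by decide +kernel) (by decide +kernel) (by decide +kernel) ?_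
  exact rok2_021_0

theorem cok2_021 : certOK D2 c2_021 = true :=
  certOK_of (by decide +kernel) (by decide +kernel) rws2_021 (by decide +kernel)
    (by decide +kernel) (by decide +kernel)

theorem all2_021 : c2_021.rows.all okRow2 = true := by decide +kernel

end Pool.Agent.Work.MP_d7201b_al.L3
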