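import Pool.Agent.Work.MP_d7201b_al_helper73.D2
import Pool.Agent.Work.MP_d7201b_al_helper73.Lib

/-!
# Content (0, 3, 1), `p = 2`
-/

set_option autoImplicit false
set_option maxRecDepth 100000

namespace Pool.Agent.Work.MP_d7201b_al.L3

/-- The content. -/
def tg2_031 : Tgt where
  c := (0, 3, 1)
  dm t := match t with | .z => 0 | .y => 9 | .m => 3
  off t e := match t with
    | .z => match e with | 0 => 0 | 1 => 0 | _ => 0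
    | .y => match e with | 0 => 27 | 1 => 15 | _ => 3
    | .m => match e with | 0 => 24 | 1 => 12 | _ => 0

/-- Rows. -/
def rw2_031_0 : List Row := [.lie [(.y, 2), (.y, 0), (.y, 1)] (.m, 2),
  .lie [(.y, 1), (.y, 0), (.y, 0)] (.m, 2),
  .lie [(.y, 2), (.y, 0), (.y, 0)] (.m, 2),
  .lie [(.m, 2), (.y, 0), (.y, 1)] (.y, 2),
  .lie [(.y, 1), (.y, 0), (.m, 0)] (.y, 2),
  .lie [(.y, 2), (.y, 0), (.m, 0)] (.y, 2),
  .lie [(.y, 1), (.m, 0), (.y, 0)] (.y, 2),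
  .lie [(.m, 0), (.y, 0), (.y, 0)] (.y, 2),
  .lie [(.m, 1), (.y, 0), (.y, 0)] (.y, 2),
  .lie [(.y, 2), (.y, 0), (.y, 1)] (.m, 1),
  .lie [(.y, 1), (.y, 0), (.y, 0)] (.m, 1),
  .lie [(.y, 1), (.y, 0), (.m, 0)] (.y, 1),
  .lie [(.m, 2), (.y, 1), (.y, 0)] (.y, 1),
  .lie [(.m, 0), (.y, 0), (.y, 0)] (.y, 1),
  .cr 1 [(.m, 0)] [(.y, 2), (.y, 1), (.y, 1)],
  .cr 1 [(.m, 2)] [(.y, 1), (.y, 2), (.y, 1)],
  .cr 1 [(.m, 2)] [(.y, 2), (.y, 0), (.y, 0)],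
  .cr 1 [(.m, 0)] [(.y, 2), (.y, 2), (.y, 1)],
  .cr 1 [(.y, 1)] [(.y, 1), (.m, 1), (.y, 2)],
  .cr 1 [(.y, 2)] [(.m, 0), (.y, 0), (.y, 2)],
  .cr 1 [(.m, 2)] [(.y, 0), (.y, 2), (.y, 0)],
  .cr 1 [(.y, 2)] [(.y, 2), (.m, 2), (.y, 1)],
  .cr 1 [(.y, 1)] [(.y, 2), (.y, 0), (.m, 2)],
  .cr 1 [(.m, 0)] [(.y, 1), (.y, 2), (.y, 1)],
  .cr 1 [(.y, 0)] [(.m, 0), (.y, 1), (.y, 0)],
  .cr 1 [(.y, 2)] [(.m, 1), (.y, 2), (.y, 2)]]

/-- The certificate. -/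
def c2_031 : Cert ℕ where
  tg := tg2_031
  pre := [[(.y, 2), (.y, 0), (.y, 1), (.m, 2)],
    [(.y, 1), (.y, 0), (.y, 0), (.m, 2)],
    [(.y, 2), (.y, 0), (.y, 0), (.m, 2)],
    [(.m, 2), (.y, 0), (.y, 1), (.y, 2)],
    [(.y, 1), (.y, 0), (.m, 0), (.y, 2)],
    [(.y, 2), (.y, 0), (.m, 0), (.y, 2)],
    [(.m, 2), (.y, 1), (.y, 0), (.y, 2)],
    [(.y, 1), (.m, 0), (.y, 0), (.y, 2)],
    [(.y, 2), (.m, 0), (.y, 0), (.y, 2)],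
    [(.m, 0), (.y, 0), (.y, 0), (.y, 2)],
    [(.m, 1), (.y, 0), (.y, 0), (.y, 2)],
    [(.m, 2), (.y, 0), (.y, 0), (.y, 2)],
    [(.y, 2), (.y, 0), (.y, 1), (.m, 1)],
    [(.y, 1), (.y, 0), (.y, 0), (.m, 1)],
    [(.y, 2), (.y, 0), (.y, 0), (.m, 1)],
    [(.m, 2), (.y, 0), (.y, 1), (.y, 1)],
    [(.y, 1), (.y, 0), (.m, 0), (.y, 1)],
    [(.y, 2), (.y, 0), (.m, 0), (.y, 1)],
    [(.m, 2), (.y, 1), (.y, 0), (.y, 1)],
    [(.y, 1), (.m, 0), (.y, 0), (.y, 1)],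
    [(.y, 2), (.m, 0), (.y, 0), (.y, 1)],
    [(.m, 0), (.y, 0), (.y, 0), (.y, 1)],
    [(.m, 1), (.y, 0), (.y, 0), (.y, 1)],
    [(.m, 2), (.y, 0), (.y, 0), (.y, 1)],
    [(.y, 2), (.y, 0), (.y, 1), (.m, 0)],
    [(.y, 1), (.y, 0), (.y, 0), (.m, 0)],
    [(.y, 2), (.y, 0), (.y, 0), (.m, 0)],
    [(.m, 2), (.y, 0), (.y, 1), (.y, 0)],
    [(.y, 1), (.y, 0), (.m, 0), (.y, 0)],
    [(.y, 2), (.y, 0), (.m, 0), (.y, 0)],
    [(.m, 2), (.y, 1), (.y, 0), (.y, 0)],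
    [(.y, 1), (.m, 0), (.y, 0), (.y, 0)],
    [(.y, 2), (.m, 0), (.y, 0), (.y, 0)],
    [(.m, 0), (.y, 0), (.y, 0), (.y, 0)],
    [(.m, 1), (.y, 0), (.y, 0), (.y, 0)],
    [(.m, 2), (.y, 0), (.y, 0), (.y, 0)]]
  piv := [23, 25, 26, 28, 30, 31, 32, 33, 34, 35]
  R := 0x485c85ca0000101a04f0708bf002739706782382306b328eb05c83180ce0207b87e09363103102c84787281c0ea8d901a81d81d88b0082200000110008007b4f090000540402000ca0079540dc00044001040002003f90200802240001203cf100010068b2000eb00000804040800002338020041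
  N := 36
  rows := rw2_031_0
  kap t e := match t, e with
    | .y, 0 => [0x168e454, 0, 0x3d23f7c, 0, 0, 0, 0, 0, 0]
    | .y, 1 => [0x2d02fd5, 0x1d81ade, 0x349721c, 0x2157003, 0x2497a7c, 0x396286a, 0x2000, 0x1e8d4a3, 0]
    | .y, 2 => [0x38ddd9d, 0x740d8, 0x34faadd, 0x2cbea2b, 0x30a2582, 0x9d9581, 0x80, 0x14bba80, 0x1e87ccd]
    | .m, 0 => [0x2f98cf6, 0, 0]
    | .m, 1 => [0x29bcf42, 0x1e8d0a3, 0x14bbb80]
    | .m, 2 => [0x338431e, 2, 0x1e87cc9]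
    | _, _ => []

theorem rok2_031_0 : rowsOK D2 tg2_031 c2_031.R c2_031.N 0 rw2_031_0 = true := by decide +kernel

theorem rws2_031 : rwsOK D2 c2_031 = true := by
  refine rwsOK_of (by decide +kernel) (by decide +kernel) (by decide +kernel) ?_
  exact rok2_031_0

theorem cok2_031 : certOK D2 c2_031 = true :=
  certOK_of (by decide +kernel) (by decide +kernel) rws2_031 (by decide +kernel)
    (by decide +kernel) (by decide +kernel)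

theorem all2_031 : c2_031.rows.all okRow2 = true := by decide +kernel

end Pool.Agent.Work.MP_d7201b_al.L3
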