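import Pool.Agent.Work.MP_d7201b_al_helper73.D2
import Pool.Agent.Work.MP_d7201b_al_helper73.Lib

/-!
# Content (0, 4, 1), `p = 2`
-/

set_option autoImplicit false
set_option maxRecDepth 100000

namespace Pool.Agent.Work.MP_d7201b_al.L3

/-- The content. -/
def tg2_041 : Tgt where
  c := (0, 4, 1)
  dm t := match t with | .z => 0 | .y => 10 | .m => 3
  off t e := match t with
    | .z => match e with | 0 => 0 | 1 => 0 | _ => 0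
    | .y => match e with | 0 => 29 | 1 => 16 | _ => 3
    | .m => match e with | 0 => 26 | 1 => 13 | _ => 0

/-- Rows. -/
def rw2_041_0 : List Row := [.lie [(.y, 2), (.y, 0), (.y, 0), (.y, 1)] (.m, 2),
  .lie [(.y, 1), (.y, 0), (.y, 0), (.y, 0)] (.m, 2),
  .lie [(.y, 2), (.y, 0), (.y, 0), (.y, 0)] (.m, 2),
  .lie [(.m, 2), (.y, 0), (.y, 0), (.y, 1)] (.y, 2),
  .lie [(.y, 1), (.y, 0), (.y, 0), (.m, 0)] (.y, 2),
  .lie [(.y, 2), (.y, 0), (.y, 0), (.m, 0)] (.y, 2),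
  .lie [(.y, 1), (.y, 0), (.m, 0), (.y, 0)] (.y, 2),
  .lie [(.y, 1), (.m, 0), (.y, 0), (.y, 0)] (.y, 2),
  .lie [(.m, 0), (.y, 0), (.y, 0), (.y, 0)] (.y, 2),
  .lie [(.m, 1), (.y, 0), (.y, 0), (.y, 0)] (.y, 2),
  .lie [(.y, 2), (.y, 0), (.y, 0), (.y, 1)] (.m, 1),
  .lie [(.y, 1), (.y, 0), (.y, 0), (.y, 0)] (.m, 1),
  .lie [(.y, 1), (.y, 0), (.y, 0), (.m, 0)] (.y, 1),
  .lie [(.y, 1), (.y, 0), (.m, 0), (.y, 0)] (.y, 1),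
  .lie [(.m, 2), (.y, 1), (.y, 0), (.y, 0)] (.y, 1),
  .lie [(.m, 0), (.y, 0), (.y, 0), (.y, 0)] (.y, 1),
  .np (.m, 0) [(.y, 0)],
  .np (.m, 1) [(.y, 0)],
  .np (.m, 2) [(.y, 0)],
  .np (.m, 0) [(.y, 1)],
  .np (.m, 1) [(.y, 1)],
  .np (.m, 2) [(.y, 1)],
  .np (.m, 0) [(.y, 2)],
  .np (.m, 1) [(.y, 2)],
  .np (.m, 2) [(.y, 2)],
  .np (.m, 0) [(.y, 0), (.y, 1), (.y, 2)],
  .np (.m, 1) [(.y, 0), (.y, 1), (.y, 2)],
  .np (.m, 2) [(.y, 0), (.y, 1), (.y, 2)],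
  .cr 1 [(.y, 2), (.y, 1)] [(.m, 1), (.y, 1), (.y, 2)],
  .cr 1 [(.y, 2), (.m, 0)] [(.y, 1), (.y, 0), (.y, 0)],
  .cr 1 [(.y, 2), (.y, 0)] [(.y, 1), (.y, 0), (.m, 1)],
  .cr 1 [(.y, 1), (.y, 0)] [(.m, 0), (.y, 1), (.y, 0)],
  .cr 1 [(.y, 1), (.y, 0)] [(.m, 1), (.y, 2), (.y, 0)],
  .cr 1 [(.y, 2), (.m, 0)] [(.y, 1), (.y, 2), (.y, 1)],
  .cr 1 [(.y, 1), (.y, 0)] [(.m, 2), (.y, 1), (.y, 1)],
  .cr 1 [(.y, 1), (.m, 0)] [(.y, 1), (.y, 1), (.y, 0)]]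

/-- The certificate. -/
def c2_041 : Cert ℕ where
  tg := tg2_041
  pre := [[(.y, 2), (.y, 0), (.y, 0), (.y, 1), (.m, 2)],
    [(.y, 1), (.y, 0), (.y, 0), (.y, 0), (.m, 2)],
    [(.y, 2), (.y, 0), (.y, 0), (.y, 0), (.m, 2)],
    [(.m, 2), (.y, 0), (.y, 0), (.y, 1), (.y, 2)],
    [(.y, 1), (.y, 0), (.y, 0), (.m, 0), (.y, 2)],
    [(.y, 2), (.y, 0), (.y, 0), (.m, 0), (.y, 2)],
    [(.y, 1), (.y, 0), (.m, 0), (.y, 0), (.y, 2)],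
    [(.m, 2), (.y, 1), (.y, 0), (.y, 0), (.y, 2)],
    [(.y, 1), (.m, 0), (.y, 0), (.y, 0), (.y, 2)],
    [(.y, 2), (.m, 0), (.y, 0), (.y, 0), (.y, 2)],
    [(.m, 0), (.y, 0), (.y, 0), (.y, 0), (.y, 2)],
    [(.m, 1), (.y, 0), (.y, 0), (.y, 0), (.y, 2)],
    [(.m, 2), (.y, 0), (.y, 0), (.y, 0), (.y, 2)],
    [(.y, 2), (.y, 0), (.y, 0), (.y, 1), (.m, 1)],
    [(.y, 1), (.y, 0), (.y, 0), (.y, 0), (.m, 1)],
    [(.y, 2), (.y, 0), (.y, 0), (.y, 0), (.m, 1)],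
    [(.m, 2), (.y, 0), (.y, 0), (.y, 1), (.y, 1)],
    [(.y, 1), (.y, 0), (.y, 0), (.m, 0), (.y, 1)],
    [(.y, 2), (.y, 0), (.y, 0), (.m, 0), (.y, 1)],
    [(.y, 1), (.y, 0), (.m, 0), (.y, 0), (.y, 1)],
    [(.m, 2), (.y, 1), (.y, 0), (.y, 0), (.y, 1)],
    [(.y, 1), (.m, 0), (.y, 0), (.y, 0), (.y, 1)],
    [(.y, 2), (.m, 0), (.y, 0), (.y, 0), (.y, 1)],
    [(.m, 0), (.y, 0), (.y, 0), (.y, 0), (.y, 1)],
    [(.m, 1), (.y, 0), (.y, 0), (.y, 0), (.y, 1)],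
    [(.m, 2), (.y, 0), (.y, 0), (.y, 0), (.y, 1)],
    [(.y, 2), (.y, 0), (.y, 0), (.y, 1), (.m, 0)],
    [(.y, 1), (.y, 0), (.y, 0), (.y, 0), (.m, 0)],
    [(.y, 2), (.y, 0), (.y, 0), (.y, 0), (.m, 0)],
    [(.m, 2), (.y, 0), (.y, 0), (.y, 1), (.y, 0)],
    [(.y, 1), (.y, 0), (.y, 0), (.m, 0), (.y, 0)],
    [(.y, 2), (.y, 0), (.y, 0), (.m, 0), (.y, 0)],
    [(.y, 1), (.y, 0), (.m, 0), (.y, 0), (.y, 0)],
    [(.m, 2), (.y, 1), (.y, 0), (.y, 0), (.y, 0)],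
    [(.y, 1), (.m, 0), (.y, 0), (.y, 0), (.y, 0)],
    [(.y, 2), (.m, 0), (.y, 0), (.y, 0), (.y, 0)],
    [(.m, 0), (.y, 0), (.y, 0), (.y, 0), (.y, 0)],
    [(.m, 1), (.y, 0), (.y, 0), (.y, 0), (.y, 0)],
    [(.m, 2), (.y, 0), (.y, 0), (.y, 0), (.y, 0)]]
  piv := [33, 34, 35]
  R := 0x1502d6161bb0d8d130d19088b451c2f3e033003804e72000405e02f4000748ba007406ac41a11808c0460c486243122d516a8b5400000010200000001170000000108000021000000019e00000005a20001000000000100000000010000000000a91000000240004001c00a0000000f1c220000d942008001f0005caa011700044001090000400a40808020064530001004080001104b1c4000109e0588001d0200004012b910000015400040081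
  N := 39
  rows := rw2_041_0
  kap t e := match t, e with
    | .y, 0 => [0xb497473b, 0x64b6d1e0f, 0xceb82839f, 0x1c9243088, 0, 0, 0, 0x10000, 0x20000, 0x40000]
    | .y, 1 => [0x6a81e614d, 0xabd89d70, 0xcae9600ca, 0x103565e1a, 0x5b286d5ac, 0x3463cdc81, 0xabf89d70, 0x5a689effe, 0xd1207f9f2, 0x617e1c66f]
    | .y, 2 => [0xc5675659a, 0x34618cc91, 0x9ab82d374, 0x4c4546246, 0x9e4faf03f, 0x9eed271a1, 0xcebc382bf, 0x9abc2d374, 0xf5f958a40, 0x9aa82d374]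
    | .m, 0 => [0x5404171eb, 0x224c04179, 0x5404151eb]
    | .m, 1 => [0x54f7dd59b, 0x14d143556, 0x54bef52eb]
    | .m, 2 => [0x54a69f0f4, 0x76a57b1de, 0x5410450ef]
    | _, _ => []

theorem rok2_041_0 : rowsOK D2 tg2_041 c2_041.R c2_041.N 0 rw2_041_0 = true := by decide +kernel

theorem rws2_041 : rwsOK D2 c2_041 = true := by
  refine rwsOK_of (by decide +kernel) (by decide +kernel) (by decide +kernel) ?_
  exact rok2_041_0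

theorem cok2_041 : certOK D2 c2_041 = true :=
  certOK_of (by decide +kernel) (by decide +kernel) rws2_041 (by decide +kernel)
    (by decide +kernel) (by decide +kernel)

theorem all2_041 : c2_041.rows.all okRow2 = true := by decide +kernel

end Pool.Agent.Work.MP_d7201b_al.L3
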