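import Pool.Agent.Work.MP_d7201b_al_helper73.D2
import Pool.Agent.Work.MP_d7201b_al_helper73.Lib

/-!
# Content (1, 1, 1), `p = 2`
-/

set_option autoImplicit false
set_option maxRecDepth 100000

namespace Pool.Agent.Work.MP_d7201b_al.L3

/-- The content. -/
def tg2_111 : Tgt where
  c := (1, 1, 1)
  dm t := match t with | .z => 6 | .y => 6 | .m => 6
  off t e := match t with
    | .z => match e with | 0 => 48 | 1 => 30 | _ => 12
    | .y => match e with | 0 => 42 | 1 => 24 | _ => 6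
    | .m => match e with | 0 => 36 | 1 => 18 | _ => 0

/-- Rows. -/
def rw2_111_0 : List Row := [.lie [(.y, 2), (.z, 1)] (.m, 2),
  .lie [(.z, 1), (.y, 0)] (.m, 2),
  .lie [(.z, 2), (.y, 0)] (.m, 2),
  .lie [(.y, 0), (.z, 0)] (.m, 2),
  .lie [(.y, 1), (.z, 0)] (.m, 2),
  .lie [(.y, 2), (.z, 0)] (.m, 2),
  .lie [(.z, 1), (.m, 0)] (.y, 2),
  .lie [(.z, 2), (.m, 0)] (.y, 2),
  .lie [(.m, 0), (.z, 0)] (.y, 2),
  .lie [(.m, 1), (.z, 0)] (.y, 2),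
  .lie [(.m, 2), (.y, 1)] (.z, 2),
  .lie [(.y, 1), (.m, 0)] (.z, 2),
  .lie [(.m, 0), (.y, 0)] (.z, 2),
  .lie [(.m, 1), (.y, 0)] (.z, 2),
  .lie [(.y, 2), (.z, 1)] (.m, 1),
  .lie [(.z, 1), (.y, 0)] (.m, 1),
  .lie [(.y, 0), (.z, 0)] (.m, 1),
  .lie [(.y, 1), (.z, 0)] (.m, 1),
  .lie [(.m, 2), (.z, 1)] (.y, 1),
  .lie [(.z, 1), (.m, 0)] (.y, 1),
  .lie [(.m, 0), (.z, 0)] (.y, 1),
  .lie [(.m, 0), (.y, 0)] (.z, 1),
  .lie [(.y, 0), (.z, 0)] (.m, 0),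
  .cr 1 [(.m, 0)] [(.y, 0), (.z, 1)],
  .cr 1 [(.y, 1)] [(.z, 2), (.m, 1)],
  .cr 1 [(.z, 1)] [(.m, 2), (.y, 2)],
  .cr 1 [(.y, 2)] [(.m, 2), (.z, 1)],
  .cr 1 [(.m, 2)] [(.y, 1), (.z, 1)],
  .cr 1 [(.y, 1)] [(.m, 2), (.z, 0)],
  .cr 1 [(.z, 0)] [(.y, 0), (.m, 1)],
  .cr 1 [(.m, 1)] [(.z, 2), (.y, 0)],
  .cr 1 [(.m, 1)] [(.z, 1), (.y, 1)],
  .cr 1 [(.m, 1)] [(.z, 0), (.y, 1)],
  .cr 1 [(.y, 1)] [(.z, 0), (.m, 1)],
  .cr 1 [(.y, 2)] [(.m, 2), (.z, 0)],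
  .cr 1 [(.z, 1)] [(.m, 0), (.y, 0)],
  .cr 1 [(.m, 1)] [(.z, 0), (.y, 0)],
  .cr 2 [(.m, 0)] [(.y, 0), (.z, 1)]]

/-- The certificate. -/
def c2_111 : Cert ℕ where
  tg := tg2_111
  pre := [[(.y, 2), (.z, 1), (.m, 2)],
    [(.z, 1), (.y, 0), (.m, 2)],
    [(.z, 2), (.y, 0), (.m, 2)],
    [(.y, 0), (.z, 0), (.m, 2)],
    [(.y, 1), (.z, 0), (.m, 2)],
    [(.y, 2), (.z, 0), (.m, 2)],
    [(.m, 2), (.z, 1), (.y, 2)],
    [(.z, 1), (.m, 0), (.y, 2)],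
    [(.z, 2), (.m, 0), (.y, 2)],
    [(.m, 0), (.z, 0), (.y, 2)],
    [(.m, 1), (.z, 0), (.y, 2)],
    [(.m, 2), (.z, 0), (.y, 2)],
    [(.m, 2), (.y, 1), (.z, 2)],
    [(.y, 1), (.m, 0), (.z, 2)],
    [(.y, 2), (.m, 0), (.z, 2)],
    [(.m, 0), (.y, 0), (.z, 2)],
    [(.m, 1), (.y, 0), (.z, 2)],
    [(.m, 2), (.y, 0), (.z, 2)],
    [(.y, 2), (.z, 1), (.m, 1)],
    [(.z, 1), (.y, 0), (.m, 1)],
    [(.z, 2), (.y, 0), (.m, 1)],
    [(.y, 0), (.z, 0), (.m, 1)],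
    [(.y, 1), (.z, 0), (.m, 1)],
    [(.y, 2), (.z, 0), (.m, 1)],
    [(.m, 2), (.z, 1), (.y, 1)],
    [(.z, 1), (.m, 0), (.y, 1)],
    [(.z, 2), (.m, 0), (.y, 1)],
    [(.m, 0), (.z, 0), (.y, 1)],
    [(.m, 1), (.z, 0), (.y, 1)],
    [(.m, 2), (.z, 0), (.y, 1)],
    [(.m, 2), (.y, 1), (.z, 1)],
    [(.y, 1), (.m, 0), (.z, 1)],
    [(.y, 2), (.m, 0), (.z, 1)],
    [(.m, 0), (.y, 0), (.z, 1)],
    [(.m, 1), (.y, 0), (.z, 1)],
    [(.m, 2), (.y, 0), (.z, 1)],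
    [(.y, 2), (.z, 1), (.m, 0)],
    [(.z, 1), (.y, 0), (.m, 0)],
    [(.z, 2), (.y, 0), (.m, 0)],
    [(.y, 0), (.z, 0), (.m, 0)],
    [(.y, 1), (.z, 0), (.m, 0)],
    [(.y, 2), (.z, 0), (.m, 0)],
    [(.m, 2), (.z, 1), (.y, 0)],
    [(.z, 1), (.m, 0), (.y, 0)],
    [(.z, 2), (.m, 0), (.y, 0)],
    [(.m, 0), (.z, 0), (.y, 0)],
    [(.m, 1), (.z, 0), (.y, 0)],
    [(.m, 2), (.z, 0), (.y, 0)],
    [(.m, 2), (.y, 1), (.z, 0)],
    [(.y, 1), (.m, 0), (.z, 0)],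
    [(.y, 2), (.m, 0), (.z, 0)],
    [(.m, 0), (.y, 0), (.z, 0)],
    [(.m, 1), (.y, 0), (.z, 0)],
    [(.m, 2), (.y, 0), (.z, 0)]]
  piv := [35, 37, 40, 41, 42, 43, 44, 45, 46, 47, 48, 49, 50, 51, 52, 53]
  R := 0x2020280002010100001100001000000800a0020000037b00dc201754013800400051510038400050000e01538039b004000137014200010340c4d000140004040108014c80032040cf2002032080cae033009200048001278008e0022d03f7c201fc405c0008208000000000002088000000002010008000000000542080000000000041000015540000410000010400000200000015010002000000000dc0040540037000004400000104000008000000dc010008000000002c001037dc0000020010004020000000200000b00000104000001100000080b00000000020801000020000010820000000000200b00000020004001020000000080000b00000041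
  N := 54
  rows := rw2_111_0
  kap t e := match t, e with
    | .z, 0 => [0, 0, 0, 0, 0, 0]
    | .z, 1 => [0x211b6038e2, 0x27aa6eafad, 0x360c804070, 0x200000, 0xaa723d5e3, 0]
    | .z, 2 => [0x2bfcebe401, 0x3c309bacb1, 0x38053b9cbb, 0x29ac63ed01, 0x9be06dd09, 0x35735fbf12]
    | .y, 0 => [0, 0, 0, 0, 0, 0]
    | .y, 1 => [0x360ee14079, 0x2820917eb2, 0x33ba6c75ae, 0x100000, 0x37a598214a, 0x1dc6396aed]
    | .y, 2 => [0x9ac43ed01, 0x102a146c2e, 0x11a918613a, 0x100, 0x32b5bafb49, 0x12952b87fb]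
    | .m, 0 => [0x2626942c1e, 0, 0x29ac63fd01, 0x400000, 0, 0]
    | .m, 1 => [0x10aa4c35ae, 0xaa72355e3, 0x9be06fd09, 0x10000, 0x37a59a214a, 0x32b5baf949]
    | .m, 2 => [0x3fa0e3ad70, 2, 0x35735fbf16, 8, 0x1dc6396afd, 0x12952b87db]
    | _, _ => []

theorem rok2_111_0 : rowsOK D2 tg2_111 c2_111.R c2_111.N 0 rw2_111_0 = true := by decide +kernel

theorem rws2_111 : rwsOK D2 c2_111 = true := by
  refine rwsOK_of (by decide +kernel) (by decide +kernel) (by decide +kernel) ?_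
  exact rok2_111_0

theorem cok2_111 : certOK D2 c2_111 = true :=
  certOK_of (by decide +kernel) (by decide +kernel) rws2_111 (by decide +kernel)
    (by decide +kernel) (by decide +kernel)

theorem all2_111 : c2_111.rows.all okRow2 = true := by decide +kernel

end Pool.Agent.Work.MP_d7201b_al.L3
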