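import Pool.Agent.Work.MP_d7201b_al_helper73.D2
import Pool.Agent.Work.MP_d7201b_al_helper73.Lib

/-!
# Content (1, 2, 0), `p = 2`
-/

set_option autoImplicit false
set_option maxRecDepth 100000

namespace Pool.Agent.Work.MP_d7201b_al.L3

/-- The content. -/
def tg2_120 : Tgt where
  c := (1, 2, 0)
  dm t := match t with | .z => 4 | .y => 6 | .m => 0
  off t e := match t with
    | .z => match e with | 0 => 26 | 1 => 16 | _ => 6
    | .y => match e with | 0 => 20 | 1 => 10 | _ => 0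
    | .m => match e with | 0 => 0 | 1 => 0 | _ => 0

/-- Rows. -/
def rw2_120_0 : List Row := [.lie [(.y, 2), (.z, 1)] (.y, 2),
  .lie [(.z, 1), (.y, 0)] (.y, 2),
  .lie [(.z, 2), (.y, 0)] (.y, 2),
  .lie [(.y, 0), (.z, 0)] (.y, 2),
  .lie [(.y, 1), (.z, 0)] (.y, 2),
  .lie [(.y, 2), (.z, 0)] (.y, 2),
  .lie [(.y, 2), (.y, 1)] (.z, 2),
  .lie [(.y, 0), (.y, 0)] (.z, 2),
  .lie [(.y, 1), (.y, 0)] (.z, 2),
  .lie [(.y, 2), (.z, 1)] (.y, 1),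
  .lie [(.z, 1), (.y, 0)] (.y, 1),
  .lie [(.y, 0), (.z, 0)] (.y, 1),
  .lie [(.y, 1), (.z, 0)] (.y, 1),
  .cr 1 [(.y, 0)] [(.z, 0), (.y, 0)],
  .cr 1 [(.y, 1)] [(.y, 1), (.z, 1)],
  .cr 1 [(.z, 1)] [(.y, 0), (.y, 0)],
  .cr 1 [(.y, 0)] [(.z, 2), (.y, 0)],
  .cr 1 [(.y, 2)] [(.y, 1), (.z, 1)],
  .cr 1 [(.y, 2)] [(.z, 1), (.y, 2)],
  .cr 1 [(.y, 0)] [(.z, 0), (.y, 2)],
  .cr 1 [(.y, 0)] [(.z, 1), (.y, 0)]]

/-- The certificate. -/
def c2_120 : Cert ℕ where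
  tg := tg2_120
  pre := [[(.y, 2), (.z, 1), (.y, 2)],
    [(.z, 1), (.y, 0), (.y, 2)],
    [(.z, 2), (.y, 0), (.y, 2)],
    [(.y, 0), (.z, 0), (.y, 2)],
    [(.y, 1), (.z, 0), (.y, 2)],
    [(.y, 2), (.z, 0), (.y, 2)],
    [(.y, 2), (.y, 1), (.z, 2)],
    [(.y, 0), (.y, 0), (.z, 2)],
    [(.y, 1), (.y, 0), (.z, 2)],
    [(.y, 2), (.y, 0), (.z, 2)],
    [(.y, 2), (.z, 1), (.y, 1)],
    [(.z, 1), (.y, 0), (.y, 1)],
    [(.z, 2), (.y, 0), (.y, 1)],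
    [(.y, 0), (.z, 0), (.y, 1)],
    [(.y, 1), (.z, 0), (.y, 1)],
    [(.y, 2), (.z, 0), (.y, 1)],
    [(.y, 2), (.y, 1), (.z, 1)],
    [(.y, 0), (.y, 0), (.z, 1)],
    [(.y, 1), (.y, 0), (.z, 1)],
    [(.y, 2), (.y, 0), (.z, 1)],
    [(.y, 2), (.z, 1), (.y, 0)],
    [(.z, 1), (.y, 0), (.y, 0)],
    [(.z, 2), (.y, 0), (.y, 0)],
    [(.y, 0), (.z, 0), (.y, 0)],
    [(.y, 1), (.z, 0), (.y, 0)],
    [(.y, 2), (.z, 0), (.y, 0)],
    [(.y, 2), (.y, 1), (.z, 0)],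
    [(.y, 0), (.y, 0), (.z, 0)],
    [(.y, 1), (.y, 0), (.z, 0)],
    [(.y, 2), (.y, 0), (.z, 0)]]
  piv := [19, 20, 21, 22, 23, 24, 25, 28, 29]
  R := 0x20af185f880203320501802019cac0b12780082208380e54ce202c807f400000044008000154080000041054370110000000200000b077200000004008010880000202c00204006000080020000
  N := 30
  rows := rw2_120_0
  kap t e := match t, e with
    | .z, 0 => [0x1000, 0x20, 0, 0]
    | .z, 1 => [0x1d378b, 1, 0x80809, 0]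
    | .z, 2 => [0xb9660, 0x80, 0x1e0c8b, 0x12050]
    | .y, 0 => [0, 0, 0, 0, 0, 0]
    | .y, 1 => [0x2a2b, 0x80c09, 0x1e0d8b, 0x800, 0x1cd936, 0x60945]
    | .y, 2 => [0x1a26a1, 2, 0x12054, 8, 0x61955, 0xe854c]
    | _, _ => []

theorem rok2_120_0 : rowsOK D2 tg2_120 c2_120.R c2_120.N 0 rw2_120_0 = true := by decide +kernel

theorem rws2_120 : rwsOK D2 c2_120 = true := by
  refine rwsOK_of (by decide +kernel) (by decide +kernel) (by decide +kernel) ?_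
  exact rok2_120_0

theorem cok2_120 : certOK D2 c2_120 = true :=
  certOK_of (by decide +kernel) (by decide +kernel) rws2_120 (by decide +kernel)
    (by decide +kernel) (by decide +kernel)

theorem all2_120 : c2_120.rows.all okRow2 = true := by decide +kernel

end Pool.Agent.Work.MP_d7201b_al.L3
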