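import Pool.Agent.Work.MP_d7201b_al_helper73.D2
import Pool.Agent.Work.MP_d7201b_al_helper73.Lib

/-!
# Content (1, 2, 1), `p = 2`
-/

set_option autoImplicit false
set_option maxRecDepth 100000

namespace Pool.Agent.Work.MP_d7201b_al.L3

/-- The content. -/
def tg2_121 : Tgt where
  c := (1, 2, 1)
  dm t := match t with | .z => 9 | .y => 16 | .m => 9
  off t e := match t with
    | .z => match e with | 0 => 93 | 1 => 59 | _ => 25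
    | .y => match e with | 0 => 77 | 1 => 43 | _ => 9
    | .m => match e with | 0 => 68 | 1 => 34 | _ => 0

/-- Rows. -/
def rw2_121_0 : List Row := [.lie [(.y, 2), (.y, 0), (.z, 1)] (.m, 2),
  .lie [(.y, 2), (.z, 1), (.y, 0)] (.m, 2),
  .lie [(.z, 1), (.y, 0), (.y, 0)] (.m, 2),
  .lie [(.z, 2), (.y, 0), (.y, 0)] (.m, 2),
  .lie [(.y, 0), (.z, 0), (.y, 0)] (.m, 2),
  .lie [(.y, 1), (.z, 0), (.y, 0)] (.m, 2),
  .lie [(.y, 2), (.z, 0), (.y, 0)] (.m, 2),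
  .lie [(.y, 1), (.y, 0), (.z, 0)] (.m, 2),
  .lie [(.y, 2), (.y, 0), (.z, 0)] (.m, 2),
  .lie [(.z, 1), (.y, 0), (.m, 0)] (.y, 2),
  .lie [(.y, 1), (.z, 0), (.m, 0)] (.y, 2),
  .lie [(.y, 2), (.z, 0), (.m, 0)] (.y, 2),
  .lie [(.z, 1), (.m, 0), (.y, 0)] (.y, 2),
  .lie [(.z, 2), (.m, 0), (.y, 0)] (.y, 2),
  .lie [(.m, 0), (.z, 0), (.y, 0)] (.y, 2),
  .lie [(.m, 1), (.z, 0), (.y, 0)] (.y, 2),
  .lie [(.m, 2), (.y, 1), (.z, 0)] (.y, 2),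
  .lie [(.y, 1), (.m, 0), (.z, 0)] (.y, 2),
  .lie [(.m, 0), (.y, 0), (.z, 0)] (.y, 2),
  .lie [(.m, 1), (.y, 0), (.z, 0)] (.y, 2),
  .lie [(.m, 2), (.y, 0), (.y, 1)] (.z, 2),
  .lie [(.y, 1), (.y, 0), (.m, 0)] (.z, 2),
  .lie [(.m, 2), (.y, 1), (.y, 0)] (.z, 2),
  .lie [(.y, 1), (.m, 0), (.y, 0)] (.z, 2),
  .lie [(.y, 2), (.m, 0), (.y, 0)] (.z, 2),
  .lie [(.m, 0), (.y, 0), (.y, 0)] (.z, 2),
  .lie [(.m, 1), (.y, 0), (.y, 0)] (.z, 2),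
  .lie [(.y, 2), (.y, 0), (.z, 1)] (.m, 1),
  .lie [(.y, 2), (.z, 1), (.y, 0)] (.m, 1),
  .lie [(.z, 1), (.y, 0), (.y, 0)] (.m, 1),
  .lie [(.y, 0), (.z, 0), (.y, 0)] (.m, 1),
  .lie [(.y, 1), (.z, 0), (.y, 0)] (.m, 1),
  .lie [(.y, 1), (.y, 0), (.z, 0)] (.m, 1),
  .lie [(.m, 2), (.y, 0), (.z, 1)] (.y, 1),
  .lie [(.z, 1), (.y, 0), (.m, 0)] (.y, 1),
  .lie [(.y, 1), (.z, 0), (.m, 0)] (.y, 1),
  .lie [(.m, 2), (.z, 1), (.y, 0)] (.y, 1),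
  .lie [(.z, 1), (.m, 0), (.y, 0)] (.y, 1),
  .lie [(.m, 0), (.z, 0), (.y, 0)] (.y, 1),
  .lie [(.m, 2), (.y, 1), (.z, 0)] (.y, 1),
  .lie [(.m, 0), (.y, 0), (.z, 0)] (.y, 1),
  .lie [(.m, 0), (.y, 0), (.y, 0)] (.z, 1),
  .lie [(.y, 0), (.z, 0), (.y, 0)] (.m, 0),
  .cr 1 [(.y, 1)] [(.z, 2), (.m, 1), (.y, 1)],
  .cr 1 [(.z, 1)] [(.y, 0), (.m, 2), (.y, 0)],
  .cr 1 [(.m, 2)] [(.y, 1), (.z, 2), (.y, 2)],
  .cr 1 [(.m, 0)] [(.y, 0), (.y, 2), (.z, 2)],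
  .cr 1 [(.y, 0)] [(.y, 0), (.m, 0), (.z, 1)],
  .cr 1 [(.y, 0)] [(.z, 2), (.m, 0), (.y, 2)],
  .cr 1 [(.y, 1)] [(.z, 1), (.m, 1), (.y, 1)],
  .cr 1 [(.y, 0)] [(.z, 1), (.m, 2), (.y, 1)],
  .cr 1 [(.z, 2)] [(.m, 2), (.y, 1), (.y, 1)],
  .cr 1 [(.y, 1)] [(.m, 1), (.y, 0), (.z, 1)],
  .cr 1 [(.y, 2)] [(.m, 2), (.z, 0), (.y, 1)],
  .cr 1 [(.y, 2)] [(.z, 2), (.m, 0), (.y, 2)],
  .cr 1 [(.z, 1)] [(.m, 2), (.y, 2), (.y, 2)],
  .cr 1 [(.m, 0)] [(.z, 2), (.y, 1), (.y, 1)],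
  .cr 1 [(.y, 1)] [(.z, 1), (.m, 1), (.y, 2)],
  .cr 1 [(.y, 0)] [(.m, 1), (.z, 0), (.y, 0)],
  .cr 1 [(.y, 1)] [(.m, 0), (.z, 1), (.y, 1)],
  .cr 1 [(.z, 2)] [(.m, 0), (.y, 2), (.y, 0)],
  .cr 1 [(.y, 0)] [(.y, 1), (.z, 0), (.m, 1)],
  .cr 1 [(.m, 1)] [(.z, 2), (.y, 2), (.y, 1)],
  .cr 1 [(.y, 2)] [(.y, 1), (.m, 2), (.z, 1)],
  .cr 1 [(.y, 0)] [(.z, 1), (.m, 1), (.y, 1)],
  .cr 1 [(.y, 2)] [(.z, 2), (.m, 1), (.y, 1)],
  .cr 1 [(.y, 0)] [(.z, 2), (.y, 1), (.m, 2)],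
  .cr 1 [(.y, 1)] [(.z, 1), (.m, 2), (.y, 0)],
  .cr 1 [(.m, 1)] [(.z, 2), (.y, 0), (.y, 0)],
  .cr 1 [(.y, 2)] [(.z, 0), (.y, 0), (.m, 0)],
  .cr 1 [(.z, 0)] [(.y, 0), (.m, 1), (.y, 2)],
  .cr 1 [(.z, 0)] [(.m, 2), (.y, 2), (.y, 2)],
  .cr 1 [(.z, 0)] [(.y, 0), (.y, 1), (.m, 1)],
  .cr 1 [(.y, 2)] [(.m, 0), (.z, 1), (.y, 0)],
  .cr 1 [(.m, 2)] [(.y, 1), (.z, 0), (.y, 0)],
  .cr 1 [(.m, 1)] [(.y, 0), (.z, 1), (.y, 1)],
  .cr 1 [(.y, 1)] [(.z, 1), (.m, 2), (.y, 1)],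
  .cr 2 [(.m, 2)] [(.y, 1), (.z, 2), (.y, 2)]]

/-- The certificate. -/
def c2_121 : Cert ℕ where
  tg := tg2_121
  pre := [[(.y, 2), (.y, 0), (.z, 1), (.m, 2)],
    [(.y, 2), (.z, 1), (.y, 0), (.m, 2)],
    [(.z, 1), (.y, 0), (.y, 0), (.m, 2)],
    [(.z, 2), (.y, 0), (.y, 0), (.m, 2)],
    [(.y, 0), (.z, 0), (.y, 0), (.m, 2)],
    [(.y, 1), (.z, 0), (.y, 0), (.m, 2)],
    [(.y, 2), (.z, 0), (.y, 0), (.m, 2)],
    [(.y, 1), (.y, 0), (.z, 0), (.m, 2)],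
    [(.y, 2), (.y, 0), (.z, 0), (.m, 2)],
    [(.m, 2), (.y, 0), (.z, 1), (.y, 2)],
    [(.z, 1), (.y, 0), (.m, 0), (.y, 2)],
    [(.y, 1), (.z, 0), (.m, 0), (.y, 2)],
    [(.y, 2), (.z, 0), (.m, 0), (.y, 2)],
    [(.m, 2), (.z, 1), (.y, 0), (.y, 2)],
    [(.z, 1), (.m, 0), (.y, 0), (.y, 2)],
    [(.z, 2), (.m, 0), (.y, 0), (.y, 2)],
    [(.m, 0), (.z, 0), (.y, 0), (.y, 2)],
    [(.m, 1), (.z, 0), (.y, 0), (.y, 2)],
    [(.m, 2), (.z, 0), (.y, 0), (.y, 2)],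
    [(.m, 2), (.y, 1), (.z, 0), (.y, 2)],
    [(.y, 1), (.m, 0), (.z, 0), (.y, 2)],
    [(.y, 2), (.m, 0), (.z, 0), (.y, 2)],
    [(.m, 0), (.y, 0), (.z, 0), (.y, 2)],
    [(.m, 1), (.y, 0), (.z, 0), (.y, 2)],
    [(.m, 2), (.y, 0), (.z, 0), (.y, 2)],
    [(.m, 2), (.y, 0), (.y, 1), (.z, 2)],
    [(.y, 1), (.y, 0), (.m, 0), (.z, 2)],
    [(.y, 2), (.y, 0), (.m, 0), (.z, 2)],
    [(.m, 2), (.y, 1), (.y, 0), (.z, 2)],
    [(.y, 1), (.m, 0), (.y, 0), (.z, 2)],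
    [(.y, 2), (.m, 0), (.y, 0), (.z, 2)],
    [(.m, 0), (.y, 0), (.y, 0), (.z, 2)],
    [(.m, 1), (.y, 0), (.y, 0), (.z, 2)],
    [(.m, 2), (.y, 0), (.y, 0), (.z, 2)],
    [(.y, 2), (.y, 0), (.z, 1), (.m, 1)],
    [(.y, 2), (.z, 1), (.y, 0), (.m, 1)],
    [(.z, 1), (.y, 0), (.y, 0), (.m, 1)],
    [(.z, 2), (.y, 0), (.y, 0), (.m, 1)],
    [(.y, 0), (.z, 0), (.y, 0), (.m, 1)],
    [(.y, 1), (.z, 0), (.y, 0), (.m, 1)],
    [(.y, 2), (.z, 0), (.y, 0), (.m, 1)],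
    [(.y, 1), (.y, 0), (.z, 0), (.m, 1)],
    [(.y, 2), (.y, 0), (.z, 0), (.m, 1)],
    [(.m, 2), (.y, 0), (.z, 1), (.y, 1)],
    [(.z, 1), (.y, 0), (.m, 0), (.y, 1)],
    [(.y, 1), (.z, 0), (.m, 0), (.y, 1)],
    [(.y, 2), (.z, 0), (.m, 0), (.y, 1)],
    [(.m, 2), (.z, 1), (.y, 0), (.y, 1)],
    [(.z, 1), (.m, 0), (.y, 0), (.y, 1)],
    [(.z, 2), (.m, 0), (.y, 0), (.y, 1)],
    [(.m, 0), (.z, 0), (.y, 0), (.y, 1)],
    [(.m, 1), (.z, 0), (.y, 0), (.y, 1)],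
    [(.m, 2), (.z, 0), (.y, 0), (.y, 1)],
    [(.m, 2), (.y, 1), (.z, 0), (.y, 1)],
    [(.y, 1), (.m, 0), (.z, 0), (.y, 1)],
    [(.y, 2), (.m, 0), (.z, 0), (.y, 1)],
    [(.m, 0), (.y, 0), (.z, 0), (.y, 1)],
    [(.m, 1), (.y, 0), (.z, 0), (.y, 1)],
    [(.m, 2), (.y, 0), (.z, 0), (.y, 1)],
    [(.m, 2), (.y, 0), (.y, 1), (.z, 1)],
    [(.y, 1), (.y, 0), (.m, 0), (.z, 1)],
    [(.y, 2), (.y, 0), (.m, 0), (.z, 1)],
    [(.m, 2), (.y, 1), (.y, 0), (.z, 1)],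
    [(.y, 1), (.m, 0), (.y, 0), (.z, 1)],
    [(.y, 2), (.m, 0), (.y, 0), (.z, 1)],
    [(.m, 0), (.y, 0), (.y, 0), (.z, 1)],
    [(.m, 1), (.y, 0), (.y, 0), (.z, 1)],
    [(.m, 2), (.y, 0), (.y, 0), (.z, 1)],
    [(.y, 2), (.y, 0), (.z, 1), (.m, 0)],
    [(.y, 2), (.z, 1), (.y, 0), (.m, 0)],
    [(.z, 1), (.y, 0), (.y, 0), (.m, 0)],
    [(.z, 2), (.y, 0), (.y, 0), (.m, 0)],
    [(.y, 0), (.z, 0), (.y, 0), (.m, 0)],
    [(.y, 1), (.z, 0), (.y, 0), (.m, 0)],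
    [(.y, 2), (.z, 0), (.y, 0), (.m, 0)],
    [(.y, 1), (.y, 0), (.z, 0), (.m, 0)],
    [(.y, 2), (.y, 0), (.z, 0), (.m, 0)],
    [(.m, 2), (.y, 0), (.z, 1), (.y, 0)],
    [(.z, 1), (.y, 0), (.m, 0), (.y, 0)],
    [(.y, 1), (.z, 0), (.m, 0), (.y, 0)],
    [(.y, 2), (.z, 0), (.m, 0), (.y, 0)],
    [(.m, 2), (.z, 1), (.y, 0), (.y, 0)],
    [(.z, 1), (.m, 0), (.y, 0), (.y, 0)],
    [(.z, 2), (.m, 0), (.y, 0), (.y, 0)],
    [(.m, 0), (.z, 0), (.y, 0), (.y, 0)],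
    [(.m, 1), (.z, 0), (.y, 0), (.y, 0)],
    [(.m, 2), (.z, 0), (.y, 0), (.y, 0)],
    [(.m, 2), (.y, 1), (.z, 0), (.y, 0)],
    [(.y, 1), (.m, 0), (.z, 0), (.y, 0)],
    [(.y, 2), (.m, 0), (.z, 0), (.y, 0)],
    [(.m, 0), (.y, 0), (.z, 0), (.y, 0)],
    [(.m, 1), (.y, 0), (.z, 0), (.y, 0)],
    [(.m, 2), (.y, 0), (.z, 0), (.y, 0)],
    [(.m, 2), (.y, 0), (.y, 1), (.z, 0)],
    [(.y, 1), (.y, 0), (.m, 0), (.z, 0)],
    [(.y, 2), (.y, 0), (.m, 0), (.z, 0)],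
    [(.m, 2), (.y, 1), (.y, 0), (.z, 0)],
    [(.y, 1), (.m, 0), (.y, 0), (.z, 0)],
    [(.y, 2), (.m, 0), (.y, 0), (.z, 0)],
    [(.m, 0), (.y, 0), (.y, 0), (.z, 0)],
    [(.m, 1), (.y, 0), (.y, 0), (.z, 0)],
    [(.m, 2), (.y, 0), (.y, 0), (.z, 0)]]
  piv := [67, 75, 76, 79, 80, 81, 82, 83, 85, 86, 87, 88, 89, 90, 91, 92, 94, 95, 96, 97, 98, 99, 100, 101]
  R := 0x310c1e000002580000053718000165952c0059654b0ecfb7d2c003a1180001c2c0008fc7ac8000000000011955380000cba600000000004011c75623eb8af80000d992aa0069a32a80106008a005d6787001745e1c005d17c3001edee00000108000000201b01000000001afb57000000000fc880000002266150018820100000000046c139ee91b12596546c000001580000006040383a78148cb35001232cd40045ac20e2401a68c000ae9a300345b432cc02000058c091c5363376ebe58cedf2a6003b7ca9803c46ef0000000000016880000000021528000703f5800456f80c00701e00005904800016413ad3fd73f800000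000005ea08000001b4106f00713680035f45400e07d1507344fd8200d13f6080196dc12000036d484000da521000369485410195e000451047b811441000005b15a46136c5691000a51c45ee0000007bd4c70a9c400000100669d754019a75d5006fb9454011c6ccc04c71b332db1c6ecc000c2380000308e00ccf136cb0d0384e003449046fcd9241000048001000129af804248000001b14544001029350004164d40013e07a0004e15f8001384fa000000022e100080c384000010e1ccf1c000333c70000ccd4c40fc800100100000000000000000000001001080000000000000000240008200010000000000000011000000001554e000000007640410088000004000000000000003f90b3c0400400000000000001be6400048008000000000cfb480007640010080000000000000c6aee508000100000000000000823000020002000000000a82ad99200000080200000000005e9c648000080002000000000100020000000000040000000000000a80010000000400000000001142800db80000080012be000009b40001e0000010000a80000006e0000000000210000000000002002000000000200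0000000144115800000000041249000005b15fbc0124900008000000001745600001864000100001ef00552be04000080000100000000165be000019040000200006edbb6d58000000004000200000048001040000000000004000003f80007c400001000000400000ce000000005144000000801f107d8d580000000100000080000082011000000000000001000000086440000000000020020000016476010200000000000400022000044000000000000804000f200007100080000000000800001e0080c40000000000001000082510000000000000004010004d55380000040000000000202c94510000000000000100004000d753800010000000000000820004000000000000000000010000160000000000008000000200000200080000000000000004004714802c80000000000008080164160002000000000002001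
  N := 102
  rows := rw2_121_0
  kap t e := match t, e with
    | .z, 0 => [0x9d9d8e73d356c059d86, 0, 0, 0, 0, 0, 0, 0, 0]
    | .z, 1 => [0x201c81f4b85969802e21, 0x1f2153923d7ee4e287a5, 0x10a4cd13bac43d773ec8, 0x2f4ea7c3347b4bb5533b, 0x3681aab9d4e7c4f53641, 0x1f706e25f43e362c9923, 0x18e7e9970292f0371fff, 0x11fdc59060ea4cbdba07, 0]
    | .z, 2 => [0x18439978d4dd20c38156, 0xcf7bf109c897ed45570, 0x8265ed487768ada1bc, 0x19bd2865b23821eed47f, 0x447ce04b028b04bc457, 0x1e28cd95caf571f99885, 0x2698218aa098808c40c, 0x19151b80e093ed87e82f, 0x7112dd6c0d0cec8c984]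
    | .y, 0 => [0x2a7cb180b832ae9ed896, 0x2c6d5ade8573eca803c1, 0, 0, 0, 0, 0, 0x610ba17051bf0a9452a, 0, 0, 0, 0, 0, 0, 0, 0]
    | .y, 1 => [0x3f5ef2ce51a84762f0ed, 0x1f6c333cc0915ec8763f, 0xe2527465fd315317ac, 0x3a8d79051cc1e2da709c, 0x253a849f09663728a1df, 0x24b418513e1b8c27c179, 0xfb538187991a82daf79, 0x4000000000, 0x3c3535349b66e4e09456, 0x158dc79abf2a8feb972b, 0x5ddbbfeda1645bb79eb, 0x17e33a8f27e9812f4014, 0x3ab59247fcc11cebd4d4, 0x2dba135ffc9a8ee4cfce, 0x22d36979492ba7dfcd39, 0x2405d886ed3f63b5d29e]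
    | .y, 2 => [0x22bc142cb54114f6e06e, 0x2199aa2c518216e16c4a, 0x2676bfbe94ea87b8cae, 0x583ac1e0e4e1dbcbbe0, 0x17536919a8007d89c09, 0x13e64a1b5fdcebaed4c1, 0x692dffa4d6c9804c496, 0x4000, 0x173da730de4619f8281a, 0x10531077075e0f5381bc, 0xc0fd653e1d92861a0ea, 0x25f80b9094e56482ce6, 0x39316090f55ed15f6ca, 0x1ff2e4450c6232336a46, 0xfff1b93df0d01d10e5c, 0x1572644526ac5f917be5]
    | .m, 0 => [0x5536c56d85994ef215e, 0x11c619dfc5d71abc0ea1, 0x18e7e9970092f0371fff, 0x2698218aa098a08c40c, 0x610ba17011bf0a9452a, 0x2dba135ffd9a8ee4cfce, 0x1ff2e4450c6232376a46, 0, 0]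
    | .m, 1 => [0x100df6ed02327584b4f2, 0x1d1a97e7cf779cd6520, 0x11fdc59060ea6cbdba07, 0x19151b80e093e987e82f, 0x40000000, 0x766ba09c93715edcd03, 0x627923dda62df430da7, 0x1980e6441b7bd6d2946c, 0x1ee52e9edb29c762abe1]
    | .m, 2 => [0x17c010dc1d0578997997, 0x1ff3ef0d411b410480ee, 4, 0x10197c1c5cb3e618ca6, 0x10, 0x2ddd5128e850bd2fd145, 0x1362de5223b7af383e8f, 0x1c554e34ba4551719450, 0x1643aa600245fffac596]
    | _, _ => []

theorem rok2_121_0 : rowsOK D2 tg2_121 c2_121.R c2_121.N 0 rw2_121_0 = true := by decide +kernel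

theorem rws2_121 : rwsOK D2 c2_121 = true := by
  refine rwsOK_of (by decide +kernel) (by decide +kernel) (by decide +kernel) ?_
  exact rok2_121_0

theorem cok2_121 : certOK D2 c2_121 = true :=
  certOK_of (by decide +kernel) (by decide +kernel) rws2_121 (by decide +kernel)
    (by decide +kernel) (by decide +kernel)

theorem all2_121 : c2_121.rows.all okRow2 = true := by decide +kernel

end Pool.Agent.Work.MP_d7201b_al.L3
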