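import Pool.Agent.Work.MP_d7201b_al_helper73.D2
import Pool.Agent.Work.MP_d7201b_al_helper73.Lib

/-!
# Content (1, 3, 0), `p = 2`
-/

set_option autoImplicit false
set_option maxRecDepth 100000

namespace Pool.Agent.Work.MP_d7201b_al.L3

/-- The content. -/
def tg2_130 : Tgt where
  c := (1, 3, 0)
  dm t := match t with | .z => 3 | .y => 9 | .m => 0
  off t e := match t with
    | .z => match e with | 0 => 33 | 1 => 21 | _ => 9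
    | .y => match e with | 0 => 24 | 1 => 12 | _ => 0
    | .m => match e with | 0 => 0 | 1 => 0 | _ => 0

/-- Rows. -/
def rw2_130_0 : List Row := [.lie [(.y, 2), (.y, 0), (.z, 1)] (.y, 2),
  .lie [(.z, 1), (.y, 0), (.y, 0)] (.y, 2),
  .lie [(.z, 2), (.y, 0), (.y, 0)] (.y, 2),
  .lie [(.y, 0), (.z, 0), (.y, 0)] (.y, 2),
  .lie [(.y, 1), (.z, 0), (.y, 0)] (.y, 2),
  .lie [(.y, 2), (.z, 0), (.y, 0)] (.y, 2),
  .lie [(.y, 1), (.y, 0), (.z, 0)] (.y, 2),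
  .lie [(.y, 2), (.y, 0), (.y, 1)] (.z, 2),
  .lie [(.y, 1), (.y, 0), (.y, 0)] (.z, 2),
  .lie [(.y, 2), (.y, 0), (.z, 1)] (.y, 1),
  .lie [(.y, 2), (.z, 1), (.y, 0)] (.y, 1),
  .lie [(.z, 1), (.y, 0), (.y, 0)] (.y, 1),
  .lie [(.y, 0), (.z, 0), (.y, 0)] (.y, 1),
  .lie [(.y, 1), (.z, 0), (.y, 0)] (.y, 1),
  .cr 1 [(.y, 0)] [(.z, 2), (.y, 1), (.y, 1)],
  .cr 1 [(.y, 0)] [(.y, 1), (.y, 2), (.z, 1)],
  .cr 1 [(.y, 0)] [(.y, 2), (.y, 0), (.z, 0)],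
  .cr 1 [(.y, 0)] [(.z, 2), (.y, 2), (.y, 1)],
  .cr 1 [(.y, 2)] [(.y, 1), (.z, 1), (.y, 2)],
  .cr 1 [(.z, 2)] [(.y, 0), (.y, 0), (.y, 2)],
  .cr 1 [(.y, 0)] [(.y, 0), (.y, 2), (.z, 0)],
  .cr 1 [(.z, 1)] [(.y, 2), (.y, 2), (.y, 1)],
  .cr 1 [(.y, 2)] [(.z, 2), (.y, 0), (.y, 2)],
  .cr 1 [(.y, 1)] [(.y, 0), (.z, 1), (.y, 0)],
  .cr 1 [(.y, 0)] [(.z, 1), (.y, 2), (.y, 1)],
  .cr 1 [(.y, 1)] [(.y, 0), (.y, 1), (.z, 0)]]

/-- The certificate. -/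
def c2_130 : Cert ℕ where
  tg := tg2_130
  pre := [[(.y, 2), (.y, 0), (.z, 1), (.y, 2)],
    [(.y, 2), (.z, 1), (.y, 0), (.y, 2)],
    [(.z, 1), (.y, 0), (.y, 0), (.y, 2)],
    [(.z, 2), (.y, 0), (.y, 0), (.y, 2)],
    [(.y, 0), (.z, 0), (.y, 0), (.y, 2)],
    [(.y, 1), (.z, 0), (.y, 0), (.y, 2)],
    [(.y, 2), (.z, 0), (.y, 0), (.y, 2)],
    [(.y, 1), (.y, 0), (.z, 0), (.y, 2)],
    [(.y, 2), (.y, 0), (.z, 0), (.y, 2)],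
    [(.y, 2), (.y, 0), (.y, 1), (.z, 2)],
    [(.y, 1), (.y, 0), (.y, 0), (.z, 2)],
    [(.y, 2), (.y, 0), (.y, 0), (.z, 2)],
    [(.y, 2), (.y, 0), (.z, 1), (.y, 1)],
    [(.y, 2), (.z, 1), (.y, 0), (.y, 1)],
    [(.z, 1), (.y, 0), (.y, 0), (.y, 1)],
    [(.z, 2), (.y, 0), (.y, 0), (.y, 1)],
    [(.y, 0), (.z, 0), (.y, 0), (.y, 1)],
    [(.y, 1), (.z, 0), (.y, 0), (.y, 1)],
    [(.y, 2), (.z, 0), (.y, 0), (.y, 1)],
    [(.y, 1), (.y, 0), (.z, 0), (.y, 1)],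
    [(.y, 2), (.y, 0), (.z, 0), (.y, 1)],
    [(.y, 2), (.y, 0), (.y, 1), (.z, 1)],
    [(.y, 1), (.y, 0), (.y, 0), (.z, 1)],
    [(.y, 2), (.y, 0), (.y, 0), (.z, 1)],
    [(.y, 2), (.y, 0), (.z, 1), (.y, 0)],
    [(.y, 2), (.z, 1), (.y, 0), (.y, 0)],
    [(.z, 1), (.y, 0), (.y, 0), (.y, 0)],
    [(.z, 2), (.y, 0), (.y, 0), (.y, 0)],
    [(.y, 0), (.z, 0), (.y, 0), (.y, 0)],
    [(.y, 1), (.z, 0), (.y, 0), (.y, 0)],
    [(.y, 2), (.z, 0), (.y, 0), (.y, 0)],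
    [(.y, 1), (.y, 0), (.z, 0), (.y, 0)],
    [(.y, 2), (.y, 0), (.z, 0), (.y, 0)],
    [(.y, 2), (.y, 0), (.y, 1), (.z, 0)],
    [(.y, 1), (.y, 0), (.y, 0), (.z, 0)],
    [(.y, 2), (.y, 0), (.y, 0), (.z, 0)]]
  piv := [23, 25, 26, 27, 29, 30, 31, 32, 34, 35]
  R := 0x1d90812ef0aeeae6af0cf031a01d71ceed000c90c91e01508914100550ed0081e31e27866a96a99a91810c07911641672ab0d90d9f81fd90a000042001000002a4040001e2e020cf12c20102a06e00840003f10026eff1040080910000140271100020840000010058000808002800004005800003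
  N := 36
  rows := rw2_130_0
  kap t e := match t, e with
    | .z, 0 => [0x3927f4e, 0, 0]
    | .z, 1 => [0x2abc6cf, 0x2b55681, 0]
    | .z, 2 => [0x2cf6279, 0x1849526, 0x1511202]
    | .y, 0 => [0x1ca69f0, 0, 0, 0, 0x5ebd29, 0, 0, 0, 0]
    | .y, 1 => [0x8a6b05, 0x373c9e6, 0x2b55e81, 0x1849426, 0x1000, 0x346d895, 0x12e51c3, 0x1405302, 0x1fa7888]
    | .y, 2 => [0x118ba1b, 0xd2d3ea, 2, 0x10faf2f, 8, 0x3fcd30f, 0x806160, 0x328fa14, 0xdedc69]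
    | _, _ => []

theorem rok2_130_0 : rowsOK D2 tg2_130 c2_130.R c2_130.N 0 rw2_130_0 = true := by decide +kernel

theorem rws2_130 : rwsOK D2 c2_130 = true := by
  refine rwsOK_of (by decide +kernel) (by decide +kernel) (by decide +kernel) ?_
  exact rok2_130_0

theorem cok2_130 : certOK D2 c2_130 = true :=
  certOK_of (by decide +kernel) (by decide +kernel) rws2_130 (by decide +kernel)
    (by decide +kernel) (by decide +kernel)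

theorem all2_130 : c2_130.rows.all okRow2 = true := by decide +kernel

end Pool.Agent.Work.MP_d7201b_al.L3
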