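import Pool.Agent.Work.MP_d7201b_al_helper73.D2
import Pool.Agent.Work.MP_d7201b_al_helper73.Lib

/-!
# Content (1, 3, 1), `p = 2`
-/

set_option autoImplicit false
set_option maxRecDepth 100000

namespace Pool.Agent.Work.MP_d7201b_al.L3

/-- The content. -/
def tg2_131 : Tgt where
  c := (1, 3, 1)
  dm t := match t with | .z => 10 | .y => 24 | .m => 10
  off t e := match t with
    | .z => match e with | 0 => 122 | 1 => 78 | _ => 34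
    | .y => match e with | 0 => 98 | 1 => 54 | _ => 10
    | .m => match e with | 0 => 88 | 1 => 44 | _ => 0

/-- Rows. -/
def rw2_131_0 : List Row := [.lie [(.y, 2), (.y, 0), (.y, 0), (.z, 1)] (.m, 2),
  .lie [(.y, 2), (.z, 1), (.y, 0), (.y, 0)] (.m, 2),
  .lie [(.z, 1), (.y, 0), (.y, 0), (.y, 0)] (.m, 2),
  .lie [(.z, 2), (.y, 0), (.y, 0), (.y, 0)] (.m, 2),
  .lie [(.y, 1), (.z, 0), (.y, 0), (.y, 0)] (.m, 2),
  .lie [(.y, 2), (.z, 0), (.y, 0), (.y, 0)] (.m, 2),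
  .lie [(.y, 1), (.y, 0), (.z, 0), (.y, 0)] (.m, 2),
  .lie [(.y, 2), (.y, 0), (.z, 0), (.y, 0)] (.m, 2),
  .lie [(.y, 1), (.y, 0), (.y, 0), (.z, 0)] (.m, 2),
  .lie [(.y, 2), (.y, 0), (.y, 0), (.z, 0)] (.m, 2),
  .lie [(.y, 1), (.y, 0), (.z, 0), (.m, 0)] (.y, 2),
  .lie [(.y, 2), (.y, 0), (.z, 0), (.m, 0)] (.y, 2),
  .lie [(.y, 1), (.z, 0), (.m, 0), (.y, 0)] (.y, 2),
  .lie [(.y, 2), (.z, 0), (.m, 0), (.y, 0)] (.y, 2),
  .lie [(.z, 1), (.m, 0), (.y, 0), (.y, 0)] (.y, 2),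
  .lie [(.z, 2), (.m, 0), (.y, 0), (.y, 0)] (.y, 2),
  .lie [(.m, 1), (.z, 0), (.y, 0), (.y, 0)] (.y, 2),
  .lie [(.m, 2), (.y, 1), (.z, 0), (.y, 0)] (.y, 2),
  .lie [(.y, 1), (.m, 0), (.z, 0), (.y, 0)] (.y, 2),
  .lie [(.m, 0), (.y, 0), (.z, 0), (.y, 0)] (.y, 2),
  .lie [(.m, 1), (.y, 0), (.z, 0), (.y, 0)] (.y, 2),
  .lie [(.y, 1), (.y, 0), (.m, 0), (.z, 0)] (.y, 2),
  .lie [(.m, 2), (.y, 1), (.y, 0), (.z, 0)] (.y, 2),
  .lie [(.y, 1), (.m, 0), (.y, 0), (.z, 0)] (.y, 2),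
  .lie [(.y, 2), (.m, 0), (.y, 0), (.z, 0)] (.y, 2),
  .lie [(.m, 0), (.y, 0), (.y, 0), (.z, 0)] (.y, 2),
  .lie [(.m, 1), (.y, 0), (.y, 0), (.z, 0)] (.y, 2),
  .lie [(.m, 2), (.y, 0), (.y, 0), (.y, 1)] (.z, 2),
  .lie [(.y, 1), (.y, 0), (.y, 0), (.m, 0)] (.z, 2),
  .lie [(.y, 1), (.y, 0), (.m, 0), (.y, 0)] (.z, 2),
  .lie [(.m, 2), (.y, 1), (.y, 0), (.y, 0)] (.z, 2),
  .lie [(.y, 1), (.m, 0), (.y, 0), (.y, 0)] (.z, 2),
  .lie [(.y, 2), (.m, 0), (.y, 0), (.y, 0)] (.z, 2),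
  .lie [(.m, 0), (.y, 0), (.y, 0), (.y, 0)] (.z, 2),
  .lie [(.m, 1), (.y, 0), (.y, 0), (.y, 0)] (.z, 2),
  .lie [(.y, 2), (.y, 0), (.y, 0), (.z, 1)] (.m, 1),
  .lie [(.y, 2), (.z, 1), (.y, 0), (.y, 0)] (.m, 1),
  .lie [(.z, 1), (.y, 0), (.y, 0), (.y, 0)] (.m, 1),
  .lie [(.y, 1), (.z, 0), (.y, 0), (.y, 0)] (.m, 1),
  .lie [(.y, 1), (.y, 0), (.z, 0), (.y, 0)] (.m, 1),
  .lie [(.y, 1), (.y, 0), (.y, 0), (.z, 0)] (.m, 1),
  .lie [(.m, 2), (.y, 0), (.y, 0), (.z, 1)] (.y, 1),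
  .lie [(.y, 1), (.y, 0), (.z, 0), (.m, 0)] (.y, 1),
  .lie [(.y, 1), (.z, 0), (.m, 0), (.y, 0)] (.y, 1),
  .lie [(.m, 2), (.z, 1), (.y, 0), (.y, 0)] (.y, 1),
  .lie [(.z, 1), (.m, 0), (.y, 0), (.y, 0)] (.y, 1),
  .lie [(.m, 2), (.y, 1), (.z, 0), (.y, 0)] (.y, 1),
  .lie [(.m, 0), (.y, 0), (.z, 0), (.y, 0)] (.y, 1),
  .lie [(.m, 2), (.y, 1), (.y, 0), (.z, 0)] (.y, 1),
  .lie [(.y, 1), (.m, 0), (.y, 0), (.z, 0)] (.y, 1),
  .lie [(.m, 0), (.y, 0), (.y, 0), (.z, 0)] (.y, 1),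
  .lie [(.y, 1), (.y, 0), (.m, 0), (.y, 0)] (.z, 1),
  .lie [(.y, 1), (.m, 0), (.y, 0), (.y, 0)] (.z, 1),
  .lie [(.y, 2), (.m, 0), (.y, 0), (.y, 0)] (.z, 1),
  .lie [(.m, 0), (.y, 0), (.y, 0), (.y, 0)] (.z, 1),
  .lie [(.y, 1), (.y, 0), (.y, 0), (.z, 0)] (.m, 0),
  .lie [(.y, 2), (.y, 0), (.y, 0), (.z, 0)] (.m, 0),
  .lie [(.m, 1), (.y, 0), (.y, 0), (.z, 0)] (.y, 0),
  .lie [(.m, 2), (.y, 0), (.y, 0), (.z, 0)] (.y, 0),
  .cr 1 [(.y, 2), (.y, 1)] [(.y, 0), (.m, 0), (.z, 0)],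
  .cr 1 [(.y, 1), (.y, 0)] [(.m, 2), (.y, 2), (.z, 0)],
  .cr 1 [(.y, 1), (.y, 0)] [(.y, 1), (.z, 2), (.m, 0)],
  .cr 1 [(.z, 1), (.y, 0)] [(.y, 0), (.m, 1), (.y, 1)],
  .cr 1 [(.z, 2), (.y, 0)] [(.y, 2), (.y, 0), (.m, 2)],
  .cr 1 [(.y, 2), (.m, 0)] [(.z, 0), (.y, 2), (.y, 0)],
  .cr 1 [(.y, 1), (.y, 0)] [(.z, 2), (.m, 2), (.y, 0)],
  .cr 1 [(.y, 1), (.y, 0)] [(.m, 1), (.y, 2), (.z, 2)],
  .cr 1 [(.z, 2), (.y, 0)] [(.m, 1), (.y, 0), (.y, 0)],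
  .cr 1 [(.y, 1), (.z, 0)] [(.m, 0), (.y, 1), (.y, 2)],
  .cr 1 [(.m, 2), (.y, 1)] [(.z, 0), (.y, 1), (.y, 1)],
  .cr 1 [(.y, 1), (.m, 0)] [(.z, 0), (.y, 1), (.y, 2)],
  .cr 1 [(.y, 2), (.y, 1)] [(.y, 0), (.z, 1), (.m, 0)],
  .cr 1 [(.y, 2), (.y, 0)] [(.z, 2), (.y, 2), (.m, 2)],
  .cr 1 [(.y, 2), (.m, 0)] [(.z, 0), (.y, 0), (.y, 0)],
  .cr 1 [(.m, 0), (.y, 0)] [(.z, 0), (.y, 0), (.y, 1)],
  .cr 1 [(.m, 1), (.y, 0)] [(.y, 2), (.z, 2), (.y, 2)],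
  .cr 1 [(.m, 0), (.y, 0)] [(.y, 2), (.y, 2), (.z, 2)],
  .cr 1 [(.y, 1), (.y, 0)] [(.z, 0), (.y, 1), (.m, 0)],
  .cr 1 [(.y, 1), (.y, 0)] [(.z, 1), (.m, 1), (.y, 1)],
  .cr 1 [(.y, 1), (.y, 0)] [(.y, 0), (.z, 1), (.m, 1)],
  .cr 1 [(.y, 1), (.y, 0)] [(.z, 0), (.m, 1), (.y, 0)],
  .cr 1 [(.z, 1), (.y, 0)] [(.y, 2), (.m, 0), (.y, 0)],
  .cr 1 [(.y, 0), (.z, 0)] [(.y, 1), (.y, 0), (.m, 0)],
  .cr 1 [(.m, 2), (.y, 1)] [(.y, 0), (.z, 2), (.y, 0)],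
  .cr 1 [(.y, 1), (.y, 0)] [(.y, 1), (.z, 0), (.m, 0)],
  .cr 1 [(.y, 2), (.y, 1)] [(.z, 0), (.y, 2), (.m, 0)],
  .cr 1 [(.m, 1), (.y, 0)] [(.y, 1), (.y, 2), (.z, 2)],
  .cr 1 [(.m, 2), (.y, 0)] [(.y, 1), (.y, 0), (.z, 1)],
  .cr 1 [(.y, 2), (.y, 1)] [(.m, 0), (.z, 1), (.y, 2)],
  .cr 1 [(.y, 2), (.y, 1)] [(.z, 2), (.y, 1), (.m, 1)],
  .cr 1 [(.y, 1), (.y, 0)] [(.y, 0), (.m, 2), (.z, 0)],
  .cr 1 [(.y, 2), (.y, 0)] [(.z, 0), (.m, 0), (.y, 0)],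
  .cr 1 [(.y, 2), (.y, 1)] [(.m, 0), (.z, 0), (.y, 2)],
  .cr 1 [(.z, 2), (.y, 0)] [(.y, 0), (.m, 1), (.y, 1)],
  .cr 1 [(.z, 1), (.y, 0)] [(.y, 1), (.m, 0), (.y, 2)],
  .cr 1 [(.m, 2), (.z, 0)] [(.y, 2), (.y, 1), (.y, 1)],
  .cr 1 [(.y, 0), (.z, 0)] [(.y, 0), (.y, 1), (.m, 0)],
  .cr 1 [(.m, 2), (.y, 1)] [(.z, 0), (.y, 2), (.y, 1)],
  .cr 1 [(.y, 2), (.m, 0)] [(.z, 1), (.y, 1), (.y, 1)],
  .cr 1 [(.y, 2), (.y, 1)] [(.y, 1), (.m, 0), (.z, 1)],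
  .cr 1 [(.z, 1), (.m, 0)] [(.y, 1), (.y, 0), (.y, 2)],
  .cr 1 [(.y, 2), (.m, 0)] [(.y, 2), (.z, 2), (.y, 1)],
  .cr 1 [(.y, 2), (.y, 1)] [(.y, 2), (.z, 1), (.m, 1)],
  .cr 1 [(.y, 0), (.z, 0)] [(.m, 1), (.y, 2), (.y, 2)],
  .cr 1 [(.y, 1), (.y, 0)] [(.m, 1), (.z, 2), (.y, 0)],
  .cr 1 [(.y, 2), (.y, 0)] [(.y, 1), (.z, 0), (.m, 2)]]

/-- The certificate. -/
def c2_131 : Cert ℕ where
  tg := tg2_131
  pre := [[(.y, 2), (.y, 0), (.y, 0), (.z, 1), (.m, 2)],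
    [(.y, 2), (.z, 1), (.y, 0), (.y, 0), (.m, 2)],
    [(.z, 1), (.y, 0), (.y, 0), (.y, 0), (.m, 2)],
    [(.z, 2), (.y, 0), (.y, 0), (.y, 0), (.m, 2)],
    [(.y, 1), (.z, 0), (.y, 0), (.y, 0), (.m, 2)],
    [(.y, 2), (.z, 0), (.y, 0), (.y, 0), (.m, 2)],
    [(.y, 1), (.y, 0), (.z, 0), (.y, 0), (.m, 2)],
    [(.y, 2), (.y, 0), (.z, 0), (.y, 0), (.m, 2)],
    [(.y, 1), (.y, 0), (.y, 0), (.z, 0), (.m, 2)],
    [(.y, 2), (.y, 0), (.y, 0), (.z, 0), (.m, 2)],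
    [(.m, 2), (.y, 0), (.y, 0), (.z, 1), (.y, 2)],
    [(.y, 1), (.y, 0), (.z, 0), (.m, 0), (.y, 2)],
    [(.y, 2), (.y, 0), (.z, 0), (.m, 0), (.y, 2)],
    [(.y, 1), (.z, 0), (.m, 0), (.y, 0), (.y, 2)],
    [(.y, 2), (.z, 0), (.m, 0), (.y, 0), (.y, 2)],
    [(.m, 2), (.z, 1), (.y, 0), (.y, 0), (.y, 2)],
    [(.z, 1), (.m, 0), (.y, 0), (.y, 0), (.y, 2)],
    [(.z, 2), (.m, 0), (.y, 0), (.y, 0), (.y, 2)],
    [(.m, 1), (.z, 0), (.y, 0), (.y, 0), (.y, 2)],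
    [(.m, 2), (.z, 0), (.y, 0), (.y, 0), (.y, 2)],
    [(.m, 2), (.y, 1), (.z, 0), (.y, 0), (.y, 2)],
    [(.y, 1), (.m, 0), (.z, 0), (.y, 0), (.y, 2)],
    [(.y, 2), (.m, 0), (.z, 0), (.y, 0), (.y, 2)],
    [(.m, 0), (.y, 0), (.z, 0), (.y, 0), (.y, 2)],
    [(.m, 1), (.y, 0), (.z, 0), (.y, 0), (.y, 2)],
    [(.m, 2), (.y, 0), (.z, 0), (.y, 0), (.y, 2)],
    [(.y, 1), (.y, 0), (.m, 0), (.z, 0), (.y, 2)],
    [(.y, 2), (.y, 0), (.m, 0), (.z, 0), (.y, 2)],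
    [(.m, 2), (.y, 1), (.y, 0), (.z, 0), (.y, 2)],
    [(.y, 1), (.m, 0), (.y, 0), (.z, 0), (.y, 2)],
    [(.y, 2), (.m, 0), (.y, 0), (.z, 0), (.y, 2)],
    [(.m, 0), (.y, 0), (.y, 0), (.z, 0), (.y, 2)],
    [(.m, 1), (.y, 0), (.y, 0), (.z, 0), (.y, 2)],
    [(.m, 2), (.y, 0), (.y, 0), (.z, 0), (.y, 2)],
    [(.m, 2), (.y, 0), (.y, 0), (.y, 1), (.z, 2)],
    [(.y, 1), (.y, 0), (.y, 0), (.m, 0), (.z, 2)],
    [(.y, 2), (.y, 0), (.y, 0), (.m, 0), (.z, 2)],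
    [(.y, 1), (.y, 0), (.m, 0), (.y, 0), (.z, 2)],
    [(.m, 2), (.y, 1), (.y, 0), (.y, 0), (.z, 2)],
    [(.y, 1), (.m, 0), (.y, 0), (.y, 0), (.z, 2)],
    [(.y, 2), (.m, 0), (.y, 0), (.y, 0), (.z, 2)],
    [(.m, 0), (.y, 0), (.y, 0), (.y, 0), (.z, 2)],
    [(.m, 1), (.y, 0), (.y, 0), (.y, 0), (.z, 2)],
    [(.m, 2), (.y, 0), (.y, 0), (.y, 0), (.z, 2)],
    [(.y, 2), (.y, 0), (.y, 0), (.z, 1), (.m, 1)],
    [(.y, 2), (.z, 1), (.y, 0), (.y, 0), (.m, 1)],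
    [(.z, 1), (.y, 0), (.y, 0), (.y, 0), (.m, 1)],
    [(.z, 2), (.y, 0), (.y, 0), (.y, 0), (.m, 1)],
    [(.y, 1), (.z, 0), (.y, 0), (.y, 0), (.m, 1)],
    [(.y, 2), (.z, 0), (.y, 0), (.y, 0), (.m, 1)],
    [(.y, 1), (.y, 0), (.z, 0), (.y, 0), (.m, 1)],
    [(.y, 2), (.y, 0), (.z, 0), (.y, 0), (.m, 1)],
    [(.y, 1), (.y, 0), (.y, 0), (.z, 0), (.m, 1)],
    [(.y, 2), (.y, 0), (.y, 0), (.z, 0), (.m, 1)],
    [(.m, 2), (.y, 0), (.y, 0), (.z, 1), (.y, 1)],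
    [(.y, 1), (.y, 0), (.z, 0), (.m, 0), (.y, 1)],
    [(.y, 2), (.y, 0), (.z, 0), (.m, 0), (.y, 1)],
    [(.y, 1), (.z, 0), (.m, 0), (.y, 0), (.y, 1)],
    [(.y, 2), (.z, 0), (.m, 0), (.y, 0), (.y, 1)],
    [(.m, 2), (.z, 1), (.y, 0), (.y, 0), (.y, 1)],
    [(.z, 1), (.m, 0), (.y, 0), (.y, 0), (.y, 1)],
    [(.z, 2), (.m, 0), (.y, 0), (.y, 0), (.y, 1)],
    [(.m, 1), (.z, 0), (.y, 0), (.y, 0), (.y, 1)],
    [(.m, 2), (.z, 0), (.y, 0), (.y, 0), (.y, 1)],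
    [(.m, 2), (.y, 1), (.z, 0), (.y, 0), (.y, 1)],
    [(.y, 1), (.m, 0), (.z, 0), (.y, 0), (.y, 1)],
    [(.y, 2), (.m, 0), (.z, 0), (.y, 0), (.y, 1)],
    [(.m, 0), (.y, 0), (.z, 0), (.y, 0), (.y, 1)],
    [(.m, 1), (.y, 0), (.z, 0), (.y, 0), (.y, 1)],
    [(.m, 2), (.y, 0), (.z, 0), (.y, 0), (.y, 1)],
    [(.y, 1), (.y, 0), (.m, 0), (.z, 0), (.y, 1)],
    [(.y, 2), (.y, 0), (.m, 0), (.z, 0), (.y, 1)],
    [(.m, 2), (.y, 1), (.y, 0), (.z, 0), (.y, 1)],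
    [(.y, 1), (.m, 0), (.y, 0), (.z, 0), (.y, 1)],
    [(.y, 2), (.m, 0), (.y, 0), (.z, 0), (.y, 1)],
    [(.m, 0), (.y, 0), (.y, 0), (.z, 0), (.y, 1)],
    [(.m, 1), (.y, 0), (.y, 0), (.z, 0), (.y, 1)],
    [(.m, 2), (.y, 0), (.y, 0), (.z, 0), (.y, 1)],
    [(.m, 2), (.y, 0), (.y, 0), (.y, 1), (.z, 1)],
    [(.y, 1), (.y, 0), (.y, 0), (.m, 0), (.z, 1)],
    [(.y, 2), (.y, 0), (.y, 0), (.m, 0), (.z, 1)],
    [(.y, 1), (.y, 0), (.m, 0), (.y, 0), (.z, 1)],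
    [(.m, 2), (.y, 1), (.y, 0), (.y, 0), (.z, 1)],
    [(.y, 1), (.m, 0), (.y, 0), (.y, 0), (.z, 1)],
    [(.y, 2), (.m, 0), (.y, 0), (.y, 0), (.z, 1)],
    [(.m, 0), (.y, 0), (.y, 0), (.y, 0), (.z, 1)],
    [(.m, 1), (.y, 0), (.y, 0), (.y, 0), (.z, 1)],
    [(.m, 2), (.y, 0), (.y, 0), (.y, 0), (.z, 1)],
    [(.y, 2), (.y, 0), (.y, 0), (.z, 1), (.m, 0)],
    [(.y, 2), (.z, 1), (.y, 0), (.y, 0), (.m, 0)],
    [(.z, 1), (.y, 0), (.y, 0), (.y, 0), (.m, 0)],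
    [(.z, 2), (.y, 0), (.y, 0), (.y, 0), (.m, 0)],
    [(.y, 1), (.z, 0), (.y, 0), (.y, 0), (.m, 0)],
    [(.y, 2), (.z, 0), (.y, 0), (.y, 0), (.m, 0)],
    [(.y, 1), (.y, 0), (.z, 0), (.y, 0), (.m, 0)],
    [(.y, 2), (.y, 0), (.z, 0), (.y, 0), (.m, 0)],
    [(.y, 1), (.y, 0), (.y, 0), (.z, 0), (.m, 0)],
    [(.y, 2), (.y, 0), (.y, 0), (.z, 0), (.m, 0)],
    [(.m, 2), (.y, 0), (.y, 0), (.z, 1), (.y, 0)],
    [(.y, 1), (.y, 0), (.z, 0), (.m, 0), (.y, 0)],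
    [(.y, 2), (.y, 0), (.z, 0), (.m, 0), (.y, 0)],
    [(.y, 1), (.z, 0), (.m, 0), (.y, 0), (.y, 0)],
    [(.y, 2), (.z, 0), (.m, 0), (.y, 0), (.y, 0)],
    [(.m, 2), (.z, 1), (.y, 0), (.y, 0), (.y, 0)],
    [(.z, 1), (.m, 0), (.y, 0), (.y, 0), (.y, 0)],
    [(.z, 2), (.m, 0), (.y, 0), (.y, 0), (.y, 0)],
    [(.m, 1), (.z, 0), (.y, 0), (.y, 0), (.y, 0)],
    [(.m, 2), (.z, 0), (.y, 0), (.y, 0), (.y, 0)],
    [(.m, 2), (.y, 1), (.z, 0), (.y, 0), (.y, 0)],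
    [(.y, 1), (.m, 0), (.z, 0), (.y, 0), (.y, 0)],
    [(.y, 2), (.m, 0), (.z, 0), (.y, 0), (.y, 0)],
    [(.m, 0), (.y, 0), (.z, 0), (.y, 0), (.y, 0)],
    [(.m, 1), (.y, 0), (.z, 0), (.y, 0), (.y, 0)],
    [(.m, 2), (.y, 0), (.z, 0), (.y, 0), (.y, 0)],
    [(.y, 1), (.y, 0), (.m, 0), (.z, 0), (.y, 0)],
    [(.y, 2), (.y, 0), (.m, 0), (.z, 0), (.y, 0)],
    [(.m, 2), (.y, 1), (.y, 0), (.z, 0), (.y, 0)],
    [(.y, 1), (.m, 0), (.y, 0), (.z, 0), (.y, 0)],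
    [(.y, 2), (.m, 0), (.y, 0), (.z, 0), (.y, 0)],
    [(.m, 0), (.y, 0), (.y, 0), (.z, 0), (.y, 0)],
    [(.m, 1), (.y, 0), (.y, 0), (.z, 0), (.y, 0)],
    [(.m, 2), (.y, 0), (.y, 0), (.z, 0), (.y, 0)],
    [(.m, 2), (.y, 0), (.y, 0), (.y, 1), (.z, 0)],
    [(.y, 1), (.y, 0), (.y, 0), (.m, 0), (.z, 0)],
    [(.y, 2), (.y, 0), (.y, 0), (.m, 0), (.z, 0)],
    [(.y, 1), (.y, 0), (.m, 0), (.y, 0), (.z, 0)],
    [(.m, 2), (.y, 1), (.y, 0), (.y, 0), (.z, 0)],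
    [(.y, 1), (.m, 0), (.y, 0), (.y, 0), (.z, 0)],
    [(.y, 2), (.m, 0), (.y, 0), (.y, 0), (.z, 0)],
    [(.m, 0), (.y, 0), (.y, 0), (.y, 0), (.z, 0)],
    [(.m, 1), (.y, 0), (.y, 0), (.y, 0), (.z, 0)],
    [(.m, 2), (.y, 0), (.y, 0), (.y, 0), (.z, 0)]]
  piv := [86, 87, 96, 97, 101, 103, 104, 105, 106, 107, 113, 114, 116, 117, 118, 119, 120, 121, 123, 124, 126, 127, 128, 129, 130, 131]
  R := 0x813100800028100000001281a3800000000a39c4745701a3a840002c1000371d2000000ffbe6220000ffbe603200217079b7000217079b700f8ce8b991f2a278c844002a278c844002a26eb004000006b715800000a30d980000138a3640004400000000044f28b999fb06e98c0000001931de4002a5931de4005e72270140027d1ed19c00d291ed19c0000376d19c0000004002000001ab3a8050001ca0c010400002d0600000002d060000019f6bf40000262591800000a0db84590037b636c000036303000000049cd90000036de13e7000195f85700b14000018c6000000018000100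0000000300080000810000000100000321f84531ae32df84d31018000001311b8000000361b8000000363fa4e8199370021b079970000f28b98eeb14f28b9800430000000004314fa0140043760f00400c95edd85c00e7605a9c000e750dd85c0036c930d8800044930d8b00000930d88c6000000000009f8040002370015b79d5013e971c85c003ebead19c003e9c800000000000000000003d86f811000385a9226a00151f86c00002b1d481ee003c5a090001f400000000a6e8c000000001c474473700340744f710034c7e4771964000003190034c7e44001f74c7e44008cc0c0a0b1880c0000000005400000100003baf5d631d528b4008001128b40080011289c85800a7708919c00a77e8919c00a75f3e9c0000a2b118500040a955840000023118500010000000000c5191184400002b368500001329f85e8001329f85e0031329f85e00000518c0000003d373c46e288000003709e5b31c040066074000000000393d980010ae6d44800c4ae6d4480000377fc1400001b35ac779000bacbc8da000351da00000000000000001640c2c08000c059421abd5a5f854001f5a5f856c71f5a5f8570036c0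00001b036d95f84db0328000019b0211d118440069159184400001d00004000038f12b014003d45eae880034558f28800363031000003296068000009a3284719f8000000009fb25f84eb19fb21f85700002e98c0901046e98c0901322e98c0b400000000180032195f84db0044000000008020208000000000000000000000000a040101040000000000000a0000000000000100040420000000000000000ca88000000800202100000ca88000000000000000003da152804200000000000000000000000001ade0031000000000000311f94800000cb3e216b08311f9480000000000000000cb9ec119020cbed6000000000000000880000201000080000000000000000009e7f005c77900004202800000000000003a8e37d88000019769e40000000000379028002000400000080000000000000000288a77d880000321e844000000000023700000a0e1710080001000000000000000000c890e000044000080000000000017180f4ace0f3700004002000000000000008078405c6370000020080000000000000000cbaf4000004000004000000000001a1f4ca67a00000000040100000000000008d40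150000000001000040000000000004b4cb37a00000100000010000000000000035f2cf40040000000004000000000000000228a000d9c0000000200395bc1400000004f400005c0000000100000068000002188e1c000000000000840000000000002c0ca500800000000000200000000000000288428800000000000102c2821000000c869c33f002c282100008000000000000c859c000000880210000400000033f0000073e3c7000024a400002000000000000c81a2301000000200000080000000000002f26000000428010000040000003ed9c018dc0000000000002000100000000110000040200000000000000080000000210888012a0000000000000000840500091fc9185f1700048405000000200000009dff9285c0000202c050000001000031706d9571af41000000040000000400000099c03700000000000000800000100000031000400080000000000000000080000035d91185e81000000010000000020000035d91285c00000000010000000010028105c02fdc0000000000020000000040000000caca42000000000000001000020000000c87940010100000000000000010000300c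2080280000000000000000800400034d9971ac810000800000000000002000310008010800000000000000000401000065911846410000040000000000000800010cac0400000000000000000000802000440291a000000000800000000000010031002c000000000000000000002000080aa4001000000000200000000000000040b10c800400000000000000002000000200040281a000002000000000000000001000088ca50000000000000080000000008000015d640080000000000000000000040000364a000b100000000000000000402000c878c0000100000000000000008001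
  N := 132
  rows := rw2_131_0
  kap t e := match t, e with
    | .z, 0 => [0xe22094fd92e673fb5ff29d5885, 0, 0, 0x20938a87c9fed27c99e92cff641, 0, 0, 0, 0, 0, 0]
    | .z, 1 => [0x175753910f3959ac6dee133fb50, 0x385114a6130bacdbba008dedb2d, 0x344eea4e8d5f510402a91ca4a7d, 0xd714733c1f87a3661ad49c2130, 0x5f31618d0414e1a301bdc92029, 0x2473ffa859e7ce534a4fc8a88f1, 0x3f99262221b9f425bd6ae70151e, 0x33e03d527df5fd94b54ed89b304, 0, 0]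
    | .z, 2 => [0x3f470c8323d0864cc94961d1601, 0x3f260649c28b140ecc6c89641cd, 0x3169dd7b16d4d8ab3fc4954f6b3, 0x249a82982caab4338495fa236d8, 0x1d9dc4f87945b3949e67b424f05, 0x33ed9af5fdef79e8f9009c74cb2, 0x3f539686622daa17b029ba86be4, 0x2c0cb4482755f58c3678dbfbfeb, 0x1348f909d808f9eaace603b1223, 0x82bbe143b6d0f60fea0f9519c1]
    | .y, 0 => [0x32874c2b64f4500d5cb784a4f83, 0x1d0eb116e32a7a4ac6a4874333a, 0x2ff46fd35b4b0c089254e01a7bc, 0, 0x20cf0c590b6c1f2381c875a2d6b, 0, 0, 0, 0, 0, 0x222fb4941802d5cb30734859652, 0x2180d9a00f40f3c1cd4fe350c11, 0x2ab499378991fe0f724c6a97641, 0x38202d4ffa6d426e2c1328a5e6b, 0x281e597bcf026144cf2b49c4a4, 0, 0, 0x25b4c5036afc6a3c9ccc8d796c1, 0, 0, 0, 0, 0, 0]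
    | .y, 1 => [0x3e306b4a75cc07e35a42acac7d0, 0x2766263a3cd3ae19901aae97f0b, 0x3335aa4e6ab7d6a72bdc3837646, 0xb7aa9eab837b7b554bc0d143e, 0xd7f96adc6f7f8c51411756dc75, 0xa2299c9f4afa45ff0ed9d02110, 0x685802467ca11ea1599f64d5bc, 0x2dbf31453628c2b55f2a5b6b6ba, 0x13b1c25d6d6cb94d6133bd50c22, 0x12b03871d13bb8f2a926bc88f2, 0x333440f54bbab90c69ab7243d4f, 0x1b36ecfdd46035718f1c73bbbdb, 0x3c7aa72eba21d6241c0a432374f, 0x2c2cd474ed8952c9f6e8168cea6, 0x1a9425d31a8699ac9b9946fdf8, 0x33d2c149ba69597234c0ce74614, 0x3606ac6db27653270fb22057054, 0x3968516ad8abc49294ffaf474dd, 0x3b47355b11b70dcca99660ba849, 0x26a7e526e98f3798c16227b60fc, 0x2d81e710d64758a27b4238068d1, 0x2bbc79604b5fd7c5ca48c72105d, 0x3af929f6f0b93c295bbf91a8da7, 0x2b72e33ed642784810c6a065e21]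
    | .y, 2 => [0x2bffdf1c3ec1588bf8ff24f364f, 0x1810f45fccf1c5a60c5485c6e87, 0x2e97e57ab2f1c015662bb94182, 0x3261268b4e90c0bddf9a3b8156c, 0x1c8b842dc799b4047ee10adf062, 0x87010a40c8dfa1513c3156e3f4, 0xd2c918cf4419552af2532caa31, 0x2686a05904b811d57c9f2fae533, 0x295e89bccb8b7103b29af7e9831, 0x16d3b77ab90e8d0d105680d908, 0x18ee692da7ec422b8ab1c8cee39, 0x19873bb14086a65150ea3db61b1, 0x24b32d540c40e651ec1a228ac5b, 0x1b3a88a88fd84a3976733bb6a4f, 0x128bbd8d4aad98a775afa66c93, 0x32025d32c4ad84ce53bfb8c6023, 0x1fe03804deb083e0fc20caae5bc, 0x2d0595b2c1d000327ade5b7cc6c, 0x121cd5adc36e32bc197e2b86ecc, 0x9537929eae4ceb5bf32962b7de, 0x3bde36f4c411161064a8364cb86, 0x34f5d8c567d9c129193b9978fa4, 0x325d8b5a07885ad619039363735, 0x25ed2010d6c10db010e4022f303]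
    | .m, 0 => [0x1502469b865d694c3ff8172f7e4, 0x23cb954e1393ef93859083d3b66, 0x2975fdd3ec213c29df559af80ad, 0x31a363ba048e5ac67b9b0c71d16, 0x2bbc79604b5fd785ca48c72105d, 0x143ad49c6cb5de0a98f3ccda2cf, 0x2d3f87532b37737ca24ed9234f6, 0x318e119f0649b436043f51a1c0e, 0, 0]
    | .m, 1 => [0x1368174e006f9186cb9e8cf8ff5, 0x15c5411904d0e0470ddf93b84bc, 0x3b09d695ed9ffccf505acba9b20, 0xea183ab940cf7f7143e459018c, 0x30d2e79e2127e3485eab066eb45, 0x26114694935746b04dd5132d814, 0x5918326c5e503757a8b2be81ca, 0x2490a3032fa740a40127a7b1cb0, 0x1380c40191916bfc7eeabcc4e77, 0x168855e67d77937425ce42b5fb6]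
    | .m, 2 => [0x105ec7b37e91060b831e308fe20, 0x1a7d8b22d5f32be401833a964de, 0x1852884642fb42fed3b2675465b, 0x3030ace5724aca162fafa3a2df5, 0x1d70c73ef5015d19892aa1158df, 0x2096e94ab75178af0de0faf4889, 0x3f4cf615b2bb39fa28a58307ec2, 0x2096e94ab75138af0de0faf4889, 0x1506931326524b15830d22e194e, 0x16824655b9fc21ae925ed2e4888]
    | _, _ => []

theorem rok2_131_0 : rowsOK D2 tg2_131 c2_131.R c2_131.N 0 rw2_131_0 = true := by decide +kernel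

theorem rws2_131 : rwsOK D2 c2_131 = true := by
  refine rwsOK_of (by decide +kernel) (by decide +kernel) (by decide +kernel) ?_
  exact rok2_131_0

theorem cok2_131 : certOK D2 c2_131 = true :=
  certOK_of (by decide +kernel) (by decide +kernel) rws2_131 (by decide +kernel)
    (by decide +kernel) (by decide +kernel)

theorem all2_131 : c2_131.rows.all okRow2 = true := by decide +kernel

end Pool.Agent.Work.MP_d7201b_al.L3
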