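import Pool.Agent.Work.MP_d7201b_al_helper73.D2
import Pool.Agent.Work.MP_d7201b_al_helper73.Lib

/-!
# Content (1, 4, 0), `p = 2`
-/

set_option autoImplicit false
set_option maxRecDepth 100000

namespace Pool.Agent.Work.MP_d7201b_al.L3

/-- The content. -/
def tg2_140 : Tgt where
  c := (1, 4, 0)
  dm t := match t with | .z => 3 | .y => 10 | .m => 0
  off t e := match t with
    | .z => match e with | 0 => 36 | 1 => 23 | _ => 10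
    | .y => match e with | 0 => 26 | 1 => 13 | _ => 0
    | .m => match e with | 0 => 0 | 1 => 0 | _ => 0

/-- Rows. -/
def rw2_140_0 : List Row := [.lie [(.y, 2), (.y, 0), (.y, 0), (.z, 1)] (.y, 2),
  .lie [(.z, 1), (.y, 0), (.y, 0), (.y, 0)] (.y, 2),
  .lie [(.z, 2), (.y, 0), (.y, 0), (.y, 0)] (.y, 2),
  .lie [(.y, 1), (.z, 0), (.y, 0), (.y, 0)] (.y, 2),
  .lie [(.y, 2), (.z, 0), (.y, 0), (.y, 0)] (.y, 2),
  .lie [(.y, 1), (.y, 0), (.z, 0), (.y, 0)] (.y, 2),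
  .lie [(.y, 1), (.y, 0), (.y, 0), (.z, 0)] (.y, 2),
  .lie [(.y, 2), (.y, 0), (.y, 0), (.y, 1)] (.z, 2),
  .lie [(.y, 1), (.y, 0), (.y, 0), (.y, 0)] (.z, 2),
  .lie [(.y, 2), (.y, 0), (.y, 0), (.z, 1)] (.y, 1),
  .lie [(.y, 2), (.z, 1), (.y, 0), (.y, 0)] (.y, 1),
  .lie [(.z, 1), (.y, 0), (.y, 0), (.y, 0)] (.y, 1),
  .lie [(.y, 1), (.z, 0), (.y, 0), (.y, 0)] (.y, 1),
  .lie [(.y, 1), (.y, 0), (.z, 0), (.y, 0)] (.y, 1),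
  .lie [(.y, 1), (.y, 0), (.y, 0), (.z, 0)] (.y, 0),
  .lie [(.y, 2), (.y, 0), (.y, 0), (.z, 0)] (.y, 0),
  .np (.z, 0) [(.y, 0)],
  .np (.z, 1) [(.y, 0)],
  .np (.z, 2) [(.y, 0)],
  .np (.z, 0) [(.y, 1)],
  .np (.z, 1) [(.y, 1)],
  .np (.z, 2) [(.y, 1)],
  .np (.z, 0) [(.y, 2)],
  .np (.z, 1) [(.y, 2)],
  .np (.z, 2) [(.y, 2)],
  .np (.z, 0) [(.y, 0), (.y, 1), (.y, 2)],
  .np (.z, 1) [(.y, 0), (.y, 1), (.y, 2)],
  .np (.z, 2) [(.y, 0), (.y, 1), (.y, 2)],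
  .cr 1 [(.y, 1), (.y, 0)] [(.y, 1), (.y, 1), (.z, 2)],
  .cr 1 [(.y, 2), (.y, 0)] [(.y, 0), (.z, 0), (.y, 0)],
  .cr 1 [(.y, 2), (.y, 1)] [(.y, 1), (.y, 0), (.z, 0)],
  .cr 1 [(.y, 0), (.z, 0)] [(.y, 1), (.y, 0), (.y, 1)],
  .cr 1 [(.z, 2), (.y, 0)] [(.y, 0), (.y, 1), (.y, 0)],
  .cr 1 [(.z, 2), (.y, 0)] [(.y, 1), (.y, 2), (.y, 0)],
  .cr 1 [(.z, 2), (.y, 0)] [(.y, 1), (.y, 1), (.y, 1)],
  .cr 1 [(.z, 2), (.y, 0)] [(.y, 2), (.y, 1), (.y, 1)]]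

/-- The certificate. -/
def c2_140 : Cert ℕ where
  tg := tg2_140
  pre := [[(.y, 2), (.y, 0), (.y, 0), (.z, 1), (.y, 2)],
    [(.y, 2), (.z, 1), (.y, 0), (.y, 0), (.y, 2)],
    [(.z, 1), (.y, 0), (.y, 0), (.y, 0), (.y, 2)],
    [(.z, 2), (.y, 0), (.y, 0), (.y, 0), (.y, 2)],
    [(.y, 1), (.z, 0), (.y, 0), (.y, 0), (.y, 2)],
    [(.y, 2), (.z, 0), (.y, 0), (.y, 0), (.y, 2)],
    [(.y, 1), (.y, 0), (.z, 0), (.y, 0), (.y, 2)],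
    [(.y, 2), (.y, 0), (.z, 0), (.y, 0), (.y, 2)],
    [(.y, 1), (.y, 0), (.y, 0), (.z, 0), (.y, 2)],
    [(.y, 2), (.y, 0), (.y, 0), (.z, 0), (.y, 2)],
    [(.y, 2), (.y, 0), (.y, 0), (.y, 1), (.z, 2)],
    [(.y, 1), (.y, 0), (.y, 0), (.y, 0), (.z, 2)],
    [(.y, 2), (.y, 0), (.y, 0), (.y, 0), (.z, 2)],
    [(.y, 2), (.y, 0), (.y, 0), (.z, 1), (.y, 1)],
    [(.y, 2), (.z, 1), (.y, 0), (.y, 0), (.y, 1)],
    [(.z, 1), (.y, 0), (.y, 0), (.y, 0), (.y, 1)],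
    [(.z, 2), (.y, 0), (.y, 0), (.y, 0), (.y, 1)],
    [(.y, 1), (.z, 0), (.y, 0), (.y, 0), (.y, 1)],
    [(.y, 2), (.z, 0), (.y, 0), (.y, 0), (.y, 1)],
    [(.y, 1), (.y, 0), (.z, 0), (.y, 0), (.y, 1)],
    [(.y, 2), (.y, 0), (.z, 0), (.y, 0), (.y, 1)],
    [(.y, 1), (.y, 0), (.y, 0), (.z, 0), (.y, 1)],
    [(.y, 2), (.y, 0), (.y, 0), (.z, 0), (.y, 1)],
    [(.y, 2), (.y, 0), (.y, 0), (.y, 1), (.z, 1)],
    [(.y, 1), (.y, 0), (.y, 0), (.y, 0), (.z, 1)],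
    [(.y, 2), (.y, 0), (.y, 0), (.y, 0), (.z, 1)],
    [(.y, 2), (.y, 0), (.y, 0), (.z, 1), (.y, 0)],
    [(.y, 2), (.z, 1), (.y, 0), (.y, 0), (.y, 0)],
    [(.z, 1), (.y, 0), (.y, 0), (.y, 0), (.y, 0)],
    [(.z, 2), (.y, 0), (.y, 0), (.y, 0), (.y, 0)],
    [(.y, 1), (.z, 0), (.y, 0), (.y, 0), (.y, 0)],
    [(.y, 2), (.z, 0), (.y, 0), (.y, 0), (.y, 0)],
    [(.y, 1), (.y, 0), (.z, 0), (.y, 0), (.y, 0)],
    [(.y, 2), (.y, 0), (.z, 0), (.y, 0), (.y, 0)],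
    [(.y, 1), (.y, 0), (.y, 0), (.z, 0), (.y, 0)],
    [(.y, 2), (.y, 0), (.y, 0), (.z, 0), (.y, 0)],
    [(.y, 2), (.y, 0), (.y, 0), (.y, 1), (.z, 0)],
    [(.y, 1), (.y, 0), (.y, 0), (.y, 0), (.z, 0)],
    [(.y, 2), (.y, 0), (.y, 0), (.y, 0), (.z, 0)]]
  piv := [30, 34, 37]
  R := 0x3b01d833e3db05d0bf80bc16f1400cfc57809a13504884fc000c837c044014001004003d63ec11900c806403db1ed8f6c3121890c48000000208000000000a0000000a8000012000000007b40000000e2400000800000000080000000280000000950000014095005000028000000007138220000081a0100000f2e0105c413840100d0fe401080005c080087dc560100402980080020408000022024b0800020208000402000b000002000a000003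
  N := 39
  rows := rw2_140_0
  kap t e := match t, e with
    | .z, 0 => [0x24d36272, 0, 0x24d34272]
    | .z, 1 => [0x2bef0002, 0x581e7a80b, 0x2f7dc270]
    | .z, 2 => [0x2efbe2e9, 0x2a05e309, 0x2596c276]
    | .y, 0 => [0x41ffb8587, 0x5953f1bd6, 0x20000, 0x40000, 0, 0xc04c05e7a, 0xe3e20bbf, 0xc04c15e7a, 0, 0x3256a2279]
    | .y, 1 => [0xfb61ce9c4, 0x383d20060, 0x40b233e5a, 0x7f3734e48, 0xbaf189c68, 0xed9e3bc01, 0x79ace75cc, 0xe3a01f7be, 0xed9c3bc01, 0x8a6a5ec33]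
    | .y, 2 => [0x4300447f5, 0x18a469e52, 0x4308447f5, 0x300f8e00b, 0x1138acbe5, 0xf21ebfc13, 0x2dd22825b, 0xc20531c18, 0xbaf3c8c28, 0x301f8e00b]
    | _, _ => []

theorem rok2_140_0 : rowsOK D2 tg2_140 c2_140.R c2_140.N 0 rw2_140_0 = true := by decide +kernel

theorem rws2_140 : rwsOK D2 c2_140 = true := by
  refine rwsOK_of (by decide +kernel) (by decide +kernel) (by decide +kernel) ?_
  exact rok2_140_0

theorem cok2_140 : certOK D2 c2_140 = true :=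
  certOK_of (by decide +kernel) (by decide +kernel) rws2_140 (by decide +kernel)
    (by decide +kernel) (by decide +kernel)

theorem all2_140 : c2_140.rows.all okRow2 = true := by decide +kernel

end Pool.Agent.Work.MP_d7201b_al.L3
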