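import Pool.Agent.Work.MP_d7201b_al_helper73.D3
import Pool.Agent.Work.MP_d7201b_al_helper73.Lib

/-!
# Content (0, 1, 1), `p = 3`
-/

set_option autoImplicit false
set_option maxRecDepth 100000

namespace Pool.Agent.Work.MP_d7201b_al.L3

/-- The content. -/
def tg3_011 : Tgt where
  c := (0, 1, 1)
  dm t := match t with | .z => 0 | .y => 4 | .m => 4
  off t e := match t with
    | .z => match e with | 0 => 0 | 1 => 0 | 2 => 0 | _ => 0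
    | .y => match e with | 0 => 28 | 1 => 20 | 2 => 12 | _ => 4
    | .m => match e with | 0 => 24 | 1 => 16 | 2 => 8 | _ => 0

/-- Rows. -/
def rw3_011_0 : List Row := [.lie [(.y, 0)] (.m, 3),
  .lie [(.y, 1)] (.m, 3),
  .lie [(.y, 2)] (.m, 3),
  .lie [(.y, 3)] (.m, 3),
  .lie [(.m, 0)] (.y, 3),
  .lie [(.m, 1)] (.y, 3),
  .lie [(.m, 2)] (.y, 3),
  .lie [(.y, 0)] (.m, 2),
  .lie [(.y, 1)] (.m, 2),
  .lie [(.y, 2)] (.m, 2),
  .lie [(.m, 0)] (.y, 2),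
  .lie [(.m, 1)] (.y, 2),
  .lie [(.y, 0)] (.m, 1),
  .lie [(.y, 1)] (.m, 1),
  .lie [(.m, 0)] (.y, 1),
  .lie [(.y, 0)] (.m, 0),
  .pq 1 (.y, 0) [[(.m, 0)]],
  .pq 1 (.y, 0) [[(.m, 1)]],
  .pq 1 (.y, 0) [[(.m, 2)]],
  .pq 1 (.y, 0) [[(.m, 3)]],
  .pq 1 (.y, 1) [[(.m, 0)]],
  .pq 1 (.y, 1) [[(.m, 1)]],
  .pq 1 (.m, 0) [[(.y, 0)]],
  .pq 1 (.m, 1) [[(.y, 0)]]]

/-- The certificate. -/
def c3_011 : Cert V3 where
  tg := tg3_011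
  pre := [[(.y, 0), (.m, 3)],
    [(.y, 1), (.m, 3)],
    [(.y, 2), (.m, 3)],
    [(.y, 3), (.m, 3)],
    [(.m, 0), (.y, 3)],
    [(.m, 1), (.y, 3)],
    [(.m, 2), (.y, 3)],
    [(.m, 3), (.y, 3)],
    [(.y, 0), (.m, 2)],
    [(.y, 1), (.m, 2)],
    [(.y, 2), (.m, 2)],
    [(.y, 3), (.m, 2)],
    [(.m, 0), (.y, 2)],
    [(.m, 1), (.y, 2)],
    [(.m, 2), (.y, 2)],
    [(.m, 3), (.y, 2)],
    [(.y, 0), (.m, 1)],
    [(.y, 1), (.m, 1)],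
    [(.y, 2), (.m, 1)],
    [(.y, 3), (.m, 1)],
    [(.m, 0), (.y, 1)],
    [(.m, 1), (.y, 1)],
    [(.m, 2), (.y, 1)],
    [(.m, 3), (.y, 1)],
    [(.y, 0), (.m, 0)],
    [(.y, 1), (.m, 0)],
    [(.y, 2), (.m, 0)],
    [(.y, 3), (.m, 0)],
    [(.m, 0), (.y, 0)],
    [(.m, 1), (.y, 0)],
    [(.m, 2), (.y, 0)],
    [(.m, 3), (.y, 0)]]
  piv := [22, 25, 26, 27, 28, 29, 30, 31]
  R := ⟨0x4040c0002020a0010c04080004040c0002020302020b08010b02090002020a11000000021000000022000020010000000420000400100000004400004002004000010000000840000800200800001000000088000080040080000280000001, 0x20202010101010100c0302070202020108010108090100000a0001020101010100000000000000000000000000000000000000000000000000000000000000000000000000000000000000000000000000000000000000000000000000000000⟩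
  N := 32
  rows := rw3_011_0
  kap t e := match t, e with
    | .y, 0 => [⟨0x0, 0x0⟩, ⟨0x0, 0x0⟩, ⟨0x0, 0x0⟩, ⟨0x0, 0x0⟩]
    | .y, 1 => [⟨0x4000, 0x0⟩, ⟨0x78de41, 0x8421a0⟩, ⟨0x0, 0x0⟩, ⟨0x851022, 0x706f41⟩]
    | .y, 2 => [⟨0x400, 0x0⟩, ⟨0x321af0, 0xc5c408⟩, ⟨0xc65488, 0x98071⟩, ⟨0x436f44, 0x949021⟩]
    | .y, 3 => [⟨0x10, 0x0⟩, ⟨0x707f40, 0x868000⟩, ⟨0x801020, 0x716f80⟩, ⟨0x18008, 0x80001⟩]
    | .m, 0 => [⟨0x8000, 0x0⟩, ⟨0x0, 0x0⟩, ⟨0x0, 0x0⟩, ⟨0x0, 0x0⟩]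
    | .m, 1 => [⟨0x1000, 0x0⟩, ⟨0x8401a0, 0x78fe41⟩, ⟨0xc5c408, 0x3212f0⟩, ⟨0x868020, 0x707f40⟩]
    | .m, 2 => [⟨0x80, 0x0⟩, ⟨0x100, 0x0⟩, ⟨0x98271, 0xc65488⟩, ⟨0x716fc0, 0x801020⟩]
    | .m, 3 => [⟨0x1, 0x0⟩, ⟨0x706f41, 0x851020⟩, ⟨0x949021, 0x436f40⟩, ⟨0x80001, 0x18000⟩]
    | _, _ => []

theorem rok3_011_0 : rowsOK D3 tg3_011 c3_011.R c3_011.N 0 rw3_011_0 = true := by decide +kernel

theorem rws3_011 : rwsOK D3 c3_011 = true := by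
  refine rwsOK_of (by decide +kernel) (by decide +kernel) (by decide +kernel) ?_
  exact rok3_011_0

theorem cok3_011 : certOK D3 c3_011 = true :=
  certOK_of (by decide +kernel) (by decide +kernel) rws3_011 (by decide +kernel)
    (by decide +kernel) (by decide +kernel)

theorem all3_011 : c3_011.rows.all okRow3 = true := by decide +kernel

end Pool.Agent.Work.MP_d7201b_al.L3
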