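import Pool.Agent.Work.MP_d7201b_al_helper73.Iface

/-!
# The checker (computable part)
-/

set_option autoImplicit false

namespace Pool.Agent.Work.MP_d7201b_al.L3

open L2

/-- Evaluates a numeral before calling `f`. -/
def nforce {α : Type} (x : ℕ) (f : ℕ → α) : α :=
  Nat.rec (motive := fun _ => α) (f 0) (fun n _ => f (Nat.succ n)) x

/-- Packed vectors. -/
class VOps (V : Type) where
  zero : V
  add : V → V → V
  neg : V → V
  shl : V → ℕ → V
  shr : V → ℕ → V
  mask : V → ℕ → V
  unit : ℕ → V
  force : {α : Type} → V → (V → α) → α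
  app : (ℕ → V) → V → V → V
  beq : V → V → Bool
  okb : V → Bool

/-! ## Vectors modulo 2 -/

/-- Sum of the rows at the bits of `v`, starting with the lowest bit. -/
def app2 (rows : ℕ → ℕ) (fuel : ℕ) : ℕ → ℕ → ℕ → ℕ :=
  Nat.rec (motive := fun _ => ℕ → ℕ → ℕ → ℕ) (fun _ _ acc => acc)
    (fun _ ih off v acc => Nat.rec (motive := fun _ => ℕ) acc
      (fun v' _ => nforce (Nat.log2 (Nat.xor (Nat.succ v') v')) fun l =>
        nforce (Nat.add off l) fun i => nforce (Nat.xor acc (rows i)) fun acc' =>
          ih (Nat.succ i) (Nat.shiftRight (Nat.succ v') (Nat.succ l)) acc') v) fuel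

instance : VOps ℕ where
  zero := 0
  add := Nat.xor
  neg v := v
  shl := Nat.shiftLeft
  shr := Nat.shiftRight
  mask v n := Nat.mod v (Nat.pow 2 n)
  unit n := Nat.shiftLeft 1 n
  force := nforce
  app rows v acc := app2 rows (Nat.succ (Nat.log2 v)) 0 v acc
  beq := Nat.beq
  okb _ := true

/-! ## Vectors modulo 3 -/

/-- `a` = positions with coefficient `1`, `b` = positions with coefficient `-1`. -/
structure V3 where
  a : ℕ
  b : ℕ

/-- Addition. -/
def V3.add (x y : V3) : V3 :=
  nforce (Nat.xor (Nat.lor x.a y.b) (Nat.lor x.b y.a)) fun t =>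
    ⟨Nat.xor (Nat.lor x.b y.b) t, Nat.xor (Nat.lor x.a y.a) t⟩

/-- Evaluation of both components. -/
def V3.force {α : Type} (x : V3) (f : V3 → α) : α :=
  match x with
  | ⟨a, b⟩ => nforce a fun a => nforce b fun b => f ⟨a, b⟩

/-- Sum of the rows at the bits of `v`, starting with the lowest bit. -/
def app3 (rows : ℕ → V3) (fuel : ℕ) : ℕ → ℕ → V3 → V3 :=
  Nat.rec (motive := fun _ => ℕ → ℕ → V3 → V3) (fun _ _ acc => acc)
    (fun _ ih off v acc => Nat.rec (motive := fun _ => V3) acc
      (fun v' _ => nforce (Nat.log2 (Nat.xor (Nat.succ v') v')) fun l =>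
        nforce (Nat.add off l) fun i =>
        V3.force (rows i) fun r => V3.force (V3.add acc r) fun acc' =>
          ih (Nat.succ i) (Nat.shiftRight (Nat.succ v') (Nat.succ l)) acc') v) fuel

instance : VOps V3 where
  zero := ⟨0, 0⟩
  add := V3.add
  neg x := ⟨x.b, x.a⟩
  shl x n := ⟨Nat.shiftLeft x.a n, Nat.shiftLeft x.b n⟩
  shr x n := ⟨Nat.shiftRight x.a n, Nat.shiftRight x.b n⟩
  mask x n := nforce (Nat.pow 2 n) fun m => ⟨Nat.mod x.a m, Nat.mod x.b m⟩
  unit n := ⟨Nat.shiftLeft 1 n, 0⟩
  force := V3.force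
  app rows v acc := V3.force v fun v =>
    V3.force (app3 rows (Nat.succ (Nat.log2 v.a)) 0 v.a acc) fun acc' =>
      app3 (fun i => ⟨(rows i).b, (rows i).a⟩) (Nat.succ (Nat.log2 v.b)) 0 v.b acc'
  beq x y := Nat.beq x.a y.a && Nat.beq x.b y.b
  okb x := Nat.beq (Nat.land x.a x.b) 0

/-! ## Letters, contents -/

/-- The three classes of letters. -/
inductive Cls
  | z | y | m

/-- Letters: class and exponent of `σ`. -/
abbrev Lt := Cls × ℕ

/-- Contents. -/
abbrev Ct := ℕ × ℕ × ℕ

/-- Adding a letter. -/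
def inc (c : Ct) : Cls → Ct
  | .z => (Nat.succ c.1, c.2.1, c.2.2)
  | .y => (c.1, Nat.succ c.2.1, c.2.2)
  | .m => (c.1, c.2.1, Nat.succ c.2.2)

/-- Content of a list of letters, added to `c`. -/
def cont (c : Ct) : List Lt → Ct
  | [] => c
  | l :: w => cont (inc c l.1) w

/-- Content of a list of words, added to `c`. -/
def conts (c : Ct) : List (List Lt) → Ct
  | [] => c
  | w :: ws => conts (cont c w) ws

/-- Equality of contents. -/
def ceq (c d : Ct) : Bool := Nat.beq c.2.1 d.2.1 && (Nat.beq c.1 d.1 && Nat.beq c.2.2 d.2.2)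

/-- Data for the prefix modules. -/
structure Dat (V : Type) where
  /-- number of basic exponents -/
  E : ℕ
  /-- period -/
  PR : ℕ
  /-- block size -/
  B : ℕ
  /-- coefficients of `σ^e` in `σ^0, …, σ^(E-1)` -/
  ex : ℕ → V
  /-- tables: row `i * PR + e` is `b_i · (t, e)` -/
  tm : Ct → Cls → V
  /-- basis words -/
  bw : Ct → List (List Lt)

/-- The content to be checked. -/
structure Tgt where
  c : Ct
  /-- dimensions of the module of content `c - t` -/
  dm : Cls → ℕ
  /-- offset of the block of `(t, e)` -/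
  off : Cls → ℕ → ℕ

section

variable {V : Type} [VOps V] (D : Dat V) (tg : Tgt)

/-- A row of a packed table. -/
def fetch (M : V) (B k : ℕ) : V := VOps.mask (VOps.shr M (Nat.mul k B)) B

/-- Right multiplication by a letter, into the reduced module. -/
def appT (c : Ct) (v : V) (l : Lt) : V :=
  VOps.force (D.tm c l.1) fun M => nforce (Nat.mod l.2 D.PR) fun e =>
    VOps.app (fun i => fetch M D.B (Nat.add (Nat.mul i D.PR) e)) v VOps.zero

/-- Right multiplication by a letter, into the target. -/
def injT (v : V) (l : Lt) : V :=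
  VOps.force (VOps.mask v (tg.dm l.1)) fun v =>
    VOps.app (fun i => VOps.shl v (tg.off l.1 i)) (D.ex (Nat.mod l.2 D.PR)) VOps.zero

/-- Right multiplication by a letter. -/
def step (c : Ct) (v : V) (l : Lt) : V :=
  bif ceq (inc c l.1) tg.c then injT D tg v l else appT D c v l

/-- The value of a word after its first letter. -/
def wordA (c : Ct) (v : V) : List Lt → V
  | [] => v
  | l :: w => VOps.force (step D tg c v l) fun v => wordA (inc c l.1) v w

/-- The value of a word. -/
def word : List Lt → V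
  | [] => VOps.zero
  | l :: w => VOps.force (D.ex (Nat.mod l.2 D.PR)) fun v => wordA D tg (inc (0, 0, 0) l.1) v w

/-- Bracket with a commutator (reversed word). -/
def adV (c : Ct) (v : V) : List Lt → V
  | [] => VOps.zero
  | [a] => step D tg c v a
  | n :: m :: l =>
    VOps.force (adV c v (m :: l)) fun v1 => VOps.force (step D tg c v n) fun v2 =>
      VOps.add (step D tg (cont c (m :: l)) v1 n) (VOps.neg (adV (inc c n.1) v2 (m :: l)))

/-- Shift of a word. -/
def shw (k : ℕ) (w : List Lt) : List Lt := w.map fun l => (l.1, Nat.add l.2 k)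

/-- Product of entries. -/
def compV (k : ℕ) (c : Ct) (v : V) : List (List Lt) → V
  | [] => v
  | w :: ws => VOps.force (adV D tg c v (shw k w)) fun v => compV k (cont c w) v ws

/-- Sum of a list of vectors. -/
def sumV : V → List V → V
  | acc, [] => acc
  | acc, v :: vs => VOps.force (VOps.add acc v) fun acc => sumV acc vs

/-- The multilinear part of `v (σ^e (1 + ws))^j`. -/
def moV (e : ℕ) : ℕ → ℕ → List (List Lt) → Ct → V → V
  | _, 0, [], _, v => v
  | _, 0, _ :: _, _, _ => VOps.zero
  | s, j + 1, ws, c, v => sumV VOps.zero ((splits ws).map fun p =>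
      VOps.force (moV e (s + 1) j p.1 c v) fun u => nforce (Nat.mul e s) fun k =>
        compV D tg k (conts c p.1) u p.2)

/-- Relations. -/
inductive Row
  | lie (w : List Lt) (l : Lt)
  | np (u : Lt) (ms : List Lt)
  | pq (e : ℕ) (u : Lt) (ws : List (List Lt))
  | cr (e : ℕ) (w : List Lt) (vs : List Lt)
  | hyp (w : List Lt)

/-- Sum over letters. -/
def sumL (c : Ct) (v : V) : List Lt → V
  | [] => VOps.zero
  | l :: ms => VOps.force (step D tg c v l) fun v1 => VOps.add v1 (sumL c v ms)

/-- The vector of a relation. -/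
def rowV : Row → V
  | .lie w l => VOps.add (word D tg (w ++ [l])) (VOps.force (word D tg [l]) fun v =>
      adV D tg (inc (0, 0, 0) l.1) v w.reverse)
  | .np u ms => VOps.force (word D tg [u]) fun v =>
      VOps.force (sumL D tg (inc (0, 0, 0) u.1) v ms) fun v =>
      VOps.force (sumL D tg (inc (inc (0, 0, 0) u.1) .y) v ms) fun v =>
      VOps.force (sumL D tg (inc (inc (inc (0, 0, 0) u.1) .y) .y) v ms) fun v =>
      sumL D tg (inc (inc (inc (inc (0, 0, 0) u.1) .y) .y) .y) v ms
  | .pq e u ws =>
      VOps.force (VOps.force (word D tg [(u.1, u.2 + e * 4)]) fun v =>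
        moV D tg e 0 4 ws (inc (0, 0, 0) u.1) v) fun v4 =>
      VOps.force (VOps.force (word D tg [(u.1, u.2 + e * 3)]) fun v =>
        moV D tg e 0 3 ws (inc (0, 0, 0) u.1) v) fun v3 =>
      VOps.force (VOps.force (word D tg [(u.1, u.2 + e)]) fun v =>
        moV D tg e 0 1 ws (inc (0, 0, 0) u.1) v) fun v1 =>
      VOps.add v4 (VOps.neg (VOps.add v3 v1))
  | .cr e w vs =>
      VOps.force (VOps.force (word D tg (shw (e * 3) w)) fun v =>
        moV D tg e 0 3 (vs.map fun v => [v]) (cont (0, 0, 0) w) v) fun v3 =>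
      VOps.force (VOps.force (word D tg (shw (e * 2) w)) fun v =>
        moV D tg e 0 2 (vs.map fun v => [v]) (cont (0, 0, 0) w) v) fun v2 =>
      VOps.force (VOps.force (word D tg (shw e w)) fun v =>
        moV D tg e 0 1 (vs.map fun v => [v]) (cont (0, 0, 0) w) v) fun v1 =>
      VOps.add v3 (VOps.add v2 v1)
  | .hyp w => word D tg w

/-- Checks the rows against a packed literal. -/
def rowsOK (R : V) (N : ℕ) : ℕ → List Row → Bool
  | _, [] => true
  | k, r :: rs => VOps.beq (rowV D tg r) (fetch R N k) && rowsOK R N (Nat.succ k) rs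

end

end Pool.Agent.Work.MP_d7201b_al.L3
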