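import Pool.Agent.Work.MP_d7201b_al_helper73.Iface

/-!
# Words with many equal letters: from plain identities to all patterns
-/

set_option autoImplicit false
set_option linter.unusedSectionVars false

namespace Pool.Agent.Work.MP_d7201b_al.L3

open L2

universe u

/-! ## Computable part -/

/-- Splits a word at the first letter `0`. -/
def split0 : List ℕ → List ℕ × List ℕ
  | [] => ([], [])
  | x :: w => if x = 0 then ([], w) else ((x :: (split0 w).1), (split0 w).2)

/-- The letter `0` moved to the front (for words containing `0`). -/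
def nf0 (w : List ℕ) : L2.Poly ℕ :=
  match (split0 w).1 with
  | [] => [(1, w)]
  | x :: l => (adE (x :: l).reverse).map fun t => (-t.1, 0 :: (t.2 ++ (split0 w).2))

/-- The letter `0` occurs. -/
def has0 (w : List ℕ) : Bool := w.any (fun x => Nat.beq x 0)

/-- Equality of words. -/
def nwEq : List ℕ → List ℕ → Bool
  | [], [] => true
  | x :: w, y :: w' => Nat.beq x y && nwEq w w'
  | _, _ => false

/-- Coefficient of a word. -/
def coefP (w : List ℕ) : L2.Poly ℕ → ℤ
  | [] => 0
  | t :: P => (if nwEq t.2 w then t.1 else 0) + coefP w P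

/-- All coefficients are divisible by `p`. -/
def zeroP (p : ℕ) (P : L2.Poly ℕ) : Bool := P.all fun t => coefP t.2 P % (p : ℤ) == 0

/-- Multiplication by an integer. -/
def smulP (c : ℤ) (P : L2.Poly ℕ) : L2.Poly ℕ := P.map fun t => (c * t.1, t.2)

/-- Normal forms of all words. -/
def nfP (P : L2.Poly ℕ) : L2.Poly ℕ := P.flatMap fun t => smulP t.1 (nf0 t.2)

/-- A renaming given by a list. -/
def rho (l : List ℕ) (x : ℕ) : ℕ := l.getD x 0

/-- The combination of the relations. -/
def combP (Qs : List (L2.Poly ℕ)) : List (ℤ × ℕ × List ℕ) → L2.Poly ℕ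
  | [] => []
  | (c, i, l) :: cs => smulP c (nfP (ren (rho l) (Qs.getD i []))) ++ combP Qs cs

/-- Patterns: `true` is the repeated letter `1`, the other letters are `0, 2, 3, …`. -/
def patW : ℕ → List Bool → List ℕ
  | _, [] => []
  | n, true :: b => 1 :: patW n b
  | n, false :: b => (if n = 0 then 0 else n + 1) :: patW (n + 1) b

/-- All patterns of length `k` with `j` times `true`. -/
def pats : ℕ → ℕ → List (List Bool)
  | 0, 0 => [[]]
  | 0, _ + 1 => []
  | k + 1, 0 => (pats k 0).map (false :: ·)
  | k + 1, j + 1 => (pats k j).map (true :: ·) ++ (pats k (j + 1)).map (false :: ·)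

/-- The check for one pattern. -/
def patOK (p : ℕ) (Qs : List (L2.Poly ℕ)) (b : List Bool) (cs : List (ℤ × ℕ × List ℕ)) : Bool :=
  has0 (patW 0 b) &&
    (cs.all fun c => ((ren (rho c.2.2) (Qs.getD c.2.1 [])).all fun t => has0 t.2)) &&
    zeroP p (nf0 (patW 0 b) ++ combP Qs cs)

/-- The check for all patterns. -/
def patsOK (p : ℕ) (Qs : List (L2.Poly ℕ)) : List (List Bool) → List (List (ℤ × ℕ × List ℕ)) → Bool
  | [], _ => true
  | b :: bs, c :: cs => patOK p Qs b c && patsOK p Qs bs cs
  | _ :: _, [] => false

/-! ## Soundness -/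

section

variable {G : Type u} [Group G] {M : Type u} [AddCommGroup M]

/-- The identity holds for all letters. -/
def HoldsP (F : List G → M) (P : L2.Poly ℕ) : Prop :=
  ∀ a : ℕ → G, ev (fun w : List ℕ => Wd F (w.map a)) P = 0

/-- `g` stands at the marked places. -/
def Mark (g : G) (b : List Bool) (w : List G) : Prop :=
  List.Forall₂ (fun x y => x = true → y = g) b w

/-- All words of length `k` with at least `j` equal letters vanish. -/
def WJ (F : List G → M) (k j : ℕ) : Prop :=
  ∀ (g : G) (b : List Bool) (w : List G), Mark g b w → w.length = k → j ≤ b.count true →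
    ∀ rest, F (w ++ rest) = 0

variable {F : List G → M}

theorem nwEq_iff : ∀ w w' : List ℕ, nwEq w w' = true ↔ w = w'
  | [], [] => by simp [nwEq]
  | x :: w, y :: w' => by
    rw [nwEq, Bool.and_eq_true, nwEq_iff w w', List.cons.injEq]
    constructor
    · rintro ⟨h1, h2⟩; exact ⟨Nat.eq_of_beq_eq_true h1, h2⟩
    · rintro ⟨h1, h2⟩; exact ⟨by rw [h1]; exact Nat.beq_refl y, h2⟩
  | [], _ :: _ => by simp [nwEq]
  | _ :: _, [] => by simp [nwEq]

section

variable {W : Type*} [AddCommGroup W] (E : List ℕ → W)

theorem ev_smulP (c : ℤ) (P : L2.Poly ℕ) : ev E (smulP c P) = c • ev E P := by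
  induction P with
  | nil => simp [smulP]
  | cons t P ih =>
    have : smulP c (t :: P) = (c * t.1, t.2) :: smulP c P := rfl
    rw [this, ev_cons, ev_cons, ih, smul_add, mul_smul]

theorem ev_flatMap (P : L2.Poly ℕ) (f : ℤ × List ℕ → L2.Poly ℕ) :
    ev E (P.flatMap f) = (P.map fun t => ev E (f t)).sum := by
  induction P with
  | nil => rfl
  | cons t P ih => rw [List.flatMap_cons, ev_append, ih, List.map_cons, List.sum_cons]

/-- Removing a word. -/
theorem ev_remove (w : List ℕ) (P : L2.Poly ℕ) :
    ev E P = coefP w P • E w + ev E (P.filter fun t => !nwEq t.2 w) := by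
  induction P with
  | nil => simp [coefP]
  | cons t P ih =>
    rw [ev_cons, ih, coefP, List.filter_cons]
    by_cases h : nwEq t.2 w = true
    · rw [(nwEq_iff _ _).1 h] at *
      simp only [h, Bool.not_true, Bool.false_eq_true, if_false, if_true]
      rw [add_smul, add_assoc]
    · rw [Bool.not_eq_true] at h
      simp only [h, Bool.not_false, if_true, Bool.false_eq_true, if_false, zero_add]
      rw [ev_cons]
      abel

theorem coefP_filter (w w' : List ℕ) (P : L2.Poly ℕ) :
    coefP w' (P.filter fun t => !nwEq t.2 w) = if w' = w then 0 else coefP w' P := by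
  induction P with
  | nil => simp [coefP]
  | cons t P ih =>
    rw [List.filter_cons]
    by_cases h : nwEq t.2 w = true
    · have ht := (nwEq_iff _ _).1 h
      simp only [h, Bool.not_true, Bool.false_eq_true, if_false]
      rw [ih]
      by_cases h1 : w' = w
      · simp [h1]
      · have h2 : nwEq t.2 w' = false := by
          rw [← Bool.not_eq_true, nwEq_iff, ht]
          exact fun h => h1 h.symm
        simp [h1, coefP, h2]
    · rw [Bool.not_eq_true] at h
      simp only [h, Bool.not_false, if_true]
      rw [coefP, coefP, ih]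
      by_cases h1 : w' = w
      · subst h1
        simp [h]
      · simp [h1]

theorem zeroP_sound (p : ℕ) (hp : ∀ w : W, p • w = 0) : ∀ (n : ℕ) (P : L2.Poly ℕ), P.length ≤ n →
    (∀ w, coefP w P % (p : ℤ) = 0) → ev E P = 0 := by
  intro n
  induction n with
  | zero =>
    intro P hP _
    have : P = [] := List.length_eq_zero_iff.1 (by omega)
    subst this
    simp
  | succ n ih =>
    intro P hP h
    cases P with
    | nil => simp
    | cons t P =>
      rw [ev_remove E t.2 (t :: P)]
      obtain ⟨c, hc⟩ := Int.dvd_of_emod_eq_zero (h t.2)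
      have h1 : coefP t.2 (t :: P) • E t.2 = 0 := by
        rw [hc, mul_comm, mul_smul]
        have := hp (E t.2)
        rw [← natCast_zsmul] at this
        rw [this, smul_zero]
      rw [h1, zero_add]
      apply ih
      · have h2 : nwEq t.2 t.2 = true := (nwEq_iff _ _).2 rfl
        rw [List.filter_cons]
        simp only [h2, Bool.not_true, Bool.false_eq_true, if_false]
        refine (List.length_filter_le _ _).trans ?_
        simp only [List.length_cons] at hP
        omega
      · intro w
        rw [coefP_filter]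
        split_ifs
        · simp
        · exact h w

theorem coefP_notMem (w : List ℕ) (P : L2.Poly ℕ) (h : ∀ t ∈ P, t.2 ≠ w) : coefP w P = 0 := by
  induction P with
  | nil => rfl
  | cons t P ih =>
    have h1 : nwEq t.2 w = false := by
      rw [← Bool.not_eq_true, nwEq_iff]
      exact h t List.mem_cons_self
    rw [coefP, h1, ih (fun x hx => h x (List.mem_cons_of_mem _ hx))]
    simp

theorem zeroP_sound' {p : ℕ} (hp : ∀ w : W, p • w = 0) {P : L2.Poly ℕ} (h : zeroP p P = true) :
    ev E P = 0 := by
  apply zeroP_sound E p hp P.length P le_rfl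
  intro w
  unfold zeroP at h
  rw [List.all_eq_true] at h
  by_cases hw : ∃ t ∈ P, t.2 = w
  · obtain ⟨t, ht, rfl⟩ := hw
    have := h t ht
    simpa using this
  · rw [coefP_notMem w P (fun t ht he => hw ⟨t, ht, he⟩)]
    simp

end

theorem split0_spec (w : List ℕ) (h : has0 w = true) :
    w = (split0 w).1 ++ 0 :: (split0 w).2 := by
  induction w with
  | nil => simp [has0] at h
  | cons x w ih =>
    unfold split0
    by_cases hx : x = 0
    · rw [if_pos hx, hx]; rfl
    · rw [if_neg hx]
      have h1 : has0 w = true := by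
        unfold has0 at h ⊢
        rw [List.any_cons, Bool.or_eq_true] at h
        rcases h with h | h
        · exact absurd (Nat.eq_of_beq_eq_true h) hx
        · exact h
      show x :: w = x :: ((split0 w).1 ++ 0 :: (split0 w).2)
      rw [← ih h1]

/-- Soundness of the normal form. -/
theorem nf0_sound (hl : ∀ l : List G, l ≠ [] → ∀ (z : G) (rest : List G),
    ev F (lieRel l z rest) = 0) (w : List ℕ) (h : has0 w = true) (a : ℕ → G) :
    ev (fun w : List ℕ => Wd F (w.map a)) (nf0 w) = Wd F (w.map a) := by
  have hw := split0_spec w h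
  unfold nf0
  cases h1 : (split0 w).1 with
  | nil => simp
  | cons x l =>
    simp only
    funext rest
    have h2 := hl ((x :: l).map a) (by simp) (a 0) ((split0 w).2.map a ++ rest)
    rw [lieRel, ev_cons, one_smul] at h2
    simp only at h2
    have h3 : (w.map a ++ rest) = (x :: l).map a ++ a 0 :: ((split0 w).2.map a ++ rest) := by
      conv_lhs => rw [hw, h1]
      rw [List.map_append, List.map_cons, List.append_assoc]
      rfl
    show _ = F (w.map a ++ rest)
    rw [h3]
    rw [← List.map_reverse, adE_map] at h2
    rw [eq_neg_of_add_eq_zero_left h2]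
    generalize adE (x :: l).reverse = A
    induction A with
    | nil => simp [ev]
    | cons t A ih =>
      simp only [List.map_cons, ev_cons, neg_add]
      rw [← ih, Pi.add_apply, Pi.smul_apply, neg_smul]
      congr 1
      show -(t.1 • F ((0 :: (t.2 ++ (split0 w).2)).map a ++ rest)) = _
      rw [List.map_cons, List.map_append, List.cons_append, List.append_assoc]

theorem nfP_sound (hl : ∀ l : List G, l ≠ [] → ∀ (z : G) (rest : List G),
    ev F (lieRel l z rest) = 0) (P : L2.Poly ℕ) (h : ∀ t ∈ P, has0 t.2 = true) (a : ℕ → G) :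
    ev (fun w : List ℕ => Wd F (w.map a)) (nfP P) = ev (fun w : List ℕ => Wd F (w.map a)) P := by
  unfold nfP
  rw [ev_flatMap]
  unfold ev
  congr 1
  apply List.map_congr_left
  intro t ht
  have := ev_smulP (fun w : List ℕ => Wd F (w.map a)) t.1 (nf0 t.2)
  unfold ev at this
  rw [this]
  congr 1
  exact nf0_sound hl t.2 (h t ht) a

theorem HoldsP.ren {P : L2.Poly ℕ} (h : HoldsP F P) (f : ℕ → ℕ) : HoldsP F (L2.ren f P) := by
  intro a
  rw [ev_ren]
  have := h (a ∘ f)
  simpa only [List.map_map] using this

theorem combP_sound (hl : ∀ l : List G, l ≠ [] → ∀ (z : G) (rest : List G),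
    ev F (lieRel l z rest) = 0) (Qs : List (L2.Poly ℕ)) (hQ : ∀ Q ∈ Qs, HoldsP F Q)
    (cs : List (ℤ × ℕ × List ℕ))
    (h : ∀ c ∈ cs, ∀ t ∈ L2.ren (rho c.2.2) (Qs.getD c.2.1 []), has0 t.2 = true) (a : ℕ → G) :
    ev (fun w : List ℕ => Wd F (w.map a)) (combP Qs cs) = 0 := by
  induction cs with
  | nil => rfl
  | cons c cs ih =>
    obtain ⟨c, i, l⟩ := c
    rw [combP, ev_append, ih (fun x hx => h x (List.mem_cons_of_mem _ hx)), add_zero, ev_smulP,
      nfP_sound hl _ (h (c, i, l) List.mem_cons_self)]
    have hQi : HoldsP F (Qs.getD i []) := by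
      by_cases hi : i < Qs.length
      · rw [List.getD_eq_getElem _ _ hi]
        exact hQ _ (List.getElem_mem hi)
      · rw [List.getD_eq_default _ _ (not_lt.1 hi)]
        intro a; rfl
    rw [hQi.ren (rho l) a, smul_zero]

theorem patOK_sound {p : ℕ} (hp : ∀ m : M, p • m = 0)
    (hl : ∀ l : List G, l ≠ [] → ∀ (z : G) (rest : List G), ev F (lieRel l z rest) = 0)
    (Qs : List (L2.Poly ℕ)) (hQ : ∀ Q ∈ Qs, HoldsP F Q) (b : List Bool)
    (cs : List (ℤ × ℕ × List ℕ)) (h : patOK p Qs b cs = true) (a : ℕ → G) (rest : List G) :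
    F ((patW 0 b).map a ++ rest) = 0 := by
  unfold patOK at h
  simp only [Bool.and_eq_true, List.all_eq_true] at h
  obtain ⟨⟨h1, h2⟩, h3⟩ := h
  have h4 := zeroP_sound' (fun w : List ℕ => Wd F (w.map a)) (p := p) (fun w => by
    funext r; exact hp (w r)) h3
  rw [ev_append, nf0_sound hl _ h1, combP_sound hl Qs hQ cs h2, add_zero] at h4
  exact congrFun h4 rest

theorem patsOK_sound {p : ℕ} (hp : ∀ m : M, p • m = 0)
    (hl : ∀ l : List G, l ≠ [] → ∀ (z : G) (rest : List G), ev F (lieRel l z rest) = 0)
    (Qs : List (L2.Poly ℕ)) (hQ : ∀ Q ∈ Qs, HoldsP F Q) (bs : List (List Bool)) :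
    ∀ cs : List (List (ℤ × ℕ × List ℕ)), patsOK p Qs bs cs = true →
    ∀ b ∈ bs, ∀ (a : ℕ → G) (rest : List G), F ((patW 0 b).map a ++ rest) = 0 := by
  induction bs with
  | nil => intro cs _ b hb; simp at hb
  | cons b bs ih =>
    intro cs h b' hb'
    cases cs with
    | nil => simp [patsOK] at h
    | cons c cs =>
      simp only [patsOK, Bool.and_eq_true] at h
      rcases List.mem_cons.1 hb' with rfl | hb'
      · exact patOK_sound hp hl Qs hQ _ c h.1
      · exact ih cs h.2 b' hb'

theorem mem_pats : ∀ (b : List Bool) (k j : ℕ), b.length = k → b.count true = j → b ∈ pats k j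
  | [], k, j, hk, hj => by
    simp only [List.length_nil] at hk
    simp only [List.count_nil] at hj
    subst hk hj
    simp [pats]
  | true :: b, k, j, hk, hj => by
    simp only [List.length_cons] at hk
    rw [List.count_cons] at hj
    simp only [beq_self_eq_true, if_true] at hj
    subst hk hj
    simp only [pats, List.mem_append, List.mem_map]
    exact Or.inl ⟨b, mem_pats b _ _ rfl rfl, rfl⟩
  | false :: b, k, j, hk, hj => by
    simp only [List.length_cons] at hk
    rw [List.count_cons] at hj
    simp only [show (false == true) = false from rfl, Bool.false_eq_true, if_false,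
      add_zero] at hj
    have ih := mem_pats b b.length (b.count true) rfl rfl
    subst hk hj
    cases h : b.count true with
    | zero =>
      simp only [pats, List.mem_map]
      rw [h] at ih
      exact ⟨b, ih, rfl⟩
    | succ j =>
      simp only [pats, List.mem_append, List.mem_map]
      rw [h] at ih
      exact Or.inr ⟨b, ih, rfl⟩

/-- Fewer marks. -/
theorem mark_less (g : G) : ∀ (b : List Bool) (w : List G) (j : ℕ), Mark g b w →
    j ≤ b.count true → ∃ b', Mark g b' w ∧ b'.count true = j
  | [], w, j, hm, hj => by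
    simp only [List.count_nil, Nat.le_zero] at hj
    exact ⟨[], hm, by simp [hj]⟩
  | true :: b, w, j, hm, hj => by
    cases hm with
    | @cons _ y _ w h1 h2 =>
      cases j with
      | zero =>
        obtain ⟨b', hb, hc⟩ := mark_less g b w 0 h2 (Nat.zero_le _)
        refine ⟨false :: b', List.Forall₂.cons (by simp) hb, ?_⟩
        rw [List.count_cons, hc]
        simp
      | succ j =>
        rw [List.count_cons] at hj
        simp only [beq_self_eq_true, if_true] at hj
        obtain ⟨b', hb, hc⟩ := mark_less g b w j h2 (by omega)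
        refine ⟨true :: b', List.Forall₂.cons h1 hb, ?_⟩
        rw [List.count_cons, hc]
        simp
  | false :: b, w, j, hm, hj => by
    cases hm with
    | @cons _ y _ w h1 h2 =>
      rw [List.count_cons] at hj
      simp only [show (false == true) = false from rfl, Bool.false_eq_true, if_false,
        add_zero] at hj
      obtain ⟨b', hb, hc⟩ := mark_less g b w j h2 hj
      refine ⟨false :: b', List.Forall₂.cons (by simp) hb, ?_⟩
      rw [List.count_cons, hc]
      simp

/-- The letters of a pattern. -/
theorem exists_letters (g : G) : ∀ (b : List Bool) (w : List G) (n : ℕ), Mark g b w →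
    ∃ a : ℕ → G, a 1 = g ∧ (patW n b).map a = w ∧ ∀ a' : ℕ → G, a' 1 = g →
      (∀ i, n ≤ i → a' (if i = 0 then 0 else i + 1) = a (if i = 0 then 0 else i + 1)) →
      (patW n b).map a' = w
  | [], w, n, hm => by
    cases hm
    exact ⟨fun _ => g, rfl, rfl, fun _ _ _ => rfl⟩
  | true :: b, w, n, hm => by
    cases hm with
    | @cons _ y _ w h1 h2 =>
      obtain ⟨a, h3, h4, h5⟩ := exists_letters g b w n h2
      have hy := h1 rfl
      subst hy
      refine ⟨a, h3, ?_, ?_⟩
      · show a 1 :: (patW n b).map a = _
        rw [h3, h4]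
      · intro a' ha1 ha'
        show a' 1 :: (patW n b).map a' = _
        rw [ha1, h5 a' ha1 ha']
  | false :: b, w, n, hm => by
    cases hm with
    | @cons _ y _ w h1 h2 =>
      obtain ⟨a, h3, h4, h5⟩ := exists_letters g b w (n + 1) h2
      have hne : (if n = 0 then 0 else n + 1) ≠ 1 := by
        split_ifs <;> omega
      have hinj : ∀ i, n + 1 ≤ i → (if i = 0 then 0 else i + 1) ≠ (if n = 0 then 0 else n + 1) := by
        intro i hi
        split_ifs <;> omega
      refine ⟨Function.update a (if n = 0 then 0 else n + 1) y, ?_, ?_, ?_⟩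
      · rw [Function.update_of_ne hne.symm]; exact h3
      · show Function.update a _ y (if n = 0 then 0 else n + 1) :: (patW (n + 1) b).map _ = _
        rw [Function.update_self, h5 _ (by rw [Function.update_of_ne hne.symm]; exact h3)]
        intro i hi
        rw [Function.update_of_ne (hinj i hi)]
      · intro a' ha1 ha'
        show a' (if n = 0 then 0 else n + 1) :: (patW (n + 1) b).map a' = _
        rw [ha' n le_rfl, Function.update_self, h5 a' ha1]
        intro i hi
        rw [ha' i (by omega), Function.update_of_ne (hinj i hi)]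

/-- The conclusion for all words. -/
theorem WJ_of_pats {k j : ℕ} (h : ∀ b ∈ pats k j, ∀ (a : ℕ → G) (rest : List G),
    F ((patW 0 b).map a ++ rest) = 0) : WJ F k j := by
  intro g b w hm hw hj rest
  obtain ⟨b', hb', hc⟩ := mark_less g b w j hm hj
  have hlen : b'.length = k := by rw [List.Forall₂.length_eq hb', hw]
  obtain ⟨a, _, h2, _⟩ := exists_letters g b' w 0 hb'
  rw [← h2]
  exact h b' (mem_pats b' k j hlen hc) a rest

end

end Pool.Agent.Work.MP_d7201b_al.L3
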