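import Pool.Agent.Work.MP_d7201b_al_helper73.D2
import Pool.Agent.Work.MP_d7201b_al_helper73.Lib

/-!
# Top content (1, 3, 1), `p = 2`
-/

set_option autoImplicit false
set_option maxRecDepth 100000

namespace Pool.Agent.Work.MP_d7201b_al.L3

/-- The content. -/
def tgT2_131 : Tgt where
  c := (1, 3, 1)
  dm t := match t with | .z => 10 | .y => 24 | .m => 10
  off t e := match t with
    | .z => match e with | 0 => 122 | 1 => 78 | _ => 34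
    | .y => match e with | 0 => 98 | 1 => 54 | _ => 10
    | .m => match e with | 0 => 88 | 1 => 44 | _ => 0

/-- Rows. -/
def rwT2_131_0 : List Row := [.lie [(.y, 2), (.y, 0), (.y, 0), (.z, 1)] (.m, 2),
  .lie [(.y, 2), (.z, 1), (.y, 0), (.y, 0)] (.m, 2),
  .lie [(.z, 1), (.y, 0), (.y, 0), (.y, 0)] (.m, 2),
  .lie [(.z, 2), (.y, 0), (.y, 0), (.y, 0)] (.m, 2),
  .lie [(.y, 1), (.z, 0), (.y, 0), (.y, 0)] (.m, 2),
  .lie [(.y, 2), (.z, 0), (.y, 0), (.y, 0)] (.m, 2),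
  .lie [(.y, 1), (.y, 0), (.z, 0), (.y, 0)] (.m, 2),
  .lie [(.y, 2), (.y, 0), (.z, 0), (.y, 0)] (.m, 2),
  .lie [(.y, 1), (.y, 0), (.y, 0), (.z, 0)] (.m, 2),
  .lie [(.y, 2), (.y, 0), (.y, 0), (.z, 0)] (.m, 2),
  .lie [(.y, 1), (.y, 0), (.z, 0), (.m, 0)] (.y, 2),
  .lie [(.y, 2), (.y, 0), (.z, 0), (.m, 0)] (.y, 2),
  .lie [(.y, 1), (.z, 0), (.m, 0), (.y, 0)] (.y, 2),
  .lie [(.y, 2), (.z, 0), (.m, 0), (.y, 0)] (.y, 2),
  .lie [(.z, 1), (.m, 0), (.y, 0), (.y, 0)] (.y, 2),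
  .lie [(.z, 2), (.m, 0), (.y, 0), (.y, 0)] (.y, 2),
  .lie [(.m, 1), (.z, 0), (.y, 0), (.y, 0)] (.y, 2),
  .lie [(.m, 2), (.y, 1), (.z, 0), (.y, 0)] (.y, 2),
  .lie [(.y, 1), (.m, 0), (.z, 0), (.y, 0)] (.y, 2),
  .lie [(.m, 0), (.y, 0), (.z, 0), (.y, 0)] (.y, 2),
  .lie [(.m, 1), (.y, 0), (.z, 0), (.y, 0)] (.y, 2),
  .lie [(.y, 1), (.y, 0), (.m, 0), (.z, 0)] (.y, 2),
  .lie [(.m, 2), (.y, 1), (.y, 0), (.z, 0)] (.y, 2),
  .lie [(.y, 1), (.m, 0), (.y, 0), (.z, 0)] (.y, 2),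
  .lie [(.y, 2), (.m, 0), (.y, 0), (.z, 0)] (.y, 2),
  .lie [(.m, 0), (.y, 0), (.y, 0), (.z, 0)] (.y, 2),
  .lie [(.m, 1), (.y, 0), (.y, 0), (.z, 0)] (.y, 2),
  .lie [(.m, 2), (.y, 0), (.y, 0), (.y, 1)] (.z, 2),
  .lie [(.y, 1), (.y, 0), (.y, 0), (.m, 0)] (.z, 2),
  .lie [(.y, 1), (.y, 0), (.m, 0), (.y, 0)] (.z, 2),
  .lie [(.m, 2), (.y, 1), (.y, 0), (.y, 0)] (.z, 2),
  .lie [(.y, 1), (.m, 0), (.y, 0), (.y, 0)] (.z, 2),
  .lie [(.y, 2), (.m, 0), (.y, 0), (.y, 0)] (.z, 2),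
  .lie [(.m, 0), (.y, 0), (.y, 0), (.y, 0)] (.z, 2),
  .lie [(.y, 2), (.y, 0), (.y, 0), (.z, 1)] (.m, 1),
  .lie [(.y, 2), (.z, 1), (.y, 0), (.y, 0)] (.m, 1),
  .lie [(.z, 1), (.y, 0), (.y, 0), (.y, 0)] (.m, 1),
  .lie [(.y, 1), (.z, 0), (.y, 0), (.y, 0)] (.m, 1),
  .lie [(.y, 1), (.y, 0), (.z, 0), (.y, 0)] (.m, 1),
  .lie [(.y, 1), (.y, 0), (.y, 0), (.z, 0)] (.m, 1),
  .lie [(.m, 2), (.y, 0), (.y, 0), (.z, 1)] (.y, 1),
  .lie [(.y, 1), (.y, 0), (.z, 0), (.m, 0)] (.y, 1),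
  .lie [(.y, 1), (.z, 0), (.m, 0), (.y, 0)] (.y, 1),
  .lie [(.m, 2), (.z, 1), (.y, 0), (.y, 0)] (.y, 1),
  .lie [(.z, 1), (.m, 0), (.y, 0), (.y, 0)] (.y, 1),
  .lie [(.m, 2), (.y, 1), (.z, 0), (.y, 0)] (.y, 1),
  .lie [(.m, 0), (.y, 0), (.z, 0), (.y, 0)] (.y, 1),
  .lie [(.m, 2), (.y, 1), (.y, 0), (.z, 0)] (.y, 1),
  .lie [(.y, 1), (.m, 0), (.y, 0), (.z, 0)] (.y, 1),
  .lie [(.m, 0), (.y, 0), (.y, 0), (.z, 0)] (.y, 1),
  .lie [(.y, 1), (.y, 0), (.m, 0), (.y, 0)] (.z, 1),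
  .lie [(.y, 1), (.m, 0), (.y, 0), (.y, 0)] (.z, 1),
  .lie [(.y, 2), (.m, 0), (.y, 0), (.y, 0)] (.z, 1),
  .lie [(.m, 0), (.y, 0), (.y, 0), (.y, 0)] (.z, 1),
  .lie [(.y, 1), (.y, 0), (.y, 0), (.z, 0)] (.m, 0),
  .lie [(.y, 2), (.y, 0), (.y, 0), (.z, 0)] (.m, 0),
  .lie [(.m, 1), (.y, 0), (.y, 0), (.z, 0)] (.y, 0),
  .lie [(.m, 2), (.y, 0), (.y, 0), (.z, 0)] (.y, 0),
  .hyp [(.z, 0), (.y, 0), (.y, 0), (.y, 0), (.m, 0)],
  .hyp [(.z, 0), (.y, 0), (.y, 0), (.y, 0), (.m, 1)],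
  .hyp [(.z, 0), (.y, 0), (.y, 0), (.y, 0), (.m, 2)],
  .hyp [(.z, 1), (.y, 0), (.y, 0), (.y, 0), (.m, 0)],
  .hyp [(.z, 1), (.y, 0), (.y, 0), (.y, 0), (.m, 1)],
  .hyp [(.z, 1), (.y, 0), (.y, 0), (.y, 0), (.m, 2)],
  .hyp [(.z, 2), (.y, 0), (.y, 0), (.y, 0), (.m, 0)],
  .hyp [(.z, 2), (.y, 0), (.y, 0), (.y, 0), (.m, 1)],
  .hyp [(.z, 2), (.y, 0), (.y, 0), (.y, 0), (.m, 2)],
  .hyp [(.z, 0), (.y, 1), (.y, 1), (.y, 1), (.m, 0)],
  .hyp [(.z, 0), (.y, 1), (.y, 1), (.y, 1), (.m, 1)],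
  .hyp [(.z, 0), (.y, 1), (.y, 1), (.y, 1), (.m, 2)],
  .hyp [(.z, 1), (.y, 1), (.y, 1), (.y, 1), (.m, 0)],
  .hyp [(.z, 1), (.y, 1), (.y, 1), (.y, 1), (.m, 1)],
  .hyp [(.z, 1), (.y, 1), (.y, 1), (.y, 1), (.m, 2)],
  .hyp [(.z, 2), (.y, 1), (.y, 1), (.y, 1), (.m, 0)],
  .hyp [(.z, 2), (.y, 1), (.y, 1), (.y, 1), (.m, 1)],
  .hyp [(.z, 2), (.y, 1), (.y, 1), (.y, 1), (.m, 2)],
  .hyp [(.z, 0), (.y, 2), (.y, 2), (.y, 2), (.m, 0)],
  .hyp [(.z, 0), (.y, 2), (.y, 2), (.y, 2), (.m, 2)],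
  .hyp [(.z, 0), (.y, 0), (.y, 0), (.m, 0), (.y, 0)],
  .hyp [(.z, 0), (.y, 0), (.y, 0), (.m, 1), (.y, 0)],
  .hyp [(.z, 0), (.y, 0), (.y, 0), (.m, 2), (.y, 0)],
  .hyp [(.z, 1), (.y, 0), (.y, 0), (.m, 0), (.y, 0)],
  .hyp [(.z, 1), (.y, 0), (.y, 0), (.m, 1), (.y, 0)],
  .hyp [(.z, 1), (.y, 0), (.y, 0), (.m, 2), (.y, 0)],
  .hyp [(.z, 2), (.y, 0), (.y, 0), (.m, 0), (.y, 0)],
  .hyp [(.z, 0), (.y, 1), (.y, 1), (.m, 0), (.y, 1)],
  .hyp [(.z, 0), (.y, 1), (.y, 1), (.m, 1), (.y, 1)],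
  .hyp [(.z, 0), (.y, 1), (.y, 1), (.m, 2), (.y, 1)],
  .hyp [(.z, 1), (.y, 1), (.y, 1), (.m, 0), (.y, 1)],
  .hyp [(.z, 1), (.y, 1), (.y, 1), (.m, 1), (.y, 1)],
  .hyp [(.z, 1), (.y, 1), (.y, 1), (.m, 2), (.y, 1)],
  .hyp [(.z, 2), (.y, 1), (.y, 1), (.m, 0), (.y, 1)],
  .hyp [(.z, 0), (.y, 2), (.y, 2), (.m, 0), (.y, 2)],
  .hyp [(.z, 0), (.y, 2), (.y, 2), (.m, 1), (.y, 2)],
  .hyp [(.z, 0), (.y, 2), (.y, 2), (.m, 2), (.y, 2)],
  .hyp [(.z, 1), (.y, 2), (.y, 2), (.m, 0), (.y, 2)],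
  .hyp [(.z, 1), (.y, 2), (.y, 2), (.m, 1), (.y, 2)],
  .hyp [(.z, 1), (.y, 2), (.y, 2), (.m, 2), (.y, 2)],
  .hyp [(.z, 2), (.y, 2), (.y, 2), (.m, 0), (.y, 2)],
  .hyp [(.z, 0), (.y, 0), (.m, 0), (.y, 0), (.y, 0)],
  .hyp [(.z, 0), (.y, 0), (.m, 1), (.y, 0), (.y, 0)],
  .hyp [(.z, 0), (.y, 0), (.m, 2), (.y, 0), (.y, 0)],
  .hyp [(.z, 1), (.y, 0), (.m, 0), (.y, 0), (.y, 0)],
  .hyp [(.z, 1), (.y, 0), (.m, 1), (.y, 0), (.y, 0)],
  .hyp [(.z, 1), (.y, 0), (.m, 2), (.y, 0), (.y, 0)],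
  .hyp [(.z, 2), (.y, 0), (.m, 0), (.y, 0), (.y, 0)],
  .hyp [(.z, 0), (.y, 1), (.m, 0), (.y, 1), (.y, 1)],
  .hyp [(.z, 0), (.y, 1), (.m, 1), (.y, 1), (.y, 1)],
  .hyp [(.z, 0), (.y, 1), (.m, 2), (.y, 1), (.y, 1)],
  .hyp [(.z, 1), (.y, 1), (.m, 0), (.y, 1), (.y, 1)],
  .hyp [(.z, 1), (.y, 1), (.m, 1), (.y, 1), (.y, 1)],
  .hyp [(.z, 2), (.y, 1), (.m, 0), (.y, 1), (.y, 1)],
  .hyp [(.z, 1), (.y, 2), (.m, 0), (.y, 2), (.y, 2)],
  .hyp [(.z, 0), (.m, 0), (.y, 0), (.y, 0), (.y, 0)],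
  .hyp [(.z, 0), (.m, 1), (.y, 0), (.y, 0), (.y, 0)],
  .hyp [(.z, 0), (.m, 2), (.y, 0), (.y, 0), (.y, 0)],
  .hyp [(.z, 1), (.m, 0), (.y, 0), (.y, 0), (.y, 0)],
  .hyp [(.z, 1), (.m, 1), (.y, 0), (.y, 0), (.y, 0)],
  .hyp [(.z, 1), (.m, 2), (.y, 0), (.y, 0), (.y, 0)],
  .hyp [(.z, 0), (.m, 0), (.y, 1), (.y, 1), (.y, 1)],
  .hyp [(.z, 0), (.m, 1), (.y, 1), (.y, 1), (.y, 1)],
  .hyp [(.z, 0), (.m, 2), (.y, 1), (.y, 1), (.y, 1)],
  .cr 1 [(.y, 2), (.y, 1)] [(.y, 0), (.m, 0), (.z, 0)],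
  .cr 1 [(.y, 1), (.y, 0)] [(.m, 2), (.y, 2), (.z, 0)],
  .cr 1 [(.y, 1), (.y, 0)] [(.y, 1), (.z, 2), (.m, 0)],
  .cr 1 [(.z, 1), (.y, 0)] [(.y, 0), (.m, 1), (.y, 1)],
  .cr 1 [(.z, 2), (.y, 0)] [(.y, 2), (.y, 0), (.m, 2)],
  .cr 1 [(.y, 2), (.m, 0)] [(.z, 0), (.y, 2), (.y, 0)],
  .cr 1 [(.y, 1), (.y, 0)] [(.m, 1), (.y, 2), (.z, 2)]]

/-- The certificate. -/
def cT2_131 : Cert ℕ where
  tg := tgT2_131
  pre := [[(.y, 2), (.y, 0), (.y, 0), (.z, 1), (.m, 2)],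
    [(.y, 2), (.z, 1), (.y, 0), (.y, 0), (.m, 2)],
    [(.z, 1), (.y, 0), (.y, 0), (.y, 0), (.m, 2)],
    [(.z, 2), (.y, 0), (.y, 0), (.y, 0), (.m, 2)],
    [(.y, 1), (.z, 0), (.y, 0), (.y, 0), (.m, 2)],
    [(.y, 2), (.z, 0), (.y, 0), (.y, 0), (.m, 2)],
    [(.y, 1), (.y, 0), (.z, 0), (.y, 0), (.m, 2)],
    [(.y, 2), (.y, 0), (.z, 0), (.y, 0), (.m, 2)],
    [(.y, 1), (.y, 0), (.y, 0), (.z, 0), (.m, 2)],
    [(.y, 2), (.y, 0), (.y, 0), (.z, 0), (.m, 2)],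
    [(.m, 2), (.y, 0), (.y, 0), (.z, 1), (.y, 2)],
    [(.y, 1), (.y, 0), (.z, 0), (.m, 0), (.y, 2)],
    [(.y, 2), (.y, 0), (.z, 0), (.m, 0), (.y, 2)],
    [(.y, 1), (.z, 0), (.m, 0), (.y, 0), (.y, 2)],
    [(.y, 2), (.z, 0), (.m, 0), (.y, 0), (.y, 2)],
    [(.m, 2), (.z, 1), (.y, 0), (.y, 0), (.y, 2)],
    [(.z, 1), (.m, 0), (.y, 0), (.y, 0), (.y, 2)],
    [(.z, 2), (.m, 0), (.y, 0), (.y, 0), (.y, 2)],
    [(.m, 1), (.z, 0), (.y, 0), (.y, 0), (.y, 2)],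
    [(.m, 2), (.z, 0), (.y, 0), (.y, 0), (.y, 2)],
    [(.m, 2), (.y, 1), (.z, 0), (.y, 0), (.y, 2)],
    [(.y, 1), (.m, 0), (.z, 0), (.y, 0), (.y, 2)],
    [(.y, 2), (.m, 0), (.z, 0), (.y, 0), (.y, 2)],
    [(.m, 0), (.y, 0), (.z, 0), (.y, 0), (.y, 2)],
    [(.m, 1), (.y, 0), (.z, 0), (.y, 0), (.y, 2)],
    [(.m, 2), (.y, 0), (.z, 0), (.y, 0), (.y, 2)],
    [(.y, 1), (.y, 0), (.m, 0), (.z, 0), (.y, 2)],
    [(.y, 2), (.y, 0), (.m, 0), (.z, 0), (.y, 2)],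
    [(.m, 2), (.y, 1), (.y, 0), (.z, 0), (.y, 2)],
    [(.y, 1), (.m, 0), (.y, 0), (.z, 0), (.y, 2)],
    [(.y, 2), (.m, 0), (.y, 0), (.z, 0), (.y, 2)],
    [(.m, 0), (.y, 0), (.y, 0), (.z, 0), (.y, 2)],
    [(.m, 1), (.y, 0), (.y, 0), (.z, 0), (.y, 2)],
    [(.m, 2), (.y, 0), (.y, 0), (.z, 0), (.y, 2)],
    [(.m, 2), (.y, 0), (.y, 0), (.y, 1), (.z, 2)],
    [(.y, 1), (.y, 0), (.y, 0), (.m, 0), (.z, 2)],
    [(.y, 2), (.y, 0), (.y, 0), (.m, 0), (.z, 2)],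
    [(.y, 1), (.y, 0), (.m, 0), (.y, 0), (.z, 2)],
    [(.m, 2), (.y, 1), (.y, 0), (.y, 0), (.z, 2)],
    [(.y, 1), (.m, 0), (.y, 0), (.y, 0), (.z, 2)],
    [(.y, 2), (.m, 0), (.y, 0), (.y, 0), (.z, 2)],
    [(.m, 0), (.y, 0), (.y, 0), (.y, 0), (.z, 2)],
    [(.m, 1), (.y, 0), (.y, 0), (.y, 0), (.z, 2)],
    [(.m, 2), (.y, 0), (.y, 0), (.y, 0), (.z, 2)],
    [(.y, 2), (.y, 0), (.y, 0), (.z, 1), (.m, 1)],
    [(.y, 2), (.z, 1), (.y, 0), (.y, 0), (.m, 1)],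
    [(.z, 1), (.y, 0), (.y, 0), (.y, 0), (.m, 1)],
    [(.z, 2), (.y, 0), (.y, 0), (.y, 0), (.m, 1)],
    [(.y, 1), (.z, 0), (.y, 0), (.y, 0), (.m, 1)],
    [(.y, 2), (.z, 0), (.y, 0), (.y, 0), (.m, 1)],
    [(.y, 1), (.y, 0), (.z, 0), (.y, 0), (.m, 1)],
    [(.y, 2), (.y, 0), (.z, 0), (.y, 0), (.m, 1)],
    [(.y, 1), (.y, 0), (.y, 0), (.z, 0), (.m, 1)],
    [(.y, 2), (.y, 0), (.y, 0), (.z, 0), (.m, 1)],
    [(.m, 2), (.y, 0), (.y, 0), (.z, 1), (.y, 1)],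
    [(.y, 1), (.y, 0), (.z, 0), (.m, 0), (.y, 1)],
    [(.y, 2), (.y, 0), (.z, 0), (.m, 0), (.y, 1)],
    [(.y, 1), (.z, 0), (.m, 0), (.y, 0), (.y, 1)],
    [(.y, 2), (.z, 0), (.m, 0), (.y, 0), (.y, 1)],
    [(.m, 2), (.z, 1), (.y, 0), (.y, 0), (.y, 1)],
    [(.z, 1), (.m, 0), (.y, 0), (.y, 0), (.y, 1)],
    [(.z, 2), (.m, 0), (.y, 0), (.y, 0), (.y, 1)],
    [(.m, 1), (.z, 0), (.y, 0), (.y, 0), (.y, 1)],
    [(.m, 2), (.z, 0), (.y, 0), (.y, 0), (.y, 1)],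
    [(.m, 2), (.y, 1), (.z, 0), (.y, 0), (.y, 1)],
    [(.y, 1), (.m, 0), (.z, 0), (.y, 0), (.y, 1)],
    [(.y, 2), (.m, 0), (.z, 0), (.y, 0), (.y, 1)],
    [(.m, 0), (.y, 0), (.z, 0), (.y, 0), (.y, 1)],
    [(.m, 1), (.y, 0), (.z, 0), (.y, 0), (.y, 1)],
    [(.m, 2), (.y, 0), (.z, 0), (.y, 0), (.y, 1)],
    [(.y, 1), (.y, 0), (.m, 0), (.z, 0), (.y, 1)],
    [(.y, 2), (.y, 0), (.m, 0), (.z, 0), (.y, 1)],
    [(.m, 2), (.y, 1), (.y, 0), (.z, 0), (.y, 1)],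
    [(.y, 1), (.m, 0), (.y, 0), (.z, 0), (.y, 1)],
    [(.y, 2), (.m, 0), (.y, 0), (.z, 0), (.y, 1)],
    [(.m, 0), (.y, 0), (.y, 0), (.z, 0), (.y, 1)],
    [(.m, 1), (.y, 0), (.y, 0), (.z, 0), (.y, 1)],
    [(.m, 2), (.y, 0), (.y, 0), (.z, 0), (.y, 1)],
    [(.m, 2), (.y, 0), (.y, 0), (.y, 1), (.z, 1)],
    [(.y, 1), (.y, 0), (.y, 0), (.m, 0), (.z, 1)],
    [(.y, 2), (.y, 0), (.y, 0), (.m, 0), (.z, 1)],
    [(.y, 1), (.y, 0), (.m, 0), (.y, 0), (.z, 1)],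
    [(.m, 2), (.y, 1), (.y, 0), (.y, 0), (.z, 1)],
    [(.y, 1), (.m, 0), (.y, 0), (.y, 0), (.z, 1)],
    [(.y, 2), (.m, 0), (.y, 0), (.y, 0), (.z, 1)],
    [(.m, 0), (.y, 0), (.y, 0), (.y, 0), (.z, 1)],
    [(.m, 1), (.y, 0), (.y, 0), (.y, 0), (.z, 1)],
    [(.m, 2), (.y, 0), (.y, 0), (.y, 0), (.z, 1)],
    [(.y, 2), (.y, 0), (.y, 0), (.z, 1), (.m, 0)],
    [(.y, 2), (.z, 1), (.y, 0), (.y, 0), (.m, 0)],
    [(.z, 1), (.y, 0), (.y, 0), (.y, 0), (.m, 0)],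
    [(.z, 2), (.y, 0), (.y, 0), (.y, 0), (.m, 0)],
    [(.y, 1), (.z, 0), (.y, 0), (.y, 0), (.m, 0)],
    [(.y, 2), (.z, 0), (.y, 0), (.y, 0), (.m, 0)],
    [(.y, 1), (.y, 0), (.z, 0), (.y, 0), (.m, 0)],
    [(.y, 2), (.y, 0), (.z, 0), (.y, 0), (.m, 0)],
    [(.y, 1), (.y, 0), (.y, 0), (.z, 0), (.m, 0)],
    [(.y, 2), (.y, 0), (.y, 0), (.z, 0), (.m, 0)],
    [(.m, 2), (.y, 0), (.y, 0), (.z, 1), (.y, 0)],
    [(.y, 1), (.y, 0), (.z, 0), (.m, 0), (.y, 0)],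
    [(.y, 2), (.y, 0), (.z, 0), (.m, 0), (.y, 0)],
    [(.y, 1), (.z, 0), (.m, 0), (.y, 0), (.y, 0)],
    [(.y, 2), (.z, 0), (.m, 0), (.y, 0), (.y, 0)],
    [(.m, 2), (.z, 1), (.y, 0), (.y, 0), (.y, 0)],
    [(.z, 1), (.m, 0), (.y, 0), (.y, 0), (.y, 0)],
    [(.z, 2), (.m, 0), (.y, 0), (.y, 0), (.y, 0)],
    [(.m, 1), (.z, 0), (.y, 0), (.y, 0), (.y, 0)],
    [(.m, 2), (.z, 0), (.y, 0), (.y, 0), (.y, 0)],
    [(.m, 2), (.y, 1), (.z, 0), (.y, 0), (.y, 0)],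
    [(.y, 1), (.m, 0), (.z, 0), (.y, 0), (.y, 0)],
    [(.y, 2), (.m, 0), (.z, 0), (.y, 0), (.y, 0)],
    [(.m, 0), (.y, 0), (.z, 0), (.y, 0), (.y, 0)],
    [(.m, 1), (.y, 0), (.z, 0), (.y, 0), (.y, 0)],
    [(.m, 2), (.y, 0), (.z, 0), (.y, 0), (.y, 0)],
    [(.y, 1), (.y, 0), (.m, 0), (.z, 0), (.y, 0)],
    [(.y, 2), (.y, 0), (.m, 0), (.z, 0), (.y, 0)],
    [(.m, 2), (.y, 1), (.y, 0), (.z, 0), (.y, 0)],
    [(.y, 1), (.m, 0), (.y, 0), (.z, 0), (.y, 0)],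
    [(.y, 2), (.m, 0), (.y, 0), (.z, 0), (.y, 0)],
    [(.m, 0), (.y, 0), (.y, 0), (.z, 0), (.y, 0)],
    [(.m, 1), (.y, 0), (.y, 0), (.z, 0), (.y, 0)],
    [(.m, 2), (.y, 0), (.y, 0), (.z, 0), (.y, 0)],
    [(.m, 2), (.y, 0), (.y, 0), (.y, 1), (.z, 0)],
    [(.y, 1), (.y, 0), (.y, 0), (.m, 0), (.z, 0)],
    [(.y, 2), (.y, 0), (.y, 0), (.m, 0), (.z, 0)],
    [(.y, 1), (.y, 0), (.m, 0), (.y, 0), (.z, 0)],
    [(.m, 2), (.y, 1), (.y, 0), (.y, 0), (.z, 0)],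
    [(.y, 1), (.m, 0), (.y, 0), (.y, 0), (.z, 0)],
    [(.y, 2), (.m, 0), (.y, 0), (.y, 0), (.z, 0)],
    [(.m, 0), (.y, 0), (.y, 0), (.y, 0), (.z, 0)],
    [(.m, 1), (.y, 0), (.y, 0), (.y, 0), (.z, 0)],
    [(.m, 2), (.y, 0), (.y, 0), (.y, 0), (.z, 0)]]
  piv := []
  R := 0xbd5a5f854001f5a5f856c71f5a5f85700211d118440069159184400001d00004000038f12b014003d45eae880034558f28800363031000003296068000009a3284719f8000000009fb25f84eb19fb21f85700002e98c0901046e98c0901322e98c0b400000000180032195f84db0044000000000000000000000195b384000000000000000000000000001300214000000000000000000000000000cecbc80000000000000000000080000000000000000000000000000000680000000000000000000000000000000100000000000000000000000000000000800000000000000000000000000000000400000000000000000000000000000ca88000000000000000000000000000000000000000000000000003e2152c0000000000000000a374000000000000000000000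000000000c92a000000000000000000000000000285ef2000000000000000000000000000132ce0c000000000000000000000000003b9c20c0000000000000000000000000034ace0c0000000000000000024a40000000000000000000000000000015d60000000000000000000000000000ca90e0000000000000000000000000000cbed60000000000000000000000000000020800000000000000000000000000000010400000000000000000000000000000ca08000000000000000000000000000000000000000000000000002c282000000000000000000000000000027a8114000000000000000000000000002cec3480000000000000000000000000016b78d800000000000000000000000000200081000000000000000000000000000221fc5c0000000000000000000000000004a88100000000000000000484058000000000000000000000000003233080000000000000000000000000000e1b680000000000000000000000000003133100000000000000000000000000001d1b384000000000000000000000000000fc0214000000000000000000000000000bacbc80000000000000002c282100000000000000000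0000000000000008400000000000000000000000000395ba9400000000000000000000000000311f9480000000000000000000000000020008000000000000000000000000000010004000000000000000000000000000004a88000000000000000000000000000000000000000000000000000000002a0000000002a000000000000000000000000000000000000000000000000000001200000000000000000000120000000000000000000012000000000000000000000000000000000000000000000000000003da00000000000000000003da00000000000000000003da00000000000000000000000000000000000000000000000000003890000000000000000000389000000000000000000038900000000000000000000000000000000000000000000000000000080000000000000000000008000000000000000000000800000000000000000000000000000000000000000000000000000040000000000000000000004000000000000000000000400000000000000000000000000000000000000000000000000000a000000000000000000000a000000000000000000000a0000000000000000000000080202080000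00000000000000000000a040101040000000000000a0000000000000100040420000000000000000ca88000000800202100000ca88000000000000000003da152804200000000000000000000000001ade0031000000000000311f94800000cb3e216b08311f9480000000000000000cb9ec119020cbed6000000000000000880000201000080000000000000000009e7f005c77900004202800000000000003a8e37d88000019769e40000000000379028002000400000080000000000000000288a77d880000321e844000000000023700000a0e1710080001000000000000000000c890e000044000080000000000017180f4ace0f3700004002000000000000008078405c6370000020080000000000000000cbaf4000004000004000000000001a1f4ca67a00000000040100000000000008d40150000000001000040000000000004b4cb37a00000100000010000000000000035f2cf40040000000004000000000000000228a000d9c0000000200395bc1400000004f400005c0000000100000068000002c0ca500800000000000200000000000000288428800000000000102c2821000000c869c33f002c282100008000000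000000c859c000000880210000400000033f0000073e3c7000024a400002000000000000c81a2301000000200000080000000000002f26000000428010000040000003ed9c018dc0000000000002000100000000110000040200000000000000080000000210888012a0000000000000000840500091fc9185f1700048405000000200000009dff9285c0000202c050000001000031706d9571af41000000040000000400000099c03700000000000000800000100000031000400080000000000000000080000035d91185e81000000010000000020000035d91285c00000000010000000010028105c02fdc0000000000020000000040000000caca42000000000000001000020000000c87940010100000000000000010000300c2080280000000000000000800400034d9971ac810000800000000000002000310008010800000000000000000401000065911846410000040000000000000800010cac0400000000000000000000802000440291a000000000800000000000010031002c000000000000000000002000080aa4001000000000200000000000000040b10c800400000000000000002000000200040281a000002000000000000000001000088ca50000000000000080000000008000015d640080000000000000000000040000364a000b100000000000000000402000c878c0000100000000000000008001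
  N := 132
  rows := rwT2_131_0
  kap _ _ := []

/-- The relations. -/
def tT2_131 : TCert ℕ := ⟨cT2_131, [([[(.z, 0), (.y, 0), (.y, 0), (.y, 1), (.m, 0)]], 0x19b61fcfdd95205af816945973ecd102c),
  ([[(.z, 0), (.y, 0), (.y, 1), (.y, 0), (.m, 0)]], 0xc5e0a37bbd4dcc9226050b4c4aed1675),
  ([[(.z, 0), (.y, 0), (.y, 1), (.m, 0), (.y, 0)]], 0x11ef5f52182bc5cf573c5bda3708412fb),
  ([[(.z, 0), (.y, 0), (.y, 0), (.m, 0), (.y, 1)], [(.z, 0), (.y, 0), (.m, 0), (.y, 0), (.y, 1)]], 0x11c426614ef98f4fd6246fba375b02ddb),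
  ([[(.z, 0), (.y, 0), (.m, 0), (.y, 1), (.y, 0)]], 0xe3c73e705a4f4df79030cbec059f2bb5),
  ([[(.z, 0), (.y, 1), (.y, 0), (.y, 0), (.m, 0)]], 0x17ed08797854dc4b370f4fba377ed7a9d),
  ([[(.z, 0), (.y, 0), (.y, 0), (.m, 0), (.y, 1)], [(.z, 0), (.y, 1), (.y, 0), (.m, 0), (.y, 0)]], 0x1e0484da658e90839651cffc9ec6bbde2),
  ([[(.z, 0), (.y, 0), (.y, 0), (.m, 0), (.y, 1)], [(.z, 0), (.y, 1), (.m, 0), (.y, 0), (.y, 0)]], 0x114839f345b4cea994c85eda454aa561b),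
  ([[(.z, 0), (.m, 0), (.y, 0), (.y, 0), (.y, 1)]], 0x10bce67d46d11dbaadb5d0022caeeefa0),
  ([[(.z, 0), (.m, 0), (.y, 0), (.y, 1), (.y, 0)]], 0x1098f1bb3db56f3a2ca6c6422cddad2b7),
  ([[(.z, 0), (.m, 0), (.y, 1), (.y, 0), (.y, 0)]], 0x760270000000000000000000000000)]⟩

theorem rokT2_131_0 : rowsOK D2 tgT2_131 cT2_131.R cT2_131.N 0 rwT2_131_0 = true := by decide +kernel

theorem rwsT2_131 : rwsOK D2 cT2_131 = true := by
  refine rwsOK_of (by decide +kernel) (by decide +kernel) (by decide +kernel) ?_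
  exact rokT2_131_0

theorem topT2_131 : topOK D2 tT2_131 = true := by decide +kernel

theorem allT2_131 : cT2_131.rows.all (rowA okRow2 5 3) = true := by decide +kernel

/-- The patterns. -/
def ptT2_131 : List (List (ℤ × ℕ × List ℕ)) := [[],
  [(1, 0, [0, 1, 3, 2])],
  [(1, 3, [0, 1, 2, 3]), (1, 0, [0, 1, 3, 2])],
  [(1, 4, [0, 1, 2, 3])],
  [(1, 0, [0, 1, 3, 2])],
  [(1, 3, [0, 1, 2, 3]), (1, 0, [0, 1, 3, 2])],
  [(1, 4, [0, 1, 2, 3])],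
  [(1, 8, [0, 1, 2, 3])],
  [(1, 9, [0, 1, 2, 3])],
  [(1, 10, [0, 1, 2, 3])]]

theorem pokT2_131 : patsOK 2 (tT2_131.rels.map fun r => plainP r.1) (pats 5 2) ptT2_131 = true := by
  decide +kernel

end Pool.Agent.Work.MP_d7201b_al.L3
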