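import Pool.Agent.Work.MP_d7201b_al_helper73.D2
import Pool.Agent.Work.MP_d7201b_al_helper73.Lib

/-!
# Top content (1, 4, 1), `p = 2`
-/

set_option autoImplicit false
set_option maxRecDepth 100000

namespace Pool.Agent.Work.MP_d7201b_al.L3

/-- The content. -/
def tgT2_141 : Tgt where
  c := (1, 4, 1)
  dm t := match t with | .z => 3 | .y => 26 | .m => 3
  off t e := match t with
    | .z => match e with | 0 => 93 | 1 => 61 | _ => 29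
    | .y => match e with | 0 => 67 | 1 => 35 | _ => 3
    | .m => match e with | 0 => 64 | 1 => 32 | _ => 0

/-- Rows. -/
def rwT2_141_0 : List Row := [.lie [(.y, 1), (.z, 0), (.y, 0), (.y, 0), (.y, 0)] (.m, 2),
  .lie [(.y, 1), (.y, 0), (.y, 0), (.z, 0), (.y, 0)] (.m, 2),
  .lie [(.y, 1), (.y, 0), (.y, 0), (.y, 0), (.z, 0)] (.m, 2),
  .lie [(.m, 1), (.y, 0), (.y, 0), (.y, 0), (.z, 1)] (.y, 2),
  .lie [(.m, 2), (.y, 0), (.y, 0), (.y, 0), (.z, 1)] (.y, 2),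
  .lie [(.y, 1), (.y, 0), (.y, 0), (.z, 0), (.m, 0)] (.y, 2),
  .lie [(.y, 2), (.y, 0), (.y, 0), (.z, 0), (.m, 0)] (.y, 2),
  .lie [(.y, 1), (.z, 0), (.m, 0), (.y, 0), (.y, 0)] (.y, 2),
  .lie [(.m, 2), (.z, 1), (.y, 0), (.y, 0), (.y, 0)] (.y, 2),
  .lie [(.z, 1), (.m, 0), (.y, 0), (.y, 0), (.y, 0)] (.y, 2),
  .lie [(.z, 2), (.m, 0), (.y, 0), (.y, 0), (.y, 0)] (.y, 2),
  .lie [(.m, 1), (.z, 0), (.y, 0), (.y, 0), (.y, 0)] (.y, 2),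
  .lie [(.m, 2), (.z, 0), (.y, 0), (.y, 0), (.y, 0)] (.y, 2),
  .lie [(.m, 2), (.y, 0), (.z, 0), (.y, 0), (.y, 0)] (.y, 2),
  .lie [(.y, 1), (.y, 0), (.m, 0), (.z, 0), (.y, 0)] (.y, 2),
  .lie [(.m, 2), (.y, 1), (.y, 0), (.z, 0), (.y, 0)] (.y, 2),
  .lie [(.y, 1), (.m, 0), (.y, 0), (.z, 0), (.y, 0)] (.y, 2),
  .lie [(.y, 2), (.m, 0), (.y, 0), (.z, 0), (.y, 0)] (.y, 2),
  .lie [(.m, 0), (.y, 0), (.y, 0), (.z, 0), (.y, 0)] (.y, 2),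
  .lie [(.m, 1), (.y, 0), (.y, 0), (.z, 0), (.y, 0)] (.y, 2),
  .lie [(.m, 2), (.y, 0), (.y, 0), (.z, 0), (.y, 0)] (.y, 2),
  .lie [(.y, 1), (.y, 0), (.y, 0), (.m, 0), (.z, 0)] (.y, 2),
  .lie [(.y, 2), (.y, 0), (.y, 0), (.m, 0), (.z, 0)] (.y, 2),
  .lie [(.m, 2), (.y, 1), (.y, 0), (.y, 0), (.z, 0)] (.y, 2),
  .lie [(.y, 1), (.m, 0), (.y, 0), (.y, 0), (.z, 0)] (.y, 2),
  .lie [(.y, 2), (.m, 0), (.y, 0), (.y, 0), (.z, 0)] (.y, 2),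
  .lie [(.m, 0), (.y, 0), (.y, 0), (.y, 0), (.z, 0)] (.y, 2),
  .lie [(.m, 1), (.y, 0), (.y, 0), (.y, 0), (.z, 0)] (.y, 2),
  .lie [(.m, 2), (.y, 0), (.y, 0), (.y, 0), (.z, 0)] (.y, 2),
  .lie [(.y, 1), (.m, 0), (.y, 0), (.y, 0), (.y, 0)] (.z, 2),
  .lie [(.y, 2), (.m, 0), (.y, 0), (.y, 0), (.y, 0)] (.z, 2),
  .lie [(.y, 1), (.z, 0), (.y, 0), (.y, 0), (.y, 0)] (.m, 1),
  .lie [(.y, 1), (.y, 0), (.y, 0), (.z, 0), (.y, 0)] (.m, 1),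
  .lie [(.y, 1), (.y, 0), (.y, 0), (.y, 0), (.z, 0)] (.m, 1),
  .lie [(.m, 1), (.y, 0), (.y, 0), (.y, 0), (.z, 1)] (.y, 1),
  .lie [(.m, 2), (.y, 0), (.y, 0), (.y, 0), (.z, 1)] (.y, 1),
  .lie [(.y, 1), (.y, 0), (.y, 0), (.z, 0), (.m, 0)] (.y, 1),
  .lie [(.y, 2), (.y, 0), (.y, 0), (.z, 0), (.m, 0)] (.y, 1),
  .lie [(.y, 1), (.z, 0), (.m, 0), (.y, 0), (.y, 0)] (.y, 1),
  .lie [(.m, 2), (.z, 1), (.y, 0), (.y, 0), (.y, 0)] (.y, 1),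
  .lie [(.z, 1), (.m, 0), (.y, 0), (.y, 0), (.y, 0)] (.y, 1),
  .lie [(.z, 2), (.m, 0), (.y, 0), (.y, 0), (.y, 0)] (.y, 1),
  .lie [(.y, 1), (.y, 0), (.m, 0), (.z, 0), (.y, 0)] (.y, 1),
  .lie [(.m, 2), (.y, 1), (.y, 0), (.z, 0), (.y, 0)] (.y, 1),
  .lie [(.y, 1), (.m, 0), (.y, 0), (.z, 0), (.y, 0)] (.y, 1),
  .lie [(.y, 2), (.m, 0), (.y, 0), (.z, 0), (.y, 0)] (.y, 1),
  .lie [(.m, 0), (.y, 0), (.y, 0), (.z, 0), (.y, 0)] (.y, 1),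
  .lie [(.m, 1), (.y, 0), (.y, 0), (.z, 0), (.y, 0)] (.y, 1),
  .lie [(.m, 2), (.y, 1), (.y, 0), (.y, 0), (.z, 0)] (.y, 1),
  .lie [(.m, 0), (.y, 0), (.y, 0), (.y, 0), (.z, 0)] (.y, 1),
  .lie [(.y, 1), (.m, 0), (.y, 0), (.y, 0), (.y, 0)] (.z, 1),
  .lie [(.y, 2), (.m, 0), (.y, 0), (.y, 0), (.y, 0)] (.z, 1),
  .lie [(.y, 1), (.y, 0), (.y, 0), (.y, 0), (.z, 0)] (.m, 0),
  .lie [(.m, 1), (.y, 0), (.y, 0), (.y, 0), (.z, 1)] (.y, 0),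
  .lie [(.m, 2), (.y, 0), (.y, 0), (.y, 0), (.z, 1)] (.y, 0),
  .lie [(.y, 2), (.y, 0), (.y, 0), (.m, 0), (.z, 0)] (.y, 0),
  .lie [(.m, 1), (.y, 0), (.y, 0), (.y, 0), (.z, 0)] (.y, 0),
  .lie [(.m, 2), (.y, 0), (.y, 0), (.y, 0), (.z, 0)] (.y, 0),
  .hyp [(.z, 0), (.y, 0), (.y, 0), (.y, 0), (.m, 0), (.y, 0)],
  .hyp [(.z, 0), (.y, 0), (.y, 0), (.y, 0), (.m, 1), (.y, 0)],
  .hyp [(.z, 0), (.y, 0), (.y, 0), (.y, 0), (.m, 2), (.y, 0)],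
  .hyp [(.z, 1), (.y, 0), (.y, 0), (.y, 0), (.m, 0), (.y, 0)],
  .hyp [(.z, 1), (.y, 0), (.y, 0), (.y, 0), (.m, 1), (.y, 0)],
  .hyp [(.z, 1), (.y, 0), (.y, 0), (.y, 0), (.m, 2), (.y, 0)],
  .hyp [(.z, 2), (.y, 0), (.y, 0), (.y, 0), (.m, 0), (.y, 0)],
  .hyp [(.z, 0), (.y, 1), (.y, 1), (.y, 1), (.m, 0), (.y, 1)],
  .hyp [(.z, 0), (.y, 1), (.y, 1), (.y, 1), (.m, 1), (.y, 1)],
  .hyp [(.z, 0), (.y, 1), (.y, 1), (.y, 1), (.m, 2), (.y, 1)],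
  .hyp [(.z, 1), (.y, 1), (.y, 1), (.y, 1), (.m, 0), (.y, 1)],
  .hyp [(.z, 1), (.y, 1), (.y, 1), (.y, 1), (.m, 1), (.y, 1)],
  .hyp [(.z, 1), (.y, 1), (.y, 1), (.y, 1), (.m, 2), (.y, 1)],
  .hyp [(.z, 2), (.y, 1), (.y, 1), (.y, 1), (.m, 0), (.y, 1)],
  .hyp [(.z, 0), (.y, 2), (.y, 2), (.y, 2), (.m, 0), (.y, 2)],
  .hyp [(.z, 0), (.y, 2), (.y, 2), (.y, 2), (.m, 1), (.y, 2)],
  .hyp [(.z, 1), (.y, 2), (.y, 2), (.y, 2), (.m, 0), (.y, 2)],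
  .hyp [(.z, 1), (.y, 2), (.y, 2), (.y, 2), (.m, 1), (.y, 2)],
  .hyp [(.z, 0), (.y, 0), (.y, 0), (.m, 0), (.y, 0), (.y, 0)],
  .hyp [(.z, 0), (.y, 0), (.y, 0), (.m, 1), (.y, 0), (.y, 0)],
  .hyp [(.z, 0), (.y, 0), (.y, 0), (.m, 2), (.y, 0), (.y, 0)],
  .hyp [(.z, 1), (.y, 0), (.y, 0), (.m, 0), (.y, 0), (.y, 0)],
  .hyp [(.z, 1), (.y, 0), (.y, 0), (.m, 1), (.y, 0), (.y, 0)],
  .hyp [(.z, 1), (.y, 0), (.y, 0), (.m, 2), (.y, 0), (.y, 0)],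
  .hyp [(.z, 2), (.y, 0), (.y, 0), (.m, 0), (.y, 0), (.y, 0)],
  .hyp [(.z, 0), (.y, 1), (.y, 1), (.m, 0), (.y, 1), (.y, 1)],
  .hyp [(.z, 1), (.y, 1), (.y, 1), (.m, 1), (.y, 1), (.y, 1)],
  .hyp [(.z, 0), (.y, 0), (.m, 0), (.y, 0), (.y, 0), (.y, 0)],
  .cr 1 [(.m, 0), (.y, 0), (.y, 0)] [(.y, 0), (.z, 1), (.y, 0)],
  .cr 1 [(.y, 2), (.y, 0), (.z, 1)] [(.y, 1), (.m, 2), (.y, 1)],
  .cr 1 [(.m, 1), (.z, 0), (.y, 0)] [(.y, 2), (.y, 0), (.y, 2)],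
  .cr 1 [(.m, 2), (.y, 0), (.y, 1)] [(.y, 2), (.y, 1), (.z, 2)],
  .cr 1 [(.z, 2), (.y, 0), (.y, 0)] [(.y, 0), (.m, 2), (.y, 1)],
  .cr 1 [(.y, 2), (.z, 1), (.y, 0)] [(.m, 2), (.y, 1), (.y, 2)],
  .cr 1 [(.y, 1), (.m, 0), (.z, 0)] [(.y, 1), (.y, 0), (.y, 0)]]

/-- The certificate. -/
def cT2_141 : Cert ℕ where
  tg := tgT2_141
  pre := [[(.y, 1), (.z, 0), (.y, 0), (.y, 0), (.y, 0), (.m, 2)],
    [(.y, 1), (.y, 0), (.y, 0), (.z, 0), (.y, 0), (.m, 2)],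
    [(.y, 1), (.y, 0), (.y, 0), (.y, 0), (.z, 0), (.m, 2)],
    [(.m, 1), (.y, 0), (.y, 0), (.y, 0), (.z, 1), (.y, 2)],
    [(.m, 2), (.y, 0), (.y, 0), (.y, 0), (.z, 1), (.y, 2)],
    [(.y, 1), (.y, 0), (.y, 0), (.z, 0), (.m, 0), (.y, 2)],
    [(.y, 2), (.y, 0), (.y, 0), (.z, 0), (.m, 0), (.y, 2)],
    [(.y, 1), (.z, 0), (.m, 0), (.y, 0), (.y, 0), (.y, 2)],
    [(.m, 2), (.z, 1), (.y, 0), (.y, 0), (.y, 0), (.y, 2)],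
    [(.z, 1), (.m, 0), (.y, 0), (.y, 0), (.y, 0), (.y, 2)],
    [(.z, 2), (.m, 0), (.y, 0), (.y, 0), (.y, 0), (.y, 2)],
    [(.m, 1), (.z, 0), (.y, 0), (.y, 0), (.y, 0), (.y, 2)],
    [(.m, 2), (.z, 0), (.y, 0), (.y, 0), (.y, 0), (.y, 2)],
    [(.m, 2), (.y, 0), (.z, 0), (.y, 0), (.y, 0), (.y, 2)],
    [(.y, 1), (.y, 0), (.m, 0), (.z, 0), (.y, 0), (.y, 2)],
    [(.m, 2), (.y, 1), (.y, 0), (.z, 0), (.y, 0), (.y, 2)],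
    [(.y, 1), (.m, 0), (.y, 0), (.z, 0), (.y, 0), (.y, 2)],
    [(.y, 2), (.m, 0), (.y, 0), (.z, 0), (.y, 0), (.y, 2)],
    [(.m, 0), (.y, 0), (.y, 0), (.z, 0), (.y, 0), (.y, 2)],
    [(.m, 1), (.y, 0), (.y, 0), (.z, 0), (.y, 0), (.y, 2)],
    [(.m, 2), (.y, 0), (.y, 0), (.z, 0), (.y, 0), (.y, 2)],
    [(.y, 1), (.y, 0), (.y, 0), (.m, 0), (.z, 0), (.y, 2)],
    [(.y, 2), (.y, 0), (.y, 0), (.m, 0), (.z, 0), (.y, 2)],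
    [(.m, 2), (.y, 1), (.y, 0), (.y, 0), (.z, 0), (.y, 2)],
    [(.y, 1), (.m, 0), (.y, 0), (.y, 0), (.z, 0), (.y, 2)],
    [(.y, 2), (.m, 0), (.y, 0), (.y, 0), (.z, 0), (.y, 2)],
    [(.m, 0), (.y, 0), (.y, 0), (.y, 0), (.z, 0), (.y, 2)],
    [(.m, 1), (.y, 0), (.y, 0), (.y, 0), (.z, 0), (.y, 2)],
    [(.m, 2), (.y, 0), (.y, 0), (.y, 0), (.z, 0), (.y, 2)],
    [(.m, 2), (.y, 1), (.y, 0), (.y, 0), (.y, 0), (.z, 2)],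
    [(.y, 1), (.m, 0), (.y, 0), (.y, 0), (.y, 0), (.z, 2)],
    [(.y, 2), (.m, 0), (.y, 0), (.y, 0), (.y, 0), (.z, 2)],
    [(.y, 1), (.z, 0), (.y, 0), (.y, 0), (.y, 0), (.m, 1)],
    [(.y, 1), (.y, 0), (.y, 0), (.z, 0), (.y, 0), (.m, 1)],
    [(.y, 1), (.y, 0), (.y, 0), (.y, 0), (.z, 0), (.m, 1)],
    [(.m, 1), (.y, 0), (.y, 0), (.y, 0), (.z, 1), (.y, 1)],
    [(.m, 2), (.y, 0), (.y, 0), (.y, 0), (.z, 1), (.y, 1)],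
    [(.y, 1), (.y, 0), (.y, 0), (.z, 0), (.m, 0), (.y, 1)],
    [(.y, 2), (.y, 0), (.y, 0), (.z, 0), (.m, 0), (.y, 1)],
    [(.y, 1), (.z, 0), (.m, 0), (.y, 0), (.y, 0), (.y, 1)],
    [(.m, 2), (.z, 1), (.y, 0), (.y, 0), (.y, 0), (.y, 1)],
    [(.z, 1), (.m, 0), (.y, 0), (.y, 0), (.y, 0), (.y, 1)],
    [(.z, 2), (.m, 0), (.y, 0), (.y, 0), (.y, 0), (.y, 1)],
    [(.m, 1), (.z, 0), (.y, 0), (.y, 0), (.y, 0), (.y, 1)],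
    [(.m, 2), (.z, 0), (.y, 0), (.y, 0), (.y, 0), (.y, 1)],
    [(.m, 2), (.y, 0), (.z, 0), (.y, 0), (.y, 0), (.y, 1)],
    [(.y, 1), (.y, 0), (.m, 0), (.z, 0), (.y, 0), (.y, 1)],
    [(.m, 2), (.y, 1), (.y, 0), (.z, 0), (.y, 0), (.y, 1)],
    [(.y, 1), (.m, 0), (.y, 0), (.z, 0), (.y, 0), (.y, 1)],
    [(.y, 2), (.m, 0), (.y, 0), (.z, 0), (.y, 0), (.y, 1)],
    [(.m, 0), (.y, 0), (.y, 0), (.z, 0), (.y, 0), (.y, 1)],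
    [(.m, 1), (.y, 0), (.y, 0), (.z, 0), (.y, 0), (.y, 1)],
    [(.m, 2), (.y, 0), (.y, 0), (.z, 0), (.y, 0), (.y, 1)],
    [(.y, 1), (.y, 0), (.y, 0), (.m, 0), (.z, 0), (.y, 1)],
    [(.y, 2), (.y, 0), (.y, 0), (.m, 0), (.z, 0), (.y, 1)],
    [(.m, 2), (.y, 1), (.y, 0), (.y, 0), (.z, 0), (.y, 1)],
    [(.y, 1), (.m, 0), (.y, 0), (.y, 0), (.z, 0), (.y, 1)],
    [(.y, 2), (.m, 0), (.y, 0), (.y, 0), (.z, 0), (.y, 1)],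
    [(.m, 0), (.y, 0), (.y, 0), (.y, 0), (.z, 0), (.y, 1)],
    [(.m, 1), (.y, 0), (.y, 0), (.y, 0), (.z, 0), (.y, 1)],
    [(.m, 2), (.y, 0), (.y, 0), (.y, 0), (.z, 0), (.y, 1)],
    [(.m, 2), (.y, 1), (.y, 0), (.y, 0), (.y, 0), (.z, 1)],
    [(.y, 1), (.m, 0), (.y, 0), (.y, 0), (.y, 0), (.z, 1)],
    [(.y, 2), (.m, 0), (.y, 0), (.y, 0), (.y, 0), (.z, 1)],
    [(.y, 1), (.z, 0), (.y, 0), (.y, 0), (.y, 0), (.m, 0)],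
    [(.y, 1), (.y, 0), (.y, 0), (.z, 0), (.y, 0), (.m, 0)],
    [(.y, 1), (.y, 0), (.y, 0), (.y, 0), (.z, 0), (.m, 0)],
    [(.m, 1), (.y, 0), (.y, 0), (.y, 0), (.z, 1), (.y, 0)],
    [(.m, 2), (.y, 0), (.y, 0), (.y, 0), (.z, 1), (.y, 0)],
    [(.y, 1), (.y, 0), (.y, 0), (.z, 0), (.m, 0), (.y, 0)],
    [(.y, 2), (.y, 0), (.y, 0), (.z, 0), (.m, 0), (.y, 0)],
    [(.y, 1), (.z, 0), (.m, 0), (.y, 0), (.y, 0), (.y, 0)],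
    [(.m, 2), (.z, 1), (.y, 0), (.y, 0), (.y, 0), (.y, 0)],
    [(.z, 1), (.m, 0), (.y, 0), (.y, 0), (.y, 0), (.y, 0)],
    [(.z, 2), (.m, 0), (.y, 0), (.y, 0), (.y, 0), (.y, 0)],
    [(.m, 1), (.z, 0), (.y, 0), (.y, 0), (.y, 0), (.y, 0)],
    [(.m, 2), (.z, 0), (.y, 0), (.y, 0), (.y, 0), (.y, 0)],
    [(.m, 2), (.y, 0), (.z, 0), (.y, 0), (.y, 0), (.y, 0)],
    [(.y, 1), (.y, 0), (.m, 0), (.z, 0), (.y, 0), (.y, 0)],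
    [(.m, 2), (.y, 1), (.y, 0), (.z, 0), (.y, 0), (.y, 0)],
    [(.y, 1), (.m, 0), (.y, 0), (.z, 0), (.y, 0), (.y, 0)],
    [(.y, 2), (.m, 0), (.y, 0), (.z, 0), (.y, 0), (.y, 0)],
    [(.m, 0), (.y, 0), (.y, 0), (.z, 0), (.y, 0), (.y, 0)],
    [(.m, 1), (.y, 0), (.y, 0), (.z, 0), (.y, 0), (.y, 0)],
    [(.m, 2), (.y, 0), (.y, 0), (.z, 0), (.y, 0), (.y, 0)],
    [(.y, 1), (.y, 0), (.y, 0), (.m, 0), (.z, 0), (.y, 0)],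
    [(.y, 2), (.y, 0), (.y, 0), (.m, 0), (.z, 0), (.y, 0)],
    [(.m, 2), (.y, 1), (.y, 0), (.y, 0), (.z, 0), (.y, 0)],
    [(.y, 1), (.m, 0), (.y, 0), (.y, 0), (.z, 0), (.y, 0)],
    [(.y, 2), (.m, 0), (.y, 0), (.y, 0), (.z, 0), (.y, 0)],
    [(.m, 0), (.y, 0), (.y, 0), (.y, 0), (.z, 0), (.y, 0)],
    [(.m, 1), (.y, 0), (.y, 0), (.y, 0), (.z, 0), (.y, 0)],
    [(.m, 2), (.y, 0), (.y, 0), (.y, 0), (.z, 0), (.y, 0)],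
    [(.m, 2), (.y, 1), (.y, 0), (.y, 0), (.y, 0), (.z, 0)],
    [(.y, 1), (.m, 0), (.y, 0), (.y, 0), (.y, 0), (.z, 0)],
    [(.y, 2), (.m, 0), (.y, 0), (.y, 0), (.y, 0), (.z, 0)]]
  piv := []
  R := 0x473cc48064070801cdb198e079492d600a9b2ec1faed20715f5b4771a370ec789a0000009a0000002a28f0006540b001fa945780cd9e5f013dd4c4713d40307159ccf471a320f20000a4040d2f58f200640300000000000000000000000000000766580000000000000000000bb846800000000000d4b00000000000000000002a5e580000000000000000002bbfe80000000000000000004f065800000000000000000001010000000000000000000000808000000000000000000065010000000000000000000000000000000000008762178000000000000000009f62e60000000000000000013a2277000000000000000000244304000000000024d7f6000000000000000001bab6100000000000000000005bf6d0000000000000000001a2b620000000000000000000c3f6710000000000000000019ff7c080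00000000000000005d968200000000016042440000000000000000000102110000000000000000000102d0800000000000000001a222d20000000000000000010103000000000000000000008102800000000000000000002443000000000000000000000001000000000000000000000000800000000000000000080497f04000000000640300000000100000000000000000000000d00000000000000000086694824065410000000000001d02013800000001a222d200de420495a222d2000000000c5c948210400000000000000e2b493800ca68c9000000003c3f4b3880008000200000000265928a200040000000000004012c00500020000065868a04003c005065968a000000000200240001bab64900000000584e5308404f8688000000000085b5014000004008000000017cf424b800002000000000019fd4e7880000100000000032647f002002000800000000082b9ec040000004002b12000a4f6d08602b12020000000001bbb4100a00000100000000205af4d004000000a00000000f78f5c080000080400000000c3e49388001820020000000059ef5c08080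00001000000001644204400000000960424400a162f721604244040000000900010400000000010000004f3b20770000000040800000082541044000000000400000006596f0000000000004d7f40a4ed6c06024d7f4001000000c4ed6c0010197f40008000068006300400000000060f7f00a01a8f86064f7f000020000086594f400000000000100004fbb2c3700000000400080000864d4f4400000000000400008642000400000000000b4f40e654800300094f4000010000e655000000094f4000008003065b0c00000f4f000000400086496f4000000000000020040040104000000000000010000e720770000000000000080000400440000000000000040008260e70000000000000020008260d700000000000000100865ccf840040000000000080801b6f040000000006522040264e8b82065220000000002013d40250800000000000001308660178e0000003000000088e0f471000001000000000045bae84900000200000000002ac2f47101000000000000001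
  N := 96
  rows := rwT2_141_0
  kap _ _ := []

/-- The relations. -/
def tT2_141 : TCert ℕ := ⟨cT2_141, [([[(.z, 0), (.y, 0), (.y, 0), (.y, 0), (.y, 1), (.m, 0)]], 0x2c95f8abc73adfc634bf4af),
  ([[(.z, 0), (.y, 0), (.y, 0), (.y, 1), (.y, 0), (.m, 0)]], 0x1609ce88089da14b1096c3eb),
  ([[(.z, 0), (.y, 0), (.y, 0), (.y, 0), (.m, 0), (.y, 1)], [(.z, 0), (.y, 0), (.y, 0), (.y, 1), (.m, 0), (.y, 0)], [(.z, 0), (.y, 0), (.y, 0), (.m, 0), (.y, 0), (.y, 1)]], 0x430f0f14ac7514e7f6660),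
  ([[(.z, 0), (.y, 0), (.y, 0), (.m, 0), (.y, 1), (.y, 0)]], 0x1016c36e67e1229041b35411),
  ([[(.z, 0), (.y, 0), (.y, 1), (.y, 0), (.y, 0), (.m, 0)]], 0x1609ce88089da14b1096c3eb),
  ([[(.z, 0), (.y, 0), (.y, 1), (.y, 0), (.m, 0), (.y, 0)]], 0x10271b49cb07ef25c76b912),
  ([[(.z, 0), (.y, 0), (.y, 1), (.m, 0), (.y, 0), (.y, 0)]], 0xd0000120000000000000),
  ([[(.z, 0), (.y, 0), (.y, 0), (.y, 0), (.m, 0), (.y, 1)], [(.z, 0), (.y, 0), (.y, 0), (.y, 1), (.m, 0), (.y, 0)], [(.z, 0), (.y, 0), (.m, 0), (.y, 0), (.y, 0), (.y, 1)]], 0x2420f0f14a47504e7f6660),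
  ([[(.z, 0), (.y, 0), (.m, 0), (.y, 0), (.y, 1), (.y, 0)]], 0x1036736e66c1229041b35411),
  ([[(.z, 0), (.y, 0), (.y, 0), (.y, 1), (.m, 0), (.y, 0)], [(.z, 0), (.y, 0), (.m, 0), (.y, 1), (.y, 0), (.y, 0)]], 0x12211b49cb07ef25c76b912),
  ([[(.z, 0), (.y, 1), (.y, 0), (.y, 0), (.y, 0), (.m, 0)]], 0x10c78e4b8c3b7e8f292a324c),
  ([[(.z, 0), (.y, 0), (.y, 0), (.y, 0), (.m, 0), (.y, 1)], [(.z, 0), (.y, 0), (.y, 0), (.y, 1), (.m, 0), (.y, 0)], [(.z, 0), (.y, 1), (.y, 0), (.y, 0), (.m, 0), (.y, 0)]], 0x1902247ee4b0034dd5cd62bb),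
  ([[(.z, 0), (.y, 0), (.y, 0), (.y, 0), (.m, 0), (.y, 1)], [(.z, 0), (.y, 0), (.y, 0), (.y, 1), (.m, 0), (.y, 0)], [(.z, 0), (.y, 1), (.y, 0), (.m, 0), (.y, 0), (.y, 0)]], 0xd965253cad8c75cdc50f789),
  ([[(.z, 0), (.y, 0), (.y, 0), (.y, 0), (.m, 0), (.y, 1)], [(.z, 0), (.y, 1), (.m, 0), (.y, 0), (.y, 0), (.y, 0)]], 0xcb433e75668b9ae80264e9b),
  ([[(.z, 0), (.m, 0), (.y, 0), (.y, 0), (.y, 0), (.y, 1)]], 0x584840724610b325a271e51),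
  ([[(.z, 0), (.m, 0), (.y, 0), (.y, 0), (.y, 1), (.y, 0)]], 0x5842fe9a6e12b1ec50840bf),
  ([[(.z, 0), (.m, 0), (.y, 0), (.y, 1), (.y, 0), (.y, 0)]], 0x44b1e72f8b36dd150388e),
  ([[(.z, 0), (.m, 0), (.y, 1), (.y, 0), (.y, 0), (.y, 0)]], 0x4eb1e73d8b36dd150388e)]⟩

theorem rokT2_141_0 : rowsOK D2 tgT2_141 cT2_141.R cT2_141.N 0 rwT2_141_0 = true := by decide +kernel

theorem rwsT2_141 : rwsOK D2 cT2_141 = true := by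
  refine rwsOK_of (by decide +kernel) (by decide +kernel) (by decide +kernel) ?_
  exact rokT2_141_0

theorem topT2_141 : topOK D2 tT2_141 = true := by decide +kernel

theorem allT2_141 : cT2_141.rows.all (rowA okRow2 6 4) = true := by decide +kernel

/-- The patterns. -/
def ptT2_141 : List (List (ℤ × ℕ × List ℕ)) := [[],
  [],
  [],
  [],
  [(1, 0, [0, 1, 3, 2])],
  [(1, 1, [0, 1, 3, 2])],
  [(1, 3, [0, 1, 2, 3])],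
  [(1, 2, [0, 1, 2, 3]), (1, 7, [0, 1, 2, 3]), (1, 1, [0, 1, 3, 2])],
  [(1, 8, [0, 1, 2, 3])],
  [(1, 2, [0, 1, 2, 3]), (1, 9, [0, 1, 2, 3]), (1, 0, [0, 1, 3, 2]), (1, 1, [0, 1, 3, 2])],
  [(1, 0, [0, 1, 3, 2])],
  [(1, 1, [0, 1, 3, 2])],
  [(1, 3, [0, 1, 2, 3])],
  [(1, 2, [0, 1, 2, 3]), (1, 7, [0, 1, 2, 3]), (1, 1, [0, 1, 3, 2])],
  [(1, 8, [0, 1, 2, 3])],
  [(1, 2, [0, 1, 2, 3]), (1, 9, [0, 1, 2, 3]), (1, 0, [0, 1, 3, 2]), (1, 1, [0, 1, 3, 2])],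
  [(1, 14, [0, 1, 2, 3])],
  [(1, 15, [0, 1, 2, 3])],
  [(1, 16, [0, 1, 2, 3])],
  [(1, 17, [0, 1, 2, 3])]]

theorem pokT2_141 : patsOK 2 (tT2_141.rels.map fun r => plainP r.1) (pats 6 3) ptT2_141 = true := by
  decide +kernel

end Pool.Agent.Work.MP_d7201b_al.L3
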