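import Pool.Agent.Work.MP_d7201b_al_helper73.D2
import Pool.Agent.Work.MP_d7201b_al_helper73.Lib

/-!
# Top content (1, 5, 0), `p = 2`
-/

set_option autoImplicit false
set_option maxRecDepth 100000

namespace Pool.Agent.Work.MP_d7201b_al.L3

/-- The content. -/
def tgT2_150 : Tgt where
  c := (1, 5, 0)
  dm t := match t with | .z => 0 | .y => 3 | .m => 0
  off t e := match t with
    | .z => match e with | 0 => 9 | 1 => 6 | _ => 3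
    | .y => match e with | 0 => 6 | 1 => 3 | _ => 0
    | .m => match e with | 0 => 0 | 1 => 0 | _ => 0

/-- Rows. -/
def rwT2_150_0 : List Row := [.lie [(.y, 1), (.z, 0), (.y, 0), (.y, 0), (.y, 0)] (.y, 2),
  .lie [(.y, 1), (.z, 0), (.y, 0), (.y, 0), (.y, 0)] (.y, 1),
  .lie [(.y, 1), (.y, 0), (.y, 0), (.z, 0), (.y, 0)] (.y, 1),
  .lie [(.y, 1), (.y, 0), (.y, 0), (.y, 0), (.z, 0)] (.y, 0),
  .cr 1 [(.y, 2), (.z, 1), (.y, 0)] [(.y, 0), (.y, 0), (.y, 0)],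
  .cr 1 [(.y, 1), (.z, 0), (.y, 0)] [(.y, 0), (.y, 1), (.y, 0)]]

/-- The certificate. -/
def cT2_150 : Cert ℕ where
  tg := tgT2_150
  pre := [[(.y, 1), (.z, 0), (.y, 0), (.y, 0), (.y, 0), (.y, 2)],
    [(.y, 1), (.y, 0), (.y, 0), (.z, 0), (.y, 0), (.y, 2)],
    [(.y, 1), (.y, 0), (.y, 0), (.y, 0), (.z, 0), (.y, 2)],
    [(.y, 1), (.z, 0), (.y, 0), (.y, 0), (.y, 0), (.y, 1)],
    [(.y, 1), (.y, 0), (.y, 0), (.z, 0), (.y, 0), (.y, 1)],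
    [(.y, 1), (.y, 0), (.y, 0), (.y, 0), (.z, 0), (.y, 1)],
    [(.y, 1), (.z, 0), (.y, 0), (.y, 0), (.y, 0), (.y, 0)],
    [(.y, 1), (.y, 0), (.y, 0), (.z, 0), (.y, 0), (.y, 0)],
    [(.y, 1), (.y, 0), (.y, 0), (.y, 0), (.z, 0), (.y, 0)]]
  piv := []
  R := 0x1a6fa207005141
  N := 9
  rows := rwT2_150_0
  kap _ _ := []

/-- The relations. -/
def tT2_150 : TCert ℕ := ⟨cT2_150, [([[(.z, 0), (.y, 0), (.y, 0), (.y, 0), (.y, 0), (.y, 1)]], 0),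
  ([[(.z, 0), (.y, 0), (.y, 0), (.y, 0), (.y, 1), (.y, 0)]], 0x33),
  ([[(.z, 0), (.y, 0), (.y, 0), (.y, 1), (.y, 0), (.y, 0)]], 0x3f),
  ([[(.z, 0), (.y, 0), (.y, 1), (.y, 0), (.y, 0), (.y, 0)]], 0x3f),
  ([[(.z, 0), (.y, 1), (.y, 0), (.y, 0), (.y, 0), (.y, 0)]], 8)]⟩

theorem rokT2_150_0 : rowsOK D2 tgT2_150 cT2_150.R cT2_150.N 0 rwT2_150_0 = true := by decide +kernel

theorem rwsT2_150 : rwsOK D2 cT2_150 = true := by
  refine rwsOK_of (by decide +kernel) (by decide +kernel) (by decide +kernel) ?_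
  exact rokT2_150_0

theorem topT2_150 : topOK D2 tT2_150 = true := by decide +kernel

theorem allT2_150 : cT2_150.rows.all (rowA okRow2 6 5) = true := by decide +kernel

/-- The patterns. -/
def ptT2_150 : List (List (ℤ × ℕ × List ℕ)) := [[],
  [],
  [],
  [],
  [],
  [],
  [(1, 0, [0, 1, 2, 2])],
  [(1, 1, [0, 1, 2, 2])],
  [(1, 2, [0, 1, 2, 2])],
  [(1, 3, [0, 1, 2, 2])],
  [(1, 0, [0, 1, 2, 2])],
  [(1, 1, [0, 1, 2, 2])],
  [(1, 2, [0, 1, 2, 2])],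
  [(1, 3, [0, 1, 2, 2])],
  [(1, 4, [0, 1, 2, 2])]]

theorem pokT2_150 : patsOK 2 (tT2_150.rels.map fun r => plainP r.1) (pats 6 4) ptT2_150 = true := by
  decide +kernel

end Pool.Agent.Work.MP_d7201b_al.L3
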