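import Pool.Agent.Work.MP_d7201b_al_helper73.C2_011
import Pool.Agent.Work.MP_d7201b_al_helper73.C2_020
import Pool.Agent.Work.MP_d7201b_al_helper73.C2_101
import Pool.Agent.Work.MP_d7201b_al_helper73.C2_110
import Pool.Agent.Work.MP_d7201b_al_helper73.C2_021
import Pool.Agent.Work.MP_d7201b_al_helper73.C2_030
import Pool.Agent.Work.MP_d7201b_al_helper73.C2_111
import Pool.Agent.Work.MP_d7201b_al_helper73.C2_120
import Pool.Agent.Work.MP_d7201b_al_helper73.C2_031
import Pool.Agent.Work.MP_d7201b_al_helper73.C2_040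
import Pool.Agent.Work.MP_d7201b_al_helper73.C2_121
import Pool.Agent.Work.MP_d7201b_al_helper73.C2_130
import Pool.Agent.Work.MP_d7201b_al_helper73.C2_041
import Pool.Agent.Work.MP_d7201b_al_helper73.C2_050
import Pool.Agent.Work.MP_d7201b_al_helper73.C2_131
import Pool.Agent.Work.MP_d7201b_al_helper73.C2_140
import Pool.Agent.Work.MP_d7201b_al_helper73.T2_150
import Pool.Agent.Work.MP_d7201b_al_helper73.T2_141
import Pool.Agent.Work.MP_d7201b_al_helper73.T2_131
import Pool.Agent.Work.MP_d7201b_al_helper73.T2_121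

/-!
# All certificates for `p = 2`
-/

set_option autoImplicit false
set_option maxRecDepth 100000

namespace Pool.Agent.Work.MP_d7201b_al.L3

/-- The chain. -/
def ch2 : List (Cert ℕ) := [c2_011, c2_020, c2_101, c2_110, c2_021, c2_030, c2_111, c2_120, c2_031, c2_040, c2_121, c2_130, c2_041, c2_050, c2_131, c2_140]

theorem chok2 : chainOK ℕ [] ch2 = true := by decide +kernel

theorem cert2 : ∀ C ∈ ch2, certOK D2 C = true := by
  intro C hC
  simp only [ch2, List.mem_cons, List.not_mem_nil, or_false] at hC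
  rcases hC with rfl | rfl | rfl | rfl | rfl | rfl | rfl | rfl | rfl | rfl | rfl | rfl | rfl | rfl | rfl | rfl
  · exact cok2_011
  · exact cok2_020
  · exact cok2_101
  · exact cok2_110
  · exact cok2_021
  · exact cok2_030
  · exact cok2_111
  · exact cok2_120
  · exact cok2_031
  · exact cok2_040
  · exact cok2_121
  · exact cok2_130
  · exact cok2_041
  · exact cok2_050
  · exact cok2_131
  · exact cok2_140

theorem call2 : ∀ C ∈ ch2, C.rows.all okRow2 = true := by
  intro C hC
  simp only [ch2, List.mem_cons, List.not_mem_nil, or_false] at hC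
  rcases hC with rfl | rfl | rfl | rfl | rfl | rfl | rfl | rfl | rfl | rfl | rfl | rfl | rfl | rfl | rfl | rfl
  · exact all2_011
  · exact all2_020
  · exact all2_101
  · exact all2_110
  · exact all2_021
  · exact all2_030
  · exact all2_111
  · exact all2_120
  · exact all2_031
  · exact all2_040
  · exact all2_121
  · exact all2_130
  · exact all2_041
  · exact all2_050
  · exact all2_131
  · exact all2_140

universe u

section

variable {G : Type u} [Group G] {M : Type u} [AddCommGroup M] {F : List G → M}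

theorem stepT2_150 (hF : Wld 2 D2 okRow2 F) (h : WJ F 6 5) : WJ F 6 4 :=
  step_WJ hF (by decide) (by decide) ch2 chok2 cert2 call2 tT2_150 (by decide +kernel)
    topT2_150 rwsT2_150 allT2_150 ptT2_150 pokT2_150 h

theorem stepT2_141 (hF : Wld 2 D2 okRow2 F) (h : WJ F 6 4) : WJ F 6 3 :=
  step_WJ hF (by decide) (by decide) ch2 chok2 cert2 call2 tT2_141 (by decide +kernel)
    topT2_141 rwsT2_141 allT2_141 ptT2_141 pokT2_141 h

theorem stepT2_131 (hF : Wld 2 D2 okRow2 F) (h : WJ F 5 3) : WJ F 5 2 :=
  step_WJ hF (by decide) (by decide) ch2 chok2 cert2 call2 tT2_131 (by decide +kernel)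
    topT2_131 rwsT2_131 allT2_131 ptT2_131 pokT2_131 h

theorem stepT2_121 (hF : Wld 2 D2 okRow2 F) (h : WJ F 4 2) : WJ F 4 1 :=
  step_WJ hF (by decide) (by decide) ch2 chok2 cert2 call2 tT2_121 (by decide +kernel)
    topT2_121 rwsT2_121 allT2_121 ptT2_121 pokT2_121 h

end

end Pool.Agent.Work.MP_d7201b_al.L3
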