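import Pool.Agent.Work.MP_d7201b_al_L2.Rel

/-!
# Interface between the formal relations and the kernel checker

`F : List G → M` is a function on words with the relations of `L2/Rel.lean`.  Everything is
formulated with functions `List G → M` (the argument is the rest of the word) and the operators
`Br g` (bracket with `x^g`), `adR l` (bracket with a commutator, the list is reversed), and
`mo h s j ws`, the part of `(h (1 + w₁) ⋯ (1 + w_q))^j` multilinear in the entries `ws`
(every entry is a reversed word, i.e. a commutator), where all the `h` have been moved to the left.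
-/

set_option autoImplicit false

namespace Pool.Agent.Work.MP_d7201b_al.L3

open L2

universe u v

/-- The relations. -/
structure RS {G : Type u} [Group G] {M : Type v} [AddCommGroup M] (F : List G → M) : Prop where
  lie : ∀ l : List G, l ≠ [] → ∀ (z : G) (rest : List G), ev F (lieRel l z rest) = 0
  pq : ∀ (g u : G) (vs rest : List G), ev F (pRel (· * g) u vs rest) = 0
  np : ∀ (u : G) (ms rest : List G), ev F (npRel u ms rest) = 0

section

variable {G : Type u} [Group G] {M : Type v} [AddCommGroup M]

/-- The value of a word, as a function of the rest. -/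
def Wd (F : List G → M) (w : List G) : List G → M := fun rest => F (w ++ rest)

/-- The bracket with `x^g`. -/
def Br (g : G) : (List G → M) →+ (List G → M) where
  toFun f := fun rest => f (g :: rest)
  map_zero' := rfl
  map_add' _ _ := rfl

/-- The bracket with the commutator `[l₀, …, lₛ]`; the argument is the reversed list. -/
def adR : List G → ((List G → M) →+ (List G → M))
  | [] => 0
  | [a] => Br a
  | n :: m :: l => (Br n).comp (adR (m :: l)) - (adR (m :: l)).comp (Br n)

/-- The multilinear part of `f (h (1 + ws₁) ⋯ (1 + ws_q))^j`, all `h` moved to the left. -/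
def mo (h : G) : ℕ → ℕ → List (List G) → (List G → M) → (List G → M)
  | _, 0, [], f => f
  | _, 0, _ :: _, _ => 0
  | s, j + 1, ws, f => ((splits ws).map fun p =>
      comp (p.2.map fun w => adR (w.map (· * h ^ s))) (mo h (s + 1) j p.1 f)).sum

/-- The sum of the brackets with the letters of a list. -/
def sumBr (ms : List G) (f : List G → M) : List G → M := (ms.map fun m => Br m f).sum

/-- What the checker uses for `p = 3` (and `5`). -/
structure Sys3 (F : List G → M) : Prop where
  lie : ∀ l : List G, l ≠ [] → ∀ z : G, Br z (Wd F l) + adR l.reverse (Wd F [z]) = 0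
  pq : ∀ (h u : G) (ws : List (List G)), (∀ w ∈ ws, w ≠ []) →
    mo h 0 4 ws (Wd F [u * h ^ 4]) - 4 • mo h 0 3 ws (Wd F [u * h ^ 3]) +
      6 • mo h 0 2 ws (Wd F [u * h ^ 2]) - 4 • mo h 0 1 ws (Wd F [u * h]) +
      mo h 0 0 ws (Wd F [u]) = 0
  np : ∀ (u : G) (ms : List G), sumBr ms (sumBr ms (sumBr ms (sumBr ms (Wd F [u])))) = 0
  per : ∀ (pre : List G) (u h : G), Wd F (pre ++ [u * h ^ 4]) - 4 • Wd F (pre ++ [u * h ^ 3]) +
    6 • Wd F (pre ++ [u * h ^ 2]) - 4 • Wd F (pre ++ [u * h]) + Wd F (pre ++ [u]) = 0

/-- What the checker uses for `p = 2`. -/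
structure Sys2 (F : List G → M) : Prop where
  lie : ∀ l : List G, l ≠ [] → ∀ z : G, Br z (Wd F l) + adR l.reverse (Wd F [z]) = 0
  cr : ∀ (h : G) (w : List G) (vs : List G), w ≠ [] →
    mo h 0 3 (vs.map fun v => [v]) (Wd F (w.map (· * h ^ 3))) +
      mo h 0 2 (vs.map fun v => [v]) (Wd F (w.map (· * h ^ 2))) +
      mo h 0 1 (vs.map fun v => [v]) (Wd F (w.map (· * h))) +
      mo h 0 0 (vs.map fun v => [v]) (Wd F w) = 0
  np : ∀ (u : G) (ms : List G), sumBr ms (sumBr ms (sumBr ms (sumBr ms (Wd F [u])))) = 0
  per : ∀ (pre : List G) (u h : G), Wd F (pre ++ [u * h ^ 3]) + Wd F (pre ++ [u * h ^ 2]) +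
    Wd F (pre ++ [u * h]) + Wd F (pre ++ [u]) = 0

end

/-- BLOCK A. -/
def Stmt_A : Prop := ∀ {G : Type u} [Group G] {M : Type v} [AddCommGroup M] (F : List G → M),
  RS F → Sys3 F

/-- BLOCK B: followed by at least one letter, modulo 2. -/
def Stmt_B : Prop := ∀ {G : Type u} [Group G] {M : Type v} [AddCommGroup M] (F : List G → M),
  RS F → (∀ m : M, 2 • m = 0) → ∀ (d : G) (t : List G), Sys2 (fun w => F (w ++ d :: t))

/-- The statement at the prime `p`. -/
def Stmt_P (p k : ℕ) : Prop := ∀ {G : Type u} [Group G] {M : Type u} [AddCommGroup M]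
  (F : List G → M), RS F → (∀ m : M, p • m = 0) → ∀ w : List G, k ≤ w.length → F w = 0

/-- BLOCK C: the assembly (`class_bound` of `helper73/Prod.lean`, with the values modulo `p`,
`F w = val hc x w []` in `Last / p Last`). -/
def Stmt_C : Prop := Stmt_P.{u} 2 7 → Stmt_P.{u} 3 7 → Stmt_P.{u} 5 7 →
  ∀ {G : Type u} [Group G] {x : G}, IsRightEngel 4 x →
    Group.IsNilpotent (Subgroup.normalClosure {x}) →
    Group.nilpotencyClass (Subgroup.normalClosure {x}) ≤ 6

end Pool.Agent.Work.MP_d7201b_al.L3
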