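import Pool.Agent.Work.MP_d7201b_al_helper73.Chk

/-!
# Semantics of packed vectors
-/

set_option autoImplicit false
set_option linter.unusedSectionVars false

namespace Pool.Agent.Work.MP_d7201b_al.L3

universe w

theorem nforce_eq {α : Type} (x : ℕ) (f : ℕ → α) : nforce x f = f x := by
  cases x <;> rfl

/-- Sum over the bits. -/
def bsum {W : Type w} [AddCommGroup W] (n : ℕ) (g : ℕ → W) : W :=
  ∑ i ∈ Finset.range n.size, if n.testBit i then g i else 0

section

variable {W : Type w} [AddCommGroup W]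

theorem bsum_eq {n N : ℕ} (h : n < 2 ^ N) (g : ℕ → W) :
    bsum n g = ∑ i ∈ Finset.range N, if n.testBit i then g i else 0 := by
  have h1 : n.size ≤ N := Nat.size_le.2 h
  unfold bsum
  rw [← Finset.sum_subset (Finset.range_mono h1)]
  intro i _ hi
  rw [Finset.mem_range, not_lt] at hi
  have : n.testBit i = false := by
    apply Nat.testBit_lt_two_pow
    exact lt_of_lt_of_le (Nat.lt_size_self n) (Nat.pow_le_pow_right (by norm_num) hi)
  simp [this]

@[simp] theorem bsum_zero (g : ℕ → W) : bsum 0 g = 0 := by simp [bsum]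

theorem bsum_map {W' : Type*} [AddCommGroup W'] (f : W →+ W') (n : ℕ) (g : ℕ → W) :
    bsum n (fun i => f (g i)) = f (bsum n g) := by
  unfold bsum
  rw [map_sum]
  refine Finset.sum_congr rfl fun i _ => ?_
  split_ifs <;> simp

theorem bsum_congr {n : ℕ} {g g' : ℕ → W} (h : ∀ i, n.testBit i = true → g i = g' i) :
    bsum n g = bsum n g' := by
  unfold bsum
  refine Finset.sum_congr rfl fun i _ => ?_
  split_ifs with h1
  · exact h i h1
  · rfl

theorem exists_lt_pow (l : List ℕ) : ∃ N, ∀ n ∈ l, n < 2 ^ N := by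
  induction l with
  | nil => exact ⟨0, by simp⟩
  | cons a l ih =>
    obtain ⟨N, hN⟩ := ih
    refine ⟨max N a.size, fun n hn => ?_⟩
    rcases List.mem_cons.1 hn with rfl | h
    · exact lt_of_lt_of_le (Nat.lt_size_self n) (Nat.pow_le_pow_right (by norm_num) (le_max_right _ _))
    · exact lt_of_lt_of_le (hN n h) (Nat.pow_le_pow_right (by norm_num) (le_max_left _ _))

theorem bsum_xor (h2 : ∀ w : W, 2 • w = 0) (m n : ℕ) (g : ℕ → W) :
    bsum (Nat.xor m n) g = bsum m g + bsum n g := by
  obtain ⟨N, hN⟩ := exists_lt_pow [m, n, Nat.xor m n]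
  rw [bsum_eq (hN m (by simp)), bsum_eq (hN n (by simp)), bsum_eq (hN (Nat.xor m n) (by simp)),
    ← Finset.sum_add_distrib]
  refine Finset.sum_congr rfl fun i _ => ?_
  have e : (Nat.xor m n).testBit i = (m.testBit i ^^ n.testBit i) := Nat.testBit_xor m n i
  rw [e]
  have := h2 (g i)
  rw [two_smul] at this
  cases m.testBit i <;> cases n.testBit i <;> simp [this]

theorem testBit_one_shl (l i : ℕ) : (Nat.shiftLeft 1 l).testBit i = decide (i = l) := by
  have : Nat.shiftLeft 1 l = 2 ^ l := by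
    show 1 <<< l = _
    rw [Nat.shiftLeft_eq, one_mul]
  rw [this, Nat.testBit_two_pow]
  simp [eq_comm]

theorem bsum_unit (l : ℕ) (g : ℕ → W) : bsum (Nat.shiftLeft 1 l) g = g l := by
  have hlt : Nat.shiftLeft 1 l < 2 ^ (l + 1) := by
    show 1 <<< l < _
    rw [Nat.shiftLeft_eq, one_mul]
    exact Nat.pow_lt_pow_right (by norm_num) (by omega)
  rw [bsum_eq hlt]
  simp only [testBit_one_shl, decide_eq_true_eq]
  rw [Finset.sum_ite_eq']
  simp

theorem bsum_shl (n k : ℕ) (g : ℕ → W) :
    bsum (Nat.shiftLeft n k) g = bsum n (fun i => g (k + i)) := by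
  have hn : n < 2 ^ n.size := Nat.lt_size_self n
  have hlt : Nat.shiftLeft n k < 2 ^ (k + n.size) := by
    show n <<< k < _
    rw [Nat.shiftLeft_eq, pow_add, mul_comm]
    exact Nat.mul_lt_mul_of_pos_left hn (by positivity)
  rw [bsum_eq hlt, Finset.sum_range_add]
  have h0 : ∑ i ∈ Finset.range k, (if (Nat.shiftLeft n k).testBit i then g i else 0) = 0 := by
    refine Finset.sum_eq_zero fun i hi => ?_
    rw [Finset.mem_range] at hi
    have : (Nat.shiftLeft n k).testBit i = false := by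
      show (n <<< k).testBit i = false
      rw [Nat.testBit_shiftLeft]
      simp [show ¬ k ≤ i by omega]
    rw [this]
    simp
  rw [h0, zero_add]
  unfold bsum
  refine Finset.sum_congr rfl fun i _ => ?_
  have : (Nat.shiftLeft n k).testBit (k + i) = n.testBit i := by
    show (n <<< k).testBit (k + i) = _
    rw [Nat.testBit_shiftLeft]
    simp
  rw [this]

theorem bsum_mask (n k : ℕ) (g : ℕ → W) :
    bsum (Nat.mod n (Nat.pow 2 k)) g = bsum n (fun i => if i < k then g i else 0) := by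
  obtain ⟨N, hN⟩ := exists_lt_pow [n, Nat.mod n (Nat.pow 2 k)]
  rw [bsum_eq (hN n (by simp)), bsum_eq (hN _ (by simp))]
  refine Finset.sum_congr rfl fun i _ => ?_
  have e : (Nat.mod n (Nat.pow 2 k)).testBit i = (decide (i < k) && n.testBit i) :=
    Nat.testBit_mod_two_pow n k i
  rw [e]
  by_cases h : i < k <;> simp [h]

theorem log2_two_mul_add_one {x : ℕ} (hx : x ≠ 0) : Nat.log2 (2 * x + 1) = Nat.log2 x + 1 := by
  rw [Nat.log2_eq_iff (by omega)]
  have h1 : 2 ^ Nat.log2 x ≤ x := Nat.log2_self_le hx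
  have h2 : x < 2 ^ (Nat.log2 x + 1) := Nat.lt_log2_self
  constructor
  · rw [pow_succ]; omega
  · rw [pow_succ 2 (Nat.log2 x + 1)]; omega

theorem low_spec (v : ℕ) : v ≠ 0 → v.testBit (Nat.log2 (v ^^^ (v - 1))) = true ∧
    ∀ i, i < Nat.log2 (v ^^^ (v - 1)) → v.testBit i = false := by
  induction v using Nat.strong_induction_on with
  | _ v ih =>
    intro hv
    rcases Nat.even_or_odd' v with ⟨u, hu | hu⟩
    · have hu0 : u ≠ 0 := by omega
      have e : v ^^^ (v - 1) = 2 * (u ^^^ (u - 1)) + 1 := by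
        apply Nat.eq_of_testBit_eq
        intro i
        rw [hu, show 2 * u - 1 = 2 * (u - 1) + 1 by omega, Nat.testBit_xor]
        cases i with
        | zero => simp
        | succ i =>
          rw [Nat.testBit_succ, Nat.testBit_succ, Nat.testBit_succ,
            show 2 * u / 2 = u by omega, show (2 * (u - 1) + 1) / 2 = u - 1 by omega,
            show (2 * (u ^^^ (u - 1)) + 1) / 2 = u ^^^ (u - 1) by omega, Nat.testBit_xor]
      have hx : u ^^^ (u - 1) ≠ 0 := by
        intro h
        rw [Nat.xor_eq_zero_iff] at h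
        omega
      rw [e, log2_two_mul_add_one hx]
      obtain ⟨h1, h2⟩ := ih u (by omega) hu0
      have ht : ∀ i, v.testBit (i + 1) = u.testBit i := by
        intro i
        rw [hu, Nat.testBit_succ, show 2 * u / 2 = u by omega]
      refine ⟨by rw [ht]; exact h1, fun i hi => ?_⟩
      cases i with
      | zero => rw [hu]; simp
      | succ i => rw [ht]; exact h2 i (by omega)
    · have e : v ^^^ (v - 1) = 1 := by
        apply Nat.eq_of_testBit_eq
        intro i
        rw [hu, show 2 * u + 1 - 1 = 2 * u by omega, Nat.testBit_xor]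
        cases i with
        | zero => simp
        | succ i =>
          rw [Nat.testBit_succ, Nat.testBit_succ, Nat.testBit_succ,
            show 2 * u / 2 = u by omega, show (2 * u + 1) / 2 = u by omega]
          simp
      rw [e, show Nat.log2 1 = 0 from by decide]
      refine ⟨by rw [hu]; simp, fun i hi => absurd hi (by omega)⟩

/-- Removing the lowest bit. -/
theorem bsum_low (v' : ℕ) (g : ℕ → W) :
    bsum (v' + 1) g = g (Nat.log2 (Nat.xor (Nat.succ v') v')) +
      bsum (Nat.shiftRight (Nat.succ v') (Nat.succ (Nat.log2 (Nat.xor (Nat.succ v') v'))))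
        (fun i => g (Nat.succ (Nat.log2 (Nat.xor (Nat.succ v') v')) + i)) := by
  obtain ⟨h1, h2⟩ := low_spec (v' + 1) (Nat.succ_ne_zero v')
  rw [Nat.add_sub_cancel] at h1 h2
  have e : Nat.log2 (Nat.xor (Nat.succ v') v') = Nat.log2 ((v' + 1) ^^^ v') := rfl
  rw [e]
  generalize Nat.log2 ((v' + 1) ^^^ v') = l at h1 h2
  have hlt : v' + 1 < 2 ^ (v' + 1).size := Nat.lt_size_self _
  have hl : l < (v' + 1).size := by
    by_contra hc
    have : (v' + 1).testBit l = false := Nat.testBit_lt_two_pow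
      (lt_of_lt_of_le hlt (Nat.pow_le_pow_right (by norm_num) (not_lt.1 hc)))
    rw [this] at h1
    exact absurd h1 (by simp)
  obtain ⟨m, hm⟩ : ∃ m, (v' + 1).size = l + 1 + m := ⟨_, (Nat.add_sub_of_le hl).symm⟩
  have hlt' : v' + 1 < 2 ^ (l + 1 + m) := by rw [← hm]; exact hlt
  have hlt2 : Nat.shiftRight (Nat.succ v') (Nat.succ l) < 2 ^ m := by
    show (v' + 1) >>> (l + 1) < 2 ^ m
    rw [Nat.shiftRight_eq_div_pow, Nat.div_lt_iff_lt_mul (by positivity), ← pow_add]
    rw [add_comm m]
    exact hlt'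
  rw [bsum_eq hlt', bsum_eq hlt2, Finset.sum_range_add, Finset.sum_range_succ, h1, if_pos rfl]
  have h0 : ∑ i ∈ Finset.range l, (if (v' + 1).testBit i = true then g i else 0) = 0 := by
    refine Finset.sum_eq_zero fun i hi => ?_
    rw [h2 i (Finset.mem_range.1 hi)]
    simp
  rw [h0, zero_add]
  congr 1
  refine Finset.sum_congr rfl fun i _ => ?_
  have : (Nat.shiftRight (Nat.succ v') (Nat.succ l)).testBit i = (v' + 1).testBit (l + 1 + i) :=
    Nat.testBit_shiftRight (v' + 1)
  rw [this]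

theorem shr_lt {v f l : ℕ} (hv : v < 2 ^ (f + 1)) : Nat.shiftRight v (Nat.succ l) < 2 ^ f := by
  show v >>> (l + 1) < 2 ^ f
  rw [Nat.shiftRight_eq_div_pow, Nat.div_lt_iff_lt_mul (by positivity), ← pow_add]
  exact lt_of_lt_of_le hv (Nat.pow_le_pow_right (by norm_num) (by omega))

end

/-! ## The laws -/

/-- The laws of packed vectors. -/
class VSem (p : ℕ) (V : Type) [VOps V] where
  ok : V → Prop
  sem : {W : Type w} → [AddCommGroup W] → V → (ℕ → W) → W
  ok_okb : ∀ v : V, VOps.okb v = true → ok v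
  force_eq : ∀ {α : Type} (v : V) (f : V → α), VOps.force v f = f v
  beq_eq : ∀ u v : V, VOps.beq u v = true → u = v
  ok_zero : ok (VOps.zero : V)
  sem_zero : ∀ {W : Type w} [AddCommGroup W] (g : ℕ → W), sem (VOps.zero : V) g = 0
  ok_add : ∀ {u v : V}, ok u → ok v → ok (VOps.add u v)
  sem_add : ∀ {W : Type w} [AddCommGroup W] (_ : ∀ w : W, p • w = 0) {u v : V} (_ : ok u)
    (_ : ok v) (g : ℕ → W), sem (VOps.add u v) g = sem u g + sem v g
  ok_neg : ∀ {v : V}, ok v → ok (VOps.neg v)
  sem_neg : ∀ {W : Type w} [AddCommGroup W] (_ : ∀ w : W, p • w = 0) (v : V)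
    (g : ℕ → W), sem (VOps.neg v) g = - sem v g
  ok_shl : ∀ {v : V}, ok v → ∀ k, ok (VOps.shl v k)
  sem_shl : ∀ {W : Type w} [AddCommGroup W] (v : V) (k : ℕ) (g : ℕ → W),
    sem (VOps.shl v k) g = sem v (fun i => g (k + i))
  ok_mask : ∀ {v : V}, ok v → ∀ k, ok (VOps.mask v k)
  sem_mask : ∀ {W : Type w} [AddCommGroup W] (v : V) (k : ℕ) (g : ℕ → W),
    sem (VOps.mask v k) g = sem v (fun i => if i < k then g i else 0)
  ok_fetch : ∀ {v : V}, ok v → ∀ B k, ok (fetch v B k)
  fetch_out : ∀ {W : Type w} [AddCommGroup W] {M : V} {n : ℕ} (_ : VOps.mask M n = M) (B k : ℕ)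
    (_ : n ≤ k * B) (g : ℕ → W), sem (fetch M B k) g = 0
  ok_unit : ∀ k, ok (VOps.unit k : V)
  sem_unit : ∀ {W : Type w} [AddCommGroup W] (k : ℕ) (g : ℕ → W), sem (VOps.unit k : V) g = g k
  ok_app : ∀ {rows : ℕ → V} (_ : ∀ i, ok (rows i)) (v : V) {acc : V} (_ : ok acc),
    ok (VOps.app rows v acc)
  sem_app : ∀ {W : Type w} [AddCommGroup W] (_ : ∀ w : W, p • w = 0) {rows : ℕ → V}
    (_ : ∀ i, ok (rows i)) (v : V) {acc : V} (_ : ok acc) (g : ℕ → W),
    sem (VOps.app rows v acc) g = sem v (fun i => sem (rows i) g) + sem acc g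
  sem_map : ∀ {W W' : Type w} [AddCommGroup W] [AddCommGroup W'] (f : W →+ W') (v : V)
    (g : ℕ → W), sem v (fun i => f (g i)) = f (sem v g)

theorem testBit_shr (n k i : ℕ) : (Nat.shiftRight n k).testBit i = n.testBit (k + i) :=
  Nat.testBit_shiftRight n

theorem app2_spec {W : Type w} [AddCommGroup W] (h2 : ∀ w : W, 2 • w = 0) (rows : ℕ → ℕ)
    (g : ℕ → W) : ∀ (fuel off v acc : ℕ), v < 2 ^ fuel →
      bsum (app2 rows fuel off v acc) g =
        bsum v (fun i => bsum (rows (off + i)) g) + bsum acc g := by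
  intro fuel
  induction fuel with
  | zero =>
    intro off v acc hv
    have : v = 0 := by simpa using hv
    subst this
    show bsum acc g = _
    simp
  | succ f ih =>
    intro off v acc hv
    cases v with
    | zero =>
      show bsum acc g = _
      simp
    | succ v' =>
      have e : app2 rows (f + 1) off (v' + 1) acc =
          app2 rows f (Nat.succ (off + Nat.log2 (Nat.xor (Nat.succ v') v')))
          (Nat.shiftRight (Nat.succ v') (Nat.succ (Nat.log2 (Nat.xor (Nat.succ v') v'))))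
          (Nat.xor acc (rows (off + Nat.log2 (Nat.xor (Nat.succ v') v')))) := by
        show nforce (Nat.log2 (Nat.xor (Nat.succ v') v')) (fun l =>
          nforce (Nat.add off l) fun i => nforce (Nat.xor acc (rows i)) fun acc' =>
            app2 rows f (Nat.succ i) (Nat.shiftRight (Nat.succ v') (Nat.succ l)) acc') = _
        rw [nforce_eq, nforce_eq, nforce_eq]
        rfl
      rw [e, ih _ _ _ (shr_lt hv), bsum_xor h2 acc (rows _) g, bsum_low v']
      generalize Nat.log2 (Nat.xor (Nat.succ v') v') = l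
      have e2 : ∀ i, Nat.succ (off + l) + i = off + (Nat.succ l + i) := by
        intro i
        omega
      simp only [e2]
      abel

theorem fetch2_out {W : Type w} [AddCommGroup W] {M n : ℕ} (h : Nat.mod M (Nat.pow 2 n) = M)
    (B k : ℕ) (hk : n ≤ k * B) (g : ℕ → W) :
    bsum (Nat.mod (Nat.shiftRight M (Nat.mul k B)) (Nat.pow 2 B)) g = 0 := by
  have h1 : M < 2 ^ n := by
    rw [← h]; exact Nat.mod_lt _ (Nat.two_pow_pos n)
  have h2 : Nat.shiftRight M (Nat.mul k B) = 0 := by
    show M >>> (k * B) = 0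
    rw [Nat.shiftRight_eq_div_pow]
    exact Nat.div_eq_of_lt (lt_of_lt_of_le h1 (Nat.pow_le_pow_right (by norm_num) hk))
  rw [h2]
  have : Nat.mod 0 (Nat.pow 2 B) = 0 := Nat.zero_mod _
  rw [this, bsum_zero]

instance : VSem.{w} 2 ℕ where
  ok _ := True
  sem v g := bsum v g
  ok_okb _ _ := trivial
  force_eq v f := nforce_eq v f
  beq_eq u v h := Nat.eq_of_beq_eq_true h
  ok_zero := trivial
  sem_zero g := bsum_zero g
  ok_add _ _ := trivial
  sem_add h2 u v _ _ g := bsum_xor h2 u v g
  ok_neg _ := trivial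
  sem_neg h2 v g := by
    show bsum v g = - bsum v g
    have := h2 (bsum v g)
    rw [two_smul] at this
    exact eq_neg_of_add_eq_zero_left this
  ok_shl _ _ := trivial
  sem_shl v k g := bsum_shl v k g
  ok_mask _ _ := trivial
  sem_mask v k g := bsum_mask v k g
  ok_fetch _ _ _ := trivial
  fetch_out h B k hk g := fetch2_out h B k hk g
  ok_unit _ := trivial
  sem_unit k g := bsum_unit k g
  ok_app _ _ _ _ := trivial
  sem_app h2 rows _ v acc _ g := by
    have := app2_spec h2 rows g (Nat.succ (Nat.log2 v)) 0 v acc Nat.lt_log2_self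
    simp only [zero_add] at this
    exact this
  sem_map f v g := bsum_map f v g

/-! ## Modulo 3 -/

/-- The two bit sets are disjoint. -/
def V3.ok (x : V3) : Prop := ∀ i, ¬ (x.a.testBit i = true ∧ x.b.testBit i = true)

theorem V3.ok_iff (x : V3) : x.ok ↔ Nat.land x.a x.b = 0 := by
  constructor
  · intro h
    apply Nat.eq_of_testBit_eq
    intro i
    have e : (Nat.land x.a x.b).testBit i = (x.a.testBit i && x.b.testBit i) :=
      Nat.testBit_and x.a x.b i
    rw [e, Nat.zero_testBit]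
    have := h i
    cases h1 : x.a.testBit i <;> cases h2 : x.b.testBit i <;> simp_all
  · intro h i hi
    have e : (Nat.land x.a x.b).testBit i = (x.a.testBit i && x.b.testBit i) :=
      Nat.testBit_and x.a x.b i
    rw [h, Nat.zero_testBit, hi.1, hi.2] at e
    simp at e

theorem V3.add_eq (x y : V3) : V3.add x y =
    ⟨Nat.xor (Nat.lor x.b y.b) (Nat.xor (Nat.lor x.a y.b) (Nat.lor x.b y.a)),
      Nat.xor (Nat.lor x.a y.a) (Nat.xor (Nat.lor x.a y.b) (Nat.lor x.b y.a))⟩ := by
  unfold V3.add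
  rw [nforce_eq]

theorem V3.add_a (x y : V3) (i : ℕ) : (V3.add x y).a.testBit i =
    ((x.b.testBit i || y.b.testBit i) ^^ ((x.a.testBit i || y.b.testBit i) ^^
      (x.b.testBit i || y.a.testBit i))) := by
  rw [V3.add_eq]
  show ((x.b ||| y.b) ^^^ ((x.a ||| y.b) ^^^ (x.b ||| y.a))).testBit i = _
  simp only [Nat.testBit_xor, Nat.testBit_or]

theorem V3.add_b (x y : V3) (i : ℕ) : (V3.add x y).b.testBit i =
    ((x.a.testBit i || y.a.testBit i) ^^ ((x.a.testBit i || y.b.testBit i) ^^
      (x.b.testBit i || y.a.testBit i))) := by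
  rw [V3.add_eq]
  show ((x.a ||| y.a) ^^^ ((x.a ||| y.b) ^^^ (x.b ||| y.a))).testBit i = _
  simp only [Nat.testBit_xor, Nat.testBit_or]

theorem V3.ok_add' {x y : V3} (hx : x.ok) (hy : y.ok) : (V3.add x y).ok := by
  intro i
  rw [V3.add_a, V3.add_b]
  have h1 := hx i
  have h2 := hy i
  revert h1 h2
  cases x.a.testBit i <;> cases x.b.testBit i <;> cases y.a.testBit i <;>
    cases y.b.testBit i <;> decide

/-- The value. -/
def V3.sm {W : Type w} [AddCommGroup W] (x : V3) (g : ℕ → W) : W := bsum x.a g - bsum x.b g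

theorem V3.sm_add {W : Type w} [AddCommGroup W] (h3 : ∀ w : W, 3 • w = 0) {x y : V3}
    (hx : x.ok) (hy : y.ok) (g : ℕ → W) : (V3.add x y).sm g = x.sm g + y.sm g := by
  obtain ⟨N, hN⟩ := exists_lt_pow [x.a, x.b, y.a, y.b, (V3.add x y).a, (V3.add x y).b]
  unfold V3.sm
  rw [bsum_eq (hN x.a (by simp)), bsum_eq (hN x.b (by simp)), bsum_eq (hN y.a (by simp)),
    bsum_eq (hN y.b (by simp)), bsum_eq (hN (V3.add x y).a (by simp)),
    bsum_eq (hN (V3.add x y).b (by simp)), ← Finset.sum_sub_distrib, ← Finset.sum_sub_distrib,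
    ← Finset.sum_sub_distrib, ← Finset.sum_add_distrib]
  refine Finset.sum_congr rfl fun i _ => ?_
  rw [V3.add_a, V3.add_b]
  have h1 := hx i
  have h2 := hy i
  have h := h3 (g i)
  rw [succ_nsmul, two_nsmul] at h
  have h' : g i + g i = - g i := by rw [← sub_eq_zero, sub_neg_eq_add]; exact h
  revert h1 h2
  cases x.a.testBit i <;> cases x.b.testBit i <;> cases y.a.testBit i <;>
    cases y.b.testBit i <;> simp
  · rw [← sub_eq_add_neg, ← neg_add', h', neg_neg]
  · exact h'.symm

theorem V3.force_eq {α : Type} (x : V3) (f : V3 → α) : V3.force x f = f x := by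
  cases x with
  | mk a b =>
    show nforce a (fun a => nforce b fun b => f ⟨a, b⟩) = _
    rw [nforce_eq, nforce_eq]

theorem V3.ok_zero' : V3.ok ⟨0, 0⟩ := by
  intro i
  simp

theorem app3_succ (rows : ℕ → V3) (f off v' : ℕ) (acc : V3) :
    app3 rows (f + 1) off (v' + 1) acc =
      app3 rows f (Nat.succ (off + Nat.log2 (Nat.xor (Nat.succ v') v')))
      (Nat.shiftRight (Nat.succ v') (Nat.succ (Nat.log2 (Nat.xor (Nat.succ v') v'))))
      (V3.add acc (rows (off + Nat.log2 (Nat.xor (Nat.succ v') v')))) := by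
  show nforce (Nat.log2 (Nat.xor (Nat.succ v') v')) (fun l =>
    nforce (Nat.add off l) fun i => V3.force (rows i) fun r =>
      V3.force (V3.add acc r) fun acc' =>
      app3 rows f (Nat.succ i) (Nat.shiftRight (Nat.succ v') (Nat.succ l)) acc') = _
  rw [nforce_eq, nforce_eq, V3.force_eq, V3.force_eq]
  rfl

theorem app3_spec {W : Type w} [AddCommGroup W] (h3 : ∀ w : W, 3 • w = 0) (rows : ℕ → V3)
    (hr : ∀ i, (rows i).ok) (g : ℕ → W) : ∀ (fuel off v : ℕ) (acc : V3), acc.ok →
      v < 2 ^ fuel → (app3 rows fuel off v acc).ok ∧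
      (app3 rows fuel off v acc).sm g = bsum v (fun i => (rows (off + i)).sm g) + acc.sm g := by
  intro fuel
  induction fuel with
  | zero =>
    intro off v acc ha hv
    have : v = 0 := by simpa using hv
    subst this
    refine ⟨ha, ?_⟩
    show acc.sm g = _
    simp
  | succ f ih =>
    intro off v acc ha hv
    cases v with
    | zero =>
      refine ⟨ha, ?_⟩
      show acc.sm g = _
      simp
    | succ v' =>
      rw [app3_succ]
      obtain ⟨i1, i2⟩ := ih (Nat.succ (off + Nat.log2 (Nat.xor (Nat.succ v') v')))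
        (Nat.shiftRight (Nat.succ v') (Nat.succ (Nat.log2 (Nat.xor (Nat.succ v') v'))))
        (V3.add acc (rows (off + Nat.log2 (Nat.xor (Nat.succ v') v'))))
        (V3.ok_add' ha (hr _)) (shr_lt hv)
      refine ⟨i1, ?_⟩
      rw [i2, V3.sm_add h3 ha (hr _), bsum_low v']
      generalize Nat.log2 (Nat.xor (Nat.succ v') v') = l
      have e2 : ∀ i, Nat.succ (off + l) + i = off + (Nat.succ l + i) := by
        intro i
        omega
      simp only [e2]
      abel

theorem app3_ok (rows : ℕ → V3) (hr : ∀ i, (rows i).ok) : ∀ (fuel off v : ℕ) (acc : V3),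
      acc.ok → (app3 rows fuel off v acc).ok := by
  intro fuel
  induction fuel with
  | zero => intro off v acc ha; exact ha
  | succ f ih =>
    intro off v acc ha
    cases v with
    | zero => exact ha
    | succ v' =>
      rw [app3_succ]
      exact ih _ _ _ (V3.ok_add' ha (hr _))

/-- The negative. -/
def V3.ng (x : V3) : V3 := ⟨x.b, x.a⟩

theorem V3.ok_ng {x : V3} (hx : x.ok) : x.ng.ok := fun i h => hx i ⟨h.2, h.1⟩

theorem V3.sm_ng {W : Type w} [AddCommGroup W] (x : V3) (g : ℕ → W) :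
    x.ng.sm g = - x.sm g := by
  unfold V3.ng V3.sm
  simp

theorem V3.app_eq (rows : ℕ → V3) (v acc : V3) : VOps.app rows v acc =
    app3 (fun i => (rows i).ng) (Nat.succ (Nat.log2 v.b)) 0 v.b
      (app3 rows (Nat.succ (Nat.log2 v.a)) 0 v.a acc) := by
  show V3.force v (fun v => V3.force (app3 rows (Nat.succ (Nat.log2 v.a)) 0 v.a acc) fun acc' =>
      app3 (fun i => ⟨(rows i).b, (rows i).a⟩) (Nat.succ (Nat.log2 v.b)) 0 v.b acc') = _
  rw [V3.force_eq, V3.force_eq]
  rfl

theorem V3.mask_eq (x : V3) (n : ℕ) : VOps.mask x n =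
    (⟨Nat.mod x.a (Nat.pow 2 n), Nat.mod x.b (Nat.pow 2 n)⟩ : V3) := by
  show nforce (Nat.pow 2 n) (fun m => (⟨Nat.mod x.a m, Nat.mod x.b m⟩ : V3)) = _
  rw [nforce_eq]

theorem V3.ok_mask' {x : V3} (hx : x.ok) (n : ℕ) : V3.ok (VOps.mask x n) := by
  intro i h
  rw [V3.mask_eq] at h
  have e1 : (Nat.mod x.a (Nat.pow 2 n)).testBit i = (decide (i < n) && x.a.testBit i) :=
    Nat.testBit_mod_two_pow x.a n i
  have e2 : (Nat.mod x.b (Nat.pow 2 n)).testBit i = (decide (i < n) && x.b.testBit i) :=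
    Nat.testBit_mod_two_pow x.b n i
  simp only at h
  rw [e1, e2, Bool.and_eq_true, Bool.and_eq_true] at h
  exact hx i ⟨h.1.2, h.2.2⟩

theorem V3.ok_shr {x : V3} (hx : x.ok) (n : ℕ) : V3.ok (VOps.shr x n) := by
  intro i h
  have h' : (Nat.shiftRight x.a n).testBit i = true ∧ (Nat.shiftRight x.b n).testBit i = true := h
  rw [testBit_shr, testBit_shr] at h'
  exact hx _ h'

instance : VSem.{w} 3 V3 where
  ok x := x.ok
  sem v g := v.sm g
  ok_okb v h := (V3.ok_iff v).2 (Nat.eq_of_beq_eq_true h)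
  force_eq v f := V3.force_eq v f
  beq_eq u v h := by
    have h' : (Nat.beq u.a v.a && Nat.beq u.b v.b) = true := h
    rw [Bool.and_eq_true] at h'
    cases u
    cases v
    have h1 := Nat.eq_of_beq_eq_true h'.1
    have h2 := Nat.eq_of_beq_eq_true h'.2
    simp only at h1 h2
    subst h1 h2
    rfl
  ok_zero := V3.ok_zero'
  sem_zero g := by
    show V3.sm ⟨0, 0⟩ g = 0
    simp [V3.sm]
  ok_add h1 h2 := V3.ok_add' h1 h2
  sem_add h3 u v h1 h2 g := V3.sm_add h3 h1 h2 g
  ok_neg h := V3.ok_ng h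
  sem_neg _ v g := V3.sm_ng v g
  ok_shl := by
    intro v hv k i h
    have h' : (Nat.shiftLeft v.a k).testBit i = true ∧ (Nat.shiftLeft v.b k).testBit i = true := h
    have e1 : (Nat.shiftLeft v.a k).testBit i = (decide (i ≥ k) && v.a.testBit (i - k)) := by
      show (v.a <<< k).testBit i = _
      rw [Nat.testBit_shiftLeft]
    have e2 : (Nat.shiftLeft v.b k).testBit i = (decide (i ≥ k) && v.b.testBit (i - k)) := by
      show (v.b <<< k).testBit i = _
      rw [Nat.testBit_shiftLeft]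
    rw [e1, e2, Bool.and_eq_true, Bool.and_eq_true] at h'
    exact hv _ ⟨h'.1.2, h'.2.2⟩
  sem_shl v k g := by
    show bsum (Nat.shiftLeft v.a k) g - bsum (Nat.shiftLeft v.b k) g = _
    rw [bsum_shl, bsum_shl]
    rfl
  ok_mask h k := V3.ok_mask' h k
  sem_mask v k g := by
    rw [V3.mask_eq]
    show bsum _ g - bsum _ g = _
    rw [bsum_mask, bsum_mask]
    rfl
  ok_fetch h B k := V3.ok_mask' (V3.ok_shr h _) _
  fetch_out h B k hk g := by
    rw [V3.mask_eq] at h
    unfold fetch
    rw [V3.mask_eq]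
    show bsum (Nat.mod (Nat.shiftRight _ (Nat.mul k B)) (Nat.pow 2 B)) g -
      bsum (Nat.mod (Nat.shiftRight _ (Nat.mul k B)) (Nat.pow 2 B)) g = 0
    rw [fetch2_out (congrArg V3.a h) B k hk, fetch2_out (congrArg V3.b h) B k hk, sub_zero]
  ok_unit k := by
    intro i h
    have : (0 : ℕ).testBit i = true := h.2
    simp at this
  sem_unit k g := by
    show bsum (Nat.shiftLeft 1 k) g - bsum 0 g = g k
    rw [bsum_unit, bsum_zero, sub_zero]
  ok_app h v acc ha := by
    rw [V3.app_eq]
    exact app3_ok _ (fun i => V3.ok_ng (h i)) _ _ _ _ (app3_ok _ h _ _ _ _ ha)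
  sem_app := by
    intro W _ h3 rows h v acc ha g
    rw [V3.app_eq]
    show V3.sm _ g = V3.sm v (fun i => (rows i).sm g) + acc.sm g
    obtain ⟨i1, i2⟩ := app3_spec h3 rows h g (Nat.succ (Nat.log2 v.a)) 0 v.a acc ha
      Nat.lt_log2_self
    obtain ⟨_, j2⟩ := app3_spec h3 (fun i => (rows i).ng) (fun i => V3.ok_ng (h i)) g
      (Nat.succ (Nat.log2 v.b)) 0 v.b _ i1 Nat.lt_log2_self
    rw [j2, i2]
    simp only [zero_add]
    unfold V3.sm
    have e : ∀ i, bsum (rows i).ng.a g - bsum (rows i).ng.b g =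
        (-AddMonoidHom.id W) (bsum (rows i).a g - bsum (rows i).b g) := by
      intro i
      have := V3.sm_ng (rows i) g
      unfold V3.sm at this
      rw [this]
      rfl
    simp only [e]
    rw [bsum_map, AddMonoidHom.neg_apply, AddMonoidHom.id_apply]
    abel
  sem_map f v g := by
    show bsum v.a _ - bsum v.b _ = f (bsum v.a g - bsum v.b g)
    rw [bsum_map, bsum_map, map_sub]

end Pool.Agent.Work.MP_d7201b_al.L3
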