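import Pool.Agent.Work.MP_d7201b_al_helper73.Sem

/-!
# Soundness of the evaluation
-/

set_option autoImplicit false
set_option linter.unusedSectionVars false

namespace Pool.Agent.Work.MP_d7201b_al.L3

open L2

universe u

/-! ## Contents -/

/-- Weight. -/
def wt (c : Ct) : ℕ := c.1 + c.2.1 + c.2.2

theorem wt_inc (c : Ct) (t : Cls) : wt (inc c t) = wt c + 1 := by
  cases t <;> simp only [inc, wt] <;> omega

theorem inc_comm (c : Ct) (s t : Cls) : inc (inc c s) t = inc (inc c t) s := by
  cases s <;> cases t <;> rfl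

theorem cont_inc (w : List Lt) : ∀ (c : Ct) (t : Cls), cont (inc c t) w = inc (cont c w) t := by
  induction w with
  | nil => intro c t; rfl
  | cons l w ih =>
    intro c t
    show cont (inc (inc c t) l.1) w = inc (cont (inc c l.1) w) t
    rw [inc_comm, ih]

theorem wt_cont (w : List Lt) : ∀ c : Ct, wt (cont c w) = wt c + w.length := by
  induction w with
  | nil => intro c; rfl
  | cons l w ih =>
    intro c
    show wt (cont (inc c l.1) w) = _
    rw [ih, wt_inc, List.length_cons]
    omega

theorem cont_append (w w' : List Lt) : ∀ c : Ct, cont c (w ++ w') = cont (cont c w) w' := by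
  induction w with
  | nil => intro c; rfl
  | cons l w ih => intro c; exact ih _

theorem cont_comm (w w' : List Lt) (c : Ct) : cont (cont c w) w' = cont (cont c w') w := by
  induction w' generalizing c with
  | nil => rfl
  | cons l w' ih =>
    show cont (inc (cont c w) l.1) w' = cont (cont (inc c l.1) w') w
    rw [← cont_inc, ih]

theorem cont_shw (k : ℕ) (w : List Lt) : ∀ c : Ct, cont c (shw k w) = cont c w := by
  induction w with
  | nil => intro c; rfl
  | cons l w ih => intro c; exact ih _

theorem conts_cont (ws : List (List Lt)) : ∀ (c : Ct) (w : List Lt),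
    conts (cont c w) ws = cont (conts c ws) w := by
  induction ws with
  | nil => intro c w; rfl
  | cons v ws ih =>
    intro c w
    show conts (cont (cont c w) v) ws = cont (conts (cont c v) ws) w
    rw [cont_comm, ih]

theorem conts_splits (ws : List (List Lt)) : ∀ (c : Ct), ∀ p ∈ splits ws,
    conts (conts c p.1) p.2 = conts c ws := by
  induction ws with
  | nil =>
    intro c p hp
    simp only [splits, List.mem_singleton] at hp
    subst hp
    rfl
  | cons w ws ih =>
    intro c p hp
    simp only [splits, List.mem_flatMap, List.mem_cons, List.not_mem_nil, or_false] at hp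
    obtain ⟨q, hq, h⟩ := hp
    rcases h with rfl | rfl
    · exact ih (cont c w) q hq
    · show conts (cont (conts c q.1) w) q.2 = conts (cont c w) ws
      rw [← conts_cont, ih (cont c w) q hq]

theorem mem_splits (ws : List (List Lt)) : ∀ p ∈ splits ws,
    (∀ w ∈ p.1, w ∈ ws) ∧ (∀ w ∈ p.2, w ∈ ws) := by
  induction ws with
  | nil =>
    intro p hp
    simp only [splits, List.mem_singleton] at hp
    subst hp
    simp
  | cons w ws ih =>
    intro p hp
    simp only [splits, List.mem_flatMap, List.mem_cons, List.not_mem_nil, or_false] at hp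
    obtain ⟨q, hq, h⟩ := hp
    obtain ⟨h1, h2⟩ := ih q hq
    rcases h with rfl | rfl
    · refine ⟨fun x hx => ?_, fun x hx => List.mem_cons_of_mem _ (h2 x hx)⟩
      rcases List.mem_cons.1 hx with rfl | hx
      · exact List.mem_cons_self
      · exact List.mem_cons_of_mem _ (h1 x hx)
    · refine ⟨fun x hx => List.mem_cons_of_mem _ (h1 x hx), fun x hx => ?_⟩
      rcases List.mem_cons.1 hx with rfl | hx
      · exact List.mem_cons_self
      · exact List.mem_cons_of_mem _ (h2 x hx)

theorem ceq_iff (c d : Ct) : ceq c d = true ↔ c = d := by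
  obtain ⟨a, b, m⟩ := c
  obtain ⟨a', b', m'⟩ := d
  unfold ceq
  have e : ∀ x y : ℕ, Nat.beq x y = true ↔ x = y := fun x y =>
    ⟨Nat.eq_of_beq_eq_true, fun h => by rw [h]; exact Nat.beq_refl y⟩
  simp only [Bool.and_eq_true, e, Prod.mk.injEq]
  tauto

/-! ## General laws -/

section

variable {V : Type} [VOps V] {p : ℕ} [VSem.{u} p V] {W : Type u} [AddCommGroup W]

theorem sem_add_right (v : V) (g g' : ℕ → W) :
    VSem.sem p v (fun i => g i + g' i) = VSem.sem p v g + VSem.sem p v g' := by
  have h1 := VSem.sem_map (p := p) (AddMonoidHom.fst W W) v (fun i => (g i, g' i))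
  have h2 := VSem.sem_map (p := p) (AddMonoidHom.snd W W) v (fun i => (g i, g' i))
  have h3 := VSem.sem_map (p := p) (AddMonoidHom.fst W W + AddMonoidHom.snd W W) v
    (fun i => (g i, g' i))
  simp only [AddMonoidHom.coe_fst, AddMonoidHom.coe_snd, AddMonoidHom.add_apply] at h1 h2 h3
  rw [h3, ← h1, ← h2]

theorem sem_zero_right (v : V) : VSem.sem p v (fun _ => (0 : W)) = 0 := by
  have := VSem.sem_map (p := p) (0 : W →+ W) v (fun _ => 0)
  simpa using this

/-- `sem` as a homomorphism. -/
def semH (v : V) : (ℕ → W) →+ W where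
  toFun := VSem.sem p v
  map_zero' := sem_zero_right v
  map_add' g g' := sem_add_right v g g'

theorem sem_fubini (v u : V) (g : ℕ → ℕ → W) :
    VSem.sem p v (fun j => VSem.sem p u (g j)) =
      VSem.sem p u (fun i => VSem.sem p v (fun j => g j i)) := by
  have h1 := VSem.sem_map (p := p) (semH (p := p) u) v g
  have h2 : VSem.sem p v g = fun i => VSem.sem p v (fun j => g j i) := by
    funext i
    exact (VSem.sem_map (p := p) (Pi.evalAddMonoidHom (fun _ : ℕ => W) i) v g).symm
  rw [h2] at h1
  exact h1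

end

/-- `c` is a part of `C`. -/
def Sub (C c : Ct) : Prop := ∃ w : List Lt, cont c w = C

theorem Sub.self (C : Ct) : Sub C C := ⟨[], rfl⟩

theorem Sub.of_cont {C c : Ct} (w : List Lt) (h : Sub C (cont c w)) : Sub C c := by
  obtain ⟨w', h⟩ := h
  exact ⟨w ++ w', by rw [cont_append]; exact h⟩

theorem Sub.of_inc {C c : Ct} {t : Cls} (h : Sub C (inc c t)) : Sub C c :=
  Sub.of_cont [(t, 0)] h

theorem Sub.of_conts {C : Ct} (ws : List (List Lt)) : ∀ {c : Ct}, Sub C (conts c ws) → Sub C c := by
  induction ws with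
  | nil => intro c h; exact h
  | cons w ws ih => intro c h; exact Sub.of_cont w (ih h)

theorem Sub.wt {C c : Ct} (h : Sub C c) : wt c ≤ wt C := by
  obtain ⟨w, rfl⟩ := h
  rw [wt_cont]; omega

/-! ## Values -/

section

variable {G : Type u} [Group G] {M : Type u} [AddCommGroup M] (F : List G → M) (σ : G)
  (a : Cls → G)

/-- The group element of a letter. -/
def ph (l : Lt) : G := a l.1 * σ ^ l.2

/-- The value of a word. -/
def Ew (w : List Lt) : List G → M := Wd F (w.map (ph σ a))

/-- The value of the word number `i` of a list. -/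
def nthW (L : List (List Lt)) (i : ℕ) : List G → M :=
  match L[i]? with
  | some w => Ew F σ a w
  | none => 0

theorem Br_Ew (w : List Lt) (l : Lt) : Br (ph σ a l) (Ew F σ a w) = Ew F σ a (w ++ [l]) := by
  funext rest
  show F (w.map (ph σ a) ++ ph σ a l :: rest) = F ((w ++ [l]).map (ph σ a) ++ rest)
  rw [List.map_append, List.map_cons, List.map_nil, List.append_assoc]
  rfl

variable {V : Type} [VOps V] (p : ℕ) [VSem.{u} p V] (D : Dat V) (tg : Tgt)
  (pre : List (List Lt))

/-- The tables of `(c, t)` are correct. -/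
structure Claim (c : Ct) (t : Cls) : Prop where
  ok : VSem.ok p (D.tm c t)
  eq : ∀ i e, Br (ph σ a (t, e)) (nthW F σ a (D.bw c) i) =
    VSem.sem p (fetch (D.tm c t) D.B (i * D.PR + e % D.PR)) (nthW F σ a (D.bw (inc c t)))

/-- The blocks of the target are correct. -/
structure TClaim (c : Ct) (t : Cls) : Prop where
  blk : ∀ e, e < D.E → ∀ i, i < tg.dm t → nthW F σ a pre (tg.off t e + i) =
    Br (ph σ a (t, e)) (nthW F σ a (D.bw c) i)
  out : ∀ i, tg.dm t ≤ i → nthW F σ a (D.bw c) i = 0

/-- Standing assumptions. -/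
structure Std : Prop where
  tors : ∀ w : List G → M, p • w = 0
  exok : ∀ e, VSem.ok p (D.ex (e % D.PR))
  exsup : ∀ e, VOps.mask (D.ex (e % D.PR)) D.E = D.ex (e % D.PR)
  per : ∀ (w : List Lt) (t : Cls) (e : ℕ), Ew F σ a (w ++ [(t, e)]) =
    VSem.sem p (D.ex (e % D.PR)) (fun i => Ew F σ a (w ++ [(t, i)]))
  one : ∀ (t : Cls) (i : ℕ), i < D.E →
    nthW F σ a (D.bw (inc (0, 0, 0) t)) i = Ew F σ a [(t, i)]

/-- What is needed to evaluate words of content at most `tg.c`. -/
structure Evl : Prop where
  std : Std F σ a p D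
  two : 2 ≤ wt tg.c
  low : ∀ c t, 1 ≤ wt c → Sub tg.c (inc c t) → inc c t ≠ tg.c → Claim F σ a p D c t
  top : ∀ c t, inc c t = tg.c → TClaim F σ a D tg pre c t

/-- The basis of the content `c`. -/
def gB (c : Ct) : ℕ → (List G → M) :=
  if c = tg.c then nthW F σ a pre else nthW F σ a (D.bw c)

/-- `v` represents `f`. -/
def Rep (c : Ct) (v : V) (f : List G → M) : Prop :=
  VSem.ok p v ∧ f = VSem.sem p v (gB F σ a D tg pre c)

variable {F σ a p D tg pre}

theorem sem_ex (h : Std F σ a p D) (e : ℕ) (g g' : ℕ → (List G → M))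
    (hg : ∀ i, i < D.E → g i = g' i) :
    VSem.sem p (D.ex (e % D.PR)) g = VSem.sem p (D.ex (e % D.PR)) g' := by
  rw [← h.exsup e, VSem.sem_mask, VSem.sem_mask]
  congr 1
  funext i
  split_ifs with hi
  · exact hg i hi
  · rfl

theorem per_nth (h : Std F σ a p D) (L : List (List Lt)) (j : ℕ) (t : Cls) (e : ℕ) :
    Br (ph σ a (t, e)) (nthW F σ a L j) =
      VSem.sem p (D.ex (e % D.PR)) (fun i => Br (ph σ a (t, i)) (nthW F σ a L j)) := by
  unfold nthW
  cases L[j]? with
  | none =>
    simp only [map_zero]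
    have := VSem.sem_map (p := p) (0 : (List G → M) →+ (List G → M)) (D.ex (e % D.PR))
      (fun _ => 0)
    simp only [AddMonoidHom.zero_apply] at this
    exact this.symm
  | some w =>
    simp only [Br_Ew]
    exact h.per w t e

theorem per_sem (h : Std F σ a p D) (v : V) (L : List (List Lt)) (t : Cls) (e : ℕ) :
    Br (ph σ a (t, e)) (VSem.sem p v (nthW F σ a L)) =
      VSem.sem p (D.ex (e % D.PR))
        (fun i => Br (ph σ a (t, i)) (VSem.sem p v (nthW F σ a L))) := by
  simp only [← VSem.sem_map]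
  rw [← sem_fubini]
  congr 1
  funext j
  exact per_nth h L j t e

theorem injT_rep (h : Evl F σ a p D tg pre) {c : Ct} {t : Cls} (ht : inc c t = tg.c) {v : V}
    (hv : VSem.ok p v) (e : ℕ) :
    VSem.ok p (injT D tg v (t, e)) ∧
    Br (ph σ a (t, e)) (VSem.sem p v (nthW F σ a (D.bw c))) =
      VSem.sem p (injT D tg v (t, e)) (nthW F σ a pre) := by
  have hT := h.top c t ht
  have hS := h.std
  have e1 : injT D tg v (t, e) = VOps.app (fun i => VOps.shl (VOps.mask v (tg.dm t)) (tg.off t i))
      (D.ex (e % D.PR)) VOps.zero := by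
    unfold injT
    rw [VSem.force_eq p]
    rfl
  have hok : ∀ i, VSem.ok p (VOps.shl (VOps.mask v (tg.dm t)) (tg.off t i)) := fun i =>
    VSem.ok_shl (VSem.ok_mask hv _) _
  rw [e1]
  refine ⟨VSem.ok_app hok _ VSem.ok_zero, ?_⟩
  rw [VSem.sem_app hS.tors hok _ VSem.ok_zero, VSem.sem_zero, add_zero, per_sem hS]
  refine sem_ex hS e _ _ fun i hi => ?_
  rw [VSem.sem_shl, VSem.sem_mask, ← VSem.sem_map]
  congr 1
  funext j
  split_ifs with hj
  · exact (hT.blk i hi j hj).symm
  · rw [hT.out j (not_lt.1 hj), map_zero]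

theorem appT_rep (h : Evl F σ a p D tg pre) {c : Ct} {t : Cls} (hC : Claim F σ a p D c t)
    (v : V) (e : ℕ) :
    VSem.ok p (appT D c v (t, e)) ∧
    Br (ph σ a (t, e)) (VSem.sem p v (nthW F σ a (D.bw c))) =
      VSem.sem p (appT D c v (t, e)) (nthW F σ a (D.bw (inc c t))) := by
  have hS := h.std
  have e1 : appT D c v (t, e) = VOps.app (fun i => fetch (D.tm c t) D.B (i * D.PR + e % D.PR)) v
      VOps.zero := by
    unfold appT
    rw [VSem.force_eq p, nforce_eq]
    rfl
  have hok : ∀ i, VSem.ok p (fetch (D.tm c t) D.B (i * D.PR + e % D.PR)) := fun i =>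
    VSem.ok_fetch hC.ok _ _
  rw [e1]
  refine ⟨VSem.ok_app hok _ VSem.ok_zero, ?_⟩
  rw [VSem.sem_app hS.tors hok _ VSem.ok_zero, VSem.sem_zero, add_zero, ← VSem.sem_map]
  congr 1
  funext i
  exact hC.eq i e

theorem step_rep (h : Evl F σ a p D tg pre) {c : Ct} (hc : 1 ≤ wt c) {l : Lt}
    (hs : Sub tg.c (inc c l.1)) {v : V} {f : List G → M} (hf : Rep F σ a p D tg pre c v f) :
    Rep F σ a p D tg pre (inc c l.1) (step D tg c v l) (Br (ph σ a l) f) := by
  have hne : c ≠ tg.c := by
    rintro rfl
    have := hs.wt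
    rw [wt_inc] at this
    omega
  obtain ⟨hv, rfl⟩ := hf
  unfold gB
  rw [if_neg hne]
  unfold step
  by_cases hc2 : inc c l.1 = tg.c
  · rw [(ceq_iff _ _).2 hc2, cond_true]
    obtain ⟨h1, h2⟩ := injT_rep h hc2 hv l.2
    refine ⟨h1, ?_⟩
    unfold gB
    rw [if_pos hc2]
    exact h2
  · have : ceq (inc c l.1) tg.c = false := by
      by_contra hcon
      rw [Bool.not_eq_false] at hcon
      exact hc2 ((ceq_iff _ _).1 hcon)
    rw [this, cond_false]
    obtain ⟨h1, h2⟩ := appT_rep h (h.low c l.1 hc hs hc2) v l.2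
    refine ⟨h1, ?_⟩
    unfold gB
    rw [if_neg hc2]
    exact h2

theorem Rep.add (h : Evl F σ a p D tg pre) {c : Ct} {v v' : V} {f f' : List G → M}
    (hf : Rep F σ a p D tg pre c v f) (hf' : Rep F σ a p D tg pre c v' f') :
    Rep F σ a p D tg pre c (VOps.add v v') (f + f') := by
  obtain ⟨hv, rfl⟩ := hf
  obtain ⟨hv', rfl⟩ := hf'
  exact ⟨VSem.ok_add hv hv', (VSem.sem_add h.std.tors hv hv' _).symm⟩

theorem Rep.neg (h : Evl F σ a p D tg pre) {c : Ct} {v : V} {f : List G → M}
    (hf : Rep F σ a p D tg pre c v f) :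
    Rep F σ a p D tg pre c (VOps.neg v) (-f) := by
  obtain ⟨hv, rfl⟩ := hf
  exact ⟨VSem.ok_neg hv, (VSem.sem_neg h.std.tors v _).symm⟩

theorem Rep.zero (c : Ct) : Rep F σ a p D tg pre c (VOps.zero : V) 0 :=
  ⟨VSem.ok_zero, (VSem.sem_zero _).symm⟩

theorem wordA_rep (h : Evl F σ a p D tg pre) (w : List Lt) : ∀ {c : Ct} (_ : 1 ≤ wt c)
    (_ : Sub tg.c (cont c w)) {v : V} {pr : List Lt}
    (_ : Rep F σ a p D tg pre c v (Ew F σ a pr)),
    Rep F σ a p D tg pre (cont c w) (wordA D tg c v w) (Ew F σ a (pr ++ w)) := by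
  induction w with
  | nil =>
    intro c _ _ v pr hf
    rw [List.append_nil]
    exact hf
  | cons l w ih =>
    intro c hc hs v pr hf
    have h1 := step_rep h hc (l := l) (Sub.of_cont w hs) hf
    rw [Br_Ew] at h1
    have h2 := ih (c := inc c l.1) (by rw [wt_inc]; omega) hs h1
    rw [List.append_assoc] at h2
    unfold wordA
    rw [VSem.force_eq p]
    exact h2

theorem start_rep (h : Evl F σ a p D tg pre) (l : Lt) :
    Rep F σ a p D tg pre (inc (0, 0, 0) l.1) (D.ex (l.2 % D.PR)) (Ew F σ a [l]) := by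
  have hS := h.std
  have hne : inc (0, 0, 0) l.1 ≠ tg.c := by
    intro hcon
    have := h.two
    rw [← hcon, wt_inc] at this
    simp [wt] at this
  refine ⟨hS.exok _, ?_⟩
  unfold gB
  rw [if_neg hne]
  have h1 := hS.per [] l.1 l.2
  rw [List.nil_append] at h1
  refine h1.trans (sem_ex hS l.2 _ _ fun i hi => ?_)
  rw [hS.one l.1 i hi]
  rfl

theorem word_rep (h : Evl F σ a p D tg pre) {w : List Lt} (hw : w ≠ [])
    (hs : Sub tg.c (cont (0, 0, 0) w)) :
    Rep F σ a p D tg pre (cont (0, 0, 0) w) (word D tg w) (Ew F σ a w) := by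
  cases w with
  | nil => exact absurd rfl hw
  | cons l w =>
    have h1 := wordA_rep h w (c := inc (0, 0, 0) l.1) (by rw [wt_inc]; omega) hs (start_rep h l)
    have e : word D tg (l :: w) = wordA D tg (inc (0, 0, 0) l.1) (D.ex (l.2 % D.PR)) w := by
      show VOps.force (D.ex (l.2.mod D.PR)) (fun v => wordA D tg (inc (0, 0, 0) l.1) v w) = _
      rw [VSem.force_eq p]
      rfl
    rw [e]
    exact h1

theorem adV_rep (h : Evl F σ a p D tg pre) (w : List Lt) : ∀ {c : Ct} (_ : 1 ≤ wt c)
    (_ : Sub tg.c (cont c w)) {v : V} {f : List G → M} (_ : Rep F σ a p D tg pre c v f),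
    w ≠ [] → Rep F σ a p D tg pre (cont c w) (adV D tg c v w)
      (adR (w.map (ph σ a)) f) := by
  induction w with
  | nil => intro c _ _ v f _ hw; exact absurd rfl hw
  | cons n w ih =>
    intro c hc hs v f hf _
    cases w with
    | nil => exact step_rep h hc hs hf
    | cons m l =>
      have e0 : cont c (n :: m :: l) = inc (cont c (m :: l)) n.1 := cont_inc (m :: l) c n.1
      have hs1 : Sub tg.c (cont c (m :: l)) := by
        rw [e0] at hs
        exact hs.of_inc
      have h1 := ih hc hs1 hf (by simp)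
      have h2 := step_rep h (by rw [wt_cont]; omega) (l := n) (by rw [← e0]; exact hs) h1
      have h3 := step_rep h hc (l := n) (Sub.of_cont (m :: l) hs) hf
      have h4 := ih (c := inc c n.1) (by rw [wt_inc]; omega) hs h3 (by simp)
      unfold adV
      rw [VSem.force_eq p, VSem.force_eq p]
      rw [← e0] at h2
      have h5 := Rep.add h h2 (Rep.neg h h4)
      rw [← sub_eq_add_neg] at h5
      exact h5

theorem ph_shw (k : ℕ) (w : List Lt) :
    (shw k w).map (ph σ a) = (w.map (ph σ a)).map (· * σ ^ k) := by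
  unfold shw
  rw [List.map_map, List.map_map]
  congr 1
  funext l
  show a l.1 * σ ^ (l.2 + k) = a l.1 * σ ^ l.2 * σ ^ k
  rw [pow_add, mul_assoc]

theorem shw_ne {k : ℕ} {w : List Lt} (h : w ≠ []) : shw k w ≠ [] := by
  unfold shw
  rw [Ne, List.map_eq_nil_iff]
  exact h

theorem wt_conts (ws : List (List Lt)) : ∀ c : Ct, wt c ≤ wt (conts c ws) := by
  induction ws with
  | nil => intro c; exact le_rfl
  | cons w ws ih =>
    intro c
    refine le_trans ?_ (ih (cont c w))
    rw [wt_cont]; omega

theorem compV_rep (h : Evl F σ a p D tg pre) (k : ℕ) (ws : List (List Lt)) : ∀ {c : Ct}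
    (_ : 1 ≤ wt c) (_ : Sub tg.c (conts c ws)) {v : V} {f : List G → M}
    (_ : Rep F σ a p D tg pre c v f), (∀ w ∈ ws, w ≠ []) →
    Rep F σ a p D tg pre (conts c ws) (compV D tg k c v ws)
      (comp (ws.map fun w => adR ((shw k w).map (ph σ a))) f) := by
  induction ws with
  | nil => intro c _ _ v f hf _; exact hf
  | cons w ws ih =>
    intro c hc hs v f hf hw
    have hs1 : Sub tg.c (cont c w) := Sub.of_conts ws hs
    have h1 := adV_rep h (shw k w) hc (by rw [cont_shw]; exact hs1) hf
      (shw_ne (hw w List.mem_cons_self))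
    rw [cont_shw] at h1
    have h2 := ih (c := cont c w) (by rw [wt_cont]; omega) hs h1
      (fun x hx => hw x (List.mem_cons_of_mem _ hx))
    have e : compV D tg k c v (w :: ws) =
        compV D tg k (cont c w) (adV D tg c v (shw k w)) ws := by
      show VOps.force (adV D tg c v (shw k w)) (fun v => compV D tg k (cont c w) v ws) = _
      rw [VSem.force_eq p]
    rw [e]
    exact h2

theorem sumV_rep (h : Evl F σ a p D tg pre) {c : Ct} {ι : Type} (L : List ι) (v : ι → V)
    (f : ι → (List G → M)) (hL : ∀ i ∈ L, Rep F σ a p D tg pre c (v i) (f i)) :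
    ∀ (acc : V) (g : List G → M), Rep F σ a p D tg pre c acc g →
    Rep F σ a p D tg pre c (sumV acc (L.map v)) (g + (L.map f).sum) := by
  induction L with
  | nil => intro acc g hg; rw [List.map_nil, List.map_nil, List.sum_nil, add_zero]; exact hg
  | cons i L ih =>
    intro acc g hg
    have h1 := Rep.add h hg (hL i List.mem_cons_self)
    have h2 := ih (fun j hj => hL j (List.mem_cons_of_mem _ hj)) _ _ h1
    rw [List.map_cons, List.map_cons, List.sum_cons, ← add_assoc]
    have e : sumV acc (v i :: L.map v) = sumV (VOps.add acc (v i)) (L.map v) := by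
      show VOps.force (VOps.add acc (v i)) (fun acc => sumV acc (L.map v)) = _
      rw [VSem.force_eq p]
    rw [e]
    exact h2

theorem mo_succ (g : G) (s j : ℕ) (ws : List (List G)) (f : List G → M) :
    mo g s (j + 1) ws f = ((splits ws).map fun q =>
      comp (q.2.map fun w => adR (w.map (· * g ^ s))) (mo g (s + 1) j q.1 f)).sum := by
  cases ws <;> rfl

theorem moV_rep (h : Evl F σ a p D tg pre) (e : ℕ) (j : ℕ) : ∀ (s : ℕ) (ws : List (List Lt))
    {c : Ct} (_ : 1 ≤ wt c) (_ : Sub tg.c (conts c ws)) {v : V} {f : List G → M}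
    (_ : Rep F σ a p D tg pre c v f), (∀ w ∈ ws, w ≠ []) →
    Rep F σ a p D tg pre (conts c ws) (moV D tg e s j ws c v)
      (mo (σ ^ e) s j (ws.map fun w => w.map (ph σ a)) f) := by
  induction j with
  | zero =>
    intro s ws c hc hs v f hf hw
    cases ws with
    | nil => exact hf
    | cons w ws => exact Rep.zero _
  | succ j ih =>
    intro s ws c hc hs v f hf hw
    have key : ∀ q ∈ splits ws, Rep F σ a p D tg pre (conts c ws)
        (VOps.force (moV D tg e (s + 1) j q.1 c v) fun u => nforce (Nat.mul e s) fun k =>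
          compV D tg k (conts c q.1) u q.2)
        (comp (q.2.map fun w => adR ((shw (e * s) w).map (ph σ a)))
          (mo (σ ^ e) (s + 1) j (q.1.map fun w => w.map (ph σ a)) f)) := by
      intro q hq
      have hc1 := conts_splits ws c q hq
      obtain ⟨hm1, hm2⟩ := mem_splits ws q hq
      have hs2 : Sub tg.c (conts (conts c q.1) q.2) := by rw [hc1]; exact hs
      have h1 := ih (s + 1) q.1 hc (Sub.of_conts q.2 hs2) hf (fun w hw' => hw w (hm1 w hw'))
      have h2 := compV_rep h (e * s) q.2 (le_trans hc (wt_conts q.1 c)) hs2 h1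
        (fun w hw' => hw w (hm2 w hw'))
      rw [hc1] at h2
      rw [VSem.force_eq p, nforce_eq]
      exact h2
    have h3 := sumV_rep h (splits ws) _ _ key VOps.zero 0 (Rep.zero _)
    rw [zero_add] at h3
    have e1 : mo (σ ^ e) s (j + 1) (ws.map fun w => w.map (ph σ a)) f =
        ((splits ws).map fun q => comp (q.2.map fun w => adR ((shw (e * s) w).map (ph σ a)))
          (mo (σ ^ e) (s + 1) j (q.1.map fun w => w.map (ph σ a)) f)).sum := by
      rw [mo_succ, splits_map, List.map_map]
      congr 1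
      apply List.map_congr_left
      intro q _
      simp only [Function.comp_apply, List.map_map]
      congr 1
      apply List.map_congr_left
      intro w _
      rw [Function.comp_apply, ph_shw, pow_mul]
    rw [e1]
    exact h3

theorem sumL_rep (h : Evl F σ a p D tg pre) {c : Ct} (hc : 1 ≤ wt c) {v : V} {f : List G → M}
    (hf : Rep F σ a p D tg pre c v f) (hs : Sub tg.c (inc c .y)) (ms : List Lt)
    (hm : ∀ l ∈ ms, l.1 = .y) :
    Rep F σ a p D tg pre (inc c .y) (sumL D tg c v ms) (sumBr (ms.map (ph σ a)) f) := by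
  induction ms with
  | nil => exact Rep.zero _
  | cons l ms ih =>
    have h1 := hm l List.mem_cons_self
    have h2 := step_rep h hc (l := l) (by rw [h1]; exact hs) hf
    rw [h1] at h2
    have h3 := ih (fun x hx => hm x (List.mem_cons_of_mem _ hx))
    have h4 := Rep.add h h2 h3
    have e : sumL D tg c v (l :: ms) = VOps.add (step D tg c v l) (sumL D tg c v ms) := by
      show VOps.force (step D tg c v l) (fun v1 => VOps.add v1 (sumL D tg c v ms)) = _
      rw [VSem.force_eq p]
    rw [e]
    exact h4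

/-- The element of a relation. -/
def rowW (F : List G → M) (σ : G) (a : Cls → G) : Row → (List G → M)
  | .lie w l => Ew F σ a (w ++ [l]) + adR (w.reverse.map (ph σ a)) (Ew F σ a [l])
  | .np u ms => sumBr (ms.map (ph σ a)) (sumBr (ms.map (ph σ a)) (sumBr (ms.map (ph σ a))
      (sumBr (ms.map (ph σ a)) (Ew F σ a [u]))))
  | .pq e u ws => mo (σ ^ e) 0 4 (ws.map fun w => w.map (ph σ a)) (Ew F σ a [(u.1, u.2 + e * 4)]) +
      -(mo (σ ^ e) 0 3 (ws.map fun w => w.map (ph σ a)) (Ew F σ a [(u.1, u.2 + e * 3)]) +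
        mo (σ ^ e) 0 1 (ws.map fun w => w.map (ph σ a)) (Ew F σ a [(u.1, u.2 + e)]))
  | .cr e w vs => mo (σ ^ e) 0 3 ((vs.map fun v => [v]).map fun w => w.map (ph σ a))
        (Ew F σ a (shw (e * 3) w)) +
      (mo (σ ^ e) 0 2 ((vs.map fun v => [v]).map fun w => w.map (ph σ a))
        (Ew F σ a (shw (e * 2) w)) +
      mo (σ ^ e) 0 1 ((vs.map fun v => [v]).map fun w => w.map (ph σ a))
        (Ew F σ a (shw e w)))
  | .hyp w => Ew F σ a w

/-- The class is `y`. -/
def isY : Cls → Bool
  | .y => true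
  | _ => false

/-- The relation is well formed and has the right content. -/
def rowC (C : Ct) : Row → Bool
  | .lie w l => !w.isEmpty && ceq (cont (0, 0, 0) (w ++ [l])) C
  | .np u ms => ms.all (fun l => isY l.1) &&
      ceq (inc (inc (inc (inc (inc (0, 0, 0) u.1) .y) .y) .y) .y) C
  | .pq _ u ws => ws.all (fun w => !w.isEmpty) && ceq (conts (inc (0, 0, 0) u.1) ws) C
  | .cr _ w vs => !w.isEmpty &&
      ceq (conts (cont (0, 0, 0) w) (vs.map fun v => [v])) C
  | .hyp w => !w.isEmpty && ceq (cont (0, 0, 0) w) C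

theorem cont_reverse (w : List Lt) : ∀ c : Ct, cont c w.reverse = cont c w := by
  induction w with
  | nil => intro c; rfl
  | cons x w ih =>
    intro c
    rw [List.reverse_cons, cont_append, ih]
    show inc (cont c w) x.1 = cont (inc c x.1) w
    rw [cont_inc]

theorem rowV_rep (h : Evl F σ a p D tg pre) (r : Row) (hr : rowC tg.c r = true) :
    VSem.ok p (rowV D tg r) ∧ rowW F σ a r = VSem.sem p (rowV D tg r) (nthW F σ a pre) := by
  have key : ∀ v f, Rep F σ a p D tg pre tg.c v f →
      VSem.ok p v ∧ f = VSem.sem p v (nthW F σ a pre) := by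
    intro v f hf
    obtain ⟨h1, h2⟩ := hf
    unfold gB at h2
    rw [if_pos rfl] at h2
    exact ⟨h1, h2⟩
  have hself : Sub tg.c tg.c := Sub.self _
  have w1 : ∀ t : Cls, 1 ≤ wt (inc (0, 0, 0) t) := fun t => by rw [wt_inc]; omega
  apply key
  cases r with
  | lie w l =>
    simp only [rowC, Bool.and_eq_true, Bool.not_eq_true', List.isEmpty_eq_false_iff,
      ceq_iff] at hr
    obtain ⟨hw, hc⟩ := hr
    have h1 := word_rep h (w := w ++ [l]) (by simp) (by rw [hc]; exact hself)
    rw [hc] at h1
    have e0 : cont (inc (0, 0, 0) l.1) w.reverse = tg.c := by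
      rw [cont_reverse, ← hc, cont_append, cont_inc]
      rfl
    have h3 := word_rep h (w := [l]) (by simp)
      (Sub.of_cont w.reverse (by rw [show cont (0, 0, 0) [l] = inc (0, 0, 0) l.1 from rfl, e0]; exact hself))
    have h2 := adV_rep h w.reverse (c := inc (0, 0, 0) l.1) (w1 _)
      (by rw [e0]; exact hself) h3 (by simpa using hw)
    rw [e0] at h2
    have h4 := Rep.add h h1 h2
    simp only [rowV, rowW, VSem.force_eq p]
    exact h4
  | np u ms =>
    simp only [rowC, Bool.and_eq_true, List.all_eq_true, ceq_iff] at hr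
    obtain ⟨hy, hc⟩ := hr
    have hy' : ∀ l ∈ ms, l.1 = .y := by
      intro l hl
      have := hy l hl
      revert this
      cases l.1 <;> simp [isY]
    have s4 : Sub tg.c (inc (inc (inc (inc (inc (0, 0, 0) u.1) .y) .y) .y) .y) := by
      rw [hc]; exact hself
    have h0 := word_rep h (w := [u]) (by simp) s4.of_inc.of_inc.of_inc.of_inc
    have h1 := sumL_rep h (w1 u.1) h0 s4.of_inc.of_inc.of_inc ms hy'
    have h2 := sumL_rep h (by rw [wt_inc]; omega) h1 s4.of_inc.of_inc ms hy'
    have h3 := sumL_rep h (by rw [wt_inc]; omega) h2 s4.of_inc ms hy'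
    have h4 := sumL_rep h (by rw [wt_inc]; omega) h3 s4 ms hy'
    rw [hc] at h4
    simp only [rowV, rowW, VSem.force_eq p]
    exact h4
  | pq e u ws =>
    simp only [rowC, Bool.and_eq_true, List.all_eq_true, ceq_iff] at hr
    obtain ⟨hw, hc⟩ := hr
    have hw' : ∀ w ∈ ws, w ≠ [] := by
      intro w hw1
      have := hw w hw1
      simpa using this
    have s1 : Sub tg.c (conts (inc (0, 0, 0) u.1) ws) := by rw [hc]; exact hself
    have k1 : ∀ (x j : ℕ), Rep F σ a p D tg pre tg.c
        (VOps.force (word D tg [(u.1, x)]) fun v => moV D tg e 0 j ws (inc (0, 0, 0) u.1) v)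
        (mo (σ ^ e) 0 j (ws.map fun w => w.map (ph σ a)) (Ew F σ a [(u.1, x)])) := by
      intro x j
      have h0 := word_rep h (w := [(u.1, x)]) (by simp) (Sub.of_conts ws s1)
      have h1 := moV_rep h e j 0 ws (c := inc (0, 0, 0) u.1) (w1 u.1) s1 h0 hw'
      rw [hc] at h1
      rw [VSem.force_eq p]
      exact h1
    have h4 := Rep.add h (k1 (u.2 + e * 4) 4) (Rep.neg h (Rep.add h (k1 (u.2 + e * 3) 3)
      (k1 (u.2 + e) 1)))
    simp only [VSem.force_eq p] at h4
    simp only [rowV, rowW, VSem.force_eq p]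
    exact h4
  | cr e w vs =>
    simp only [rowC, Bool.and_eq_true, Bool.not_eq_true', List.isEmpty_eq_false_iff,
      ceq_iff] at hr
    obtain ⟨hw, hc⟩ := hr
    have hw' : ∀ x ∈ vs.map (fun v => [v]), x ≠ [] := by
      intro x hx
      rw [List.mem_map] at hx
      obtain ⟨y, _, rfl⟩ := hx
      simp
    have s1 : Sub tg.c (conts (cont (0, 0, 0) w) (vs.map fun v => [v])) := by
      rw [hc]; exact hself
    have k1 : ∀ (k j : ℕ), Rep F σ a p D tg pre tg.c
        (VOps.force (word D tg (shw k w)) fun v =>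
          moV D tg e 0 j (vs.map fun v => [v]) (cont (0, 0, 0) w) v)
        (mo (σ ^ e) 0 j ((vs.map fun v => [v]).map fun w => w.map (ph σ a))
          (Ew F σ a (shw k w))) := by
      intro k j
      have h0 := word_rep h (w := shw k w) (shw_ne hw)
        (by rw [cont_shw]; exact Sub.of_conts _ s1)
      rw [cont_shw] at h0
      have wc : 1 ≤ wt (cont (0, 0, 0) w) := by
        rw [wt_cont]
        have := List.length_pos_iff.2 hw
        omega
      have h1 := moV_rep h e j 0 (vs.map fun v => [v]) wc s1 h0 hw'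
      rw [hc] at h1
      rw [VSem.force_eq p]
      exact h1
    have h4 := Rep.add h (k1 (e * 3) 3) (Rep.add h (k1 (e * 2) 2) (k1 e 1))
    simp only [VSem.force_eq p] at h4
    simp only [rowV, rowW, VSem.force_eq p]
    exact h4
  | hyp w =>
    simp only [rowC, Bool.and_eq_true, Bool.not_eq_true', List.isEmpty_eq_false_iff,
      ceq_iff] at hr
    obtain ⟨hw, hc⟩ := hr
    have h1 := word_rep h hw (by rw [hc]; exact hself)
    rw [hc] at h1
    exact h1

/-- The checked rows vanish. -/
theorem rowsOK_sound (h : Evl F σ a p D tg pre) (R : V) (N : ℕ) (rows : List Row) :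
    ∀ k, rowsOK D tg R N k rows = true → (∀ r ∈ rows, rowC tg.c r = true) →
      (∀ r ∈ rows, rowW F σ a r = 0) →
      ∀ j, j < rows.length → VSem.sem p (fetch R N (k + j)) (nthW F σ a pre) = 0 := by
  induction rows with
  | nil => intro k _ _ _ j hj; simp at hj
  | cons r rows ih =>
    intro k hk hc h0 j hj
    simp only [rowsOK, Bool.and_eq_true] at hk
    obtain ⟨h1, h2⟩ := hk
    cases j with
    | zero =>
      have h3 := VSem.beq_eq p _ _ h1
      rw [add_zero, ← h3, ← (rowV_rep h r (hc r List.mem_cons_self)).2]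
      exact h0 r List.mem_cons_self
    | succ j =>
      have := ih (Nat.succ k) h2 (fun x hx => hc x (List.mem_cons_of_mem _ hx))
        (fun x hx => h0 x (List.mem_cons_of_mem _ hx)) j (by simpa using hj)
      rw [Nat.succ_add] at this
      exact this

end

end Pool.Agent.Work.MP_d7201b_al.L3
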