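import Pool.Agent.Work.MP_d7201b_al_helper73.D2
import Pool.Agent.Work.MP_d7201b_al_helper73.Lib

/-!
# Top content (1, 2, 1), `p = 2`
-/

set_option autoImplicit false
set_option maxRecDepth 100000

namespace Pool.Agent.Work.MP_d7201b_al.L3

/-- The content. -/
def tgT2_121 : Tgt where
  c := (1, 2, 1)
  dm t := match t with | .z => 9 | .y => 16 | .m => 9
  off t e := match t with
    | .z => match e with | 0 => 93 | 1 => 59 | _ => 25
    | .y => match e with | 0 => 77 | 1 => 43 | _ => 9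
    | .m => match e with | 0 => 68 | 1 => 34 | _ => 0

/-- Rows. -/
def rwT2_121_0 : List Row := [.lie [(.y, 2), (.y, 0), (.z, 1)] (.m, 2),
  .lie [(.y, 2), (.z, 1), (.y, 0)] (.m, 2),
  .lie [(.z, 1), (.y, 0), (.y, 0)] (.m, 2),
  .lie [(.z, 2), (.y, 0), (.y, 0)] (.m, 2),
  .lie [(.y, 0), (.z, 0), (.y, 0)] (.m, 2),
  .lie [(.y, 1), (.z, 0), (.y, 0)] (.m, 2),
  .lie [(.y, 2), (.z, 0), (.y, 0)] (.m, 2),
  .lie [(.y, 1), (.y, 0), (.z, 0)] (.m, 2),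
  .lie [(.y, 2), (.y, 0), (.z, 0)] (.m, 2),
  .lie [(.z, 1), (.y, 0), (.m, 0)] (.y, 2),
  .lie [(.y, 1), (.z, 0), (.m, 0)] (.y, 2),
  .lie [(.y, 2), (.z, 0), (.m, 0)] (.y, 2),
  .lie [(.z, 1), (.m, 0), (.y, 0)] (.y, 2),
  .lie [(.z, 2), (.m, 0), (.y, 0)] (.y, 2),
  .lie [(.m, 0), (.z, 0), (.y, 0)] (.y, 2),
  .lie [(.m, 1), (.z, 0), (.y, 0)] (.y, 2),
  .lie [(.m, 2), (.y, 1), (.z, 0)] (.y, 2),
  .lie [(.y, 1), (.m, 0), (.z, 0)] (.y, 2),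
  .lie [(.m, 0), (.y, 0), (.z, 0)] (.y, 2),
  .lie [(.m, 1), (.y, 0), (.z, 0)] (.y, 2),
  .lie [(.m, 2), (.y, 0), (.y, 1)] (.z, 2),
  .lie [(.m, 2), (.y, 1), (.y, 0)] (.z, 2),
  .lie [(.y, 1), (.m, 0), (.y, 0)] (.z, 2),
  .lie [(.m, 0), (.y, 0), (.y, 0)] (.z, 2),
  .lie [(.m, 1), (.y, 0), (.y, 0)] (.z, 2),
  .lie [(.y, 2), (.y, 0), (.z, 1)] (.m, 1),
  .lie [(.y, 2), (.z, 1), (.y, 0)] (.m, 1),
  .lie [(.z, 1), (.y, 0), (.y, 0)] (.m, 1),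
  .lie [(.y, 0), (.z, 0), (.y, 0)] (.m, 1),
  .lie [(.y, 1), (.z, 0), (.y, 0)] (.m, 1),
  .lie [(.y, 1), (.y, 0), (.z, 0)] (.m, 1),
  .lie [(.m, 2), (.y, 0), (.z, 1)] (.y, 1),
  .lie [(.z, 1), (.y, 0), (.m, 0)] (.y, 1),
  .lie [(.y, 1), (.z, 0), (.m, 0)] (.y, 1),
  .lie [(.m, 2), (.z, 1), (.y, 0)] (.y, 1),
  .lie [(.z, 1), (.m, 0), (.y, 0)] (.y, 1),
  .lie [(.m, 0), (.z, 0), (.y, 0)] (.y, 1),
  .lie [(.m, 2), (.y, 1), (.z, 0)] (.y, 1),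
  .lie [(.m, 0), (.y, 0), (.y, 0)] (.z, 1),
  .lie [(.y, 0), (.z, 0), (.y, 0)] (.m, 0),
  .hyp [(.z, 0), (.y, 0), (.y, 0), (.m, 1)],
  .hyp [(.z, 0), (.y, 0), (.y, 0), (.m, 2)],
  .hyp [(.z, 1), (.y, 0), (.y, 0), (.m, 0)],
  .hyp [(.z, 1), (.y, 0), (.y, 0), (.m, 1)],
  .hyp [(.z, 1), (.y, 0), (.y, 0), (.m, 2)],
  .hyp [(.z, 2), (.y, 0), (.y, 0), (.m, 0)],
  .hyp [(.z, 2), (.y, 0), (.y, 0), (.m, 1)],
  .hyp [(.z, 2), (.y, 0), (.y, 0), (.m, 2)],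
  .hyp [(.z, 0), (.y, 1), (.y, 1), (.m, 0)],
  .hyp [(.z, 0), (.y, 1), (.y, 1), (.m, 1)],
  .hyp [(.z, 0), (.y, 1), (.y, 1), (.m, 2)],
  .hyp [(.z, 1), (.y, 1), (.y, 1), (.m, 0)],
  .hyp [(.z, 1), (.y, 1), (.y, 1), (.m, 1)],
  .hyp [(.z, 1), (.y, 1), (.y, 1), (.m, 2)],
  .hyp [(.z, 2), (.y, 1), (.y, 1), (.m, 0)],
  .hyp [(.z, 2), (.y, 1), (.y, 1), (.m, 1)],
  .hyp [(.z, 2), (.y, 1), (.y, 1), (.m, 2)],
  .hyp [(.z, 0), (.y, 0), (.m, 0), (.y, 0)],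
  .hyp [(.z, 0), (.y, 0), (.m, 1), (.y, 0)],
  .hyp [(.z, 0), (.y, 0), (.m, 2), (.y, 0)],
  .hyp [(.z, 1), (.y, 0), (.m, 0), (.y, 0)],
  .hyp [(.z, 1), (.y, 0), (.m, 1), (.y, 0)],
  .hyp [(.z, 1), (.y, 0), (.m, 2), (.y, 0)],
  .hyp [(.z, 2), (.y, 0), (.m, 0), (.y, 0)],
  .hyp [(.z, 0), (.y, 1), (.m, 0), (.y, 1)],
  .hyp [(.z, 0), (.y, 1), (.m, 1), (.y, 1)],
  .hyp [(.z, 0), (.y, 1), (.m, 2), (.y, 1)],
  .hyp [(.z, 1), (.y, 1), (.m, 0), (.y, 1)],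
  .hyp [(.z, 1), (.y, 1), (.m, 1), (.y, 1)],
  .hyp [(.z, 1), (.y, 1), (.m, 2), (.y, 1)],
  .hyp [(.z, 2), (.y, 1), (.m, 0), (.y, 1)],
  .hyp [(.z, 0), (.y, 2), (.m, 0), (.y, 2)],
  .hyp [(.z, 0), (.y, 2), (.m, 1), (.y, 2)],
  .hyp [(.z, 0), (.y, 2), (.m, 2), (.y, 2)],
  .hyp [(.z, 1), (.y, 2), (.m, 0), (.y, 2)],
  .hyp [(.z, 1), (.y, 2), (.m, 1), (.y, 2)],
  .hyp [(.z, 1), (.y, 2), (.m, 2), (.y, 2)],
  .hyp [(.z, 0), (.m, 0), (.y, 0), (.y, 0)],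
  .hyp [(.z, 0), (.m, 1), (.y, 0), (.y, 0)],
  .hyp [(.z, 0), (.m, 2), (.y, 0), (.y, 0)],
  .hyp [(.z, 1), (.m, 0), (.y, 0), (.y, 0)],
  .hyp [(.z, 1), (.m, 1), (.y, 0), (.y, 0)],
  .hyp [(.z, 1), (.m, 2), (.y, 0), (.y, 0)],
  .hyp [(.z, 0), (.m, 1), (.y, 1), (.y, 1)],
  .hyp [(.z, 0), (.m, 2), (.y, 1), (.y, 1)],
  .hyp [(.z, 1), (.m, 0), (.y, 1), (.y, 1)],
  .hyp [(.z, 1), (.m, 1), (.y, 1), (.y, 1)],
  .hyp [(.z, 0), (.m, 0), (.y, 2), (.y, 2)],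
  .hyp [(.z, 1), (.m, 0), (.y, 2), (.y, 2)],
  .cr 1 [(.y, 1)] [(.z, 2), (.m, 1), (.y, 1)],
  .cr 1 [(.z, 1)] [(.y, 0), (.m, 2), (.y, 0)],
  .cr 1 [(.m, 2)] [(.y, 1), (.z, 2), (.y, 2)],
  .cr 1 [(.y, 0)] [(.y, 0), (.m, 0), (.z, 1)],
  .cr 1 [(.y, 1)] [(.m, 1), (.y, 0), (.z, 1)],
  .cr 1 [(.y, 2)] [(.m, 2), (.z, 0), (.y, 1)],
  .cr 1 [(.y, 0)] [(.z, 2), (.y, 1), (.m, 2)]]

/-- The certificate. -/
def cT2_121 : Cert ℕ where
  tg := tgT2_121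
  pre := [[(.y, 2), (.y, 0), (.z, 1), (.m, 2)],
    [(.y, 2), (.z, 1), (.y, 0), (.m, 2)],
    [(.z, 1), (.y, 0), (.y, 0), (.m, 2)],
    [(.z, 2), (.y, 0), (.y, 0), (.m, 2)],
    [(.y, 0), (.z, 0), (.y, 0), (.m, 2)],
    [(.y, 1), (.z, 0), (.y, 0), (.m, 2)],
    [(.y, 2), (.z, 0), (.y, 0), (.m, 2)],
    [(.y, 1), (.y, 0), (.z, 0), (.m, 2)],
    [(.y, 2), (.y, 0), (.z, 0), (.m, 2)],
    [(.m, 2), (.y, 0), (.z, 1), (.y, 2)],
    [(.z, 1), (.y, 0), (.m, 0), (.y, 2)],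
    [(.y, 1), (.z, 0), (.m, 0), (.y, 2)],
    [(.y, 2), (.z, 0), (.m, 0), (.y, 2)],
    [(.m, 2), (.z, 1), (.y, 0), (.y, 2)],
    [(.z, 1), (.m, 0), (.y, 0), (.y, 2)],
    [(.z, 2), (.m, 0), (.y, 0), (.y, 2)],
    [(.m, 0), (.z, 0), (.y, 0), (.y, 2)],
    [(.m, 1), (.z, 0), (.y, 0), (.y, 2)],
    [(.m, 2), (.z, 0), (.y, 0), (.y, 2)],
    [(.m, 2), (.y, 1), (.z, 0), (.y, 2)],
    [(.y, 1), (.m, 0), (.z, 0), (.y, 2)],
    [(.y, 2), (.m, 0), (.z, 0), (.y, 2)],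
    [(.m, 0), (.y, 0), (.z, 0), (.y, 2)],
    [(.m, 1), (.y, 0), (.z, 0), (.y, 2)],
    [(.m, 2), (.y, 0), (.z, 0), (.y, 2)],
    [(.m, 2), (.y, 0), (.y, 1), (.z, 2)],
    [(.y, 1), (.y, 0), (.m, 0), (.z, 2)],
    [(.y, 2), (.y, 0), (.m, 0), (.z, 2)],
    [(.m, 2), (.y, 1), (.y, 0), (.z, 2)],
    [(.y, 1), (.m, 0), (.y, 0), (.z, 2)],
    [(.y, 2), (.m, 0), (.y, 0), (.z, 2)],
    [(.m, 0), (.y, 0), (.y, 0), (.z, 2)],
    [(.m, 1), (.y, 0), (.y, 0), (.z, 2)],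
    [(.m, 2), (.y, 0), (.y, 0), (.z, 2)],
    [(.y, 2), (.y, 0), (.z, 1), (.m, 1)],
    [(.y, 2), (.z, 1), (.y, 0), (.m, 1)],
    [(.z, 1), (.y, 0), (.y, 0), (.m, 1)],
    [(.z, 2), (.y, 0), (.y, 0), (.m, 1)],
    [(.y, 0), (.z, 0), (.y, 0), (.m, 1)],
    [(.y, 1), (.z, 0), (.y, 0), (.m, 1)],
    [(.y, 2), (.z, 0), (.y, 0), (.m, 1)],
    [(.y, 1), (.y, 0), (.z, 0), (.m, 1)],
    [(.y, 2), (.y, 0), (.z, 0), (.m, 1)],
    [(.m, 2), (.y, 0), (.z, 1), (.y, 1)],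
    [(.z, 1), (.y, 0), (.m, 0), (.y, 1)],
    [(.y, 1), (.z, 0), (.m, 0), (.y, 1)],
    [(.y, 2), (.z, 0), (.m, 0), (.y, 1)],
    [(.m, 2), (.z, 1), (.y, 0), (.y, 1)],
    [(.z, 1), (.m, 0), (.y, 0), (.y, 1)],
    [(.z, 2), (.m, 0), (.y, 0), (.y, 1)],
    [(.m, 0), (.z, 0), (.y, 0), (.y, 1)],
    [(.m, 1), (.z, 0), (.y, 0), (.y, 1)],
    [(.m, 2), (.z, 0), (.y, 0), (.y, 1)],
    [(.m, 2), (.y, 1), (.z, 0), (.y, 1)],
    [(.y, 1), (.m, 0), (.z, 0), (.y, 1)],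
    [(.y, 2), (.m, 0), (.z, 0), (.y, 1)],
    [(.m, 0), (.y, 0), (.z, 0), (.y, 1)],
    [(.m, 1), (.y, 0), (.z, 0), (.y, 1)],
    [(.m, 2), (.y, 0), (.z, 0), (.y, 1)],
    [(.m, 2), (.y, 0), (.y, 1), (.z, 1)],
    [(.y, 1), (.y, 0), (.m, 0), (.z, 1)],
    [(.y, 2), (.y, 0), (.m, 0), (.z, 1)],
    [(.m, 2), (.y, 1), (.y, 0), (.z, 1)],
    [(.y, 1), (.m, 0), (.y, 0), (.z, 1)],
    [(.y, 2), (.m, 0), (.y, 0), (.z, 1)],
    [(.m, 0), (.y, 0), (.y, 0), (.z, 1)],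
    [(.m, 1), (.y, 0), (.y, 0), (.z, 1)],
    [(.m, 2), (.y, 0), (.y, 0), (.z, 1)],
    [(.y, 2), (.y, 0), (.z, 1), (.m, 0)],
    [(.y, 2), (.z, 1), (.y, 0), (.m, 0)],
    [(.z, 1), (.y, 0), (.y, 0), (.m, 0)],
    [(.z, 2), (.y, 0), (.y, 0), (.m, 0)],
    [(.y, 0), (.z, 0), (.y, 0), (.m, 0)],
    [(.y, 1), (.z, 0), (.y, 0), (.m, 0)],
    [(.y, 2), (.z, 0), (.y, 0), (.m, 0)],
    [(.y, 1), (.y, 0), (.z, 0), (.m, 0)],
    [(.y, 2), (.y, 0), (.z, 0), (.m, 0)],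
    [(.m, 2), (.y, 0), (.z, 1), (.y, 0)],
    [(.z, 1), (.y, 0), (.m, 0), (.y, 0)],
    [(.y, 1), (.z, 0), (.m, 0), (.y, 0)],
    [(.y, 2), (.z, 0), (.m, 0), (.y, 0)],
    [(.m, 2), (.z, 1), (.y, 0), (.y, 0)],
    [(.z, 1), (.m, 0), (.y, 0), (.y, 0)],
    [(.z, 2), (.m, 0), (.y, 0), (.y, 0)],
    [(.m, 0), (.z, 0), (.y, 0), (.y, 0)],
    [(.m, 1), (.z, 0), (.y, 0), (.y, 0)],
    [(.m, 2), (.z, 0), (.y, 0), (.y, 0)],
    [(.m, 2), (.y, 1), (.z, 0), (.y, 0)],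
    [(.y, 1), (.m, 0), (.z, 0), (.y, 0)],
    [(.y, 2), (.m, 0), (.z, 0), (.y, 0)],
    [(.m, 0), (.y, 0), (.z, 0), (.y, 0)],
    [(.m, 1), (.y, 0), (.z, 0), (.y, 0)],
    [(.m, 2), (.y, 0), (.z, 0), (.y, 0)],
    [(.m, 2), (.y, 0), (.y, 1), (.z, 0)],
    [(.y, 1), (.y, 0), (.m, 0), (.z, 0)],
    [(.y, 2), (.y, 0), (.m, 0), (.z, 0)],
    [(.m, 2), (.y, 1), (.y, 0), (.z, 0)],
    [(.y, 1), (.m, 0), (.y, 0), (.z, 0)],
    [(.y, 2), (.m, 0), (.y, 0), (.z, 0)],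
    [(.m, 0), (.y, 0), (.y, 0), (.z, 0)],
    [(.m, 1), (.y, 0), (.y, 0), (.z, 0)],
    [(.m, 2), (.y, 0), (.y, 0), (.z, 0)]]
  piv := []
  R := 0x5600000018100e0e9e04016c569184db15a44002947117b8000001ef531c2a7100000041200040004a6be0109200000013e07a0004e15f8001384fa000000022e100080c384000010e1ccf1c000333c70000ccd4c40fc00000000000000000016476000000000000000000000080400000000000000cd60000000000000000000000fe4200000000000000000000055538000000000000000000000d9920000000000000002000000000000000000000000a80000000000000000000000004000000000000000000000001000000000000000000000000020000000000000000000000000400000000000000000000000000000000000000011c52000000000000000000000450a00000000000000000000011c7400000000000000000000051440000000000000000000000db56000000000000000000000000400000000000000e3e0000000000000000000000208c00000000000000000000071c3000000000000000000000038ec000000000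0000000000005753800000000000000000000071920000000000000000000000002000000000000049240000000000000000000000002200000000000000000000004078000000000000000000000000400000000000000000000041000000000000000000000000820000000000000000000000010400000000000000000000000000000000000000000000c0000000000000000c0000000000000000c0000000000000000000000000000000000000000075000000000000000750000000000000007500000000000000000000000000000000000000001d9000000000000001d9000000000000001d90000000000000000000000000000000000000000020000000000000000200000000000000002000000000000000000000000000000000000000000400000000000000004000000000000000040000000000000000000000000000000000000000040000000000000000400000000020004004000000000000000000000040042000000000000000011000000001554e000000007640410088000004000000000000003f90b3c0400400000000000001be6400048008000000000cfb480007640010080000000000000c6aee5080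00100000000000000823000020002000000000a82ad99200000080200000000005e9c648000080002000000000100020000000000040000000000000a80010000000400000000001142800db80000080012be000009b40001e0000010000a80000006e0000000000210000000000002002000000000200000000016c57ef00492400020000000005d15800006190000400007bc0165be000019040000200006edbb6d58000000004000200000048001040000000000004000003f80007c400001000000400000ce000000005144000000801f107d8d580000000100000080000082011000000000000001000000086440000000000020020000016476010200000000000400022000044000000000000804000f200007100080000000000800001e0080c40000000000001000082510000000000000004010004d55380000040000000000202c94510000000000000100004000d753800010000000000000820004000000000000000000010000160000000000008000000200000200080000000000000004004714802c80000000000008080164160002000000000002001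
  N := 102
  rows := rwT2_121_0
  kap _ _ := []

/-- The relations. -/
def tT2_121 : TCert ℕ := ⟨cT2_121, [([[(.z, 0), (.y, 0), (.y, 1), (.m, 0)]], 0x55326ab68d8c3e3070b30554),
  ([[(.z, 0), (.y, 1), (.y, 0), (.m, 0)]], 0x7de613244d1bf504872d39c6),
  ([[(.z, 0), (.y, 0), (.m, 0), (.y, 1)], [(.z, 0), (.y, 1), (.m, 0), (.y, 0)]], 0xec5b583df532eb7cc588fe40),
  ([[(.z, 0), (.m, 0), (.y, 0), (.y, 1)]], 0x6b2c52ee67444cc5fee4233c),
  ([[(.z, 0), (.m, 0), (.y, 1), (.y, 0)]], 0x6ac0ec074748ead7fee676fd)]⟩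

theorem rokT2_121_0 : rowsOK D2 tgT2_121 cT2_121.R cT2_121.N 0 rwT2_121_0 = true := by decide +kernel

theorem rwsT2_121 : rwsOK D2 cT2_121 = true := by
  refine rwsOK_of (by decide +kernel) (by decide +kernel) (by decide +kernel) ?_
  exact rokT2_121_0

theorem topT2_121 : topOK D2 tT2_121 = true := by decide +kernel

theorem allT2_121 : cT2_121.rows.all (rowA okRow2 4 2) = true := by decide +kernel

/-- The patterns. -/
def ptT2_121 : List (List (ℤ × ℕ × List ℕ)) := [[(1, 0, [0, 1, 3, 2])],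
  [(1, 0, [0, 1, 3, 2])],
  [(1, 3, [0, 1, 2, 3])],
  [(1, 4, [0, 1, 2, 3])]]

theorem pokT2_121 : patsOK 2 (tT2_121.rels.map fun r => plainP r.1) (pats 4 1) ptT2_121 = true := by
  decide +kernel

end Pool.Agent.Work.MP_d7201b_al.L3
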