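import Pool.Agent.Work.MP_d7201b_al_helper73.Snd

/-!
# Checking the tables of a content
-/

set_option autoImplicit false
set_option linter.unusedSectionVars false

namespace Pool.Agent.Work.MP_d7201b_al.L3

open L2

universe u

/-! ## Computable part -/

/-- Code of a class. -/
def clsCode : Cls → ℕ
  | .z => 0
  | .y => 1
  | .m => 2

/-- Equality of letters. -/
def ltEq (l l' : Lt) : Bool := Nat.beq (clsCode l.1) (clsCode l'.1) && Nat.beq l.2 l'.2

/-- Equality of words. -/
def wdEq : List Lt → List Lt → Bool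
  | [], [] => true
  | l :: w, l' :: w' => ltEq l l' && wdEq w w'
  | _, _ => false

/-- Equality of lists of words. -/
def wsEq : List (List Lt) → List (List Lt) → Bool
  | [], [] => true
  | w :: ws, w' :: ws' => wdEq w w' && wsEq ws ws'
  | _, _ => false

/-- Removing a letter. -/
def dec (c : Ct) : Cls → Ct
  | .z => (Nat.pred c.1, c.2.1, c.2.2)
  | .y => (c.1, Nat.pred c.2.1, c.2.2)
  | .m => (c.1, c.2.1, Nat.pred c.2.2)

/-- Multiplicity of a class. -/
def cnt (c : Ct) : Cls → ℕ
  | .z => c.1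
  | .y => c.2.1
  | .m => c.2.2

/-- All `i < n`. -/
def allN (n : ℕ) (f : ℕ → Bool) : Bool :=
  Nat.rec (motive := fun _ => Bool) true (fun i b => f i && b) n

/-- A certificate for a content. -/
structure Cert (V : Type) where
  tg : Tgt
  /-- the words of the target -/
  pre : List (List Lt)
  /-- the words which are basis elements -/
  piv : List ℕ
  /-- packed rows -/
  R : V
  /-- block size of the rows -/
  N : ℕ
  rows : List Row
  /-- combinations -/
  kap : Cls → ℕ → List V

section

variable {V : Type} [VOps V] (D : Dat V) (C : Cert V)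

/-- The blocks of the target. -/
def blkOK (t : Cls) : Bool :=
  bif Nat.beq (cnt C.tg.c t) 0 then true else
    Nat.beq (C.tg.dm t) (D.bw (dec C.tg.c t)).length && allN D.E (fun e =>
      wsEq ((C.pre.drop (C.tg.off t e)).take (C.tg.dm t))
        ((D.bw (dec C.tg.c t)).map (· ++ [(t, e)])))

/-- Basis elements as words of the target. -/
def spread (T : V) : V :=
  VOps.app (fun j => VOps.unit (C.piv.getD j C.pre.length)) T VOps.zero

/-- The combinations. -/
def kapOK (t : Cls) (e : ℕ) : ℕ → List V → Bool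
  | _, [] => true
  | i, k :: ks => VOps.beq (VOps.app (fetch C.R C.N) k VOps.zero)
      (VOps.add (VOps.unit (C.tg.off t e + i)) (VOps.neg (spread C
        (fetch (D.tm (dec C.tg.c t) t) D.B (i * D.PR + e))))) && kapOK t e (Nat.succ i) ks

/-- The rows for the other exponents. -/
def extOK (t : Cls) (e : ℕ) : Bool :=
  allN (C.tg.dm t) fun i => VOps.beq (fetch (D.tm (dec C.tg.c t) t) D.B (i * D.PR + e))
    (VOps.app (fun i' => fetch (D.tm (dec C.tg.c t) t) D.B (i * D.PR + i')) (D.ex e) VOps.zero)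

/-- The tables of a class. -/
def tabOK (t : Cls) : Bool :=
  bif Nat.beq (cnt C.tg.c t) 0 then true else
    VOps.okb (D.tm (dec C.tg.c t) t) &&
    VOps.beq (VOps.mask (D.tm (dec C.tg.c t) t) (C.tg.dm t * D.PR * D.B))
      (D.tm (dec C.tg.c t) t) &&
    allN D.E (fun e => Nat.beq (C.kap t e).length (C.tg.dm t) && kapOK D C t e 0 (C.kap t e)) &&
    allN (D.PR - D.E) (fun e => extOK D C t (D.E + e))

/-- The rows. -/
def rwsOK : Bool :=
  VOps.okb C.R && VOps.beq (VOps.mask C.R (C.rows.length * C.N)) C.R &&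
    C.rows.all (rowC C.tg.c) && rowsOK D C.tg C.R C.N 0 C.rows

/-- The basis words. -/
def bwOK : Bool :=
  C.piv.all (fun k => Nat.blt k C.pre.length) &&
    wsEq (C.piv.map fun k => C.pre.getD k []) (D.bw C.tg.c)

/-- The targets. -/
def tgtOK : Bool := Nat.ble 2 (wt C.tg.c) && (blkOK D C .z && (blkOK D C .y && blkOK D C .m))

/-- Everything. -/
def certOK : Bool := tgtOK D C && (bwOK D C && (rwsOK D C &&
  (tabOK D C .z && (tabOK D C .y && tabOK D C .m))))

end

/-! ## Soundness -/

theorem clsCode_inj {s t : Cls} (h : clsCode s = clsCode t) : s = t := by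
  cases s <;> cases t <;> simp_all [clsCode]

theorem ltEq_eq {l l' : Lt} (h : ltEq l l' = true) : l = l' := by
  unfold ltEq at h
  rw [Bool.and_eq_true] at h
  exact Prod.ext (clsCode_inj (Nat.eq_of_beq_eq_true h.1)) (Nat.eq_of_beq_eq_true h.2)

theorem wdEq_eq : ∀ {w w' : List Lt}, wdEq w w' = true → w = w'
  | [], [], _ => rfl
  | l :: w, l' :: w', h => by
    simp only [wdEq, Bool.and_eq_true] at h
    rw [ltEq_eq h.1, wdEq_eq h.2]
  | [], _ :: _, h => by simp [wdEq] at h
  | _ :: _, [], h => by simp [wdEq] at h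

theorem wsEq_eq : ∀ {w w' : List (List Lt)}, wsEq w w' = true → w = w'
  | [], [], _ => rfl
  | l :: w, l' :: w', h => by
    simp only [wsEq, Bool.and_eq_true] at h
    rw [wdEq_eq h.1, wsEq_eq h.2]
  | [], _ :: _, h => by simp [wsEq] at h
  | _ :: _, [], h => by simp [wsEq] at h

theorem dec_inc (c : Ct) (t : Cls) : dec (inc c t) t = c := by
  cases t <;> rfl

theorem cnt_inc (c : Ct) (t : Cls) : Nat.beq (cnt (inc c t) t) 0 = false := by
  cases t <;> rfl

theorem allN_iff (n : ℕ) (f : ℕ → Bool) : allN n f = true ↔ ∀ i, i < n → f i = true := by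
  induction n with
  | zero =>
    constructor
    · intro _ i hi; omega
    · intro _; rfl
  | succ n ih =>
    have e : allN (n + 1) f = (f n && allN n f) := rfl
    rw [e, Bool.and_eq_true, ih]
    constructor
    · rintro ⟨h1, h2⟩ i hi
      rcases Nat.lt_succ_iff_lt_or_eq.1 hi with h | h
      · exact h2 i h
      · rw [h]; exact h1
    · intro h
      exact ⟨h n (by omega), fun i hi => h i (by omega)⟩

section

variable {G : Type u} [Group G] {M : Type u} [AddCommGroup M] {F : List G → M} {σ : G}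
  {a : Cls → G} {V : Type} [VOps V] {p : ℕ} [VSem.{u} p V] {D : Dat V}

theorem blk_sound {C : Cert V} {t : Cls} (h : blkOK D C t = true) {c : Ct}
    (hc : inc c t = C.tg.c) : TClaim F σ a D C.tg C.pre c t := by
  unfold blkOK at h
  rw [← hc, cnt_inc, cond_false, dec_inc, Bool.and_eq_true, allN_iff] at h
  obtain ⟨h1, h2⟩ := h
  have h1 := Nat.eq_of_beq_eq_true h1
  constructor
  · intro e he i hi
    have h3 := wsEq_eq (h2 e he)
    have h4 : C.pre[C.tg.off t e + i]? = (D.bw c)[i]?.map (· ++ [(t, e)]) := by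
      rw [← List.getElem?_map, ← h3, List.getElem?_take, if_pos hi, List.getElem?_drop]
    have hi' : i < (D.bw c).length := by omega
    unfold nthW
    rw [h4, List.getElem?_eq_getElem hi']
    simp only [Option.map_some]
    rw [Br_Ew]
  · intro i hi
    unfold nthW
    rw [List.getElem?_eq_none (by omega)]

/-- The tables of the content `c` are valid. -/
def Valid (F : List G → M) (σ : G) (a : Cls → G) (p : ℕ) [VSem.{u} p V] (D : Dat V) (c : Ct) :
    Prop := ∀ c' t, inc c' t = c → Claim F σ a p D c' t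

theorem evl_of {tg : Tgt} {pre : List (List Lt)} (hS : Std F σ a p D) (h2 : 2 ≤ wt tg.c)
    (hv : ∀ c, Sub tg.c c → c ≠ tg.c → 2 ≤ wt c → Valid F σ a p D c)
    (ht : ∀ c t, inc c t = tg.c → TClaim F σ a D tg pre c t) : Evl F σ a p D tg pre where
  std := hS
  two := h2
  low c t hc hs hne := hv (inc c t) hs hne (by rw [wt_inc]; omega) c t rfl
  top := ht

theorem tgt_sound {C : Cert V} (h : tgtOK D C = true) :
    2 ≤ wt C.tg.c ∧ ∀ c t, inc c t = C.tg.c → TClaim F σ a D C.tg C.pre c t := by
  unfold tgtOK at h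
  simp only [Bool.and_eq_true] at h
  obtain ⟨h0, hz, hy, hm⟩ := h
  refine ⟨Nat.le_of_ble_eq_true h0, fun c t hc => ?_⟩
  cases t
  · exact blk_sound hz hc
  · exact blk_sound hy hc
  · exact blk_sound hm hc

/-- Combinations of the rows vanish. -/
theorem comb_sound {C : Cert V} (hE : Evl F σ a p D C.tg C.pre) (h : rwsOK D C = true)
    (hr : ∀ r ∈ C.rows, rowW F σ a r = 0) (k : V) :
    VSem.sem p (VOps.app (fetch C.R C.N) k VOps.zero) (nthW F σ a C.pre) = 0 := by
  unfold rwsOK at h
  simp only [Bool.and_eq_true, List.all_eq_true] at h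
  obtain ⟨⟨⟨hok, hmask⟩, hc⟩, hrows⟩ := h
  have hok' := VSem.ok_okb (p := p) C.R hok
  have hmask' := VSem.beq_eq p _ _ hmask
  have h1 := rowsOK_sound hE C.R C.N C.rows 0 hrows hc hr
  rw [VSem.sem_app hE.std.tors (fun i => VSem.ok_fetch hok' _ _) _ VSem.ok_zero, VSem.sem_zero,
    add_zero]
  have h2 : ∀ i, VSem.sem p (fetch C.R C.N i) (nthW F σ a C.pre) = 0 := by
    intro i
    by_cases hi : i < C.rows.length
    · have := h1 i hi
      rw [zero_add] at this
      exact this
    · exact VSem.fetch_out hmask' _ _ (Nat.mul_le_mul_right _ (not_lt.1 hi)) _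
  simp only [h2]
  exact sem_zero_right k

theorem spread_sound {C : Cert V} (hS : Std F σ a p D) (h : bwOK D C = true) (T : V) :
    VSem.ok p (spread C T) ∧
    VSem.sem p (spread C T) (nthW F σ a C.pre) = VSem.sem p T (nthW F σ a (D.bw C.tg.c)) := by
  unfold spread
  refine ⟨VSem.ok_app (fun i => VSem.ok_unit _) _ VSem.ok_zero, ?_⟩
  rw [VSem.sem_app hS.tors (fun i => VSem.ok_unit _) _ VSem.ok_zero, VSem.sem_zero, add_zero]
  congr 1
  funext j
  rw [VSem.sem_unit]
  unfold bwOK at h
  rw [Bool.and_eq_true, List.all_eq_true] at h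
  have h1 := wsEq_eq h.2
  rw [← h1]
  unfold nthW
  rw [List.getElem?_map]
  by_cases hj : j < C.piv.length
  · rw [List.getElem?_eq_getElem hj, List.getD_eq_getElem _ _ hj]
    simp only [Option.map_some]
    have hk : C.piv[j] < C.pre.length := by
      have := h.1 _ (List.getElem_mem hj)
      exact Nat.le_of_ble_eq_true this
    rw [List.getElem?_eq_getElem hk, List.getD_eq_getElem _ _ hk]
  · rw [List.getElem?_eq_none (not_lt.1 hj), List.getD_eq_default _ _ (not_lt.1 hj),
      List.getElem?_eq_none le_rfl]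
    rfl

theorem kap_sound {C : Cert V} (hE : Evl F σ a p D C.tg C.pre) (hb : bwOK D C = true)
    (hr : rwsOK D C = true) (h0 : ∀ r ∈ C.rows, rowW F σ a r = 0) {c : Ct} {t : Cls}
    (hc : inc c t = C.tg.c) (e : ℕ) (ks : List V) : ∀ i, kapOK D C t e i ks = true →
    ∀ j, j < ks.length → nthW F σ a C.pre (C.tg.off t e + (i + j)) =
      VSem.sem p (fetch (D.tm c t) D.B ((i + j) * D.PR + e)) (nthW F σ a (D.bw C.tg.c)) := by
  induction ks with
  | nil => intro i _ j hj; simp at hj
  | cons k ks ih =>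
    intro i hk j hj
    simp only [kapOK, Bool.and_eq_true] at hk
    obtain ⟨h1, h2⟩ := hk
    cases j with
    | zero =>
      have h3 := VSem.beq_eq p _ _ h1
      have h4 := comb_sound hE hr h0 k
      obtain ⟨s1, s2⟩ := spread_sound hE.std hb
        (fetch (D.tm (dec C.tg.c t) t) D.B (i * D.PR + e))
      rw [h3, VSem.sem_add hE.std.tors (VSem.ok_unit _) (VSem.ok_neg s1), VSem.sem_unit,
        VSem.sem_neg hE.std.tors, s2, add_neg_eq_zero] at h4
      have hd : dec C.tg.c t = c := by rw [← hc, dec_inc]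
      rw [hd] at h4
      rw [add_zero]
      exact h4
    | succ j =>
      have := ih (Nat.succ i) h2 j (by simpa using hj)
      rw [Nat.succ_add] at this
      exact this

theorem Br_mod (hS : Std F σ a p D) (L : List (List Lt)) (j : ℕ) (t : Cls) (e : ℕ) :
    Br (ph σ a (t, e)) (nthW F σ a L j) = Br (ph σ a (t, e % D.PR)) (nthW F σ a L j) := by
  rw [per_nth hS L j t e, per_nth hS L j t (e % D.PR), Nat.mod_mod]

/-- A checked certificate gives valid tables. -/
theorem cert_sound {C : Cert V} (hS : Std F σ a p D) (hPR : D.E ≤ D.PR) (hPR0 : 0 < D.PR)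
    (h : certOK D C = true)
    (hv : ∀ c, Sub C.tg.c c → c ≠ C.tg.c → 2 ≤ wt c → Valid F σ a p D c)
    (h0 : ∀ r ∈ C.rows, rowW F σ a r = 0) : Valid F σ a p D C.tg.c := by
  unfold certOK at h
  simp only [Bool.and_eq_true] at h
  obtain ⟨htg, hb, hr, tz, ty, tm⟩ := h
  obtain ⟨h2, ht⟩ := tgt_sound (F := F) (σ := σ) (a := a) htg
  have hE : Evl F σ a p D C.tg C.pre := evl_of hS h2 hv ht
  intro c t hc
  have hT : tabOK D C t = true := by
    cases t
    · exact tz
    · exact ty
    · exact tm
  have hd : dec C.tg.c t = c := by rw [← hc, dec_inc]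
  unfold tabOK at hT
  rw [← hc, cnt_inc, cond_false, dec_inc] at hT
  simp only [Bool.and_eq_true, allN_iff] at hT
  obtain ⟨⟨⟨hok, hmask⟩, hk⟩, hx⟩ := hT
  have hok' := VSem.ok_okb (p := p) _ hok
  have hmask' := VSem.beq_eq p _ _ hmask
  refine ⟨hok', fun i e => ?_⟩
  rw [Br_mod hS]
  generalize he' : e % D.PR = e'
  have he2 : e' < D.PR := by rw [← he']; exact Nat.mod_lt _ hPR0
  have hTC := ht c t hc
  by_cases hi : i < C.tg.dm t
  · -- inside
    have base : ∀ e, e < D.E → Br (ph σ a (t, e)) (nthW F σ a (D.bw c) i) =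
        VSem.sem p (fetch (D.tm c t) D.B (i * D.PR + e)) (nthW F σ a (D.bw C.tg.c)) := by
      intro e he
      obtain ⟨hl, hk1⟩ := hk e he
      have hl := Nat.eq_of_beq_eq_true hl
      have := kap_sound hE hb hr h0 hc e (C.kap t e) 0 hk1 i (by omega)
      rw [zero_add] at this
      rw [← this, hTC.blk e he i hi]
    rw [hc]
    by_cases hE' : e' < D.E
    · exact base e' hE'
    · have h3 := hx (e' - D.E) (by omega)
      rw [show D.E + (e' - D.E) = e' by omega] at h3
      unfold extOK at h3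
      rw [allN_iff, hd] at h3
      have h4 := VSem.beq_eq p _ _ (h3 i hi)
      rw [h4, VSem.sem_app hS.tors (fun i' => VSem.ok_fetch hok' _ _) _ VSem.ok_zero,
        VSem.sem_zero, add_zero, per_nth hS, Nat.mod_eq_of_lt he2]
      have h5 := sem_ex hS e' (fun i' => Br (ph σ a (t, i')) (nthW F σ a (D.bw c) i))
        (fun i' => VSem.sem p (fetch (D.tm c t) D.B (i * D.PR + i')) (nthW F σ a (D.bw C.tg.c)))
        (fun i' hi' => base i' hi')
      rw [Nat.mod_eq_of_lt he2] at h5
      exact h5
  · -- outside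
    have hi := not_lt.1 hi
    rw [hTC.out i hi, map_zero]
    symm
    apply VSem.fetch_out hmask'
    apply Nat.mul_le_mul_right
    calc C.tg.dm t * D.PR ≤ i * D.PR := Nat.mul_le_mul_right _ hi
      _ ≤ i * D.PR + e' := Nat.le_add_right _ _

/-! ## Chains of certificates -/

/-- All proper parts of `C` of weight at least 2 are in the list. -/
def subsIn (C : Ct) (L : List Ct) : Bool :=
  allN (C.1 + 1) fun x => allN (C.2.1 + 1) fun y => allN (C.2.2 + 1) fun z =>
    ceq (x, y, z) C || Nat.blt (x + y + z) 2 || L.any (fun c => ceq c (x, y, z))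

theorem inc_le (c : Ct) (t : Cls) : c.1 ≤ (inc c t).1 ∧ c.2.1 ≤ (inc c t).2.1 ∧
    c.2.2 ≤ (inc c t).2.2 := by
  cases t <;> simp [inc]

theorem cont_le (w : List Lt) : ∀ c : Ct, c.1 ≤ (cont c w).1 ∧ c.2.1 ≤ (cont c w).2.1 ∧
    c.2.2 ≤ (cont c w).2.2 := by
  induction w with
  | nil => intro c; exact ⟨le_rfl, le_rfl, le_rfl⟩
  | cons l w ih =>
    intro c
    obtain ⟨h1, h2, h3⟩ := ih (inc c l.1)
    obtain ⟨k1, k2, k3⟩ := inc_le c l.1
    exact ⟨k1.trans h1, k2.trans h2, k3.trans h3⟩

theorem subsIn_sound {C : Ct} {L : List Ct} (h : subsIn C L = true) {c : Ct} (hs : Sub C c)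
    (hne : c ≠ C) (h2 : 2 ≤ wt c) : c ∈ L := by
  obtain ⟨w, hw⟩ := hs
  have hle := cont_le w c
  rw [hw] at hle
  obtain ⟨x, y, z⟩ := c
  unfold subsIn at h
  simp only [allN_iff] at h
  have h3 := h x (by simp only at hle; omega) y (by simp only at hle; omega) z
    (by simp only at hle; omega)
  rw [Bool.or_eq_true, Bool.or_eq_true, List.any_eq_true] at h3
  rcases h3 with (h3 | h3) | ⟨d, hd, h3⟩
  · exact absurd ((ceq_iff _ _).1 h3) hne
  · have := Nat.le_of_ble_eq_true h3
    unfold wt at h2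
    simp only at h2
    omega
  · rw [← (ceq_iff _ _).1 h3]; exact hd

/-- The order of the certificates is correct. -/
def chainOK (V : Type) : List Ct → List (Cert V) → Bool
  | _, [] => true
  | L, C :: Cs => subsIn C.tg.c L && chainOK V (C.tg.c :: L) Cs

theorem chain_sound (hS : Std F σ a p D) (hPR : D.E ≤ D.PR) (hPR0 : 0 < D.PR)
    (Cs : List (Cert V)) : ∀ L : List Ct, chainOK V L Cs = true →
    (∀ c ∈ L, Valid F σ a p D c) → (∀ C ∈ Cs, certOK D C = true) →
    (∀ C ∈ Cs, ∀ r ∈ C.rows, rowW F σ a r = 0) →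
    ∀ c ∈ (Cs.map fun C => C.tg.c) ++ L, Valid F σ a p D c := by
  induction Cs with
  | nil => intro L _ hL _ _ c hc; exact hL c hc
  | cons C Cs ih =>
    intro L hL hLv hok h0 c hc
    simp only [chainOK, Bool.and_eq_true] at hL
    have h1 : Valid F σ a p D C.tg.c := cert_sound hS hPR hPR0 (hok C List.mem_cons_self)
      (fun c hs hne h2 => hLv c (subsIn_sound hL.1 hs hne h2)) (h0 C List.mem_cons_self)
    have h2 := ih (C.tg.c :: L) hL.2 (by
      intro x hx
      rcases List.mem_cons.1 hx with rfl | hx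
      · exact h1
      · exact hLv x hx) (fun C' hC' => hok C' (List.mem_cons_of_mem _ hC'))
      (fun C' hC' => h0 C' (List.mem_cons_of_mem _ hC')) c
    apply h2
    rw [List.map_cons, List.cons_append, List.mem_cons] at hc
    rw [List.mem_append, List.mem_cons]
    rcases hc with rfl | hc
    · exact Or.inr (Or.inl rfl)
    · rcases List.mem_append.1 hc with h | h
      · exact Or.inl h
      · exact Or.inr (Or.inr h)

end

end Pool.Agent.Work.MP_d7201b_al.L3
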