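import Pool.Agent.Work.MP_d7201b_al_helper73.Tab
import Pool.Agent.Work.MP_d7201b_al_helper73.Fin

/-!
# The top certificates
-/

set_option autoImplicit false
set_option linter.unusedSectionVars false

namespace Pool.Agent.Work.MP_d7201b_al.L3

open L2

universe u

/-! ## Computable part -/

/-- A top certificate: relations between words, as combinations of rows. -/
structure TCert (V : Type) where
  C : Cert V
  rels : List (List (List Lt) × V)

/-- The code of a letter. -/
def code (l : Lt) : ℕ :=
  match l.1 with
  | .z => 0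
  | .m => 2
  | .y => match l.2 with
    | 0 => 1
    | _ => 3

/-- The letters which may occur in the relations. -/
def okL (l : Lt) : Bool :=
  match l.1 with
  | .y => Nat.ble l.2 1
  | _ => Nat.beq l.2 0

/-- The formal relation. -/
def plainP (r : List (List Lt)) : L2.Poly ℕ := r.map fun w => (1, w.map code)

/-- Number of letters equal to `l`. -/
def cntL (l : Lt) (w : List Lt) : ℕ := (w.map (ltEq l)).count true

/-- Hypothesis rows: words of length `k` with `J` equal letters. -/
def hypOK (k J : ℕ) (w : List Lt) : Bool :=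
  Nat.beq w.length k && w.any (fun l => Nat.ble J (cntL l w))

/-- Allowed rows. -/
def rowA (okRow : Row → Bool) (k J : ℕ) : Row → Bool
  | .hyp w => hypOK k J w
  | r => okRow r

section

variable {V : Type} [VOps V] (D : Dat V)

/-- A relation. -/
def relOK (C : Cert V) (r : List (List Lt) × V) : Bool :=
  (r.1.all fun w => !w.isEmpty && ceq (cont (0, 0, 0) w) C.tg.c && w.all okL) &&
    VOps.beq (sumV VOps.zero (r.1.map (word D C.tg))) (VOps.app (fetch C.R C.N) r.2 VOps.zero)

/-- The top certificate without its rows. -/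
def topOK (T : TCert V) : Bool := tgtOK D T.C && T.rels.all (relOK D T.C)

end

/-! ## Soundness -/

section

variable {G : Type u} [Group G] {M : Type u} [AddCommGroup M]

/-- What is needed from `F`. -/
structure Wld (p : ℕ) {V : Type} [VOps V] [VSem.{u} p V] (D : Dat V) (okRow : Row → Bool)
    (F : List G → M) : Prop where
  tors : ∀ m : M, p • m = 0
  std : ∀ (σ : G) (a : Cls → G), Std F σ a p D
  row : ∀ (σ : G) (a : Cls → G) (r : Row), okRow r = true → rowW F σ a r = 0
  rs : RS F

variable {F : List G → M} {p : ℕ} {V : Type} [VOps V] [VSem.{u} p V] {D : Dat V}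
  {okRow : Row → Bool}

theorem mark_eq (σ : G) (a : Cls → G) (l : Lt) (w : List Lt) :
    Mark (ph σ a l) (w.map (ltEq l)) (w.map (ph σ a)) := by
  induction w with
  | nil => exact List.Forall₂.nil
  | cons x w ih =>
    refine List.Forall₂.cons (fun h => ?_) ih
    rw [ltEq_eq h]

theorem hyp_sound {k J : ℕ} (h : WJ F k J) (σ : G) (a : Cls → G) {w : List Lt}
    (hw : hypOK k J w = true) : Ew F σ a w = 0 := by
  unfold hypOK at hw
  rw [Bool.and_eq_true, List.any_eq_true] at hw
  obtain ⟨hk, l, _, hl⟩ := hw
  funext rest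
  exact h (ph σ a l) _ _ (mark_eq σ a l w)
    (by rw [List.length_map]; exact Nat.eq_of_beq_eq_true hk) (Nat.le_of_ble_eq_true hl) rest

theorem rowA_sound {k J : ℕ} (hF : Wld p D okRow F) (h : WJ F k J) (σ : G) (a : Cls → G)
    {r : Row} (hr : rowA okRow k J r = true) : rowW F σ a r = 0 := by
  cases r with
  | hyp w => exact hyp_sound h σ a hr
  | lie w l => exact hF.row σ a _ hr
  | np u ms => exact hF.row σ a _ hr
  | pq e u ws => exact hF.row σ a _ hr
  | cr e w vs => exact hF.row σ a _ hr

theorem ph_code (b : ℕ → G) {l : Lt} (hl : okL l = true) :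
    ph ((b 1)⁻¹ * b 3) (fun t => match t with | .z => b 0 | .y => b 1 | .m => b 2) l =
      b (code l) := by
  obtain ⟨t, e⟩ := l
  cases t
  · have : e = 0 := Nat.eq_of_beq_eq_true hl
    subst this
    simp [ph, code]
  · have : e ≤ 1 := Nat.le_of_ble_eq_true hl
    interval_cases e
    · simp [ph, code]
    · simp [ph, code]
  · have : e = 0 := Nat.eq_of_beq_eq_true hl
    subst this
    simp [ph, code]

theorem rel_sound {C : Cert V} {σ : G} {a : Cls → G} (hE : Evl F σ a p D C.tg C.pre)
    (hr : rwsOK D C = true) (h0 : ∀ r ∈ C.rows, rowW F σ a r = 0) {r : List (List Lt) × V}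
    (h : relOK D C r = true) : (r.1.map (Ew F σ a)).sum = 0 := by
  unfold relOK at h
  rw [Bool.and_eq_true, List.all_eq_true] at h
  obtain ⟨h1, h2⟩ := h
  have key : ∀ w ∈ r.1, Rep F σ a p D C.tg C.pre C.tg.c (word D C.tg w) (Ew F σ a w) := by
    intro w hw
    have h3 := h1 w hw
    simp only [Bool.and_eq_true, Bool.not_eq_true', List.isEmpty_eq_false_iff, ceq_iff] at h3
    have h4 := word_rep hE h3.1.1 (by rw [h3.1.2]; exact Sub.self _)
    rw [h3.1.2] at h4
    exact h4
  have h3 := sumV_rep hE r.1 (word D C.tg) (Ew F σ a) key VOps.zero 0 (Rep.zero _)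
  rw [zero_add] at h3
  obtain ⟨_, h4⟩ := h3
  rw [h4, VSem.beq_eq p _ _ h2]
  unfold gB
  rw [if_pos rfl]
  exact comb_sound hE hr h0 r.2

/-- The relations hold for all letters. -/
theorem top_sound {k J : ℕ} (hF : Wld p D okRow F) (hPR : D.E ≤ D.PR) (hPR0 : 0 < D.PR)
    (Cs : List (Cert V)) (hch : chainOK V [] Cs = true) (hC : ∀ C ∈ Cs, certOK D C = true)
    (hCr : ∀ C ∈ Cs, C.rows.all okRow = true) (T : TCert V)
    (hsub : subsIn T.C.tg.c (Cs.map fun C => C.tg.c) = true) (hT : topOK D T = true)
    (hTr : rwsOK D T.C = true) (hTa : T.C.rows.all (rowA okRow k J) = true) (h : WJ F k J) :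
    ∀ r ∈ T.rels, HoldsP F (plainP r.1) := by
  intro r hr b
  unfold topOK at hT
  rw [Bool.and_eq_true, List.all_eq_true] at hT
  obtain ⟨hT1, hT2⟩ := hT
  set σ : G := (b 1)⁻¹ * b 3 with hσ
  set a : Cls → G := fun t => match t with | .z => b 0 | .y => b 1 | .m => b 2 with ha
  have hS := hF.std σ a
  have hv := chain_sound hS hPR hPR0 Cs [] hch (by simp) hC (by
    intro C hC r hr
    have := hCr C hC
    rw [List.all_eq_true] at this
    exact hF.row σ a r (this r hr))
  rw [List.append_nil] at hv
  obtain ⟨h2, ht⟩ := tgt_sound (F := F) (σ := σ) (a := a) hT1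
  have hE : Evl F σ a p D T.C.tg T.C.pre := evl_of hS h2
    (fun c hs hne h2 => hv c (subsIn_sound hsub hs hne h2)) ht
  rw [List.all_eq_true] at hTa
  have h3 := rel_sound hE hTr (fun r hr => rowA_sound hF h σ a (hTa r hr)) (hT2 r hr)
  rw [← h3]
  unfold plainP ev
  rw [List.map_map]
  congr 1
  apply List.map_congr_left
  intro w hw
  have h4 := hT2 r hr
  unfold relOK at h4
  rw [Bool.and_eq_true, List.all_eq_true] at h4
  have h5 := h4.1 w hw
  simp only [Bool.and_eq_true, List.all_eq_true] at h5
  show (1 : ℤ) • Wd F ((w.map code).map b) = Wd F (w.map (ph σ a))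
  rw [one_smul, List.map_map]
  congr 1
  apply List.map_congr_left
  intro l hl
  exact (ph_code b (h5.2 l hl)).symm

/-- The step. -/
theorem step_WJ {k J : ℕ} (hF : Wld p D okRow F) (hPR : D.E ≤ D.PR) (hPR0 : 0 < D.PR)
    (Cs : List (Cert V)) (hch : chainOK V [] Cs = true) (hC : ∀ C ∈ Cs, certOK D C = true)
    (hCr : ∀ C ∈ Cs, C.rows.all okRow = true) (T : TCert V)
    (hsub : subsIn T.C.tg.c (Cs.map fun C => C.tg.c) = true) (hT : topOK D T = true)
    (hTr : rwsOK D T.C = true) (hTa : T.C.rows.all (rowA okRow k (J + 1)) = true)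
    (cs : List (List (ℤ × ℕ × List ℕ)))
    (hcs : patsOK p (T.rels.map fun r => plainP r.1) (pats k J) cs = true)
    (h : WJ F k (J + 1)) : WJ F k J := by
  have h1 := top_sound hF hPR hPR0 Cs hch hC hCr T hsub hT hTr hTa h
  apply WJ_of_pats
  apply patsOK_sound hF.tors hF.rs.lie (T.rels.map fun r => plainP r.1) _ _ cs hcs
  intro Q hQ
  rw [List.mem_map] at hQ
  obtain ⟨r, hr, rfl⟩ := hQ
  exact h1 r hr

/-- Longer tails. -/
theorem RS.tail (h : RS F) (τ : List G) : RS (fun w => F (w ++ τ)) := by
  have key : ∀ P : L2.Poly G, ev (fun w => F (w ++ τ)) P =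
      ev F (P.map fun t => (t.1, t.2 ++ τ)) := by
    intro P
    simp only [ev, List.map_map]
    rfl
  constructor
  · intro l hl z rest
    rw [key]
    have := h.lie l hl z (rest ++ τ)
    rw [← this]
    congr 1
    simp only [lieRel, List.map_cons, List.map_map, List.append_assoc, List.cons_append]
    congr 1
    apply List.map_congr_left
    intro t _
    simp only [Function.comp_apply, List.cons_append, List.append_assoc]
  · intro g u vs rest
    rw [key]
    have := h.pq g u vs (rest ++ τ)
    rw [← this]
    congr 1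
    simp only [pRel, List.map_flatMap, List.map_map]
    congr 1
    funext j
    apply List.map_congr_left
    intro w _
    simp
  · intro u ms rest
    rw [key]
    have := h.np u ms (rest ++ τ)
    rw [← this]
    congr 1
    simp only [npRel, List.map_flatMap, List.map_map]
    rfl

/-- From words of length `k + 1` to words of length `k` with a tail. -/
theorem WJ_tail {k J : ℕ} (h : WJ F (k + 1) J) (d : G) (t : List G) :
    WJ (fun w => F (w ++ d :: t)) k J := by
  intro g b w hm hw hj rest
  show F ((w ++ rest) ++ d :: t) = 0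
  cases rest with
  | nil =>
    rw [List.append_nil]
    have : w ++ d :: t = (w ++ [d]) ++ t := by simp
    rw [this]
    refine h g (b ++ [false]) (w ++ [d]) ?_ (by simp [hw]) (by simp; omega) t
    exact List.rel_append hm (List.Forall₂.cons (by simp) List.Forall₂.nil)
  | cons e r =>
    have : (w ++ e :: r) ++ d :: t = (w ++ [e]) ++ (r ++ d :: t) := by simp
    rw [this]
    refine h g (b ++ [false]) (w ++ [e]) ?_ (by simp [hw]) (by simp; omega) _
    exact List.rel_append hm (List.Forall₂.cons (by simp) List.Forall₂.nil)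

theorem mark_replicate (g : G) (k : ℕ) : ∀ w : List G, k ≤ w.length →
    Mark g (List.replicate k false) (w.take k) := by
  induction k with
  | zero => intro w _; exact List.Forall₂.nil
  | succ k ih =>
    intro w hw
    cases w with
    | nil => simp at hw
    | cons y w =>
      rw [List.take_succ_cons, List.replicate_succ]
      exact List.Forall₂.cons (by simp) (ih w (by simpa using hw))

/-- All words vanish. -/
theorem WJ_all {k : ℕ} (h : WJ F (k + 1) 1) (w : List G) (hw : k + 1 ≤ w.length) : F w = 0 := by
  have e : w = w.take (k + 1) ++ w.drop (k + 1) := (List.take_append_drop _ _).symm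
  rw [e]
  cases w with
  | nil => simp at hw
  | cons x w =>
    refine h x (true :: List.replicate k false) _ ?_ ?_ ?_ _
    · rw [List.take_succ_cons]
      refine List.Forall₂.cons (fun _ => rfl) ?_
      exact mark_replicate x k w (by simpa using hw)
    · rw [List.length_take]; omega
    · simp

end

end Pool.Agent.Work.MP_d7201b_al.L3
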