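import Pool.Agent.Work.MP_d7201b_al_helper73.Top

/-!
# The systems `Sys3`, `Sys2` give what the checker needs
-/

set_option autoImplicit false
set_option linter.unusedSectionVars false

namespace Pool.Agent.Work.MP_d7201b_al.L3

open L2

universe u

/-- Coefficients of `σ^e` for `p = 3`. -/
def ex3 (e : ℕ) : V3 :=
  ⟨Nat.land (Nat.shiftRight 0x530ca8421 (Nat.mul 4 e)) 15,
    Nat.land (Nat.shiftRight 0x889110000 (Nat.mul 4 e)) 15⟩

/-- Coefficients of `σ^e` for `p = 2`. -/
def ex2 (e : ℕ) : ℕ := Nat.land (Nat.shiftRight 0x7421 (Nat.mul 4 e)) 15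

/-- Allowed rows for `p = 3`. -/
def okRow3 : Row → Bool
  | .lie w _ => !w.isEmpty
  | .np _ _ => true
  | .pq _ _ ws => !ws.isEmpty && ws.all (fun w => !w.isEmpty)
  | .cr _ _ _ => false
  | .hyp _ => false

/-- Allowed rows for `p = 2`. -/
def okRow2 : Row → Bool
  | .lie w _ => !w.isEmpty
  | .np _ _ => true
  | .cr _ w vs => !w.isEmpty && !vs.isEmpty
  | .pq _ _ _ => false
  | .hyp _ => false

section

variable {W : Type u} [AddCommGroup W]

/-- Periodicity for `p = 3`. -/
theorem per3 (h3 : ∀ w : W, 3 • w = 0) (f : ℕ → W)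
    (h : ∀ e, f (e + 4) - 4 • f (e + 3) + 6 • f (e + 2) - 4 • f (e + 1) + f e = 0) (e : ℕ) :
    f e = (ex3 (e % 9)).sm f := by
  have h4 : ∀ e, f (e + 4) = f (e + 3) + f (e + 1) - f e := by
    intro e
    have k1 := h e
    have k2 : (4 : ℕ) • f (e + 3) = f (e + 3) := by
      rw [show (4 : ℕ) = 3 + 1 from rfl, add_smul, h3, one_smul, zero_add]
    have k3 : (4 : ℕ) • f (e + 1) = f (e + 1) := by
      rw [show (4 : ℕ) = 3 + 1 from rfl, add_smul, h3, one_smul, zero_add]
    have k4 : (6 : ℕ) • f (e + 2) = 0 := by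
      rw [show (6 : ℕ) = 3 + 3 from rfl, add_smul, h3, zero_add]
    rw [k2, k3, k4, add_zero] at k1
    rw [← sub_eq_zero, ← k1]
    abel
  have t3 : ∀ w : W, w + w + w = 0 := by
    intro w
    rw [← h3 w]
    abel
  have e2 : ∀ w : W, w + w = -w := fun w => eq_neg_of_add_eq_zero_left (t3 w)
  have v5 : ∀ e, f (e + 5) = f (e + 3) + f (e + 2) - f e := by
    intro e
    rw [show e + 5 = (e + 1) + 4 by ring, h4 (e + 1), show e + 1 + 3 = e + 4 by ring, h4 e,
      show e + 1 + 1 = e + 2 by ring]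
    abel
  have v6 : ∀ e, f (e + 6) = -f (e + 3) - f e := by
    intro e
    rw [show e + 6 = (e + 2) + 4 by ring, h4 (e + 2), show e + 2 + 3 = e + 5 by ring, v5 e,
      show e + 2 + 1 = e + 3 by ring, ← e2 (f (e + 3))]
    abel
  have v7 : ∀ e, f (e + 7) = -f (e + 3) + f (e + 1) + f e := by
    intro e
    rw [show e + 7 = (e + 3) + 4 by ring, h4 (e + 3), show e + 3 + 3 = e + 6 by ring, v6 e,
      show e + 3 + 1 = e + 4 by ring, h4 e]
    have : f (e + 1) - f e - f e = f (e + 1) + f e := by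
      rw [sub_sub, e2, sub_neg_eq_add]
    rw [add_assoc, ← this]
    abel
  have v8 : ∀ e, f (e + 8) = -f (e + 3) + f (e + 2) + f e := by
    intro e
    rw [show e + 8 = (e + 4) + 4 by ring, h4 (e + 4), show e + 4 + 3 = e + 7 by ring, v7 e,
      show e + 4 + 1 = e + 5 by ring, v5 e, h4 e]
    abel
  have v9 : ∀ e, f (e + 9) = f e := by
    intro e
    rw [show e + 9 = (e + 5) + 4 by ring, h4 (e + 5), show e + 5 + 3 = e + 8 by ring, v8 e,
      show e + 5 + 1 = e + 6 by ring, v6 e, v5 e]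
    have := t3 (f (e + 3))
    have k : -f (e + 3) + f (e + 2) + f e + (-f (e + 3) - f e) - (f (e + 3) + f (e + 2) - f e) =
        f e - (f (e + 3) + f (e + 3) + f (e + 3)) := by abel
    rw [k, this, sub_zero]
  have vm : ∀ q r, f (9 * q + r) = f r := by
    intro q
    induction q with
    | zero => intro r; rw [Nat.mul_zero, Nat.zero_add]
    | succ q ih => intro r; rw [show 9 * (q + 1) + r = (9 * q + r) + 9 by ring, v9, ih]
  have hm : f e = f (e % 9) := by
    conv_lhs => rw [← Nat.div_add_mod e 9]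
    exact vm _ _
  rw [hm]
  have hlt : e % 9 < 9 := Nat.mod_lt _ (by norm_num)
  generalize e % 9 = r at hlt
  have key : ∀ a b : ℕ, a < 2 ^ 4 → b < 2 ^ 4 → (V3.sm ⟨a, b⟩ f : W) =
      ((if a.testBit 0 then f 0 else 0) + (if a.testBit 1 then f 1 else 0) +
      (if a.testBit 2 then f 2 else 0) + (if a.testBit 3 then f 3 else 0)) -
      ((if b.testBit 0 then f 0 else 0) + (if b.testBit 1 then f 1 else 0) +
      (if b.testBit 2 then f 2 else 0) + (if b.testBit 3 then f 3 else 0)) := by
    intro a b ha hb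
    unfold V3.sm
    simp only
    rw [bsum_eq ha, bsum_eq hb]
    simp only [Finset.sum_range_succ, Finset.sum_range_zero, zero_add]
  have a4 := h4 0
  have a5 := v5 0
  have a6 := v6 0
  have a7 := v7 0
  have a8 := v8 0
  simp only [zero_add] at a4 a5 a6 a7 a8
  interval_cases r
  · rw [show ex3 0 = ⟨1, 0⟩ from rfl, key 1 0 (by norm_num) (by norm_num)]
    simp [Nat.testBit]
  · rw [show ex3 1 = ⟨2, 0⟩ from rfl, key 2 0 (by norm_num) (by norm_num)]
    simp [Nat.testBit]
  · rw [show ex3 2 = ⟨4, 0⟩ from rfl, key 4 0 (by norm_num) (by norm_num)]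
    simp [Nat.testBit]
  · rw [show ex3 3 = ⟨8, 0⟩ from rfl, key 8 0 (by norm_num) (by norm_num)]
    simp [Nat.testBit]
  · rw [show ex3 4 = ⟨10, 1⟩ from rfl, key 10 1 (by norm_num) (by norm_num), a4]
    simp [Nat.testBit]; abel
  · rw [show ex3 5 = ⟨12, 1⟩ from rfl, key 12 1 (by norm_num) (by norm_num), a5]
    simp [Nat.testBit]; abel
  · rw [show ex3 6 = ⟨0, 9⟩ from rfl, key 0 9 (by norm_num) (by norm_num), a6]
    simp [Nat.testBit]; abel
  · rw [show ex3 7 = ⟨3, 8⟩ from rfl, key 3 8 (by norm_num) (by norm_num), a7]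
    simp [Nat.testBit]; abel
  · rw [show ex3 8 = ⟨5, 8⟩ from rfl, key 5 8 (by norm_num) (by norm_num), a8]
    simp [Nat.testBit]; abel

/-- Periodicity for `p = 2`. -/
theorem per2 (h2 : ∀ w : W, 2 • w = 0) (f : ℕ → W)
    (h : ∀ e, f (e + 3) + f (e + 2) + f (e + 1) + f e = 0) (e : ℕ) :
    f e = bsum (ex2 (e % 4)) f := by
  have n2 : ∀ w : W, -w = w := by
    intro w
    rw [neg_eq_iff_add_eq_zero, ← two_nsmul]
    exact h2 w
  have h3 : ∀ e, f (e + 3) = f (e + 2) + f (e + 1) + f e := by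
    intro e
    have := h e
    rw [add_assoc, add_assoc] at this
    rw [eq_neg_of_add_eq_zero_left this, n2, add_assoc]
  have v4 : ∀ e, f (e + 4) = f e := by
    intro e
    rw [show e + 4 = (e + 1) + 3 by ring, h3 (e + 1), show e + 1 + 2 = e + 3 by ring, h3 e,
      show e + 1 + 1 = e + 2 by ring]
    have k : f (e + 2) + f (e + 1) + f e + f (e + 2) + f (e + 1) =
        f e + (f (e + 2) + f (e + 2)) + (f (e + 1) + f (e + 1)) := by abel
    rw [k, ← two_nsmul, ← two_nsmul, h2, h2, add_zero, add_zero]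
  have vm : ∀ q r, f (4 * q + r) = f r := by
    intro q
    induction q with
    | zero => intro r; rw [Nat.mul_zero, Nat.zero_add]
    | succ q ih => intro r; rw [show 4 * (q + 1) + r = (4 * q + r) + 4 by ring, v4, ih]
  have hm : f e = f (e % 4) := by
    conv_lhs => rw [← Nat.div_add_mod e 4]
    exact vm _ _
  rw [hm]
  have hlt : e % 4 < 4 := Nat.mod_lt _ (by norm_num)
  generalize e % 4 = r at hlt
  have key : ∀ a : ℕ, a < 2 ^ 4 → (bsum a f : W) =
      ((if a.testBit 0 then f 0 else 0) + (if a.testBit 1 then f 1 else 0) +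
      (if a.testBit 2 then f 2 else 0) + (if a.testBit 3 then f 3 else 0)) := by
    intro a ha
    rw [bsum_eq ha]
    simp only [Finset.sum_range_succ, Finset.sum_range_zero, zero_add]
  have a3 := h3 0
  simp only [zero_add] at a3
  interval_cases r
  · rw [show ex2 0 = 1 from rfl, key 1 (by norm_num)]
    simp [Nat.testBit]
  · rw [show ex2 1 = 2 from rfl, key 2 (by norm_num)]
    simp [Nat.testBit]
  · rw [show ex2 2 = 4 from rfl, key 4 (by norm_num)]
    simp [Nat.testBit]
  · rw [show ex2 3 = 7 from rfl, key 7 (by norm_num), a3]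
    simp [Nat.testBit]; abel

end

section

variable {G : Type u} [Group G] {M : Type u} [AddCommGroup M] {F : List G → M}

theorem Ew_snoc (σ : G) (a : Cls → G) (w : List Lt) (t : Cls) (e : ℕ) :
    Ew F σ a (w ++ [(t, e)]) = Wd F (w.map (ph σ a) ++ [a t * σ ^ e]) := by
  unfold Ew
  rw [List.map_append]
  rfl

/-- `p = 3` -/
theorem wld3 (hs : Sys3 F) (hr : RS F) (h3 : ∀ m : M, 3 • m = 0) (D : Dat V3) (hE : D.E = 4)
    (hPR : D.PR = 9) (hex : D.ex = ex3)
    (h1 : ∀ t, D.bw (inc (0, 0, 0) t) = [[(t, 0)], [(t, 1)], [(t, 2)], [(t, 3)]]) :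
    Wld 3 D okRow3 F := by
  have h3' : ∀ w : List G → M, 3 • w = 0 := fun w => by funext r; exact h3 (w r)
  refine ⟨h3, fun σ a => ⟨h3', ?_, ?_, ?_, ?_⟩, ?_, hr⟩
  · intro e
    rw [hPR, hex]
    have hlt : e % 9 < 9 := Nat.mod_lt _ (by norm_num)
    generalize e % 9 = r at hlt
    show (ex3 r).ok
    rw [V3.ok_iff]
    interval_cases r <;> rfl
  · intro e
    rw [hPR, hex, hE]
    have hlt : e % 9 < 9 := Nat.mod_lt _ (by norm_num)
    generalize e % 9 = r at hlt
    interval_cases r <;> rfl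
  · intro w t e
    rw [hPR, hex]
    refine per3 h3' (fun i => Ew F σ a (w ++ [(t, i)])) ?_ e
    intro e
    have := hs.per (w.map (ph σ a)) (a t * σ ^ e) σ
    simp only [Ew_snoc]
    rw [← this]
    simp only [mul_assoc, ← pow_add, ← pow_succ]
  · intro t i hi
    rw [hE] at hi
    unfold nthW
    rw [h1]
    interval_cases i <;> rfl
  · intro σ a r hr
    cases r with
    | lie w l =>
      have hw : w ≠ [] := by simpa [okRow3] using hr
      have := hs.lie (w.map (ph σ a)) (by simpa using hw) (ph σ a l)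
      show Ew F σ a (w ++ [l]) + adR (w.reverse.map (ph σ a)) (Ew F σ a [l]) = 0
      rw [← Br_Ew, List.map_reverse]
      exact this
    | np u ms => exact hs.np (ph σ a u) (ms.map (ph σ a))
    | pq e u ws =>
      simp only [okRow3, Bool.and_eq_true, Bool.not_eq_true', List.isEmpty_eq_false_iff,
        List.all_eq_true] at hr
      obtain ⟨hne, hw⟩ := hr
      have h := hs.pq (σ ^ e) (ph σ a u) (ws.map fun w => w.map (ph σ a)) (by
        intro w hw'
        rw [List.mem_map] at hw'
        obtain ⟨w', hw', rfl⟩ := hw'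
        simpa using hw w' hw')
      have e0 : mo (σ ^ e) 0 0 (ws.map fun w => w.map (ph σ a)) (Wd F [ph σ a u]) = 0 := by
        cases ws with
        | nil => exact absurd rfl hne
        | cons w ws => rfl
      have k2 : ∀ w : List G → M, (4 : ℕ) • w = w := by
        intro w
        rw [show (4 : ℕ) = 3 + 1 from rfl, add_smul, h3', one_smul, zero_add]
      have k4 : ∀ w : List G → M, (6 : ℕ) • w = 0 := by
        intro w
        rw [show (6 : ℕ) = 3 + 3 from rfl, add_smul, h3', zero_add]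
      rw [e0, k2, k2, k4, add_zero, add_zero] at h
      have eu : ∀ n : ℕ, Ew F σ a [(u.1, u.2 + e * n)] = Wd F [ph σ a u * (σ ^ e) ^ n] := by
        intro n
        show Wd F [a u.1 * σ ^ (u.2 + e * n)] = _
        rw [pow_add, pow_mul, ← mul_assoc]
        rfl
      have eu1 : Ew F σ a [(u.1, u.2 + e)] = Wd F [ph σ a u * σ ^ e] := by
        show Wd F [a u.1 * σ ^ (u.2 + e)] = _
        rw [pow_add, ← mul_assoc]
        rfl
      show mo (σ ^ e) 0 4 (ws.map fun w => w.map (ph σ a)) (Ew F σ a [(u.1, u.2 + e * 4)]) +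
        -(mo (σ ^ e) 0 3 (ws.map fun w => w.map (ph σ a)) (Ew F σ a [(u.1, u.2 + e * 3)]) +
          mo (σ ^ e) 0 1 (ws.map fun w => w.map (ph σ a)) (Ew F σ a [(u.1, u.2 + e)])) = 0
      rw [eu, eu, eu1, ← h]
      abel
    | cr e w vs => simp [okRow3] at hr
    | hyp w => simp [okRow3] at hr

/-- `p = 2` -/
theorem wld2 (hs : Sys2 F) (hr : RS F) (h2 : ∀ m : M, 2 • m = 0) (D : Dat ℕ) (hE : D.E = 3)
    (hPR : D.PR = 4) (hex : D.ex = ex2)
    (h1 : ∀ t, D.bw (inc (0, 0, 0) t) = [[(t, 0)], [(t, 1)], [(t, 2)]]) :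
    Wld 2 D okRow2 F := by
  have h2' : ∀ w : List G → M, 2 • w = 0 := fun w => by funext r; exact h2 (w r)
  refine ⟨h2, fun σ a => ⟨h2', fun _ => trivial, ?_, ?_, ?_⟩, ?_, hr⟩
  · intro e
    rw [hPR, hex, hE]
    have hlt : e % 4 < 4 := Nat.mod_lt _ (by norm_num)
    generalize e % 4 = r at hlt
    interval_cases r <;> rfl
  · intro w t e
    rw [hPR, hex]
    refine per2 h2' (fun i => Ew F σ a (w ++ [(t, i)])) ?_ e
    intro e
    have := hs.per (w.map (ph σ a)) (a t * σ ^ e) σ
    simp only [Ew_snoc]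
    rw [← this]
    simp only [mul_assoc, ← pow_add, ← pow_succ]
  · intro t i hi
    rw [hE] at hi
    unfold nthW
    rw [h1]
    interval_cases i <;> rfl
  · intro σ a r hr
    cases r with
    | lie w l =>
      have hw : w ≠ [] := by simpa [okRow2] using hr
      have := hs.lie (w.map (ph σ a)) (by simpa using hw) (ph σ a l)
      show Ew F σ a (w ++ [l]) + adR (w.reverse.map (ph σ a)) (Ew F σ a [l]) = 0
      rw [← Br_Ew, List.map_reverse]
      exact this
    | np u ms => exact hs.np (ph σ a u) (ms.map (ph σ a))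
    | pq e u ws => simp [okRow2] at hr
    | cr e w vs =>
      simp only [okRow2, Bool.and_eq_true, Bool.not_eq_true', List.isEmpty_eq_false_iff] at hr
      obtain ⟨hw, hne⟩ := hr
      have h := hs.cr (σ ^ e) (w.map (ph σ a)) (vs.map (ph σ a)) (by simpa using hw)
      have e1 : ((vs.map (ph σ a)).map fun v => [v]) =
          (vs.map fun v => [v]).map fun w => w.map (ph σ a) := by
        rw [List.map_map, List.map_map]
        rfl
      rw [e1] at h
      have e0 : mo (σ ^ e) 0 0 ((vs.map fun v => [v]).map fun w => w.map (ph σ a))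
          (Wd F (w.map (ph σ a))) = 0 := by
        cases vs with
        | nil => exact absurd rfl hne
        | cons w ws => rfl
      rw [e0, add_zero] at h
      have eu : ∀ n : ℕ, Ew F σ a (shw (e * n) w) =
          Wd F ((w.map (ph σ a)).map (· * (σ ^ e) ^ n)) := by
        intro n
        unfold Ew
        rw [ph_shw, pow_mul]
      have eu1 : Ew F σ a (shw e w) = Wd F ((w.map (ph σ a)).map (· * σ ^ e)) := by
        unfold Ew
        rw [ph_shw]
      show mo (σ ^ e) 0 3 ((vs.map fun v => [v]).map fun w => w.map (ph σ a))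
          (Ew F σ a (shw (e * 3) w)) +
        (mo (σ ^ e) 0 2 ((vs.map fun v => [v]).map fun w => w.map (ph σ a))
          (Ew F σ a (shw (e * 2) w)) +
        mo (σ ^ e) 0 1 ((vs.map fun v => [v]).map fun w => w.map (ph σ a))
          (Ew F σ a (shw e w))) = 0
      rw [eu, eu, eu1, ← h]
      abel
    | hyp w => simp [okRow2] at hr

end

end Pool.Agent.Work.MP_d7201b_al.L3
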